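import Pool.Agent.Helper7.AG.FP

/-!
# Project BT (MP_2ec7a7_al), piece BT-CENT: centralizers in free products
-/

namespace Pool.Agent.Helper38.BT

open Pool.Agent.Helper7.AG (FreeProd Red val pv PNt nt sv)
open Pool.Agent.Helper7.AG (val_nil val_cons val_append red_nil red_single red_cons_cons red_append
  winv sinv val_winv red_winv head_winv last_winv)

section
variable {A B Γ : Type} [Group A] [Group B] [Group Γ] {i : A →* Γ} {j : B →* Γ}

/-- every word has the value of a reduced word which is not longer -/
private theorem CentP_red (l : List (A ⊕ B)) :
    ∃ l', Red l' ∧ val i j l' = val i j l ∧ l'.length ≤ l.length := by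
  induction l with
  | nil => exact ⟨[], red_nil, rfl, le_rfl⟩
  | cons s l ih =>
    obtain ⟨l', h1, h2, h3⟩ := ih
    by_cases hs : nt s
    · cases l' with
      | nil =>
        refine ⟨[s], red_single hs, ?_, by simp⟩
        rw [val_cons, val_cons, h2]
      | cons s' l'' =>
        have htail : Red l'' := by
          cases l'' with
          | nil => exact red_nil
          | cons t l3 => exact (red_cons_cons.1 h1).2.2
        by_cases hside : s.isLeft = s'.isLeft
        · obtain ⟨t, ht1, ht2⟩ : ∃ t : A ⊕ B, sv i j t = sv i j s * sv i j s' ∧
              t.isLeft = s'.isLeft := by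
            rcases s with a | b <;> rcases s' with a' | b'
            · exact ⟨.inl (a * a'), map_mul i a a', rfl⟩
            · simp at hside
            · simp at hside
            · exact ⟨.inr (b * b'), map_mul j b b', rfl⟩
          have hval : val i j (t :: l'') = val i j (s :: l) := by
            rw [val_cons, val_cons, ht1, ← h2, val_cons, mul_assoc]
          by_cases ht : nt t
          · refine ⟨t :: l'', ?_, hval, ?_⟩
            · cases l'' with
              | nil => exact red_single ht
              | cons t' l3 =>
                have h4 := red_cons_cons.1 h1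
                exact red_cons_cons.2 ⟨ht, by rw [ht2]; exact h4.2.1, h4.2.2⟩
            · simp only [List.length_cons] at h3 ⊢
              omega
          · have ht3 : sv i j t = 1 := by
              rcases t with a | b
              · change i a = 1
                have : a = 1 := not_not.1 ht
                rw [this, map_one]
              · change j b = 1
                have : b = 1 := not_not.1 ht
                rw [this, map_one]
            refine ⟨l'', htail, ?_, ?_⟩
            · rw [← hval, val_cons, ht3, one_mul]
            · simp only [List.length_cons] at h3 ⊢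
              omega
        · refine ⟨s :: s' :: l'', red_cons_cons.2 ⟨hs, hside, h1⟩, ?_, ?_⟩
          · rw [val_cons, h2, ← val_cons]
          · simp only [List.length_cons] at h3 ⊢
            omega
    · have hs3 : sv i j s = 1 := by
        rcases s with a | b
        · change i a = 1
          have : a = 1 := not_not.1 hs
          rw [this, map_one]
        · change j b = 1
          have : b = 1 := not_not.1 hs
          rw [this, map_one]
      refine ⟨l', h1, ?_, ?_⟩
      · rw [val_cons, hs3, one_mul, h2]
      · simp only [List.length_cons]
        omega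

private theorem CentP_uniq_le (h : FreeProd i j) {l l' : List (A ⊕ B)} (hl : Red l)
    (he : val i j l = val i j l') : l.length ≤ l'.length := by
  obtain ⟨l'', h1, h2, h3⟩ := CentP_red (i := i) (j := j) l'
  have := h.uniq l l'' hl h1 (he.trans h2.symm)
  rw [this]
  exact h3

/-- the word of the power -/
private def CentP_w (a : A) (b : B) : ℕ → List (A ⊕ B)
  | 0 => []
  | K + 1 => .inl a :: .inr b :: CentP_w a b K

private theorem CentP_val (a : A) (b : B) (K : ℕ) :
    val i j (CentP_w a b K) = (i a * j b) ^ K := by
  induction K with
  | zero => rw [CentP_w, val_nil, pow_zero]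
  | succ K ih =>
    rw [CentP_w, val_cons, val_cons, ih, pow_succ', ← mul_assoc]
    rfl

private theorem CentP_wred {a : A} {b : B} (ha : a ≠ 1) (hb : b ≠ 1) (K : ℕ) :
    Red (CentP_w a b K) := by
  induction K with
  | zero => exact red_nil
  | succ K ih =>
    have h1 : Red (Sum.inr b :: CentP_w a b K) := by
      cases K with
      | zero => exact red_single hb
      | succ K => exact red_cons_cons.2 ⟨hb, by simp, ih⟩
    exact red_cons_cons.2 ⟨ha, by simp, h1⟩

omit [Group A] [Group B] in
private theorem CentP_snoc (a : A) (b : B) (K : ℕ) :
    CentP_w a b (K + 1) = CentP_w a b K ++ [.inl a, .inr b] := by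
  induction K with
  | zero => rfl
  | succ K ih =>
    conv_lhs => rw [CentP_w, ih]
    rw [CentP_w]
    rfl

omit [Group A] [Group B] in
private theorem CentP_len (a : A) (b : B) (K : ℕ) : (CentP_w a b K).length = 2 * K := by
  induction K with
  | zero => rfl
  | succ K ih =>
    rw [CentP_w, List.length_cons, List.length_cons, ih]
    omega

private theorem CentP_core (h : FreeProd i j) {a : A} {b : B} (ha : a ≠ 1) (hb : b ≠ 1) {k : ℕ}
    {l : List (A ⊕ B)} (hl : Red l) {a' : A} (hh : l.head? = some (.inl a')) {b' : B}
    (hla : l.getLast? = some (.inr b'))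
    (hx : val i j l * (i a * j b) ^ (k + 1) = (i a * j b) ^ (k + 1) * val i j l) :
    ∃ l', l = .inl a :: .inr b :: l' := by
  have e : CentP_w a b (k + 1) ++ l = l ++ CentP_w a b (k + 1) := by
    refine h.uniq _ _ ?_ ?_ ?_
    · refine red_append.2 ⟨CentP_wred ha hb _, hl, ?_⟩
      intro s hs s' hs'
      rw [CentP_snoc] at hs
      rw [hh] at hs'
      simp only [Option.mem_def, Option.some.injEq] at hs'
      have h2 : s = .inr b := by simpa [eq_comm] using hs
      rw [← hs', h2]
      simp
    · refine red_append.2 ⟨hl, CentP_wred ha hb _, ?_⟩
      intro s hs s' hs'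
      rw [hla] at hs
      rw [CentP_w] at hs'
      simp only [Option.mem_def, Option.some.injEq, List.head?_cons] at hs hs'
      rw [← hs, ← hs']
      simp
    · rw [val_append, val_append, CentP_val, hx]
  match l, hh, hla, e with
  | [], hh, _, _ => simp at hh
  | [s], hh, hla, _ =>
    simp only [List.head?_cons, Option.some.injEq] at hh
    subst hh
    simp at hla
  | s :: s' :: l', _, _, e =>
    rw [CentP_w] at e
    simp only [List.cons_append, List.cons.injEq] at e
    exact ⟨l', by rw [e.1, e.2.1]⟩

private theorem CentP_main (h : FreeProd i j) {a : A} {b : B} (ha : a ≠ 1) (hb : b ≠ 1) (k : ℕ) :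
    ∀ (n : ℕ) (l : List (A ⊕ B)), Red l → l.length = n →
      val i j l * (i a * j b) ^ (k + 1) = (i a * j b) ^ (k + 1) * val i j l →
      ∃ m : ℤ, val i j l = (i a * j b) ^ m := by
  intro n
  induction n using Nat.strong_induction_on with
  | _ n ih =>
    -- the case of a word from `A` to `B`
    have core : ∀ l : List (A ⊕ B), Red l → l.length = n → ∀ a' : A, l.head? = some (.inl a') →
        ∀ b' : B, l.getLast? = some (.inr b') →
        val i j l * (i a * j b) ^ (k + 1) = (i a * j b) ^ (k + 1) * val i j l →
        ∃ m : ℤ, val i j l = (i a * j b) ^ m := by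
      intro l hl hn a' hh b' hla hx
      obtain ⟨l', rfl⟩ := CentP_core h ha hb hl hh hla hx
      have hl' : Red l' := (red_append (l := [.inl a, .inr b]) (l' := l')).1 hl |>.2.1
      have hv : val i j (.inl a :: .inr b :: l') = (i a * j b) * val i j l' := by
        rw [val_cons, val_cons, ← mul_assoc]
        rfl
      rw [hv] at hx
      have hx' : val i j l' * (i a * j b) ^ (k + 1) = (i a * j b) ^ (k + 1) * val i j l' := by
        have h2 : (i a * j b) * (i a * j b) ^ (k + 1) = (i a * j b) ^ (k + 1) * (i a * j b) :=
          (pow_succ' _ _).symm.trans (pow_succ _ _)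
        have h3 : (i a * j b) * (val i j l' * (i a * j b) ^ (k + 1)) =
            (i a * j b) * ((i a * j b) ^ (k + 1) * val i j l') := by
          rw [← mul_assoc (i a * j b) (val i j l'), hx,
            ← mul_assoc ((i a * j b) ^ (k + 1)) (i a * j b), ← h2, mul_assoc]
        exact mul_left_cancel h3
      obtain ⟨m, hm⟩ := ih l'.length (by
        rw [← hn]
        simp only [List.length_cons]
        omega) l' hl' rfl hx'
      exact ⟨1 + m, by rw [hv, hm, zpow_add, zpow_one]⟩
    intro l hl hn hx
    rcases l with _ | ⟨s0, l1⟩
    · exact ⟨0, by rw [val_nil, zpow_zero]⟩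
    obtain ⟨l0, s, hls⟩ : ∃ l0 s, s0 :: l1 = l0 ++ [s] :=
      ⟨(s0 :: l1).dropLast, (s0 :: l1).getLast (by simp), (List.dropLast_append_getLast _).symm⟩
    have hlast : (s0 :: l1).getLast? = some s := by rw [hls]; simp
    have hlen : l0.length + 1 = n := by
      rw [← hn, hls]
      simp
    have hlen1 : l1.length + 1 = n := by
      rw [← hn]
      simp
    rcases s with a1 | b1
    · rcases s0 with a0 | b0
      · -- from `A` to `A`
        exfalso
        have hr : Red (CentP_w a b (k + 1) ++ (.inl a0 :: l1)) := by
          refine red_append.2 ⟨CentP_wred ha hb _, hl, ?_⟩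
          intro s hs s' hs'
          rw [CentP_snoc] at hs
          simp only [Option.mem_def, Option.some.injEq, List.head?_cons] at hs'
          have h2 : s = .inr b := by simpa [eq_comm] using hs
          rw [← hs', h2]
          simp
        have he : val i j (CentP_w a b (k + 1) ++ (.inl a0 :: l1)) =
            val i j (l0 ++ (.inl (a1 * a) :: .inr b :: CentP_w a b k)) := by
          rw [val_append, CentP_val, ← hx, hls, val_append, val_append, val_cons, val_cons,
            val_cons, CentP_val, val_nil, mul_one, pow_succ', mul_assoc]
          congr 1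
          change i a1 * (i a * j b * _) = i (a1 * a) * (j b * _)
          rw [map_mul]
          simp only [mul_assoc]
        have h3 := CentP_uniq_le h hr he
        simp only [List.length_append, List.length_cons, CentP_len] at h3
        omega
      · -- from `B` to `A`
        have h1 : (winv (.inr b0 :: l1)).head? = some (.inl a1⁻¹) := by
          rw [head_winv, hlast]
          rfl
        have h2 : (winv (.inr b0 :: l1)).getLast? = some (.inr b0⁻¹) := by
          rw [last_winv]
          rfl
        obtain ⟨m, hm⟩ := core (winv (.inr b0 :: l1)) (red_winv hl) (by simp [winv, hlen1]) _ h1 _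
          h2 (by
            rw [val_winv]
            rw [inv_mul_eq_iff_eq_mul, ← mul_assoc, hx, mul_assoc, mul_inv_cancel, mul_one])
        refine ⟨-m, ?_⟩
        rw [zpow_neg, ← hm, val_winv, inv_inv]
    · rcases s0 with a0 | b0
      · exact core _ hl hn a0 rfl b1 hlast hx
      · -- from `B` to `B`
        exfalso
        have hr : Red ((.inr b0 :: l1) ++ CentP_w a b (k + 1)) := by
          refine red_append.2 ⟨hl, CentP_wred ha hb _, ?_⟩
          intro s hs s' hs'
          rw [hlast] at hs
          rw [CentP_w] at hs'
          simp only [Option.mem_def, Option.some.injEq, List.head?_cons] at hs hs'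
          rw [← hs, ← hs']
          simp
        have he : val i j ((.inr b0 :: l1) ++ CentP_w a b (k + 1)) =
            val i j (CentP_w a b k ++ (.inl a :: .inr (b * b0) :: l1)) := by
          rw [val_append, CentP_val, hx, val_append, CentP_val, val_cons, val_cons,
            val_cons, pow_succ]
          change _ * (i a * j b) * (j b0 * _) = _ * (i a * (j (b * b0) * _))
          rw [map_mul]
          simp only [mul_assoc]
        have h3 := CentP_uniq_le h hr he
        simp only [List.length_append, List.length_cons, CentP_len] at h3
        omega

/-- `BT-CENT`.  Let `g = i a * j b`.  An element which commutes with `g ^ K`, `K ≥ 1`, is a power of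
`g`.  Proof by induction on the length `n` of the reduced word `l` of `x`, `x ≠ 1`.  The word
`W = [a, b, a, b, …]` (`K` times) is the reduced word of `g ^ K`.
Case 1: `l` ends with a syllable from `B`.  Then `l ++ W` is reduced, it is the word of `x g^K`, and
has `n + 2 K` syllables.  If `l` begins with a syllable from `B`, then `g^K x` is the value of `W`
and `l` with the two adjacent syllables from `B` merged, so it has a reduced word with at most
`n + 2 K - 1` syllables: contradiction.  So `l` begins with a syllable from `A`, `n ≥ 2`,
`W ++ l` is reduced, `W ++ l = l ++ W` by uniqueness, so `l = a :: b :: l'`, `x = g * x'`, and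
`x'` commutes with `g ^ K` and is shorter.
Case 2: `l` ends with a syllable from `A` and begins with one from `B`.  Then case 1 applies to
`x⁻¹`.
Case 3: `l` ends and begins with a syllable from `A`.  Then `W ++ l` is reduced with `n + 2 K`
syllables, but `x g^K` has a reduced word with at most `n + 2 K - 1` syllables. -/
theorem cent_pow (h : FreeProd i j) {a : A} {b : B} (ha : a ≠ 1) (hb : b ≠ 1) {K : ℕ}
    (hK : 0 < K) {x : Γ} (hx : x * (i a * j b) ^ K = (i a * j b) ^ K * x) :
    ∃ n : ℤ, x = (i a * j b) ^ n := by
  obtain ⟨k, rfl⟩ : ∃ k, K = k + 1 := ⟨K - 1, by omega⟩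
  obtain ⟨l, hl, rfl⟩ := h.ex x
  exact CentP_main h ha hb k l.length l hl rfl hx

end

end Pool.Agent.Helper38.BT
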