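import Pool.Agent.Helper7.AG.FP

/-!
# Project BT (MP_2ec7a7_al), piece BT-COP
-/

namespace Pool.Agent.Helper38.BT

open Pool.Agent.Helper7.AG (FreeProd Red val pv PNt nt sv val_cons)
open Monoid

set_option linter.unusedSectionVars false

private def CopM (A B : Type) : Bool → Type
  | true => A
  | false => B

private instance CopG (A B : Type) [Group A] [Group B] : ∀ b, Group (CopM A B b)
  | true => inferInstanceAs (Group A)
  | false => inferInstanceAs (Group B)

section
variable {A B : Type} [Group A] [Group B]

private def Copt : (Σ b, CopM A B b) → A ⊕ B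
  | ⟨true, a⟩ => .inl a
  | ⟨false, b⟩ => .inr b

private def Copt' : A ⊕ B → (Σ b, CopM A B b)
  | .inl a => ⟨true, a⟩
  | .inr b => ⟨false, b⟩

private def CopI : A →* CoprodI (CopM A B) := CoprodI.of (M := CopM A B) (i := true)
private def CopJ : B →* CoprodI (CopM A B) := CoprodI.of (M := CopM A B) (i := false)

private theorem Cop_ts' (p : Σ b, CopM A B b) : Copt' (Copt p) = p := by
  rcases p with ⟨_ | _, a⟩ <;> rfl

private theorem Cop_ts (p : A ⊕ B) : Copt (Copt' p) = p := by
  rcases p with a | b <;> rfl

private theorem Copt_nt (p : Σ b, CopM A B b) : nt (Copt p) ↔ p.2 ≠ 1 := by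
  rcases p with ⟨_ | _, a⟩ <;> rfl

private theorem Copt_left (p : Σ b, CopM A B b) : (Copt p).isLeft = p.1 := by
  rcases p with ⟨_ | _, a⟩ <;> rfl

private theorem Copt_val (l : List (Σ b, CopM A B b)) :
    val (CopI (A := A) (B := B)) CopJ (l.map Copt) =
      (l.map fun p => CoprodI.of p.2).prod := by
  induction l with
  | nil => rfl
  | cons p l ih =>
    rw [List.map_cons, val_cons, ih, List.map_cons, List.prod_cons]
    rcases p with ⟨_ | _, a⟩ <;> rfl

private theorem Cop_red (l : List (Σ b, CopM A B b)) :
    Red (l.map Copt) ↔ (∀ p ∈ l, Sigma.snd p ≠ 1) ∧ l.IsChain fun p q => Sigma.fst p ≠ Sigma.fst q := by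
  unfold Red
  rw [List.isChain_map]
  simp only [List.mem_map, forall_exists_index, and_imp, forall_apply_eq_imp_iff₂, Copt_nt,
    Copt_left]

private theorem Cop_freeProd : FreeProd (CopI (A := A) (B := B)) CopJ := by
  classical
  refine ⟨fun x => ?_, fun l l' h1 h2 h3 => ?_⟩
  · set w := CoprodI.Word.equiv x with hw
    refine ⟨w.toList.map Copt, (Cop_red _).2 ⟨fun p hp => w.ne_one p hp, w.chain_ne⟩, ?_⟩
    rw [Copt_val]
    exact CoprodI.Word.equiv.symm_apply_apply x
  · have e : ∀ l : List (A ⊕ B), (l.map Copt').map Copt = l := by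
      intro l
      rw [List.map_map]
      conv_rhs => rw [← List.map_id l]
      exact List.map_congr_left fun p _ => Cop_ts p
    rw [← e l, Cop_red] at h1
    rw [← e l', Cop_red] at h2
    rw [← e l, ← e l', Copt_val, Copt_val] at h3
    set w : CoprodI.Word (CopM A B) := ⟨l.map Copt', h1.1, h1.2⟩ with hw
    set w' : CoprodI.Word (CopM A B) := ⟨l'.map Copt', h2.1, h2.2⟩ with hw'
    have h4 : w = w' := CoprodI.Word.equiv.symm.injective h3
    have h5 : l.map Copt' = l'.map Copt' := congrArg CoprodI.Word.toList h4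
    rw [← e l, ← e l', h5]

end

section
variable (A B : Type) [Group A] [Group B]

private def CopF : CoprodI (CopM A B) →* Monoid.Coprod A B :=
  CoprodI.lift fun b => match b with
    | true => (Monoid.Coprod.inl : A →* Monoid.Coprod A B)
    | false => (Monoid.Coprod.inr : B →* Monoid.Coprod A B)

private def CopK : Monoid.Coprod A B →* CoprodI (CopM A B) :=
  Monoid.Coprod.lift CopI CopJ

private theorem CopF_I (a : A) : CopF A B (CopI a) = Monoid.Coprod.inl a :=
  CoprodI.lift_of (i := true) _ _

private theorem CopF_J (b : B) : CopF A B (CopJ b) = Monoid.Coprod.inr b :=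
  CoprodI.lift_of (i := false) _ _

private theorem CopK_F : (CopK A B).comp (CopF A B) = MonoidHom.id _ := by
  refine CoprodI.ext_hom _ _ fun b => ?_
  rcases b with _ | _
  · refine MonoidHom.ext fun b => ?_
    change CopK A B (CopF A B (CopJ b)) = CopJ b
    rw [CopF_J, CopK, Monoid.Coprod.lift_apply_inr]
    rfl
  · refine MonoidHom.ext fun a => ?_
    change CopK A B (CopF A B (CopI a)) = CopI a
    rw [CopF_I, CopK, Monoid.Coprod.lift_apply_inl]
    rfl

private theorem CopF_K : (CopF A B).comp (CopK A B) = MonoidHom.id _ := by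
  refine Monoid.Coprod.hom_ext ?_ ?_
  · refine MonoidHom.ext fun a => ?_
    simp only [MonoidHom.comp_apply, MonoidHom.id_apply]
    rw [CopK, Monoid.Coprod.lift_apply_inl, CopF_I]
  · refine MonoidHom.ext fun a => ?_
    simp only [MonoidHom.comp_apply, MonoidHom.id_apply]
    rw [CopK, Monoid.Coprod.lift_apply_inr, CopF_J]

private def CopE : CoprodI (CopM A B) ≃* Monoid.Coprod A B :=
  MonoidHom.toMulEquiv (CopF A B) (CopK A B) (CopK_F A B) (CopF_K A B)

end

/-- `BT-COP`.  The coproduct of groups is a free product.  As in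
`Pool/Agent/Helper7/AG/Fsum.lean` (there: the private theorem `Fs_freeProd` for
`Monoid.CoprodI` of a family over `Bool`; copy it, and transport it with `FreeProd.equiv` along
the isomorphism `CoprodI ≃* Coprod` from the two universal properties). -/
theorem freeProd_coprod (A B : Type) [Group A] [Group B] :
    FreeProd (Monoid.Coprod.inl : A →* Monoid.Coprod A B)
      (Monoid.Coprod.inr : B →* Monoid.Coprod A B) := by
  have h := (Cop_freeProd (A := A) (B := B)).equiv (CopE A B)
  have h1 : (CopE A B).toMonoidHom.comp CopI = (Monoid.Coprod.inl : A →* Monoid.Coprod A B) :=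
    MonoidHom.ext fun a => CopF_I A B a
  have h2 : (CopE A B).toMonoidHom.comp CopJ = (Monoid.Coprod.inr : B →* Monoid.Coprod A B) :=
    MonoidHom.ext fun a => CopF_J A B a
  rwa [h1, h2] at h

end Pool.Agent.Helper38.BT
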