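import Pool.Agent.Helper38.BT.Main
import Pool.Agent.Helper7.AG.Stmt

/-!
# Project BT: `Aut`, `Out` and the splitting
-/

namespace Pool.Agent.Helper38.BT

open FreeGroup (of lift)
open Pool.Agent.Helper7.AG (SL mA mB tr mA_braid Inn Out Artin InvertsGens SqOne Splits)

/-- a matrix which commutes with `mA` and `mB` is `1` or `-1` -/
lemma sl_center {X : SL} (ha : mA * X = X * mA) (hb : mB * X = X * mB) : X = 1 ∨ X = -1 := by
  have hd : X 0 0 * X 1 1 - X 0 1 * X 1 0 = 1 := by
    have := X.det_coe; rwa [Matrix.det_fin_two] at this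
  have e1 := congrArg (fun Y : SL => Y 0 0) ha
  have e2 := congrArg (fun Y : SL => Y 0 1) ha
  have e3 := congrArg (fun Y : SL => Y 0 0) hb
  simp only [mA, mB, Matrix.SpecialLinearGroup.coe_mul, Matrix.mul_apply, Fin.sum_univ_two]
    at e1 e2 e3
  simp at e1 e2 e3
  have e4 : X 1 0 = 0 := by linarith
  have e5 : X 0 1 = 0 := by linarith
  have e6 : X 0 0 = X 1 1 := by linarith
  rw [e4, e5, ← e6] at hd
  have e7 : X 0 0 = 1 ∨ X 0 0 = -1 := by
    have : (X 0 0 - 1) * (X 0 0 + 1) = 0 := by linarith
    rcases mul_eq_zero.mp this with h | h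
    · left; linarith
    · right; linarith
  rcases e7 with h | h
  · left
    ext a b
    fin_cases a <;> fin_cases b <;> simp [e4, e5, ← e6, h]
  · right
    ext a b
    fin_cases a <;> fin_cases b <;> simp [e4, e5, ← e6, h]

/-- the center of `GB` is trivial -/
theorem center_eq_bot : Subgroup.center GB = ⊥ := by
  rw [eq_bot_iff]
  intro x hx
  rw [Subgroup.mem_center_iff] at hx
  have h2 : x ∈ HH := mem_HH.2 (hx gz).symm
  have h3 : pp 0 x = 1 ∨ pp 0 x = -1 := by
    apply sl_center
    · have := congrArg (pp 0) (hx ga); simpa using this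
    · have := congrArg (pp 0) (hx gc); simpa using this
  obtain ⟨z, k, hz⟩ := kerH h2 h3
  have h4 : z = 1 := by
    apply io_eq_one
    have h5 : Chi x = Chi (io z) := by rw [hz, map_mul, map_zpow, Chi_gz]; simp
    rw [← h5]
    ext y
    apply io_inj
    rw [← conj_io h2, ← hx]; simp
  have h6 : x = j (R ^ k) := by rw [hz, h4, map_one, one_mul, map_zpow, j_R]
  have h7 : MulAut.conj (R ^ k) = (1 : MulAut F) := by
    rw [← Phi_j, ← h6]
    ext w
    apply j_inj
    rw [← conj_j, ← hx]; simp
  have h8 : R ^ k = 1 := by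
    have h9 := congrArg (fun φ : MulAut F => φ U) h7
    simp only [MulAut.conj_apply, MulAut.one_apply] at h9
    by_contra hk
    have hk0 : k ≠ 0 := by rintro rfl; exact hk (zpow_zero _)
    obtain ⟨l, hl⟩ := comm_R (w := U) hk0 (mul_inv_eq_iff_eq_mul.mp h9).symm
    have := congrArg (lift (fun s : G0 ⊕ G1 =>
      if s = .inr .u then Multiplicative.ofAdd (1 : ℤ) else 1)) hl
    simp only [map_zpow, FreeGroup.lift_apply_of] at this
    simp at this
  rw [h6, h8, map_one]
  exact Subgroup.mem_bot.mpr rfl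

lemma conj_inj : Function.Injective (MulAut.conj : GB →* MulAut GB) := by
  rw [injective_iff_map_eq_one]
  intro x hx
  have : x ∈ Subgroup.center GB := by
    rw [Subgroup.mem_center_iff]
    intro y
    have h := congrArg (fun φ : MulAut GB => φ y) hx
    simp only [MulAut.conj_apply, MulAut.one_apply] at h
    exact (mul_inv_eq_iff_eq_mul.mp h).symm
  rw [center_eq_bot] at this
  exact Subgroup.mem_bot.mp this

lemma e2_conj (x y : GB) : e2 (MulAut.conj x y) = e2 y := by
  rw [MulAut.conj_apply, map_mul, map_mul, map_inv, mul_right_comm, mul_inv_cancel, one_mul]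

lemma eps_not_inner (x : GB) : eps ≠ MulAut.conj x := by
  intro h
  have h1 := e2_conj x gd
  rw [← h, eps_gd, map_inv, e2_gd] at h1
  have h2 := congrArg Multiplicative.toAdd h1
  simp at h2

lemma epstau_not_inner (x : GB) : eps * tau ≠ MulAut.conj x := by
  intro h
  have h1 := e2_conj x gd
  rw [← h, MulAut.mul_apply, tau_gd, eps_gd, map_inv, e2_gd] at h1
  have h2 := congrArg Multiplicative.toAdd h1
  simp at h2

/-- the exponent of `R` -/
def exR : F →* Multiplicative ℤ :=
  lift (fun s => if s = .inl .r then Multiplicative.ofAdd (1 : ℤ) else 1)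

lemma Phi_R (x : GB) : ∃ y : F, Phi x R = y * R * y⁻¹ := by
  have hx : x ∈ Subgroup.closure ({ga, gb, gc, gd} : Set GB) := by rw [closure_gen]; trivial
  induction hx using Subgroup.closure_induction with
  | mem y hy =>
    simp only [Set.mem_insert_iff, Set.mem_singleton_iff] at hy
    rcases hy with rfl | rfl | rfl | rfl
    · exact ⟨1, by simp⟩
    · exact ⟨U, by simp [be_R]⟩
    · exact ⟨1, by simp⟩
    · exact ⟨1, by simp⟩
  | one => exact ⟨1, by simp⟩
  | mul a b _ _ ha hb =>
    obtain ⟨p, hp⟩ := ha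
    obtain ⟨q, hq⟩ := hb
    refine ⟨Phi a q * p, ?_⟩
    rw [map_mul, MulAut.mul_apply, hq, map_mul, map_mul, hp, map_inv]; group
  | inv a _ ha =>
    obtain ⟨p, hp⟩ := ha
    refine ⟨(Phi a)⁻¹ p⁻¹, ?_⟩
    have h1 : (Phi a)⁻¹ (Phi a R) = R := by rw [← MulAut.mul_apply]; simp
    rw [hp, map_mul, map_mul, map_inv] at h1
    rw [map_inv, map_inv, inv_inv]
    generalize (Phi a)⁻¹ p = P at h1 ⊢
    generalize (Phi a)⁻¹ R = Q at h1 ⊢
    rw [← h1]; group

lemma tau_not_inner (x : GB) : tau ≠ MulAut.conj x := by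
  intro h
  have h1 : x * gz * x⁻¹ = gz' := by
    rw [← tau_gz, h]; rfl
  rw [← j_R, conj_j, ← j_R'] at h1
  have h2 := j_inj h1
  obtain ⟨y, hy⟩ := Phi_R x
  rw [hy] at h2
  have h3 := congrArg exR h2
  simp only [map_mul, map_inv, R', exR, FreeGroup.lift_apply_of] at h3
  simp at h3

/-- the action of `ℤˣ × ℤˣ` on `GB`: `(-1, 1)` acts by `eps`, `(1, -1)` by `tau` -/
def theta : ℤˣ × ℤˣ →* MulAut GB where
  toFun p := (if p.1 = 1 then 1 else eps) * (if p.2 = 1 then 1 else tau)
  map_one' := by simp
  map_mul' := by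
    rintro ⟨u, v⟩ ⟨u', v'⟩
    have h1 : tau * eps = eps * tau := eps_tau.symm
    have h2 : eps * (eps * tau) = tau := by rw [← mul_assoc, eps_eps, one_mul]
    have h3 : tau * (eps * tau) = eps := by rw [← mul_assoc, h1, mul_assoc, tau_tau, mul_one]
    have h4 : eps * tau * (eps * tau) = 1 := by rw [mul_assoc, h3, eps_eps]
    have h5 : eps * tau * eps = tau := by rw [mul_assoc, h1, h2]
    have h6 : eps * tau * tau = eps := by rw [mul_assoc, tau_tau, mul_one]
    rcases Int.units_eq_one_or u with rfl | rfl <;> rcases Int.units_eq_one_or v with rfl | rfl <;>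
      rcases Int.units_eq_one_or u' with rfl | rfl <;>
      rcases Int.units_eq_one_or v' with rfl | rfl <;>
      simp [eps_eps, tau_tau, h1, h2, h3, h4, h5, h6]

/-- the semidirect product maps to the automorphism group -/
def toAut : GB ⋊[theta] (ℤˣ × ℤˣ) →* MulAut GB :=
  SemidirectProduct.lift MulAut.conj theta (by
    intro u
    ext x y
    simp [MulAut.mul_apply])

lemma toAut_apply (p : GB ⋊[theta] (ℤˣ × ℤˣ)) :
    toAut p = MulAut.conj p.left * theta p.right := rfl

lemma theta_ne_conj {u : ℤˣ × ℤˣ} (hu : u ≠ 1) (x : GB) : theta u ≠ MulAut.conj x := by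
  obtain ⟨a, b⟩ := u
  rcases Int.units_eq_one_or a with rfl | rfl <;> rcases Int.units_eq_one_or b with rfl | rfl
  · exact absurd rfl hu
  · simpa [theta] using tau_not_inner x
  · simpa [theta] using eps_not_inner x
  · simpa [theta] using epstau_not_inner x

lemma toAut_bij : Function.Bijective toAut := by
  constructor
  · rw [injective_iff_map_eq_one]
    intro p hp
    rw [toAut_apply] at hp
    by_cases h : p.right = 1
    · rw [h, map_one, mul_one] at hp
      ext1
      · exact conj_inj (by rw [hp, SemidirectProduct.one_left, map_one])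
      · exact h
    · exfalso
      refine theta_ne_conj h p.left⁻¹ ?_
      rw [map_inv]
      exact eq_inv_of_mul_eq_one_right hp
  · intro φ
    obtain ⟨x, h | h | h | h⟩ := aut_eq φ
    · exact ⟨⟨x, 1⟩, by rw [toAut_apply, h]; simp⟩
    · exact ⟨⟨x, (-1, 1)⟩, by rw [toAut_apply, h]; simp [theta]⟩
    · exact ⟨⟨x, (1, -1)⟩, by rw [toAut_apply, h]; simp [theta]⟩
    · exact ⟨⟨x, (-1, -1)⟩, by rw [toAut_apply, h]; simp [theta]⟩

/-- the automorphism group as a semidirect product -/
noncomputable def autEquiv : GB ⋊[theta] (ℤˣ × ℤˣ) ≃* MulAut GB :=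
  MulEquiv.ofBijective toAut toAut_bij

/-- the class of an automorphism -/
noncomputable def sgn : MulAut GB →* ℤˣ × ℤˣ :=
  SemidirectProduct.rightHom.comp autEquiv.symm.toMonoidHom

lemma sgn_toAut (p : GB ⋊[theta] (ℤˣ × ℤˣ)) : sgn (toAut p) = p.right := by
  have : autEquiv.symm (toAut p) = p := autEquiv.symm_apply_apply p
  change SemidirectProduct.rightHom (autEquiv.symm (toAut p)) = _
  rw [this]; rfl

lemma sgn_ker : sgn.ker = Inn GB := by
  ext φ
  rw [MonoidHom.mem_ker]
  obtain ⟨p, rfl⟩ := toAut_bij.2 φ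
  rw [sgn_toAut]
  constructor
  · intro h
    exact ⟨p.left, by rw [toAut_apply, h, map_one, mul_one]⟩
  · rintro ⟨x, hx⟩
    have : toAut p = toAut ⟨x, 1⟩ := by rw [← hx, toAut_apply]; simp
    rw [toAut_bij.1 this]

lemma sgn_surj : Function.Surjective sgn := fun u => ⟨toAut ⟨1, u⟩, sgn_toAut _⟩

/-- the outer automorphism group -/
noncomputable def outEquiv : Out GB ≃* ℤˣ × ℤˣ :=
  (QuotientGroup.quotientMulEquivOfEq sgn_ker.symm).trans
    (QuotientGroup.quotientKerEquivOfSurjective sgn sgn_surj)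

lemma outEquiv_mk (φ : MulAut GB) : outEquiv (QuotientGroup.mk φ) = sgn φ := rfl

lemma outEquiv_eps : outEquiv (QuotientGroup.mk eps) = (-1, 1) := by
  have : eps = toAut ⟨1, (-1, 1)⟩ := by rw [toAut_apply]; simp [theta]
  rw [outEquiv_mk, this, sgn_toAut]

lemma outEquiv_tau : outEquiv (QuotientGroup.mk tau) = (1, -1) := by
  have : tau = toAut ⟨1, (1, -1)⟩ := by rw [toAut_apply]; simp [theta]
  rw [outEquiv_mk, this, sgn_toAut]

/-- the extension splits -/
noncomputable def section_ : Out GB →* MulAut GB := theta.comp outEquiv.toMonoidHom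

lemma section_spec (o : Out GB) : QuotientGroup.mk (section_ o) = o := by
  apply outEquiv.injective
  rw [outEquiv_mk]
  have : section_ o = toAut ⟨1, outEquiv o⟩ := by rw [toAut_apply]; simp [section_]
  rw [this, sgn_toAut]

/-! ### the form of the statement -/

/-- `τ` exchanges the generators `0` and `1` and fixes the generators `2` and `3` -/
def SwapsLeaves (τ : MulAut (Artin B3t)) : Prop :=
  τ (PresentedGroup.of 0) = PresentedGroup.of 1 ∧ τ (PresentedGroup.of 1) = PresentedGroup.of 0 ∧
    τ (PresentedGroup.of 2) = PresentedGroup.of 2 ∧ τ (PresentedGroup.of 3) = PresentedGroup.of 3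

/-- every automorphism of `G` is in exactly one way of the form `conj x`, `conj x * ε`,
`conj x * τ` or `conj x * (ε * τ)` with `x` in `G` -/
def UniqueForm2 (G : Type*) [Group G] (ε τ : MulAut G) : Prop :=
  Function.Bijective (fun p : G × Bool × Bool =>
    MulAut.conj p.1 * ((if p.2.1 = true then ε else 1) * (if p.2.2 = true then τ else 1)))

/-- there is an isomorphism of `Out G` with the group `{1, -1} × {1, -1}` which maps the class of
`ε` to `(-1, 1)` and the class of `τ` to `(1, -1)` -/
def OutKlein (G : Type*) [Group G] (ε τ : MulAut G) : Prop :=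
  ∃ e : Out G ≃* ℤˣ × ℤˣ, e (QuotientGroup.mk ε) = (-1, 1) ∧ e (QuotientGroup.mk τ) = (1, -1)

theorem invertsGens_eps : InvertsGens B3t eps := by
  intro s
  fin_cases s
  · exact eps_ga
  · exact eps_gb
  · exact eps_gc
  · exact eps_gd

theorem swapsLeaves_tau : SwapsLeaves tau := ⟨tau_ga, tau_gb, tau_gc, tau_gd⟩

theorem outKlein : OutKlein GB eps tau := ⟨outEquiv, outEquiv_eps, outEquiv_tau⟩

theorem splits_GB : Splits GB := ⟨section_, section_spec⟩

theorem uniqueForm2 : UniqueForm2 GB eps tau := by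
  have key : ∀ p : GB × Bool × Bool,
      MulAut.conj p.1 * ((if p.2.1 = true then eps else 1) * (if p.2.2 = true then tau else 1)) =
        toAut ⟨p.1, (if p.2.1 = true then -1 else 1, if p.2.2 = true then -1 else 1)⟩ := by
    rintro ⟨x, u, v⟩
    rw [toAut_apply]
    cases u <;> cases v <;> simp [theta]
  constructor
  · rintro ⟨x, u, v⟩ ⟨x', u', v'⟩ h
    have h1 := toAut_bij.1 ((key (x, u, v)).symm.trans (h.trans (key (x', u', v'))))
    have h2 := congrArg SemidirectProduct.left h1
    have h3 := congrArg SemidirectProduct.right h1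
    cases u <;> cases v <;> cases u' <;> cases v' <;> simp_all
  · intro φ
    obtain ⟨x, h | h | h | h⟩ := aut_eq φ
    · exact ⟨(x, false, false), by simp [h]⟩
    · exact ⟨(x, true, false), by simp [h]⟩
    · exact ⟨(x, false, true), by simp [h]⟩
    · exact ⟨(x, true, true), by simp [h]⟩

end Pool.Agent.Helper38.BT
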