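import Pool.Agent.Helper38.BT.Defs
import Pool.Agent.Helper7.AG.FP

/-!
# Project BT: the free group `F` of rank 4, the free group `F3`, and the actions of `GB`

`F = FreeGroup (G0 ⊕ G1)`, `G0 = {m, r}`, `G1 = {u, v}`; `F3 = FreeGroup (Fin 3)` with the letters
`z1, z2, z3`.
-/

namespace Pool.Agent.Helper38.BT

open FreeGroup (of lift)

/-- an automorphism of a free group from the images of the letters under it and its inverse -/
def mkAut {α : Type} (φ ψ : α → FreeGroup α) (h1 : ∀ x, lift φ (ψ x) = of x)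
    (h2 : ∀ x, lift ψ (φ x) = of x) : MulAut (FreeGroup α) where
  toFun := lift φ
  invFun := lift ψ
  left_inv := by
    intro x
    have : (lift ψ).comp (lift φ) = MonoidHom.id (FreeGroup α) := by
      ext y; simp [h2]
    exact DFunLike.congr_fun this x
  right_inv := by
    intro x
    have : (lift φ).comp (lift ψ) = MonoidHom.id (FreeGroup α) := by
      ext y; simp [h1]
    exact DFunLike.congr_fun this x
  map_mul' := map_mul _

@[simp] lemma mkAut_of {α : Type} (φ ψ : α → FreeGroup α) (h1) (h2) (x : α) :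
    mkAut φ ψ h1 h2 (of x) = φ x := by
  change lift φ (of x) = _
  simp

@[simp] lemma mkAut_symm_of {α : Type} (φ ψ : α → FreeGroup α) (h1) (h2) (x : α) :
    MulEquiv.symm (mkAut φ ψ h1 h2) (of x) = ψ x := by
  change lift ψ (of x) = _
  simp

/-- the letters `m`, `r` -/
inductive G0 | m | r
  deriving DecidableEq

/-- the letters `u`, `v` -/
inductive G1 | u | v
  deriving DecidableEq

/-- the free group of rank 4 -/
abbrev F : Type := FreeGroup (G0 ⊕ G1)

/-- letter -/ abbrev M : F := of (.inl .m)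
/-- letter -/ abbrev R : F := of (.inl .r)
/-- letter -/ abbrev U : F := of (.inr .u)
/-- letter -/ abbrev V : F := of (.inr .v)

/-- automorphisms of `F` are equal if they agree on the letters -/
lemma autF_ext {φ ψ : MulAut F} (hu : φ U = ψ U) (hv : φ V = ψ V) (hm : φ M = ψ M)
    (hr : φ R = ψ R) : φ = ψ := by
  have : φ.toMonoidHom = ψ.toMonoidHom := by
    ext y
    rcases y with y | y <;> cases y <;> assumption
  ext x
  exact DFunLike.congr_fun this x

/-! ### the automorphisms -/

/-- images under `al` -/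
def alf : G0 ⊕ G1 → F
  | .inl x => of (.inl x)
  | .inr .u => U
  | .inr .v => V * U
/-- images under the inverse of `al` -/
def ali : G0 ⊕ G1 → F
  | .inl x => of (.inl x)
  | .inr .u => U
  | .inr .v => V * U⁻¹

/-- the action of the generator `a`: `u ↦ u, v ↦ v u, m ↦ m, r ↦ r` -/
def al : MulAut F := mkAut alf ali
  (by rintro (x | x) <;> cases x <;> simp [alf, ali, mul_assoc])
  (by rintro (x | x) <;> cases x <;> simp [alf, ali, mul_assoc])

@[simp] lemma al_M : al M = M := by simp [al, alf]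
@[simp] lemma al_R : al R = R := by simp [al, alf]
@[simp] lemma al_U : al U = U := by simp [al, alf]
@[simp] lemma al_V : al V = V * U := by simp [al, alf]
@[simp] lemma ali_M : MulEquiv.symm al M = M := by simp [al, ali]
@[simp] lemma ali_R : MulEquiv.symm al R = R := by simp [al, ali]
@[simp] lemma ali_U : MulEquiv.symm al U = U := by simp [al, ali]
@[simp] lemma ali_V : MulEquiv.symm al V = V * U⁻¹ := by simp [al, ali]

/-- images under `cc` -/
def ccf : G0 ⊕ G1 → F
  | .inl .m => M * V * U⁻¹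
  | .inl .r => R
  | .inr .u => U * V⁻¹ * U
  | .inr .v => U
/-- images under the inverse of `cc` -/
def cci : G0 ⊕ G1 → F
  | .inl .m => M * U * V⁻¹
  | .inl .r => R
  | .inr .u => V
  | .inr .v => V * U⁻¹ * V

/-- the action of the generator `c`: `u ↦ u v⁻¹ u, v ↦ u, m ↦ m v u⁻¹, r ↦ r` -/
def cc : MulAut F := mkAut ccf cci
  (by rintro (x | x) <;> cases x <;> simp [ccf, cci, mul_assoc])
  (by rintro (x | x) <;> cases x <;> simp [ccf, cci, mul_assoc])

@[simp] lemma cc_M : cc M = M * V * U⁻¹ := by simp [cc, ccf]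
@[simp] lemma cc_R : cc R = R := by simp [cc, ccf]
@[simp] lemma cc_U : cc U = U * V⁻¹ * U := by simp [cc, ccf]
@[simp] lemma cc_V : cc V = U := by simp [cc, ccf]
@[simp] lemma cci_M : MulEquiv.symm cc M = M * U * V⁻¹ := by simp [cc, cci]
@[simp] lemma cci_R : MulEquiv.symm cc R = R := by simp [cc, cci]
@[simp] lemma cci_U : MulEquiv.symm cc U = V := by simp [cc, cci]
@[simp] lemma cci_V : MulEquiv.symm cc V = V * U⁻¹ * V := by simp [cc, cci]

/-- images under `de` -/
def def' : G0 ⊕ G1 → F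
  | .inl .m => U * R * M * (U * R)⁻¹
  | .inl .r => R
  | .inr .u => U
  | .inr .v => U * R * M⁻¹ * V
/-- images under the inverse of `de` -/
def dei : G0 ⊕ G1 → F
  | .inl .m => (U * R)⁻¹ * M * (U * R)
  | .inl .r => R
  | .inr .u => U
  | .inr .v => (U * R)⁻¹ * M * V

/-- the action of the generator `d`: `u ↦ u, v ↦ s m⁻¹ v, m ↦ s m s⁻¹, r ↦ r` with `s = u r` -/
def de : MulAut F := mkAut def' dei
  (by rintro (x | x) <;> cases x <;> simp [def', dei, mul_assoc])
  (by rintro (x | x) <;> cases x <;> simp [def', dei, mul_assoc])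

@[simp] lemma de_M : de M = U * R * M * (U * R)⁻¹ := by simp [de, def']
@[simp] lemma de_R : de R = R := by simp [de, def']
@[simp] lemma de_U : de U = U := by simp [de, def']
@[simp] lemma de_V : de V = U * R * M⁻¹ * V := by simp [de, def']
@[simp] lemma dei_M : MulEquiv.symm de M = (U * R)⁻¹ * M * (U * R) := by simp [de, dei]
@[simp] lemma dei_R : MulEquiv.symm de R = R := by simp [de, dei]
@[simp] lemma dei_U : MulEquiv.symm de U = U := by simp [de, dei]
@[simp] lemma dei_V : MulEquiv.symm de V = (U * R)⁻¹ * M * V := by simp [de, dei]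

/-- the action of the generator `b = u a` -/
def be : MulAut F := MulAut.conj U * al

lemma be_U : be U = U := by simp [be, MulAut.mul_apply]
lemma be_V : be V = U * V := by simp [be, MulAut.mul_apply, mul_assoc]
lemma be_M : be M = U * M * U⁻¹ := by simp [be, MulAut.mul_apply]
lemma be_R : be R = U * R * U⁻¹ := by simp [be, MulAut.mul_apply]

lemma al_be : al * be = be * al := by
  apply autF_ext <;> simp [be, MulAut.mul_apply, mul_assoc]
lemma al_de : al * de = de * al := by
  apply autF_ext <;> simp [MulAut.mul_apply, mul_assoc]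
lemma be_de : be * de = de * be := by
  apply autF_ext <;> simp [be, MulAut.mul_apply, mul_assoc]
lemma al_cc : al * cc * al = cc * al * cc := by
  apply autF_ext <;> simp [MulAut.mul_apply, mul_assoc]
lemma be_cc : be * cc * be = cc * be * cc := by
  apply autF_ext <;> simp [be, MulAut.mul_apply, mul_assoc]
lemma cc_de : cc * de * cc * de = de * cc * de * cc := by
  apply autF_ext <;> simp [MulAut.mul_apply, mul_assoc]

/-- the action of `GB` on `F` -/
def Phi : GB →* MulAut F := lift4 al be cc de al_be al_de be_de al_cc be_cc cc_de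

@[simp] lemma Phi_ga : Phi ga = al := by simp [Phi]
@[simp] lemma Phi_gb : Phi gb = be := by simp [Phi]
@[simp] lemma Phi_gc : Phi gc = cc := by simp [Phi]
@[simp] lemma Phi_gd : Phi gd = de := by simp [Phi]

/-- the element `r'` -/
def R' : F := U * V⁻¹ * M * V
/-- the element `o` -/
def Oo : F := M * U * R

lemma Phi_gz : Phi gz = MulAut.conj R := by
  simp only [gz, map_pow, map_mul, Phi_ga, Phi_gc, Phi_gd]
  apply autF_ext <;> simp [MulAut.mul_apply, mul_assoc, pow_succ]

lemma Phi_gz' : Phi gz' = MulAut.conj R' := by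
  simp only [gz', map_pow, map_mul, Phi_gb, Phi_gc, Phi_gd]
  apply autF_ext <;> simp [be, R', MulAut.mul_apply, mul_assoc, pow_succ]

lemma Phi_gu : Phi gu = MulAut.conj U := by
  simp [gu, be]

lemma Phi_gv : Phi gv = MulAut.conj V := by
  rw [gv, map_mul, map_mul, map_inv, Phi_gu, Phi_gc]
  apply autF_ext <;> simp [MulAut.mul_apply, mul_assoc]

lemma Phi_gm : Phi gm = MulAut.conj M := by
  simp only [gm, map_mul, map_inv, Phi_gu, Phi_gv, Phi_gz']
  rw [← map_inv, ← map_inv, ← map_mul, ← map_mul, ← map_mul]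
  congr 1
  simp [R', mul_assoc]

/-- the images of the letters in `GB` -/
def jf : G0 ⊕ G1 → GB
  | .inl .m => gm
  | .inl .r => gz
  | .inr .u => gu
  | .inr .v => gv

/-- the homomorphism `F → GB`: `u ↦ b a⁻¹, v ↦ c⁻¹ u c, r ↦ ζ, m ↦ v u⁻¹ ζ' v⁻¹` -/
def j : F →* GB := lift jf

@[simp] lemma j_U : j U = gu := by simp [j, jf]
@[simp] lemma j_V : j V = gv := by simp [j, jf]
@[simp] lemma j_M : j M = gm := by simp [j, jf]
@[simp] lemma j_R : j R = gz := by simp [j, jf]

lemma j_R' : j R' = gz' := by simp [R', gm]; group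

/-- `j w` acts as conjugation by `w` -/
theorem Phi_j (w : F) : Phi (j w) = MulAut.conj w := by
  have : Phi.comp j = MulAut.conj := by
    ext1 y
    rcases y with y | y <;> cases y <;> simp [Phi_gu, Phi_gv, Phi_gm, Phi_gz]
  exact DFunLike.congr_fun this w

/-! ### the free group `F3` -/

/-- the free group of rank 3 -/
abbrev F3 : Type := FreeGroup (Fin 3)

/-- letter -/ abbrev z1 : F3 := of 0
/-- letter -/ abbrev z2 : F3 := of 1
/-- letter -/ abbrev z3 : F3 := of 2

/-- the element `w = z1 z2 z3` -/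
def ww : F3 := z1 * z2 * z3

lemma autF3_ext {φ ψ : MulAut F3} (h1 : φ z1 = ψ z1) (h2 : φ z2 = ψ z2) (h3 : φ z3 = ψ z3) :
    φ = ψ := by
  have : φ.toMonoidHom = ψ.toMonoidHom := by
    ext y
    fin_cases y <;> assumption
  ext x
  exact DFunLike.congr_fun this x

/-- images under `sa` -/
def saf : Fin 3 → F3 := ![z1, z3, z3⁻¹ * z2 * z3]
/-- images under the inverse of `sa` -/
def sai : Fin 3 → F3 := ![z1, z2 * z3 * z2⁻¹, z2]
/-- the action of `a` on `F3`: `z1 ↦ z1, z2 ↦ z3, z3 ↦ z3⁻¹ z2 z3` -/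
def sa : MulAut F3 := mkAut saf sai
  (by intro x; fin_cases x <;> simp [saf, sai, mul_assoc])
  (by intro x; fin_cases x <;> simp [saf, sai, mul_assoc])

@[simp] lemma sa_z1 : sa z1 = z1 := by simp [sa, saf]
@[simp] lemma sa_z2 : sa z2 = z3 := by simp [sa, saf]
@[simp] lemma sa_z3 : sa z3 = z3⁻¹ * z2 * z3 := by simp [sa, saf]
@[simp] lemma sai_z1 : MulEquiv.symm sa z1 = z1 := by simp [sa, sai]
@[simp] lemma sai_z2 : MulEquiv.symm sa z2 = z2 * z3 * z2⁻¹ := by simp [sa, sai]
@[simp] lemma sai_z3 : MulEquiv.symm sa z3 = z2 := by simp [sa, sai]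

/-- images under `sc` -/
def scf : Fin 3 → F3 := ![z2, z2⁻¹ * z1 * z2, z3]
/-- images under the inverse of `sc` -/
def sci : Fin 3 → F3 := ![z1 * z2 * z1⁻¹, z1, z3]
/-- the action of `c` on `F3`: `z1 ↦ z2, z2 ↦ z2⁻¹ z1 z2, z3 ↦ z3` -/
def sc : MulAut F3 := mkAut scf sci
  (by intro x; fin_cases x <;> simp [scf, sci, mul_assoc])
  (by intro x; fin_cases x <;> simp [scf, sci, mul_assoc])

@[simp] lemma sc_z1 : sc z1 = z2 := by simp [sc, scf]
@[simp] lemma sc_z2 : sc z2 = z2⁻¹ * z1 * z2 := by simp [sc, scf]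
@[simp] lemma sc_z3 : sc z3 = z3 := by simp [sc, scf]
@[simp] lemma sci_z1 : MulEquiv.symm sc z1 = z1 * z2 * z1⁻¹ := by simp [sc, sci]
@[simp] lemma sci_z2 : MulEquiv.symm sc z2 = z1 := by simp [sc, sci]
@[simp] lemma sci_z3 : MulEquiv.symm sc z3 = z3 := by simp [sc, sci]

@[simp] lemma sa_ww : sa ww = ww := by simp [ww, mul_assoc]
@[simp] lemma sc_ww : sc ww = ww := by simp [ww, mul_assoc]

lemma sa_sd : sa * MulAut.conj z1 = MulAut.conj z1 * sa := by
  apply autF3_ext <;> simp [MulAut.mul_apply, mul_assoc]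
lemma sa_sc : sa * sc * sa = sc * sa * sc := by
  apply autF3_ext <;> simp [MulAut.mul_apply, mul_assoc]
lemma sc_sd : sc * MulAut.conj z1 * sc * MulAut.conj z1 =
    MulAut.conj z1 * sc * MulAut.conj z1 * sc := by
  apply autF3_ext <;> simp [MulAut.mul_apply, mul_assoc]

/-- the action of `GB` on `F3` (`a, b ↦ sa`, `c ↦ sc`, `d ↦` conjugation by `z1`) -/
def Chi : GB →* MulAut F3 := lift4 sa sa sc (MulAut.conj z1) rfl sa_sd sa_sd sa_sc sa_sc sc_sd

@[simp] lemma Chi_ga : Chi ga = sa := by simp [Chi]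
@[simp] lemma Chi_gb : Chi gb = sa := by simp [Chi]
@[simp] lemma Chi_gc : Chi gc = sc := by simp [Chi]
@[simp] lemma Chi_gd : Chi gd = MulAut.conj z1 := by simp [Chi]

lemma Chi_gz : Chi gz = 1 := by
  simp only [gz, map_pow, map_mul, Chi_ga, Chi_gc, Chi_gd]
  apply autF3_ext <;> simp [MulAut.mul_apply, mul_assoc, pow_succ]

lemma Chi_gz' : Chi gz' = 1 := by
  simp only [gz', map_pow, map_mul, Chi_gb, Chi_gc, Chi_gd]
  apply autF3_ext <;> simp [MulAut.mul_apply, mul_assoc, pow_succ]

lemma Chi_gO : Chi gO = MulAut.conj ww⁻¹ := by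
  simp only [gO, map_pow, map_mul, Chi_ga, Chi_gc]
  apply autF3_ext <;> simp [ww, MulAut.mul_apply, mul_assoc, pow_succ]

lemma Chi_gu : Chi gu = 1 := by simp [gu]
lemma Chi_gv : Chi gv = 1 := by simp [gv, Chi_gu]
lemma Chi_gm : Chi gm = 1 := by simp [gm, Chi_gu, Chi_gv, Chi_gz']

/-- `F` acts trivially on `F3` -/
theorem Chi_j (w : F) : Chi (j w) = 1 := by
  have : Chi.comp j = 1 := by
    ext1 y
    rcases y with y | y <;> cases y <;> simp [Chi_gu, Chi_gv, Chi_gm, Chi_gz]
  exact DFunLike.congr_fun this w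

/-- the images of `z1, z2, z3` in `GB` -/
def if3 : Fin 3 → GB := ![gd, gc * gd * gc⁻¹, ga * (gc * gd * gc⁻¹) * ga⁻¹]

/-- the homomorphism `F3 → GB` -/
def io : F3 →* GB := lift if3

@[simp] lemma io_z1 : io z1 = gd := by simp [io, if3]
@[simp] lemma io_z2 : io z2 = gc * gd * gc⁻¹ := by simp [io, if3]
@[simp] lemma io_z3 : io z3 = ga * (gc * gd * gc⁻¹) * ga⁻¹ := by simp [io, if3]

/-- `io z` acts on `F3` as conjugation by `z` -/
theorem Chi_io (z : F3) : Chi (io z) = MulAut.conj z := by
  have : Chi.comp io = MulAut.conj := by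
    ext1 y
    fin_cases y
    · simp
    · simp only [MonoidHom.coe_comp, Function.comp_apply, Fin.mk_one, io_z2, map_mul, map_inv,
        Chi_gc, Chi_gd]
      apply autF3_ext <;> simp [MulAut.mul_apply, mul_assoc]
    · simp only [MonoidHom.coe_comp, Function.comp_apply, Fin.reduceFinMk, io_z3, map_mul, map_inv,
        Chi_ga, Chi_gc, Chi_gd]
      apply autF3_ext <;> simp [MulAut.mul_apply, mul_assoc]
  exact DFunLike.congr_fun this z

end Pool.Agent.Helper38.BT
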