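import Pool.Agent.Helper7.AG.FP

/-!
# Project BT (MP_2ec7a7_al), piece BT-FTW: fixed points in free products
-/

namespace Pool.Agent.Helper38.BT

open Pool.Agent.Helper7.AG (FreeProd Red val pv PNt nt sv val_nil val_cons red_nil red_single
  red_cons_cons)

section
variable {A B Γ : Type} [Group A] [Group B] [Group Γ] {i : A →* Γ} {j : B →* Γ}

/-- the value of a list of pairs, starting with the factor `B` -/
private def FtwV (i : A →* Γ) (j : B →* Γ) : List (B × A) → Γ
  | [] => 1
  | p :: L => j p.1 * i p.2 * FtwV i j L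

/-- all entries are nontrivial, but the last element of `A` may be trivial -/
private def FtwOk : List (B × A) → Prop
  | [] => True
  | [p] => p.1 ≠ 1
  | p :: q :: L => p.1 ≠ 1 ∧ p.2 ≠ 1 ∧ FtwOk (q :: L)

private lemma FtwOk_fst {p : B × A} {L : List (B × A)} (h : FtwOk (p :: L)) : p.1 ≠ 1 := by
  cases L with
  | nil => exact h
  | cons q L => exact h.1

private lemma FtwOk_tail {p : B × A} {L : List (B × A)} (h : FtwOk (p :: L)) : FtwOk L := by
  cases L with
  | nil => trivial
  | cons q L => exact h.2.2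

private lemma FtwOk_cons {p : B × A} {L : List (B × A)} (h1 : p.1 ≠ 1) (h2 : p.2 ≠ 1 ∨ L = [])
    (h3 : FtwOk L) : FtwOk (p :: L) := by
  cases L with
  | nil => exact h1
  | cons q L => exact ⟨h1, h2.resolve_right (by simp), h3⟩

/-- every element has such a form -/
private lemma Ftw_ex (l : List (A ⊕ B)) :
    ∃ (a : A) (L : List (B × A)), FtwOk L ∧ val i j l = i a * FtwV i j L := by
  induction l with
  | nil => exact ⟨1, [], trivial, by simp [FtwV]⟩
  | cons s l ih =>
    obtain ⟨a, L, hL, h⟩ := ih
    rw [val_cons, h]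
    cases s with
    | inl c => exact ⟨c * a, L, hL, by simp [sv, mul_assoc]⟩
    | inr b =>
      by_cases hb : b = 1
      · exact ⟨a, L, hL, by simp [sv, hb]⟩
      by_cases ha : a ≠ 1 ∨ L = []
      · exact ⟨1, (b, a) :: L, FtwOk_cons hb ha hL, by simp [sv, FtwV, mul_assoc]⟩
      push Not at ha
      obtain ⟨rfl, hL0⟩ := ha
      cases L with
      | nil => exact absurd rfl hL0
      | cons q L =>
        by_cases hq : b * q.1 = 1
        · refine ⟨q.2, L, FtwOk_tail hL, ?_⟩
          have : j b * j q.1 = 1 := by rw [← map_mul, hq, map_one]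
          simp only [sv, FtwV, map_one, one_mul]
          rw [← mul_assoc, ← mul_assoc, this, one_mul]
        · refine ⟨1, (b * q.1, q.2) :: L, ?_, by simp [sv, FtwV, mul_assoc]⟩
          cases L with
          | nil => exact hq
          | cons r L => exact ⟨hq, hL.2.1, hL.2.2⟩

open Classical in
/-- the reduced word -/
private noncomputable def FtwW : List (B × A) → List (A ⊕ B)
  | [] => []
  | p :: L => .inr p.1 :: (if p.2 = 1 then FtwW L else .inl p.2 :: FtwW L)

private lemma FtwW_head (L : List (B × A)) : ∀ s ∈ (FtwW L).head?, s.isLeft = false := by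
  cases L with
  | nil => simp [FtwW]
  | cons p L => simp [FtwW]

private lemma FtwW_val (L : List (B × A)) : val i j (FtwW L) = FtwV i j L := by
  induction L with
  | nil => rfl
  | cons p L ih =>
    by_cases h : p.2 = 1
    · simp [FtwW, FtwV, h, ih, sv]
    · simp [FtwW, FtwV, h, ih, sv, mul_assoc]

private lemma Ftw_red_cons {a : A} {l : List (A ⊕ B)} (ha : a ≠ 1) (hl : Red l)
    (hh : ∀ s ∈ l.head?, s.isLeft = false) : Red (.inl a :: l) := by
  cases l with
  | nil => exact red_single ha
  | cons s l =>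
    rw [red_cons_cons]
    have := hh s (by simp)
    exact ⟨ha, by simp [this], hl⟩

private lemma FtwW_red (L : List (B × A)) (hL : FtwOk L) : Red (FtwW L) := by
  induction L with
  | nil => exact red_nil
  | cons p L ih =>
    have h1 := ih (FtwOk_tail hL)
    have h2 := FtwOk_fst hL
    by_cases h : p.2 = 1
    · cases L with
      | nil =>
        simp only [FtwW, h, if_true]
        exact red_single h2
      | cons q L => exact absurd h hL.2.1
    · simp only [FtwW, h, if_false]
      rw [red_cons_cons]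
      exact ⟨h2, by simp, Ftw_red_cons h h1 (FtwW_head L)⟩

private lemma Ftw_uniq (h : FreeProd i j) {a a' : A} {L L' : List (B × A)} (hL : FtwOk L)
    (hL' : FtwOk L') (he : i a * FtwV i j L = i a' * FtwV i j L') : a = a' := by
  by_contra hn
  have hz : a'⁻¹ * a ≠ 1 := by
    intro h1
    exact hn (inv_mul_eq_one.1 h1).symm
  have h1 := h.uniq (.inl (a'⁻¹ * a) :: FtwW L) (FtwW L')
    (Ftw_red_cons hz (FtwW_red L hL) (FtwW_head L)) (FtwW_red L' hL') (by
      rw [val_cons, FtwW_val, FtwW_val]
      simp only [sv, map_mul, map_inv]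
      rw [mul_assoc, he, inv_mul_cancel_left])
  have h2 := FtwW_head L' (.inl (a'⁻¹ * a)) (by rw [← h1]; simp)
  simp at h2

/-- the image of the pairs under `id * f` -/
private def FtwF (f : B →* B) (L : List (B × A)) : List (B × A) := L.map fun p => (f p.1, p.2)

private lemma FtwF_ok {f : B →* B} (hf : Function.Injective f) (L : List (B × A))
    (hL : FtwOk L) : FtwOk (FtwF f L) := by
  have hne : ∀ b : B, b ≠ 1 → f b ≠ 1 := by
    intro b hb h1
    exact hb (hf (h1.trans (map_one f).symm))
  induction L with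
  | nil => trivial
  | cons p L ih =>
    cases L with
    | nil => exact hne _ hL
    | cons q L => exact ⟨hne _ hL.1, hL.2.1, ih hL.2.2⟩

private lemma FtwF_val {e : Γ →* Γ} {f : B →* B} (he : ∀ a, e (i a) = i a)
    (he' : ∀ b, e (j b) = j (f b)) (L : List (B × A)) :
    e (FtwV i j L) = FtwV i j (FtwF f L) := by
  induction L with
  | nil => exact map_one e
  | cons p L ih =>
    have h1 : FtwV i j (p :: L) = j p.1 * i p.2 * FtwV i j L := rfl
    have h2 : FtwV i j (FtwF f (p :: L)) = j (f p.1) * i p.2 * FtwV i j (FtwF f L) := rfl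
    rw [h1, h2, map_mul, map_mul, ih, he, he']

/-- right multiplication by an element of `A` -/
private def FtwR (s : A) : List (B × A) → List (B × A)
  | [] => []
  | [p] => [(p.1, p.2 * s)]
  | p :: q :: L => p :: FtwR s (q :: L)

private lemma FtwR_ok (s : A) (L : List (B × A)) (hL : FtwOk L) : FtwOk (FtwR s L) := by
  induction L with
  | nil => trivial
  | cons p L ih =>
    cases L with
    | nil => exact hL
    | cons q L => exact FtwOk_cons hL.1 (Or.inl hL.2.1) (ih hL.2.2)

private lemma FtwR_val (s : A) (q : B × A) (L : List (B × A)) :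
    FtwV i j (q :: L) * i s = FtwV i j (FtwR s (q :: L)) := by
  induction L generalizing q with
  | nil => simp [FtwV, FtwR, mul_assoc]
  | cons r L ih =>
    have h1 : FtwV i j (q :: r :: L) = j q.1 * i q.2 * FtwV i j (r :: L) := rfl
    have h2 : FtwV i j (FtwR s (q :: r :: L)) =
        j q.1 * i q.2 * FtwV i j (FtwR s (r :: L)) := rfl
    rw [h1, h2, mul_assoc, ih]

/-- `BT-FTW` (1).  Write the reduced word of `x` as `a₀ b₁ a₁ ⋯ b_k a_k` (`a₀`, `a_k` may be `1`).
Then `e x = a₀ f(b₁) a₁ ⋯ f(b_k) a_k` and `i(s)⁻¹ x i(s) = (s⁻¹ a₀) b₁ ⋯ b_k (a_k s)`.  By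
uniqueness (`k ≥ 1`) `a₀ = s⁻¹ a₀`: contradiction.  So `k = 0`. -/
theorem fix_tw (h : FreeProd i j) {e : Γ →* Γ} {f : B →* B} (he : ∀ a, e (i a) = i a)
    (he' : ∀ b, e (j b) = j (f b)) (hf : Function.Injective f) {s : A} (hs : s ≠ 1) {x : Γ}
    (hx : e x = (i s)⁻¹ * x * i s) : ∃ a : A, x = i a := by
  obtain ⟨l, _, rfl⟩ := h.ex x
  obtain ⟨a, L, hL, hl⟩ := Ftw_ex (i := i) (j := j) l
  rw [hl] at hx ⊢
  cases L with
  | nil => exact ⟨a, by simp [FtwV]⟩
  | cons q L =>
    exfalso
    have h1 : a = s⁻¹ * a := by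
      refine Ftw_uniq h (FtwF_ok hf _ hL) (FtwR_ok s _ hL) ?_
      rw [map_mul, he, FtwF_val he he', mul_assoc, mul_assoc, FtwR_val] at hx
      rw [hx, map_mul, map_inv, mul_assoc]
    apply hs
    have h2 : s⁻¹ = 1 := mul_right_cancel (h1.symm.trans (one_mul a).symm)
    exact inv_eq_one.1 h2

/-- `BT-FTW` (2).  The fixed points of `e = f * f'`: the syllables of the reduced word are fixed. -/
theorem fix_both (h : FreeProd i j) {e : Γ →* Γ} {f : A →* A} {f' : B →* B}
    (he : ∀ a, e (i a) = i (f a)) (he' : ∀ b, e (j b) = j (f' b)) (hf : Function.Injective f)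
    (hf' : Function.Injective f') {x : Γ} (hx : e x = x) :
    x ∈ Subgroup.closure (i '' {a | f a = a} ∪ j '' {b | f' b = b}) := by
  obtain ⟨l, hl, rfl⟩ := h.ex x
  let g : A ⊕ B → A ⊕ B := Sum.map f f'
  have hg : ∀ s, nt (g s) ↔ nt s := by
    intro s
    cases s with
    | inl a =>
      change f a ≠ 1 ↔ a ≠ 1
      rw [not_iff_not]
      exact ⟨fun h1 => hf (h1.trans (map_one f).symm), fun h1 => by rw [h1, map_one]⟩
    | inr b =>
      change f' b ≠ 1 ↔ b ≠ 1
      rw [not_iff_not]
      exact ⟨fun h1 => hf' (h1.trans (map_one f').symm), fun h1 => by rw [h1, map_one]⟩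
  have hgl : ∀ s, (g s).isLeft = s.isLeft := by
    intro s
    cases s <;> rfl
  have hr : Red (l.map g) := by
    refine ⟨?_, ?_⟩
    · intro s hs
      obtain ⟨s', h1, rfl⟩ := List.mem_map.1 hs
      exact (hg s').2 (hl.1 _ h1)
    · rw [List.isChain_map]
      refine hl.2.imp ?_
      intro s s' h1
      rw [hgl, hgl]
      exact h1
  have hv : ∀ l : List (A ⊕ B), val i j (l.map g) = e (val i j l) := by
    intro l
    induction l with
    | nil => simp
    | cons s l ih =>
      rw [List.map_cons, val_cons, val_cons, ih, map_mul]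
      congr 1
      cases s with
      | inl a => exact (he a).symm
      | inr b => exact (he' b).symm
  have hfix : l.map g = l := h.uniq _ _ hr hl ((hv l).trans hx)
  have hall : ∀ s ∈ l, g s = s :=
    List.map_inj_left.1 (hfix.trans (List.map_id l).symm)
  have hmem : ∀ l' : List (A ⊕ B), (∀ s ∈ l', g s = s) →
      val i j l' ∈ Subgroup.closure (i '' {a | f a = a} ∪ j '' {b | f' b = b}) := by
    intro l'
    induction l' with
    | nil =>
      intro _
      rw [val_nil]
      exact one_mem _
    | cons s l' ih =>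
      intro h1
      rw [val_cons]
      refine mul_mem ?_ (ih fun s' hs' => h1 s' (List.mem_cons_of_mem _ hs'))
      apply Subgroup.subset_closure
      have h2 := h1 s (List.mem_cons_self)
      cases s with
      | inl a => exact Or.inl ⟨a, Sum.inl_injective h2, rfl⟩
      | inr b => exact Or.inr ⟨b, Sum.inr_injective h2, rfl⟩
  exact hmem l hall

end

end Pool.Agent.Helper38.BT
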