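import Pool.Agent.Helper38.BT.Grp1

/-!
# Project BT (MP_2ec7a7_al), piece BT-GRP2
-/

namespace Pool.Agent.Helper38.BT

/-- `j w = io z` only for trivial elements (apply `Chi`) -/
theorem j_eq_io {w : F} {z : F3} (h : j w = io z) : w = 1 ∧ z = 1 := by
  have hz : z = 1 := io_eq_one (by rw [← h, Chi_j])
  refine ⟨j_inj ?_, hz⟩
  rw [h, hz, map_one, map_one]

/-- `ζ` has infinite order, also modulo `io F3`: `io z * ζ^k = io z' * ζ^k'` only for `z = z'`,
`k = k'`.  (Apply `Chi`: `conj z = conj z'`, so `z = z'`; `j_inj` for `ζ^k = j (R^k)`.) -/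
theorem io_gz_inj {z z' : F3} {k k' : ℤ} (h : io z * gz ^ k = io z' * gz ^ k') :
    z = z' ∧ k = k' := by
  have h1 : Chi (io z) = Chi (io z') := by
    have h2 := congrArg Chi h
    rwa [map_mul, map_mul, map_zpow, map_zpow, Chi_gz, one_zpow, one_zpow, mul_one, mul_one] at h2
  have hz : z = z' := by
    have h3 : z'⁻¹ * z = 1 := io_eq_one (by rw [map_mul, map_inv, map_mul, map_inv, h1,
      inv_mul_cancel])
    exact (inv_mul_eq_one.1 h3).symm
  refine ⟨hz, ?_⟩
  rw [hz] at h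
  have h4 : gz ^ k = gz ^ k' := mul_left_cancel h
  have h5 : R ^ k = R ^ k' := j_inj (by rw [map_zpow, map_zpow, j_R, h4])
  have h6 := congrArg (FreeGroup.lift (fun _ : G0 ⊕ G1 => Multiplicative.ofAdd (1 : ℤ))) h5
  rw [map_zpow, map_zpow, FreeGroup.lift_apply_of, ← ofAdd_zsmul, ← ofAdd_zsmul, smul_eq_mul,
    smul_eq_mul, mul_one, mul_one] at h6
  exact Multiplicative.ofAdd.injective h6

/-- `io z` commutes with `ζ` -/
theorem io_gz (z : F3) : io z * gz = gz * io z := by
  have h := conj_io (mem_HH.2 rfl : gz ∈ HH) z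
  rw [Chi_gz, MulAut.one_apply, mul_inv_eq_iff_eq_mul] at h
  exact h.symm

end Pool.Agent.Helper38.BT
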