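import Pool.Agent.Helper38.BT.Aut
import Pool.Agent.Helper7.AG.Fsum

/-!
# Project BT (MP_2ec7a7_al), piece the decomposition of `F`
-/

namespace Pool.Agent.Helper38.BT

open FreeGroup (of lift)
open Pool.Agent.Helper7.AG (FreeProd Red val pv PNt nt sv)

/-- the embeddings of the factors of `F` -/
def iA : FreeGroup G0 →* F := FreeGroup.map Sum.inl

/-- the embeddings of the factors of `F` -/
def iB : FreeGroup G1 →* F := FreeGroup.map Sum.inr

/-- `F = ⟨m, r⟩ * ⟨u, v⟩` -/
theorem fpF : FreeProd iA iB := Pool.Agent.Helper7.AG.freeProd_sum G0 G1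

/-- the exponents of the letters -/
def exF (k : G0 ⊕ G1) : F →* Multiplicative ℤ :=
  lift (fun l => if l = k then Multiplicative.ofAdd 1 else 1)

end Pool.Agent.Helper38.BT
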