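import Pool.Agent.Helper38.BT.Char2
import Pool.Agent.Helper38.BT.InvDef
import Pool.Agent.Helper38.BT.Ftw
import Pool.Agent.Helper38.BT.Grp2

/-!
# Project BT (MP_2ec7a7_al), piece BT-B1: the image of `b`
-/

namespace Pool.Agent.Helper38.BT

open FreeGroup (of lift)

/-- `of r` is of infinite order -/
private lemma B1_R_pow {i : ℤ} (hi : i ≠ 0) : (of G0.r : FreeGroup G0) ^ i ≠ 1 := by
  intro h
  have h3 := congrArg (lift (fun l : G0 =>
    if l = G0.r then Multiplicative.ofAdd (1 : ℤ) else 1)) h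
  rw [map_zpow, FreeGroup.lift_apply_of, if_pos rfl, ← ofAdd_zsmul, map_one] at h3
  have h4 := congrArg Multiplicative.toAdd h3
  rw [toAdd_ofAdd, toAdd_one, smul_eq_mul, mul_one] at h4
  exact hi h4

/-- the restriction of `al` to `⟨u, v⟩` -/
private def B1_f : FreeGroup G1 →* FreeGroup G1 :=
  lift (fun l => match l with
    | .u => of .u
    | .v => of .v * of .u)

/-- the inverse of `B1_f` -/
private def B1_g : FreeGroup G1 →* FreeGroup G1 :=
  lift (fun l => match l with
    | .u => of .u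
    | .v => of .v * (of .u)⁻¹)

private lemma B1_inj : Function.Injective B1_f := by
  have h : B1_g.comp B1_f = MonoidHom.id _ := by
    ext l
    cases l <;> simp [B1_g, B1_f]
  intro x y hxy
  have hx := DFunLike.congr_fun h x
  have hy := DFunLike.congr_fun h y
  simp only [MonoidHom.coe_comp, Function.comp_apply, MonoidHom.id_apply] at hx hy
  rw [← hx, ← hy, hxy]

private lemma B1_al_iA (a : FreeGroup G0) : al (iA a) = iA a := by
  have h : al.toMonoidHom.comp iA = iA := by
    ext l
    cases l <;> simp [iA]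
  exact DFunLike.congr_fun h a

private lemma B1_al_iB (b : FreeGroup G1) : al (iB b) = iB (B1_f b) := by
  have h : al.toMonoidHom.comp iB = iB.comp B1_f := by
    ext l
    cases l <;> simp [iB, B1_f]
  exact DFunLike.congr_fun h b

private lemma B1_UR : U * R ≠ R * U := by
  intro h
  obtain ⟨k, hk⟩ := comm_R (w := U) (n := 1) one_ne_zero (by rw [zpow_one, h])
  have h3 := congrArg (exF (.inr .u)) hk
  rw [map_zpow] at h3
  simp [exF] at h3

/-- `BT-B1`.  `φ a = a ζ^i`, `φ c = c ζ^i`, `φ d = d ζ^(-2i)` is impossible for `i ≠ 0`.  `u = b a⁻¹`, so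
`φ b = φ(u) φ(a) = j n * (a ζ^i)` (`char_j`).  `b` commutes with `a`, so `j n` commutes with
`a ζ^i`, i.e. `al (R^i n R^(-i)) = n`, `al n = R^(-i) n R^i` (`conj_j`, `j_R`, `j_inj`).  `al` is the
identity on `iA` and acts on `iB` (`fpF`), so `n = iA a₀` by `fix_tw`, and `n` commutes with `R^i`,
so `n` is a power of `R` (`comm_R`) and `j n ∈ H`.  So `φ b ∈ H`.  `φ ζ = ζ` (compute:
`(a ζ^i c ζ^i d ζ^(-2i))³ = ζ`), so `φ` maps `H` onto `H` and `b ∈ H`; but then
`u = b a⁻¹ ∈ H` commutes with `ζ`, so `U` commutes with `R` in `F`: contradiction. -/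
theorem no_twist {φ : MulAut GB} {i : ℤ} (ha : φ ga = ga * gz ^ i) (hc : φ gc = gc * gz ^ i)
    (hd : φ gd = gd * gz ^ (-2 * i)) : i = 0 := by
  by_contra hi
  have ha' : Commute ga gz := ga_gz
  have hc' : Commute gc gz := gc_gz
  have hd' : Commute gd gz := gd_gz
  -- `φ ζ = ζ`
  have hz : φ gz = gz := by
    have h1 : φ (ga * gc * gd) = ga * gc * gd := by
      rw [map_mul, map_mul, ha, hc, hd]
      have e1 : ga * gz ^ i * (gc * gz ^ i) = ga * gc * gz ^ (i + i) := by
        rw [zpow_add]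
        have := (hc'.zpow_right i).eq
        calc ga * gz ^ i * (gc * gz ^ i) = ga * (gz ^ i * gc) * gz ^ i := by group
          _ = ga * (gc * gz ^ i) * gz ^ i := by rw [← this]
          _ = _ := by group
      rw [e1]
      have := (hd'.zpow_right (i + i)).eq
      calc ga * gc * gz ^ (i + i) * (gd * gz ^ (-2 * i))
          = ga * gc * (gz ^ (i + i) * gd) * gz ^ (-2 * i) := by group
        _ = ga * gc * (gd * gz ^ (i + i)) * gz ^ (-2 * i) := by rw [← this]
        _ = ga * gc * gd * (gz ^ (i + i) * gz ^ (-2 * i)) := by group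
        _ = ga * gc * gd := by
          rw [← zpow_add]
          have : i + i + -2 * i = 0 := by ring
          rw [this, zpow_zero, mul_one]
    rw [gz, map_pow, h1]
  obtain ⟨n, hn⟩ := char_j φ U
  -- the image of `b`
  have hb0 : gb = gu * ga := by simp [gu]
  have hb : φ gb = j n * (ga * gz ^ i) := by
    rw [hb0, map_mul, ha, ← hn, j_U]
  have hcomm : j n * (ga * gz ^ i) = (ga * gz ^ i) * j n := by
    have h1 : φ (ga * gb) = φ (gb * ga) := by rw [ga_gb]
    rw [map_mul, map_mul, hb, ha] at h1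
    have h2 : ((ga * gz ^ i) * j n) * (ga * gz ^ i) =
        (j n * (ga * gz ^ i)) * (ga * gz ^ i) := by
      rw [← h1]; group
    exact (mul_right_cancel h2).symm
  have hfix : al ((R ^ i) * n * (R ^ i)⁻¹) = n := by
    have h1 : (ga * gz ^ i) * j n * (ga * gz ^ i)⁻¹ = j n := by
      rw [← hcomm, mul_inv_cancel_right]
    rw [conj_j] at h1
    have h2 : Phi (ga * gz ^ i) = al * MulAut.conj (R ^ i) := by
      rw [map_mul, map_zpow, Phi_ga, Phi_gz, map_zpow]
    have h3 := j_inj h1
    rw [h2, MulAut.mul_apply, MulAut.conj_apply] at h3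
    exact h3
  have hal : al n = (iA (of G0.r ^ i))⁻¹ * n * iA (of G0.r ^ i) := by
    have h1 : iA (of G0.r ^ i) = R ^ i := by
      rw [map_zpow]; simp [iA]
    rw [h1]
    have h2 : al (R ^ i) = R ^ i := by rw [map_zpow, al_R]
    rw [map_mul, map_mul, map_inv, h2] at hfix
    calc al n = (R ^ i)⁻¹ * (R ^ i * al n * (R ^ i)⁻¹) * R ^ i := by group
      _ = (R ^ i)⁻¹ * n * R ^ i := by rw [hfix]
  obtain ⟨a0, ha0⟩ := fix_tw fpF (e := al.toMonoidHom) (f := B1_f) B1_al_iA B1_al_iB B1_inj
    (B1_R_pow hi) hal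
  have hn2 : al n = n := by rw [ha0]; exact B1_al_iA a0
  have hcR : n * R ^ i = R ^ i * n := by
    have h2 : al (R ^ i) = R ^ i := by rw [map_zpow, al_R]
    rw [map_mul, map_mul, map_inv, h2, hn2] at hfix
    have := mul_inv_eq_iff_eq_mul.1 hfix
    exact this.symm
  obtain ⟨k, hk⟩ := comm_R hi hcR
  -- so `φ b` commutes with `ζ`
  have hbz : φ gb * gz = gz * φ gb := by
    rw [hb, hk, map_zpow, j_R]
    have h1 : Commute (gz ^ k * (ga * gz ^ i)) gz :=
      ((Commute.refl gz).zpow_left k).mul_left (ha'.mul_left ((Commute.refl gz).zpow_left i))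
    exact h1.eq
  have hbz' : gb * gz = gz * gb := by
    apply φ.injective
    rw [map_mul, map_mul, hz, hbz]
  have huz : gu * gz = gz * gu := by
    have h1 : Commute gb gz := hbz'
    have h2 : Commute gu gz := h1.mul_left ha'.inv_left
    exact h2.eq
  apply B1_UR
  apply j_inj
  rw [map_mul, map_mul, j_U, j_R, huz]

end Pool.Agent.Helper38.BT
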