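import Pool.Agent.Helper38.BT.InvDef
import Pool.Agent.Helper38.BT.CentP
import Pool.Agent.Helper7.AG.Fv
import Pool.Agent.Helper7.AG.Fsum

/-!
# Project BT (MP_2ec7a7_al), piece BT-B2
-/

namespace Pool.Agent.Helper38.BT

open FreeGroup (of lift)

private lemma B2_pow (x : FreeGroup Unit) : ∃ m : ℤ, x = of () ^ m := by
  refine FreeGroup.induction_on (C := fun x => ∃ m : ℤ, x = of () ^ m) x ?_ ?_ ?_ ?_
  · exact ⟨0, by simp⟩
  · intro y
    exact ⟨1, by rw [zpow_one]⟩
  · intro y _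
    exact ⟨-1, by rw [zpow_neg, zpow_one]⟩
  · rintro x y ⟨m, rfl⟩ ⟨n, rfl⟩
    exact ⟨m + n, by rw [zpow_add]⟩

private lemma B2_dih (l : ℤ) (h : ((DihedralGroup.sr 0 : DihedralGroup 0) * DihedralGroup.sr 1) ^ l =
    (DihedralGroup.sr 0) ^ l * (DihedralGroup.sr 1) ^ l) : l = 0 ∨ l = 1 := by
  have hx : ∀ a : ZMod 0, (DihedralGroup.sr a : DihedralGroup 0) * DihedralGroup.sr a = 1 :=
    fun a => DihedralGroup.sr_mul_self a
  have hxy : (DihedralGroup.sr 0 : DihedralGroup 0) * DihedralGroup.sr 1 =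
      DihedralGroup.r 1 := by
    rw [DihedralGroup.sr_mul_sr, sub_zero]
  have hr : (DihedralGroup.r (1 : ZMod 0) : DihedralGroup 0) ^ l = DihedralGroup.r (l : ℤ) := by
    rw [DihedralGroup.r_one_zpow]
    rfl
  have he : ∀ (a : ZMod 0) (m : ℤ), (DihedralGroup.sr a : DihedralGroup 0) ^ (m + m) = 1 := by
    intro a m
    rw [← two_mul, zpow_mul, zpow_two, hx, one_zpow]
  rcases Int.even_or_odd l with ⟨m, hm⟩ | ⟨m, hm⟩
  · left
    rw [hxy, hr, hm, he, he, one_mul] at h
    rw [hm]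
    have h1 : (DihedralGroup.r ((m + m : ℤ) : ZMod 0) : DihedralGroup 0) = DihedralGroup.r 0 := h
    exact DihedralGroup.r.inj h1
  · right
    have h2 : ∀ a : ZMod 0, (DihedralGroup.sr a : DihedralGroup 0) ^ l = DihedralGroup.sr a := by
      intro a
      rw [hm, two_mul, zpow_add_one, he, one_mul]
    rw [h2, h2, hxy, hr] at h
    exact DihedralGroup.r.inj h

/-- `BT-B2`.  Let `n ∈ ⟨U, R⟩` satisfy `n * (al (cc n)) = cc n`.  Then `n = 1` or
`n = R^k U R^(-k)`.  `al (cc U) = V⁻¹ U`, `cc U = U V⁻¹ U = U (V⁻¹ U)`, and `cc`, `al` fix `R`.  Use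
`mult_word` of `Pool/Agent/Helper7/AG/Fv.lean` for the free products `⟨r⟩ * ⟨u⟩`
(`freeProd_sum Unit Unit`, `n = e n₀`) and `fpF` (`e₀, e₁, e₂` : `r ↦ R`, `u ↦ U V⁻¹ U`, `U`,
`V⁻¹ U`; here `iA` has to be composed with the inclusion of `⟨r⟩`, or use the free product
`⟨r⟩ * ⟨u, v⟩` of the subgroup without `m`): `n₀ = 1` or `n₀ = r^k u^l r^(-k)`, `l ≠ 0`, and
`(u v⁻¹ u)^l = u^l (v⁻¹ u)^l` in the free group of rank two; with `x = u`, `y = v⁻¹ u` (a basis)
this is `(x y)^l = x^l y^l`, so `l = 1` (compare reduced words, or `cent_pow`...). -/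
theorem word_n {n : F} (hn : n ∈ Subgroup.closure ({U, R} : Set F))
    (h : n * al (cc n) = cc n) : n = 1 ∨ ∃ k : ℤ, n = R ^ k * U * (R ^ k)⁻¹ := by
  -- the subgroup as a free product
  let e : FreeGroup (Unit ⊕ Unit) →* F := lift (Sum.elim (fun _ => R) (fun _ => U))
  have eR : e (of (Sum.inl ())) = R := by simp [e]
  have eU : e (of (Sum.inr ())) = U := by simp [e]
  obtain ⟨n₀, rfl⟩ : ∃ n₀, e n₀ = n := by
    have h1 : Subgroup.closure ({U, R} : Set F) ≤ e.range := by
      rw [Subgroup.closure_le]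
      intro x hx
      rcases hx with rfl | hx
      · exact ⟨_, eU⟩
      · rw [Set.mem_singleton_iff] at hx
        subst hx
        exact ⟨_, eR⟩
    exact h1 hn
  -- the retraction of `F`
  let ρ : F →* FreeGroup (Unit ⊕ G1) := lift (fun t => match t with
    | .inl .m => 1
    | .inl .r => of (.inl ())
    | .inr x => of (.inr x))
  have ρR : ρ R = of (.inl ()) := by simp [ρ]
  have ρU : ρ U = of (.inr .u) := by simp [ρ]
  have ρV : ρ V = of (.inr .v) := by simp [ρ]
  let u : FreeGroup G1 := of .u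
  let v : FreeGroup G1 := of .v
  let f₀ : FreeGroup Unit →* FreeGroup G1 := lift (fun _ => u * v⁻¹ * u)
  let f₁ : FreeGroup Unit →* FreeGroup G1 := lift (fun _ => u)
  let f₂ : FreeGroup Unit →* FreeGroup G1 := lift (fun _ => v⁻¹ * u)
  have f0 : ∀ m : ℤ, f₀ (of () ^ m) = (u * v⁻¹ * u) ^ m := by
    intro m; rw [map_zpow]; simp [f₀]
  have f1 : ∀ m : ℤ, f₁ (of () ^ m) = u ^ m := by
    intro m; rw [map_zpow]; simp [f₁]
  have f2 : ∀ m : ℤ, f₂ (of () ^ m) = (v⁻¹ * u) ^ m := by
    intro m; rw [map_zpow]; simp [f₂]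
  -- exponents
  let eu : FreeGroup G1 →* Multiplicative ℤ :=
    lift (fun t => match t with | .u => Multiplicative.ofAdd 1 | .v => 1)
  let ev : FreeGroup G1 →* Multiplicative ℤ :=
    lift (fun t => match t with | .u => 1 | .v => Multiplicative.ofAdd 1)
  have euu : eu u = Multiplicative.ofAdd 1 := by simp [eu, u]
  have euv : eu v = 1 := by simp [eu, v]
  have evu : ev u = 1 := by simp [ev, u]
  have evv : ev v = Multiplicative.ofAdd 1 := by simp [ev, v]
  have inj : ∀ (f : FreeGroup Unit →* FreeGroup G1), (∀ m : ℤ, f (of () ^ m) = 1 → m = 0) →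
      Function.Injective f := by
    intro f hf
    rw [injective_iff_map_eq_one]
    intro x hx
    obtain ⟨m, rfl⟩ := B2_pow x
    rw [hf m hx, zpow_zero]
  have hkey := Pool.Agent.Helper7.AG.mult_word (Pool.Agent.Helper7.AG.freeProd_sum Unit Unit)
    (Pool.Agent.Helper7.AG.freeProd_sum Unit G1) (e₀ := ρ.comp (cc.toMonoidHom.comp e))
    (e₁ := ρ.comp e) (e₂ := ρ.comp (al.toMonoidHom.comp (cc.toMonoidHom.comp e)))
    (f₀ := f₀) (f₁ := f₁) (f₂ := f₂)
    (by
      intro a
      obtain ⟨m, rfl⟩ := B2_pow a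
      rw [map_zpow, map_zpow, map_zpow]
      congr 1)
    (by
      intro a
      obtain ⟨m, rfl⟩ := B2_pow a
      rw [map_zpow, map_zpow, map_zpow]
      congr 1)
    (by
      intro a
      obtain ⟨m, rfl⟩ := B2_pow a
      rw [map_zpow, map_zpow, map_zpow]
      congr 1)
    (by
      intro b
      obtain ⟨m, rfl⟩ := B2_pow b
      rw [f0, map_zpow, map_zpow, map_zpow]
      congr 1)
    (by
      intro b
      obtain ⟨m, rfl⟩ := B2_pow b
      rw [f1, map_zpow, map_zpow, map_zpow]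
      congr 1)
    (by
      intro b
      obtain ⟨m, rfl⟩ := B2_pow b
      rw [f2, map_zpow, map_zpow, map_zpow]
      congr 1
      show ρ (al (cc (e (FreeGroup.map Sum.inr (of ()))))) = FreeGroup.map Sum.inr (v⁻¹ * u)
      rw [FreeGroup.map.of, eU, cc_U]
      simp [ρU, ρV, u, v])
    (inj _ (by
      intro m hm
      rw [f0] at hm
      have h2 := congrArg (fun x => Multiplicative.toAdd (eu x)) hm
      simp [euu, euv] at h2
      omega))
    (inj _ (by
      intro m hm
      rw [f1] at hm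
      have h2 := congrArg (fun x => Multiplicative.toAdd (eu x)) hm
      simp [euu] at h2
      omega))
    (inj _ (by
      intro m hm
      rw [f2] at hm
      have h2 := congrArg (fun x => Multiplicative.toAdd (ev x)) hm
      simp [evu, evv] at h2
      omega))
    (by
      intro b b' hb hb' h1
      obtain ⟨m, rfl⟩ := B2_pow b
      obtain ⟨m', rfl⟩ := B2_pow b'
      rw [f1, f2] at h1
      have h2 := congrArg (fun x => Multiplicative.toAdd (ev x)) h1
      simp [evu, evv] at h2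
      exact hb' (by rw [h2, zpow_zero]))
    (x := n₀) (by
      show ρ (cc (e n₀)) = ρ (e n₀) * ρ (al (cc (e n₀)))
      rw [← map_mul, h])
  rcases hkey with rfl | ⟨a, b, hb, rfl, hf⟩
  · left
    rw [map_one]
  · right
    obtain ⟨k, rfl⟩ := B2_pow a
    obtain ⟨l, rfl⟩ := B2_pow b
    rw [f0, f1, f2] at hf
    let φ : FreeGroup G1 →* DihedralGroup 0 :=
      lift (fun t => match t with
        | .u => DihedralGroup.sr 0
        | .v => DihedralGroup.sr 0 * (DihedralGroup.sr 1)⁻¹)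
    have φu : φ u = DihedralGroup.sr 0 := by simp [φ, u]
    have φvu : φ (v⁻¹ * u) = DihedralGroup.sr 1 := by
      rw [map_mul, map_inv, φu]
      have : φ v = DihedralGroup.sr 0 * (DihedralGroup.sr 1)⁻¹ := by simp [φ, v]
      rw [this]
      group
    have h3 := congrArg φ hf
    rw [map_mul, map_zpow, map_zpow, map_zpow, mul_assoc, map_mul, φvu, φu] at h3
    have hl : l = 1 := by
      rcases B2_dih l h3 with h4 | h4
      · exact absurd (by rw [h4, zpow_zero]) hb
      · exact h4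
    refine ⟨k, ?_⟩
    rw [hl, zpow_one]
    simp only [map_mul, map_inv, map_zpow, FreeGroup.map.of]
    rw [eR, eU]

end Pool.Agent.Helper38.BT
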