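import Pool.Agent.Helper38.BT.G4
import Pool.Agent.Helper7.AG.Fmal

/-!
# Project BT (MP_2ec7a7_al), piece BT-G4K: the subgroup `ka F`
-/

namespace Pool.Agent.Helper38.BT

open Pool.Agent.Helper7.AG (FreeProd Red val pv PNt nt sv)

/-- the exponent sum of the letter `u` -/
private def expU : F →* Multiplicative ℤ :=
  FreeGroup.lift fun x => match x with
    | .inl .m => 1
    | .inl .r => 1
    | .inr .u => Multiplicative.ofAdd 1
    | .inr .v => 1

/-- `BT-G4K` (1): `ka` is injective: `act4 (ka w)` is conjugation by `w`, and `F` has trivial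
centre (`commute_of_pow` of `Pool/Agent/Helper7/AG/Fmal.lean` for two letters). -/
theorem ka_inj : Function.Injective ka := by
  rw [injective_iff_map_eq_one]
  intro w hw
  have h := act4_ka w
  rw [hw, map_one] at h
  have hc : ∀ y : F, w * y ^ (1 : ℤ) = y ^ (1 : ℤ) * w := by
    intro y
    have h1 : y = w * y * w⁻¹ := by simpa using DFunLike.congr_fun h y
    rw [zpow_one]
    exact (eq_mul_inv_iff_mul_eq.1 h1).symm
  obtain ⟨m, hm⟩ := Pool.Agent.Helper7.AG.commute_of_pow (Sum.inr G1.u : G0 ⊕ G1) one_ne_zero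
    (hc U)
  obtain ⟨n, hn⟩ := Pool.Agent.Helper7.AG.commute_of_pow (Sum.inr G1.v : G0 ⊕ G1) one_ne_zero
    (hc V)
  have h1 : expU w = Multiplicative.ofAdd m := by
    rw [hm, map_zpow]
    simp [expU, ← ofAdd_zsmul]
  have h2 : expU w = 1 := by
    rw [hn, map_zpow]
    simp [expU]
  rw [h1] at h2
  have h3 : m = 0 := by simpa using congrArg Multiplicative.toAdd h2
  rw [hm, h3, zpow_zero]

/-- the subgroup `ka F ∪ ka F x1` -/
private def kaK : Subgroup G4 where
  carrier := {g | ∃ w : F, g = ka w ∨ g = ka w * x1}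
  mul_mem' := by
    rintro a b ⟨v, rfl | rfl⟩ ⟨w, rfl | rfl⟩
    · exact ⟨v * w, Or.inl (by rw [map_mul])⟩
    · exact ⟨v * w, Or.inr (by rw [map_mul, mul_assoc])⟩
    · exact ⟨v * tauF w, Or.inr (by rw [map_mul, ka_tauF]; simp [mul_assoc])⟩
    · exact ⟨v * tauF w, Or.inl (by rw [map_mul, ka_tauF]; simp [mul_assoc])⟩
  one_mem' := ⟨1, Or.inl (by rw [map_one])⟩
  inv_mem' := by
    rintro a ⟨w, rfl | rfl⟩
    · exact ⟨w⁻¹, Or.inl (by rw [map_inv])⟩
    · exact ⟨tauF w⁻¹, Or.inr (by rw [ka_tauF]; simp [mul_assoc])⟩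

/-- `BT-G4K` (2): `ka F` has index two.  The set of these `g` is closed under multiplication by the
generators on the left: `x1 (ka w) = ka (tauF w) x1` (`ka_tauF`), `x2 = ka U * x1`, `x3 = ka V * x1`,
`y = ka (M * V) * x1`, and the inverse of `y`.  (The set is a subgroup; use `homG_ext` or the
induction principles of `Monoid.Coprod`, or show that the subgroup contains the ranges of `inG`,
`inG'`.) -/
theorem ka_index (g : G4) : ∃ w : F, g = ka w ∨ g = ka w * x1 := by
  have e1 : x1 ∈ kaK := ⟨1, Or.inr (by simp)⟩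
  have e2 : x2 ∈ kaK := ⟨U, Or.inr (by simp [mul_assoc])⟩
  have e3 : x3 ∈ kaK := ⟨V, Or.inr (by simp [mul_assoc])⟩
  have e4 : yy ∈ kaK := ⟨M * V, Or.inr (by simp [mul_assoc])⟩
  let f : G4 →* kaK := liftG ⟨x1, e1⟩ ⟨x2, e2⟩ ⟨x3, e3⟩ ⟨yy, e4⟩ (Subtype.ext x1_sq)
    (Subtype.ext x2_sq) (Subtype.ext x3_sq)
  have hf : kaK.subtype.comp f = MonoidHom.id G4 := by
    apply homG_ext <;> simp [f]
  have h : ((f g : kaK) : G4) = g := DFunLike.congr_fun hf g
  have hm : g ∈ kaK := by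
    rw [← h]
    exact (f g).2
  exact hm

end Pool.Agent.Helper38.BT
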