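import Pool.Agent.Helper38.BT.G4P
import Pool.Agent.Helper38.BT.G4K
import Pool.Agent.Helper38.BT.Ftw

/-!
# Project BT (MP_2ec7a7_al), piece BT-G4F
-/

namespace Pool.Agent.Helper38.BT

open Pool.Agent.Helper7.AG (FreeProd Red val pv PNt nt sv)

private lemma G4F_c1 (a : A0) : s1 * (s1 * a) = a := by rw [← mul_assoc, s1_sq, one_mul]

private lemma G4F_c2 (a : A0) : s2 * (s2 * a) = a := by rw [← mul_assoc, s2_sq, one_mul]

/-- the action of `ca` on the first factor -/
private def G4F_f : A0 →* A0 := liftA (s1 * s2 * s1) s1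
  (by simp only [mul_assoc, G4F_c1, G4F_c2, s1_sq]) s1_sq

private lemma G4F_ff (a : A0) : G4F_f (G4F_f a) = (s1 * s2) * a * (s1 * s2)⁻¹ := by
  have i1 : s1⁻¹ = s1 := inv_eq_of_mul_eq_one_left s1_sq
  have i2 : s2⁻¹ = s2 := inv_eq_of_mul_eq_one_left s2_sq
  have e : G4F_f.comp G4F_f = (MulAut.conj (s1 * s2)).toMonoidHom := by
    apply homA_ext
    · change G4F_f (G4F_f s1) = (s1 * s2) * s1 * (s1 * s2)⁻¹
      rw [G4F_f, liftA_s1, map_mul, map_mul, liftA_s1, liftA_s2, mul_inv_rev, i1, i2]
      simp only [mul_assoc, G4F_c1, G4F_c2]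
    · change G4F_f (G4F_f s2) = (s1 * s2) * s2 * (s1 * s2)⁻¹
      rw [G4F_f, liftA_s2, liftA_s1, mul_inv_rev, i1, i2]
      simp only [mul_assoc, G4F_c1, G4F_c2]
  exact DFunLike.congr_fun e a

/-- `BT-G4F`.  `g = ka n` is fixed by `ca` and `dd` (`ka_al`, `ka_de`).  `ca ∘ dd` acts on
`inG a` and on `inG' b` (`fpG`) separately, so by `fix_both` `g` is in the subgroup generated by
the `inG a` with `a` fixed by the action of `ca` on `A0` (then `a` is fixed by its square, which is
conjugation by `s1 s2`, so `a` is a power of `s1 s2` by `cent_A`, `K = 1`), and the `inG' b` with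
`b` fixed by the conjugation by `s3 sy` (powers of `s3 sy`).  `x1 x2 = ka U⁻¹`,
`x3 y = ka (U R)`.  Conclude with `ka_inj`. -/
theorem fix_al_de {n : F} (h1 : al n = n) (h2 : de n = n) :
    n ∈ Subgroup.closure ({U, R} : Set F) := by
  have hd : dd (ka n) = ka n := by rw [← ka_de, h2]
  have hc : ca (ka n) = ka n := by rw [← ka_al, h1]
  have he : ∀ a, (ca.comp dd) (inG a) = inG (G4F_f a) := by
    intro a
    have e : (ca.comp dd).comp inG = inG.comp G4F_f := by
      apply homA_ext
      · change ca (dd x1) = inG (G4F_f s1)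
        rw [dd, liftG_x1, ca, liftG_x1, G4F_f, liftA_s1, map_mul, map_mul]
        rfl
      · change ca (dd x2) = inG (G4F_f s2)
        rw [dd, liftG_x2, ca, liftG_x2, G4F_f, liftA_s2]
        rfl
    exact DFunLike.congr_fun e a
  have he' : ∀ b, (ca.comp dd) (inG' b) = inG' ((MulAut.conj (s3 * sy)).toMonoidHom b) := by
    intro b
    have e : (ca.comp dd).comp inG' = inG'.comp (MulAut.conj (s3 * sy)).toMonoidHom := by
      apply homB_ext
      · change ca (dd x3) = inG' ((MulAut.conj (s3 * sy)) s3)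
        rw [dd, liftG_x3, MulAut.conj_apply]
        simp only [map_mul, map_inv]
        rw [ca, liftG_x3, liftG_yy]
        rfl
      · change ca (dd yy) = inG' ((MulAut.conj (s3 * sy)) sy)
        rw [dd, liftG_yy, MulAut.conj_apply]
        simp only [map_mul, map_inv]
        rw [ca, liftG_x3, liftG_yy]
        rfl
    exact DFunLike.congr_fun e b
  have hf : Function.Injective G4F_f := by
    intro a b hab
    have h3 : G4F_f (G4F_f a) = G4F_f (G4F_f b) := by rw [hab]
    rw [G4F_ff, G4F_ff] at h3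
    exact mul_left_cancel (mul_right_cancel h3)
  have hf' : Function.Injective (MulAut.conj (s3 * sy)).toMonoidHom :=
    (MulAut.conj (s3 * sy)).injective
  have hmem := fix_both fpG he he' hf hf' (x := ka n) (by
    change ca (dd (ka n)) = ka n
    rw [hd, hc])
  have hle : Subgroup.closure (inG '' {a | G4F_f a = a} ∪
      inG' '' {b | (MulAut.conj (s3 * sy)).toMonoidHom b = b}) ≤
      (Subgroup.closure ({U, R} : Set F)).map ka := by
    rw [Subgroup.closure_le]
    have hU : U ∈ Subgroup.closure ({U, R} : Set F) := Subgroup.subset_closure (by simp)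
    have hR : R ∈ Subgroup.closure ({U, R} : Set F) := Subgroup.subset_closure (by simp)
    rintro g (⟨a, ha, rfl⟩ | ⟨b, hb, rfl⟩)
    · have ha1 : G4F_f a = a := ha
      have h3 : (s1 * s2) * a * (s1 * s2)⁻¹ = a := by rw [← G4F_ff, ha1, ha1]
      obtain ⟨k, hk⟩ := cent_A (a := a) (K := 1) Nat.one_pos (by
        rw [pow_one]
        exact (mul_inv_eq_iff_eq_mul.1 h3).symm)
      refine ⟨(U⁻¹) ^ k, Subgroup.zpow_mem _ (Subgroup.inv_mem _ hU) k, ?_⟩
      rw [map_zpow, map_inv, ka_U, mul_inv_rev, x1_inv, x2_inv, hk, map_zpow, map_mul]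
      rfl
    · have hb1 : (s3 * sy) * b * (s3 * sy)⁻¹ = b := hb
      obtain ⟨k, hk⟩ := cent_B (b := b) (K := 1) Nat.one_pos (by
        rw [pow_one]
        exact (mul_inv_eq_iff_eq_mul.1 hb1).symm)
      refine ⟨(U * R) ^ k, Subgroup.zpow_mem _ (Subgroup.mul_mem _ hU hR) k, ?_⟩
      have e : ka (U * R) = x3 * yy := by
        rw [map_mul, ka_U, ka_R]
        simp [mul_assoc]
      rw [map_zpow, e, hk, map_zpow, map_mul]
      rfl
  obtain ⟨m, hm, hmn⟩ := hle hmem
  rwa [← ka_inj hmn]

end Pool.Agent.Helper38.BT
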