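import Pool.Agent.Helper38.BT.Char2
import Pool.Agent.Helper38.BT.G4F
import Pool.Agent.Helper38.BT.B2
import Pool.Agent.Helper38.BT.Grp2

/-!
# Project BT (MP_2ec7a7_al), piece BT-B3
-/

namespace Pool.Agent.Helper38.BT

open FreeGroup (of lift)

/-- `BT-B3`.  An automorphism which fixes `a, c, d` is conjugation by a power of `ζ`.
`φ b = φ(u) φ(a) = j n * a` (`char_j`).  `b` commutes with `a`: `al n = n`.  `b` commutes with `d`,
and so does `a`: `de n = n`.  So `n ∈ ⟨U, R⟩` (`fix_al_de`).  The braid relation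
`b c b = c b c`: `j n a c (j n) a = c (j n) a c`; with `conj_j` and `a c a = c a c`
`n * al (cc n) = cc n`.  By `word_n` `n = 1` (then `φ b = a = φ a`, `b = a`, `u = 1`,
contradiction to `j_inj`) or `n = R^k U R^(-k)`, so `φ b = ζ^k u ζ^(-k) a = ζ^k b ζ^(-k)`
(`a` commutes with `ζ`), and `ζ^k` commutes with `a, c, d`. -/
theorem fix_acd {φ : MulAut GB} (ha : φ ga = ga) (hc : φ gc = gc) (hd : φ gd = gd) :
    ∃ k : ℤ, φ = MulAut.conj (gz ^ k) := by
  obtain ⟨n, hn⟩ := char_j φ U
  have hb : gb = j U * ga := by rw [j_U, gu, inv_mul_cancel_right]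
  have hφb : φ gb = j n * ga := by rw [hb, map_mul, hn, ha]
  -- `b` commutes with `a`
  have h1 : al n = n := by
    have h := congrArg φ ga_gb
    rw [map_mul, map_mul, ha, hφb] at h
    have h2 : ga * j n * ga⁻¹ = j n := by
      rw [mul_inv_eq_iff_eq_mul]
      have h3 : ga * j n * ga = j n * ga * ga := by rw [mul_assoc]; exact h
      exact mul_right_cancel h3
    rw [conj_j, Phi_ga] at h2
    exact j_inj h2
  -- `b` commutes with `d`
  have h2 : de n = n := by
    have h := congrArg φ gb_gd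
    rw [map_mul, map_mul, hd, hφb] at h
    have h2 : gd * j n * gd⁻¹ = j n := by
      rw [mul_inv_eq_iff_eq_mul]
      have h3 : gd * j n * ga = j n * gd * ga := by
        rw [mul_assoc (j n), ← ga_gd, ← mul_assoc (j n), h, mul_assoc]
      exact mul_right_cancel h3
    rw [conj_j, Phi_gd] at h2
    exact j_inj h2
  have h3 := fix_al_de h1 h2
  -- the braid relation
  have h4 : n * al (cc n) = cc n := by
    have h := congrArg φ gb_gc
    rw [map_mul, map_mul, map_mul, map_mul, hc, hφb] at h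
    apply j_inj
    rw [map_mul]
    have e1 : j (al (cc n)) = (ga * gc) * j n * (ga * gc)⁻¹ := by
      rw [conj_j, map_mul, Phi_ga, Phi_gc, MulAut.mul_apply]
    have e2 : j (cc n) = gc * j n * gc⁻¹ := by rw [conj_j, Phi_gc]
    rw [e1, e2]
    apply mul_right_cancel (b := ga * gc * ga)
    calc j n * ((ga * gc) * j n * (ga * gc)⁻¹) * (ga * gc * ga)
        = j n * ga * gc * (j n * ga) := by group
      _ = gc * (j n * ga) * gc := h
      _ = gc * j n * gc⁻¹ * (gc * ga * gc) := by group
      _ = gc * j n * gc⁻¹ * (ga * gc * ga) := by rw [ga_gc]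
  rcases word_n h3 h4 with h5 | ⟨k, hk⟩
  · exfalso
    rw [h5, map_one, one_mul, ← ha] at hφb
    have h6 : gb = ga := φ.injective (by rw [hφb, ha])
    have h7 : j U = j 1 := by rw [j_U, gu, h6, mul_inv_cancel, map_one]
    exact FreeGroup.of_ne_one _ (j_inj h7)
  · refine ⟨k, ?_⟩
    have hza : Commute ga (gz ^ k) := (show Commute ga gz from ga_gz).zpow_right k
    have hzc : Commute gc (gz ^ k) := (show Commute gc gz from gc_gz).zpow_right k
    have hzd : Commute gd (gz ^ k) := (show Commute gd gz from gd_gz).zpow_right k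
    have hconj : ∀ x : GB, Commute x (gz ^ k) → MulAut.conj (gz ^ k) x = x := by
      intro x hx
      rw [MulAut.conj_apply, ← hx.eq, mul_inv_cancel_right]
    have key : φ.toMonoidHom = (MulAut.conj (gz ^ k)).toMonoidHom := by
      apply hom_ext4
      · show φ ga = MulAut.conj (gz ^ k) ga
        rw [ha, hconj _ hza]
      · show φ gb = MulAut.conj (gz ^ k) gb
        rw [hφb, hk, map_mul, map_mul, map_inv, map_zpow, j_R, j_U, MulAut.conj_apply, gu]
        have e : (gz ^ k)⁻¹ * ga = ga * (gz ^ k)⁻¹ := (hza.inv_right).eq.symm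
        calc gz ^ k * (gb * ga⁻¹) * (gz ^ k)⁻¹ * ga
            = gz ^ k * (gb * ga⁻¹) * ((gz ^ k)⁻¹ * ga) := by group
          _ = gz ^ k * (gb * ga⁻¹) * (ga * (gz ^ k)⁻¹) := by rw [e]
          _ = gz ^ k * gb * (gz ^ k)⁻¹ := by group
      · show φ gc = MulAut.conj (gz ^ k) gc
        rw [hc, hconj _ hzc]
      · show φ gd = MulAut.conj (gz ^ k) gd
        rw [hd, hconj _ hzd]
    ext x
    exact DFunLike.congr_fun key x

end Pool.Agent.Helper38.BT
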