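import Pool.Agent.Helper7.AG.Sl0
import Pool.Agent.Helper7.AG.Sl1

/-!
# Project BT (MP_2ec7a7_al), piece BT-CLB: commuting matrices in `SL(2, ℤ)` (tools: `comm_of_comm`, `tr_AB`)
-/

namespace Pool.Agent.Helper38.BT

open Matrix
open Pool.Agent.Helper7.AG (SL mA mB tr mA_braid)

private lemma SlB_mul (X Y : SL) (i j : Fin 2) :
    (X * Y) i j = X i 0 * Y 0 j + X i 1 * Y 1 j := by
  rw [Matrix.SpecialLinearGroup.coe_mul, Matrix.mul_apply, Fin.sum_univ_two]

private lemma SlB_det (X : SL) : X 0 0 * X 1 1 - X 0 1 * X 1 0 = 1 := by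
  have h := X.det_coe
  rwa [Matrix.det_fin_two] at h

private lemma SlB_ext {X Y : SL} (h0 : X 0 0 = Y 0 0) (h1 : X 0 1 = Y 0 1) (h2 : X 1 0 = Y 1 0)
    (h3 : X 1 1 = Y 1 1) : X = Y := by
  ext i j
  fin_cases i <;> fin_cases j
  · exact h0
  · exact h1
  · exact h2
  · exact h3

private lemma SlB_tr_comm (X Y : SL) : tr (X * Y) = tr (Y * X) := by
  unfold tr
  rw [SlB_mul, SlB_mul, SlB_mul, SlB_mul]
  ring

private lemma SlB_tr_braid {A C : SL} (h : A * C * A = C * A * C) : tr C = tr A := by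
  have h4 : C = (A * C) * A * (A * C)⁻¹ := by
    rw [h, mul_assoc C A C, mul_inv_cancel_right]
  have h5 : tr ((A * C) * A * (A * C)⁻¹) = tr ((A * C)⁻¹ * ((A * C) * A)) := SlB_tr_comm _ _
  rw [← h4, inv_mul_cancel_left] at h5
  exact h5

private lemma SlB_sq {t : ℤ} : t ^ 2 - 2 ≠ 0 := by
  intro h
  have h1 : t < 2 := by nlinarith
  have h2 : -2 < t := by nlinarith
  have h3 : t = -1 ∨ t = 0 ∨ t = 1 := by omega
  rcases h3 with rfl | rfl | rfl <;> norm_num at h

private lemma SlB_main {A B C : SL} {g w z : ℤ} (hg : g ≠ 0)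
    (h0 : g * B 0 0 = w * A 0 0 + z)
    (h1 : g * B 0 1 = w * A 0 1) (h2 : g * B 1 0 = w * A 1 0) (h3 : g * B 1 1 = w * A 1 1 + z)
    (hAC : tr (A * C) = 1) (hBC : tr (B * C) = 1) (hA : tr C = tr A) (hB : tr C = tr B) :
    B = A := by
  have e1 : g = w + z * tr C := by
    have : g * tr (B * C) = w * tr (A * C) + z * tr C := by
      unfold tr
      rw [SlB_mul, SlB_mul, SlB_mul, SlB_mul]
      linear_combination (C 0 0) * h0 + (C 0 1) * h2 + (C 1 0) * h1 + (C 1 1) * h3
    rw [hAC, hBC, mul_one, mul_one] at this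
    exact this
  have e2 : g * tr B = w * tr A + 2 * z := by
    unfold tr
    linear_combination h0 + h3
  have e3 : z * (tr C ^ 2 - 2) = 0 := by
    rw [← hA, ← hB] at e2
    linear_combination e2 - tr C * e1
  have hz : z = 0 := (mul_eq_zero.1 e3).resolve_right SlB_sq
  rw [hz, zero_mul, add_zero] at e1
  rw [hz, ← e1, add_zero] at h0 h3
  rw [← e1] at h1 h2
  exact SlB_ext (mul_left_cancel₀ hg h0) (mul_left_cancel₀ hg h1) (mul_left_cancel₀ hg h2)
    (mul_left_cancel₀ hg h3)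

/-- `BT-CLB`.  `B` and `C` do not commute (else `B = C` by `h3`, and `A` commutes with `C`), so
`tr_AB` gives `tr (A C) = tr (B C) = 1`; `tr A = tr C = tr B = t` (conjugate by the braid
relations).  `B = x + y A` (`B` commutes with the non-scalar `A`): `2 x + y t = t`, `x t + y = 1`;
so `x (2 - t²) = 0`, `x = 0` (`t` is an integer), `y = 1`. -/
theorem class_B {A B C : SL} (h1 : A * B = B * A) (h2 : A * C * A = C * A * C)
    (h3 : B * C * B = C * B * C) (hn : A * C ≠ C * A) : B = A := by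
  have hn' : B * C ≠ C * B := by
    intro h
    apply hn
    have h4 : B * C * B = B * C * C := by rw [h3, h]
    have h5 : B = C := mul_left_cancel h4
    rw [← h5]
    exact h1
  obtain ⟨tA, -, -⟩ := Pool.Agent.Helper7.AG.tr_AB h2 hn
  obtain ⟨tB, -, -⟩ := Pool.Agent.Helper7.AG.tr_AB h3 hn'
  have hA := SlB_tr_braid h2
  have hB := SlB_tr_braid h3
  have c00 := congrArg (fun X : SL => X 0 0) h1
  have c01 := congrArg (fun X : SL => X 0 1) h1
  have c10 := congrArg (fun X : SL => X 1 0) h1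
  simp only [SlB_mul] at c00 c01 c10
  by_cases hb : A 0 1 = 0
  · by_cases hc : A 1 0 = 0
    · exfalso
      have hd := SlB_det A
      rw [hb, zero_mul, sub_zero] at hd
      have he : A 0 0 = A 1 1 := Int.eq_of_mul_eq_one hd
      apply hn
      apply SlB_ext
      · simp only [SlB_mul, hb, hc]; ring
      · simp only [SlB_mul, hb, hc, he]; ring
      · simp only [SlB_mul, hb, hc, he]; ring
      · simp only [SlB_mul, hb, hc]; ring
    · have e0 : A 1 0 * B 0 0 = B 1 0 * A 0 0 + (A 1 0 * B 0 0 - B 1 0 * A 0 0) := by ring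
      have e1 : A 1 0 * B 0 1 = B 1 0 * A 0 1 := by linear_combination (-1 : ℤ) * c00
      have e2 : A 1 0 * B 1 0 = B 1 0 * A 1 0 := by ring
      have e3 : A 1 0 * B 1 1 = B 1 0 * A 1 1 + (A 1 0 * B 0 0 - B 1 0 * A 0 0) := by
        linear_combination (-1 : ℤ) * c10
      exact SlB_main hc e0 e1 e2 e3 tA tB hA hB
  · have e0 : A 0 1 * B 0 0 = B 0 1 * A 0 0 + (A 0 1 * B 0 0 - B 0 1 * A 0 0) := by ring
    have e1 : A 0 1 * B 0 1 = B 0 1 * A 0 1 := by ring
    have e2 : A 0 1 * B 1 0 = B 0 1 * A 1 0 := by linear_combination c00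
    have e3 : A 0 1 * B 1 1 = B 0 1 * A 1 1 + (A 0 1 * B 0 0 - B 0 1 * A 0 0) := by
      linear_combination c01
    exact SlB_main hb e0 e1 e2 e3 tA tB hA hB

end Pool.Agent.Helper38.BT
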