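import Pool.Agent.Helper7.AG.Sl0
import Pool.Agent.Helper7.AG.Sl1

/-!
# Project BT (MP_2ec7a7_al), piece BT-CLD: commuting matrices in `SL(2, ℤ)` (tools: `comm_of_comm`, `tr_AB`)
-/

namespace Pool.Agent.Helper38.BT

open Matrix
open Pool.Agent.Helper7.AG (SL mA mB tr mA_braid)

private lemma SlD_mul (X Y : SL) (i j : Fin 2) :
    (X * Y) i j = X i 0 * Y 0 j + X i 1 * Y 1 j := by
  rw [Matrix.SpecialLinearGroup.coe_mul, Matrix.mul_apply, Fin.sum_univ_two]

private lemma SlD_det (X : SL) : X 0 0 * X 1 1 - X 0 1 * X 1 0 = 1 := by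
  have h := X.det_coe
  rwa [Matrix.det_fin_two] at h

private lemma SlD_ext {X Y : SL} (h0 : X 0 0 = Y 0 0) (h1 : X 0 1 = Y 0 1) (h2 : X 1 0 = Y 1 0)
    (h3 : X 1 1 = Y 1 1) : X = Y := by
  ext i j
  fin_cases i <;> fin_cases j
  · exact h0
  · exact h1
  · exact h2
  · exact h3

private lemma SlD_neg (X : SL) (i j : Fin 2) : (-X) i j = - X i j := by
  rw [Matrix.SpecialLinearGroup.coe_neg, Matrix.neg_apply]

private lemma SlD_tr_comm (X Y : SL) : tr (X * Y) = tr (Y * X) := by
  unfold tr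
  rw [SlD_mul, SlD_mul, SlD_mul, SlD_mul]
  ring

private lemma SlD_sq (X : SL) :
    (X * X) 0 0 = tr X * X 0 0 - 1 ∧ (X * X) 0 1 = tr X * X 0 1 ∧
    (X * X) 1 0 = tr X * X 1 0 ∧ (X * X) 1 1 = tr X * X 1 1 - 1 := by
  have hd := SlD_det X
  unfold tr
  simp only [SlD_mul]
  refine ⟨?_, ?_, ?_, ?_⟩
  · linear_combination (-1) * hd
  · ring
  · ring
  · linear_combination (-1) * hd

private lemma SlD_tr_braid {A C : SL} (h : A * C * A = C * A * C) : tr C = tr A := by
  have h4 : C = (A * C) * A * (A * C)⁻¹ := by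
    rw [h, mul_assoc C A C, mul_inv_cancel_right]
  have h5 : tr ((A * C) * A * (A * C)⁻¹) = tr ((A * C)⁻¹ * ((A * C) * A)) := SlD_tr_comm _ _
  rw [← h4, inv_mul_cancel_left] at h5
  exact h5

/-- if `C` commutes with `X ^ 2` and `X` has non-zero trace then `C` commutes with `X` -/
private lemma SlD_comm {C X : SL} (h : C * (X * X) = (X * X) * C) (hX : tr X ≠ 0) :
    C * X = X * C := by
  obtain ⟨s0, s1, s2, s3⟩ := SlD_sq X
  have c00 := congrArg (fun Y : SL => Y 0 0) h
  have c01 := congrArg (fun Y : SL => Y 0 1) h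
  have c10 := congrArg (fun Y : SL => Y 1 0) h
  have c11 := congrArg (fun Y : SL => Y 1 1) h
  simp only [SlD_mul C (X * X), SlD_mul (X * X) C, s0, s1, s2, s3] at c00 c01 c10 c11
  apply SlD_ext <;> simp only [SlD_mul] <;> apply mul_left_cancel₀ hX
  · linear_combination c00
  · linear_combination c01
  · linear_combination c10
  · linear_combination c11

private lemma SlD_main {A C D : SL} {g w z : ℤ} (hg : g ≠ 0)
    (h0 : g * D 0 0 = w * A 0 0 + z)
    (h1 : g * D 0 1 = w * A 0 1) (h2 : g * D 1 0 = w * A 1 0) (h3 : g * D 1 1 = w * A 1 1 + z)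
    (hAC : tr (A * C) = 1) (hA : tr C = tr A) (hCD : tr (C * D) = 0) :
    D = A ^ 2 ∨ D = -A ^ 2 := by
  have e1 : w = -z * tr A := by
    have : g * tr (C * D) = w * tr (A * C) + z * tr C := by
      unfold tr
      rw [SlD_mul, SlD_mul, SlD_mul, SlD_mul]
      linear_combination (C 0 0) * h0 + (C 0 1) * h2 + (C 1 0) * h1 + (C 1 1) * h3
    rw [hCD, hAC, hA] at this
    linarith
  have hd := SlD_det D
  have ha := SlD_det A
  have e2 : g ^ 2 = z ^ 2 := by
    have : g ^ 2 = w ^ 2 + w * z * tr A + z ^ 2 := by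
      have e3 : g ^ 2 = (g * D 0 0) * (g * D 1 1) - (g * D 0 1) * (g * D 1 0) := by
        linear_combination (-g ^ 2) * hd
      rw [e3, h0, h1, h2, h3]
      unfold tr
      linear_combination w ^ 2 * ha
    rw [this, e1]
    ring
  obtain ⟨s0, s1, s2, s3⟩ := SlD_sq A
  rcases sq_eq_sq_iff_eq_or_eq_neg.1 e2 with h | h
  · right
    have hz : z = g := h.symm
    rw [e1, hz] at h0 h1 h2 h3
    apply SlD_ext <;> rw [SlD_neg, pow_two] <;> apply mul_left_cancel₀ hg
    · rw [s0, h0]; ring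
    · rw [s1, h1]; ring
    · rw [s2, h2]; ring
    · rw [s3, h3]; ring
  · left
    have hz : z = -g := by rw [h, neg_neg]
    rw [e1, hz] at h0 h1 h2 h3
    apply SlD_ext <;> rw [pow_two] <;> apply mul_left_cancel₀ hg
    · rw [s0, h0]; ring
    · rw [s1, h1]; ring
    · rw [s2, h2]; ring
    · rw [s3, h3]; ring

/-- `BT-CLD`.  Let `t = tr A = tr C` (`A`, `C` are conjugate by the braid relation).  By `tr_AB`
`tr (A C) = 1`.  `A` is not `± 1` (else it commutes with `C`).  `D` commutes with `A`, so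
`D = x + y A` with rational `x`, `y` (`A ≠ ±1` is not scalar).  From `h3`, `X = C D` satisfies
`C X² = X² C`, and `X² = τ X - 1`, `τ = tr X`.  If `τ ≠ 0`, then `C` commutes with `X`, so with
`D`; then `D = ±1` (`comm_of_comm`: else `A` and `C` commute).  If `τ = 0`, then
`0 = tr (C D) = x t + y` and `1 = det D = x² + x y t + y²`, so `x² = 1`, `D = ±(1 - t A) = ∓ A²`.
(Or compute with entries.) -/
theorem class_D {A C D : SL} (h1 : A * D = D * A) (h2 : A * C * A = C * A * C)
    (h3 : C * D * C * D = D * C * D * C) (hn : A * C ≠ C * A) :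
    ∃ k : ℕ, (k = 0 ∨ k = 2) ∧ (D = A ^ k ∨ D = -A ^ k) := by
  by_cases hs : D = 1 ∨ D = -1
  · refine ⟨0, Or.inl rfl, ?_⟩
    rw [pow_zero]
    exact hs
  · obtain ⟨tA, -, -⟩ := Pool.Agent.Helper7.AG.tr_AB h2 hn
    have hA := SlD_tr_braid h2
    have hX : C * ((C * D) * (C * D)) = ((C * D) * (C * D)) * C := by
      have e : (C * D) * (C * D) = D * C * D * C := by
        rw [← h3]
        group
      calc C * ((C * D) * (C * D)) = C * (D * C * D * C) := by rw [e]
        _ = (C * D) * (C * D) * C := by group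
    have hτ : tr (C * D) = 0 := by
      by_contra hτ
      have h4 := SlD_comm hX hτ
      have h5 : C * D = D * C := by
        apply mul_left_cancel (a := C)
        rw [h4, mul_assoc]
      push Not at hs
      apply hn
      exact Pool.Agent.Helper7.AG.comm_of_comm hs.1 hs.2 h1.symm h5.symm
    refine ⟨2, Or.inr rfl, ?_⟩
    have c00 := congrArg (fun X : SL => X 0 0) h1
    have c01 := congrArg (fun X : SL => X 0 1) h1
    have c10 := congrArg (fun X : SL => X 1 0) h1
    simp only [SlD_mul] at c00 c01 c10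
    by_cases hb : A 0 1 = 0
    · by_cases hc : A 1 0 = 0
      · exfalso
        have hd := SlD_det A
        rw [hb, zero_mul, sub_zero] at hd
        have he : A 0 0 = A 1 1 := Int.eq_of_mul_eq_one hd
        apply hn
        apply SlD_ext
        · simp only [SlD_mul, hb, hc]; ring
        · simp only [SlD_mul, hb, hc, he]; ring
        · simp only [SlD_mul, hb, hc, he]; ring
        · simp only [SlD_mul, hb, hc]; ring
      · have e0 : A 1 0 * D 0 0 = D 1 0 * A 0 0 + (A 1 0 * D 0 0 - D 1 0 * A 0 0) := by ring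
        have e1 : A 1 0 * D 0 1 = D 1 0 * A 0 1 := by linear_combination (-1 : ℤ) * c00
        have e2 : A 1 0 * D 1 0 = D 1 0 * A 1 0 := by ring
        have e3 : A 1 0 * D 1 1 = D 1 0 * A 1 1 + (A 1 0 * D 0 0 - D 1 0 * A 0 0) := by
          linear_combination (-1 : ℤ) * c10
        exact SlD_main hc e0 e1 e2 e3 tA hA hτ
    · have e0 : A 0 1 * D 0 0 = D 0 1 * A 0 0 + (A 0 1 * D 0 0 - D 0 1 * A 0 0) := by ring
      have e1 : A 0 1 * D 0 1 = D 0 1 * A 0 1 := by ring
      have e2 : A 0 1 * D 1 0 = D 0 1 * A 1 0 := by linear_combination c00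
      have e3 : A 0 1 * D 1 1 = D 0 1 * A 1 1 + (A 0 1 * D 0 0 - D 0 1 * A 0 0) := by
        linear_combination c01
      exact SlD_main hb e0 e1 e2 e3 tA hA hτ

end Pool.Agent.Helper38.BT
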