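import Pool.Agent.Helper38.BT.PpJ
import Pool.Agent.Helper38.BT.SlD
import Pool.Agent.Helper38.BT.SlB
import Pool.Agent.Helper7.AG.Sl4
import Pool.Agent.Helper7.AG.Sl6

/-!
# Project BT (MP_2ec7a7_al), piece BT-CLS: the homomorphisms `(pp i) ∘ φ`
-/

namespace Pool.Agent.Helper38.BT

open Matrix
open Pool.Agent.Helper7.AG (SL mA mB tr mA_braid)

private lemma Pcls_comm_aux {A B C D : SL} (h1 : A * B = B * A) (h2 : A * C * A = C * A * C)
    (h3 : B * C * B = C * B * C) (h4 : A * D = D * A) (hc : A * C = C * A)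
    (hg : Subgroup.closure ({A, B, C, D} : Set SL) = ⊤) : False := by
  have hAC : A = C := by
    have h : C * A * A = C * A * C := by rw [← h2, hc]
    exact mul_left_cancel h
  subst hAC
  have hBA : B = A := by
    have h : A * B * B = A * B * A := by rw [← h3, ← h1]
    exact mul_left_cancel h
  subst hBA
  have hcomm : ∀ y ∈ ({B, B, B, D} : Set SL), ∀ z ∈ ({B, B, B, D} : Set SL), y * z = z * y := by
    intro y hy z hz
    simp only [Set.mem_insert_iff, Set.mem_singleton_iff] at hy hz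
    rcases hy with rfl | rfl | rfl | rfl <;> rcases hz with rfl | rfl | rfl | rfl <;>
      first | rfl | exact h4 | exact h4.symm
  have hcen : ∀ y ∈ ({B, B, B, D} : Set SL), ∀ x : SL, y * x = x * y := by
    intro y hy x
    have hx : x ∈ Subgroup.closure ({B, B, B, D} : Set SL) := by rw [hg]; trivial
    have hle : Subgroup.closure ({B, B, B, D} : Set SL) ≤ Subgroup.centralizer {y} := by
      rw [Subgroup.closure_le]
      intro z hz
      rw [SetLike.mem_coe, Subgroup.mem_centralizer_singleton_iff]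
      exact hcomm z hz y hy
    exact ((Subgroup.mem_centralizer_singleton_iff).1 (hle hx)).symm
  have hle : Subgroup.closure ({B, B, B, D} : Set SL) ≤ Subgroup.center SL := by
    rw [Subgroup.closure_le]
    intro y hy
    rw [SetLike.mem_coe, Subgroup.mem_center_iff]
    intro g
    exact (hcen y hy g).symm
  have hm : mA ∈ Subgroup.center SL := by
    apply hle
    rw [hg]
    trivial
  have h5 := (Subgroup.mem_center_iff).1 hm mB
  have h6 : ((mB * mA : SL) : Matrix (Fin 2) (Fin 2) ℤ) 0 0 =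
      ((mA * mB : SL) : Matrix (Fin 2) (Fin 2) ℤ) 0 0 := by rw [h5]
  rw [Matrix.SpecialLinearGroup.coe_mul, Matrix.SpecialLinearGroup.coe_mul, Matrix.mul_apply,
    Matrix.mul_apply, Fin.sum_univ_two, Fin.sum_univ_two] at h6
  simp [mA, mB] at h6

private lemma Pcls_pow {A : SL} {M : Matrix (Fin 2) (Fin 2) ℤ} {s : ℤ}
    (h : (A : Matrix (Fin 2) (Fin 2) ℤ) * M = s • (M * (mA : Matrix (Fin 2) (Fin 2) ℤ))) (k : ℕ) :
    ((A ^ k : SL) : Matrix (Fin 2) (Fin 2) ℤ) * M =
      s ^ k • (M * ((mA ^ k : SL) : Matrix (Fin 2) (Fin 2) ℤ)) := by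
  induction k with
  | zero => simp
  | succ k ih =>
    rw [pow_succ, pow_succ' mA, Matrix.SpecialLinearGroup.coe_mul,
      Matrix.SpecialLinearGroup.coe_mul, Matrix.mul_assoc, h, Matrix.mul_smul,
      ← Matrix.mul_assoc, ih, Matrix.smul_mul, smul_smul, Matrix.mul_assoc,
      ← Matrix.SpecialLinearGroup.coe_mul, ← Matrix.SpecialLinearGroup.coe_mul,
      ← pow_succ, ← pow_succ', pow_succ' s, pow_succ' mA]

private lemma Pcls_sign_pow {s : ℤ} (h : s = 1 ∨ s = -1) (k : ℕ) : s ^ k = 1 ∨ s ^ k = -1 := by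
  rcases h with rfl | rfl
  · left; simp
  · exact neg_one_pow_eq_or ℤ k

/-- `BT-CLS`.  As `class_pp` of `Pool/Agent/Helper7/AG/Pcls.lean` (copy and adapt: the file is
short).  Let `A, B, C, D` be the images of `ga, gb, gc, gd` under `(pp i) ∘ φ`.  They satisfy the
relations of `GB` and generate `SL` (`closure_gen`, `closure_AB`: the image of `pp i` contains
`mA` and `mB`).  If `A C = C A`, then `A = C` (braid relation), `B` commutes with `A = C`, so
`B = C` (braid relation), and `D` commutes with `A = B = C`: the group would be commutative, but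
`mA mB ≠ mB mA`.  `class_B`: `B = A`.  `class_D`: `D = ± A ^ k`, `k = ek i'`.  `tr_AB`, `class_AB`
(`closure {A, C} = ⊤` since `-1 = (A C)³`) give `M`, `s`.  The set of the `x` for which the
conclusion holds is closed under products and inverses and contains the generators. -/
theorem class_pp (i : Fin 2) (φ : MulAut GB) :
    ∃ (i' : Fin 2) (M : Matrix (Fin 2) (Fin 2) ℤ), (M.det = 1 ∨ M.det = -1) ∧
      ∀ x : GB, ∃ s : ℤ, (s = 1 ∨ s = -1) ∧
        ((pp i (φ x) : SL) : Matrix (Fin 2) (Fin 2) ℤ) * M =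
          s • (M * ((pp i' x : SL) : Matrix (Fin 2) (Fin 2) ℤ)) := by
  obtain ⟨f, hf⟩ : ∃ f : GB →* SL, ∀ x, f x = pp i (φ x) :=
    ⟨(pp i).comp φ.toMonoidHom, fun x => rfl⟩
  have hAB : f ga * f gb = f gb * f ga := by rw [← map_mul, ga_gb, map_mul]
  have hAD : f ga * f gd = f gd * f ga := by rw [← map_mul, ga_gd, map_mul]
  have hAC : f ga * f gc * f ga = f gc * f ga * f gc := by
    rw [← map_mul, ← map_mul, ga_gc, map_mul, map_mul]
  have hBC : f gb * f gc * f gb = f gc * f gb * f gc := by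
    rw [← map_mul, ← map_mul, gb_gc, map_mul, map_mul]
  have hCD : f gc * f gd * f gc * f gd = f gd * f gc * f gd * f gc := by
    rw [← map_mul, ← map_mul, ← map_mul, gc_gd, map_mul, map_mul, map_mul]
  have hsurj : Function.Surjective f := by
    have h1 : (pp i).range = ⊤ := by
      rw [eq_top_iff, ← Pool.Agent.Helper7.AG.closure_AB, Subgroup.closure_le]
      intro y hy
      simp only [Set.mem_insert_iff, Set.mem_singleton_iff] at hy
      rcases hy with rfl | rfl
      · exact ⟨ga, pp_ga i⟩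
      · exact ⟨gc, pp_gc i⟩
    intro y
    obtain ⟨x, hx⟩ := MonoidHom.range_eq_top.1 h1 y
    obtain ⟨z, hz⟩ := φ.surjective x
    exact ⟨z, by rw [hf, hz, hx]⟩
  have hgen : Subgroup.closure ({f ga, f gb, f gc, f gd} : Set SL) = ⊤ := by
    have h1 : f '' ({ga, gb, gc, gd} : Set GB) = {f ga, f gb, f gc, f gd} := by
      rw [Set.image_insert_eq, Set.image_insert_eq, Set.image_insert_eq, Set.image_singleton]
    rw [← h1, ← MonoidHom.map_closure, closure_gen]
    exact Subgroup.map_top_of_surjective f hsurj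
  have hn : f ga * f gc ≠ f gc * f ga := fun h => Pcls_comm_aux hAB hAC hBC hAD h hgen
  have hBA : f gb = f ga := class_B hAB hAC hBC hn
  obtain ⟨k, hk, hDk⟩ := class_D hAD hAC hCD hn
  obtain ⟨ht, ht', hcube⟩ := Pool.Agent.Helper7.AG.tr_AB hAC hn
  have hgen2 : Subgroup.closure ({f ga, f gc} : Set SL) = ⊤ := by
    rw [eq_top_iff, ← hgen, Subgroup.closure_le]
    have ha : f ga ∈ Subgroup.closure ({f ga, f gc} : Set SL) :=
      Subgroup.subset_closure (by simp)
    have hc : f gc ∈ Subgroup.closure ({f ga, f gc} : Set SL) :=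
      Subgroup.subset_closure (by simp)
    intro y hy
    simp only [Set.mem_insert_iff, Set.mem_singleton_iff] at hy
    rcases hy with rfl | rfl | rfl | rfl
    · exact ha
    · rw [hBA]
      exact ha
    · exact hc
    · rcases hDk with h | h
      · rw [h]
        exact Subgroup.pow_mem _ ha k
      · rw [h]
        have h1 : -(f ga) ^ k = (f ga * f gc) ^ 3 * (f ga) ^ k := by rw [hcube, neg_one_mul]
        rw [h1]
        exact Subgroup.mul_mem _ (Subgroup.pow_mem _ (Subgroup.mul_mem _ ha hc) 3)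
          (Subgroup.pow_mem _ ha k)
  obtain ⟨M, s, hM, hs, hAM, hCM⟩ := Pool.Agent.Helper7.AG.class_AB hAC ht ht' hgen2
  obtain ⟨i', hi'⟩ : ∃ i' : Fin 2, ek i' = k := by
    rcases hk with rfl | rfl
    · exact ⟨0, rfl⟩
    · exact ⟨1, rfl⟩
  refine ⟨i', M, hM, ?_⟩
  intro x
  rw [← hf]
  have hx : x ∈ Subgroup.closure ({ga, gb, gc, gd} : Set GB) := by rw [closure_gen]; trivial
  induction hx using Subgroup.closure_induction with
  | mem y hy =>
    simp only [Set.mem_insert_iff, Set.mem_singleton_iff] at hy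
    rcases hy with rfl | rfl | rfl | rfl
    · exact ⟨s, hs, by rw [hAM, pp_ga]⟩
    · exact ⟨s, hs, by rw [hBA, hAM, pp_gb]⟩
    · exact ⟨s, hs, by rw [hCM, pp_gc]⟩
    · have h1 := Pcls_pow hAM k
      rcases hDk with h | h
      · exact ⟨s ^ k, Pcls_sign_pow hs k, by rw [h, h1, pp_gd, hi']⟩
      · refine ⟨-s ^ k, ?_, ?_⟩
        · rcases Pcls_sign_pow hs k with h2 | h2
          · right; rw [h2]
          · left; rw [h2, neg_neg]
        · rw [h, Matrix.SpecialLinearGroup.coe_neg, neg_mul, h1, pp_gd, hi', neg_smul]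
  | one => exact ⟨1, Or.inl rfl, by simp⟩
  | mul y z _ _ hy hz =>
    obtain ⟨s1, hs1, h1⟩ := hy
    obtain ⟨s2, hs2, h2⟩ := hz
    refine ⟨s2 * s1, ?_, ?_⟩
    · rcases hs1 with rfl | rfl <;> rcases hs2 with rfl | rfl <;> simp
    · rw [map_mul, map_mul, Matrix.SpecialLinearGroup.coe_mul, Matrix.SpecialLinearGroup.coe_mul,
        Matrix.mul_assoc, h2, Matrix.mul_smul, ← Matrix.mul_assoc, h1, Matrix.smul_mul, smul_smul,
        Matrix.mul_assoc]
  | inv y _ hy =>
    obtain ⟨s1, hs1, h1⟩ := hy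
    refine ⟨s1, hs1, ?_⟩
    have h2 : ((f y⁻¹ : SL) : Matrix (Fin 2) (Fin 2) ℤ) * (f y : Matrix (Fin 2) (Fin 2) ℤ) = 1 := by
      rw [← Matrix.SpecialLinearGroup.coe_mul, map_inv, inv_mul_cancel,
        Matrix.SpecialLinearGroup.coe_one]
    have h3 : ((pp i' y : SL) : Matrix (Fin 2) (Fin 2) ℤ) *
        ((pp i' y⁻¹ : SL) : Matrix (Fin 2) (Fin 2) ℤ) = 1 := by
      rw [← Matrix.SpecialLinearGroup.coe_mul, map_inv, mul_inv_cancel,
        Matrix.SpecialLinearGroup.coe_one]
    have hss : s1 * s1 = 1 := by rcases hs1 with rfl | rfl <;> simp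
    calc ((f y⁻¹ : SL) : Matrix (Fin 2) (Fin 2) ℤ) * M
        = ((f y⁻¹ : SL) : Matrix (Fin 2) (Fin 2) ℤ) * ((s1 * s1) • (M *
            (((pp i' y : SL) : Matrix (Fin 2) (Fin 2) ℤ) *
              ((pp i' y⁻¹ : SL) : Matrix (Fin 2) (Fin 2) ℤ)))) := by
          rw [h3, Matrix.mul_one, hss, one_smul]
      _ = s1 • (((f y⁻¹ : SL) : Matrix (Fin 2) (Fin 2) ℤ) * ((s1 • (M *
            ((pp i' y : SL) : Matrix (Fin 2) (Fin 2) ℤ))) *
              ((pp i' y⁻¹ : SL) : Matrix (Fin 2) (Fin 2) ℤ))) := by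
          rw [← Matrix.mul_assoc M, Matrix.smul_mul, ← smul_smul, Matrix.mul_smul]
      _ = s1 • (M * ((pp i' y⁻¹ : SL) : Matrix (Fin 2) (Fin 2) ℤ)) := by
          rw [← h1, ← Matrix.mul_assoc, ← Matrix.mul_assoc, h2, Matrix.one_mul]

/-- `BT-CLJ`.  From `class_pp` and `pp_j` (`M` is invertible). -/
theorem pp_phi_j (i : Fin 2) (φ : MulAut GB) (w : F) :
    pp i (φ (j w)) = 1 ∨ pp i (φ (j w)) = -1 := by
  obtain ⟨i', M, hM, h⟩ := class_pp i φ
  obtain ⟨s, hs, hx⟩ := h (j w)
  have key : ∃ t : ℤ, (t = 1 ∨ t = -1) ∧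
      ((pp i (φ (j w)) : SL) : Matrix (Fin 2) (Fin 2) ℤ) * M = t • M := by
    rcases pp_j i' w with h1 | h1
    · refine ⟨s, hs, ?_⟩
      rw [hx, h1, Matrix.SpecialLinearGroup.coe_one, Matrix.mul_one]
    · refine ⟨-s, ?_, ?_⟩
      · rcases hs with rfl | rfl
        · right; rfl
        · left; norm_num
      · rw [hx, h1, Matrix.SpecialLinearGroup.coe_neg, Matrix.SpecialLinearGroup.coe_one,
          Matrix.mul_neg, Matrix.mul_one, smul_neg, neg_smul]
  obtain ⟨t, ht, hX⟩ := key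
  have h2 : ((pp i (φ (j w)) : SL) : Matrix (Fin 2) (Fin 2) ℤ) =
      t • (1 : Matrix (Fin 2) (Fin 2) ℤ) := by
    have h3 : M.det • ((pp i (φ (j w)) : SL) : Matrix (Fin 2) (Fin 2) ℤ) =
        M.det • (t • (1 : Matrix (Fin 2) (Fin 2) ℤ)) := by
      have h4 := congrArg (fun Y : Matrix (Fin 2) (Fin 2) ℤ => Y * M.adjugate) hX
      simp only [Matrix.mul_assoc, Matrix.mul_adjugate, Matrix.smul_mul] at h4
      rw [Matrix.mul_smul, Matrix.mul_one] at h4
      rw [h4, smul_comm]
    rcases hM with h5 | h5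
    · rw [h5, one_smul, one_smul] at h3
      exact h3
    · rw [h5, neg_one_smul, neg_one_smul] at h3
      exact neg_injective h3
  rcases ht with rfl | rfl
  · left
    apply Subtype.ext
    rw [h2, one_smul]
    rfl
  · right
    apply Subtype.ext
    rw [h2, neg_one_smul]
    rfl

end Pool.Agent.Helper38.BT
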