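import Pool.Agent.Helper38.BT.Ping1

/-!
# Project BT (MP_2ec7a7_al), piece BT-PING2
-/

namespace Pool.Agent.Helper38.BT

open FreeGroup (of lift)
open Matrix
open Pool.Agent.Helper7.AG (SL mA mB tr mA_braid)

private lemma ping2_1 : pp 1 (io z1) = rho2 (qq z1) := by
  simp [rho2, qq, ek]

private lemma ping2_2 : pp 1 (io z2) = rho2 (qq z2) := by
  simp [rho2, qq, ek]

private lemma ping2_neg (x : SL) : (-x)⁻¹ = -x⁻¹ := by
  rw [inv_eq_iff_mul_eq_one, neg_mul_neg, mul_inv_cancel]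

private lemma ping2_m : mA * (mB * mA ^ 2 * mB⁻¹) * mA⁻¹ =
    -(mA ^ 2 * (mB * mA ^ 2 * mB⁻¹))⁻¹ := by
  rw [← ping2_neg, eq_inv_iff_mul_eq_one]
  have h1 : mB⁻¹ = ⟨!![1, 0; 1, 1], by simp [Matrix.det_fin_two]⟩ := by
    rw [inv_eq_iff_mul_eq_one]
    ext a b; fin_cases a <;> fin_cases b <;>
      simp [mB, Matrix.mul_apply, Fin.sum_univ_two]
  have h2 : mA⁻¹ = ⟨!![1, -1; 0, 1], by simp [Matrix.det_fin_two]⟩ := by
    rw [inv_eq_iff_mul_eq_one]
    ext a b; fin_cases a <;> fin_cases b <;>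
      simp [mA, Matrix.mul_apply, Fin.sum_univ_two]
  rw [h1, h2]
  ext a b; fin_cases a <;> fin_cases b <;>
    simp [mA, mB, pow_succ, Matrix.mul_apply, Fin.sum_univ_two]

private lemma ping2_3 : pp 1 (io z3) = -rho2 (qq z3) := by
  have h : rho2 (qq z3) = (mA ^ 2 * (mB * mA ^ 2 * mB⁻¹))⁻¹ := by
    simp [rho2, qq]
  rw [h, ← ping2_m, io_z3]
  simp [ek]

private lemma ping2_gen (y : Fin 3) : pp 1 (io (of y)) = rho2 (qq (of y)) ∨
    pp 1 (io (of y)) = -rho2 (qq (of y)) := by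
  fin_cases y
  · exact Or.inl ping2_1
  · exact Or.inl ping2_2
  · exact Or.inr ping2_3

/-- `BT-PING` (2).  On `z1`, `z2` with the sign `+`; `z3 = z2⁻¹ z1⁻¹ w`, and `pp 1 (io z3) =
mA mB mA² mB⁻¹ mA⁻¹ = - (mA² mB mA² mB⁻¹)⁻¹` (compute).  Then induction on `z`. -/
theorem pp1_io (z : F3) : pp 1 (io z) = rho2 (qq z) ∨ pp 1 (io z) = -rho2 (qq z) := by
  induction z using FreeGroup.induction_on with
  | C1 => left; simp
  | of y => exact ping2_gen y
  | inv_of y h =>
    rw [map_inv, map_inv, map_inv, map_inv]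
    rcases h with h | h
    · left
      rw [h]
    · right
      rw [h, ping2_neg]
  | mul x y hx hy =>
    rw [map_mul, map_mul, map_mul, map_mul]
    rcases hx with hx | hx <;> rcases hy with hy | hy
    · left
      rw [hx, hy]
    · right
      rw [hx, hy, mul_neg]
    · right
      rw [hx, hy, neg_mul]
    · left
      rw [hx, hy, neg_mul_neg]

/-- `BT-PING` (3).  By `pp1_io` `rho2 (qq z) = ± 1`, so `rho2 ((qq z)²) = 1` and `(qq z)² = 1` by
`rho2_inj`, and free groups have no torsion. -/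
theorem qq_eq_one {z : F3} (h : pp 1 (io z) = 1 ∨ pp 1 (io z) = -1) : qq z = 1 := by
  have h1 : rho2 (qq z) = 1 ∨ rho2 (qq z) = -1 := by
    rcases pp1_io z with h2 | h2
    · rw [← h2]
      exact h
    · rcases h with h | h
      · right
        rw [← h, h2, neg_neg]
      · left
        rw [h2] at h
        exact neg_injective h
  have h2 : rho2 (qq z ^ 2) = rho2 1 := by
    rw [map_pow, map_one]
    rcases h1 with h1 | h1 <;> rw [h1] <;> simp
  have h3 := rho2_inj h2
  exact (pow_eq_one_iff_left two_ne_zero).1 h3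

end Pool.Agent.Helper38.BT
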