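import Pool.Agent.Helper38.BT.K0
import Pool.Agent.Helper38.BT.Pcls
import Pool.Agent.Helper38.BT.Ping2

/-!
# Project BT (MP_2ec7a7_al), piece BT-CH1: `j F` is a characteristic subgroup of `GB`
-/

namespace Pool.Agent.Helper38.BT

open FreeGroup (of lift)

/-- `BT-CH1` (1).  For the four letters `e` of `F`, `φ (j e)` is in the kernel of `pp 0` modulo
`± 1` (`pp_phi_j`), so `φ (j e) = io (t e) * j (n e)` (`ker0`); also `pp 1 (φ (j e)) = ± 1`
(`pp_phi_j`), `pp 1 (j (n e)) = ± 1` (`pp_j`), so `pp 1 (io (t e)) = ± 1` and `qq (t e) = 1`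
(`qq_eq_one`).  Modulo the normal subgroup `j F` (`conj_j`): for every `w : F` there is `t` in
`closure S`, `S = {t e}`, with `φ (j w) ∈ io t * j F` (induction on `w`).  For `z : F3` and a
letter `e` the element `io z * φ (j e) * (io z)⁻¹` is `φ (x * j e * x⁻¹)` for the `x` with
`φ x = io z`, so it is `φ (j w)` for some `w` (`conj_j`), so it is in `io t * j F` with
`t ∈ closure S`; it is also in `io (z * t e * z⁻¹) * j F`.  By `j_eq_io` `z * t e * z⁻¹ = t`.
Now `shift` gives `t e = 1`. -/
theorem char_j (φ : MulAut GB) (w : F) : ∃ w' : F, φ (j w) = j w' := by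
  -- the elements `t e`, `n e`
  have hker : ∀ e : G0 ⊕ G1, ∃ (t : F3) (n : F), φ (j (of e)) = io t * j n := fun e =>
    ker0 (pp_phi_j 0 φ (of e))
  choose t n htn using hker
  have hq : ∀ e, qq (t e) = 1 := by
    intro e
    apply qq_eq_one
    have h1 := pp_phi_j 1 φ (of e)
    have h2 := pp_j 1 (n e)
    rw [htn e, map_mul] at h1
    rcases h1 with h1 | h1 <;> rcases h2 with h2 | h2 <;> rw [h2] at h1
    · left; simpa using h1
    · right
      rw [mul_neg, mul_one] at h1
      rw [← h1, neg_neg]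
    · right; simpa using h1
    · left
      rw [mul_neg, mul_one] at h1
      exact neg_injective h1
  -- modulo the normal subgroup `j F`
  have hmod : ∀ w : F, ∃ t' ∈ Subgroup.closure (Set.range t), ∃ n' : F,
      φ (j w) = io t' * j n' := by
    intro w
    induction w using FreeGroup.induction_on with
    | C1 => exact ⟨1, one_mem _, 1, by simp⟩
    | of e => exact ⟨t e, Subgroup.subset_closure ⟨e, rfl⟩, n e, htn e⟩
    | inv_of e _ =>
      refine ⟨(t e)⁻¹, inv_mem (Subgroup.subset_closure ⟨e, rfl⟩), Phi (io (t e)) (n e)⁻¹, ?_⟩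
      have h1 := conj_j (io (t e)) (n e)⁻¹
      rw [map_inv, map_inv, htn e, ← h1, mul_inv_rev, map_inv, map_inv]
      group
    | mul x y hx hy =>
      obtain ⟨t1, h1, n1, e1⟩ := hx
      obtain ⟨t2, h2, n2, e2⟩ := hy
      refine ⟨t1 * t2, mul_mem h1 h2, Phi (io t2)⁻¹ n1 * n2, ?_⟩
      have h3 := conj_j (io t2)⁻¹ n1
      rw [map_mul, map_mul, e1, e2, map_mul io, map_mul j, ← h3]
      group
  -- the closure of the `t e` is normal
  have hn : ∀ (z : F3), ∀ s ∈ Set.range t, z * s * z⁻¹ ∈ Subgroup.closure (Set.range t) := by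
    rintro z _ ⟨e, rfl⟩
    obtain ⟨x, hx⟩ := φ.surjective (io z)
    obtain ⟨t', ht', n', hn'⟩ := hmod (Phi x (of e))
    have h1 : φ (j (Phi x (of e))) = io (z * t e * z⁻¹) * j (Phi (io z) (n e)) := by
      rw [← conj_j, ← conj_j, map_mul, map_mul, map_inv, hx, htn e, map_mul, map_mul, map_inv]
      group
    rw [h1] at hn'
    have h2 : j (Phi (io z) (n e) * n'⁻¹) = io ((z * t e * z⁻¹)⁻¹ * t') := by
      rw [map_mul, map_inv, map_mul io, map_inv io, mul_inv_eq_iff_eq_mul, mul_assoc, ← hn',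
        inv_mul_cancel_left]
    have h3 := (j_eq_io h2).2
    rw [inv_mul_eq_one] at h3
    rw [h3]
    exact ht'
  have hfin : (Set.range t).Finite := by
    refine Set.Finite.subset (s := {t (.inl .m), t (.inl .r), t (.inr .u), t (.inr .v)})
      (Set.toFinite _) ?_
    rintro _ ⟨e, rfl⟩
    rcases e with e | e <;> cases e <;> simp
  have hone := shift (Set.range t) hfin (by rintro _ ⟨e, rfl⟩; exact hq e) hn
  obtain ⟨t', ht', n', hw⟩ := hmod w
  have hbot : Subgroup.closure (Set.range t) ≤ ⊥ := by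
    rw [Subgroup.closure_le]
    intro s hs
    exact hone s hs
  have ht1 : t' = 1 := hbot ht'
  exact ⟨n', by rw [hw, ht1, map_one, one_mul]⟩

end Pool.Agent.Helper38.BT
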