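import Pool.Agent.Helper38.BT.Char1

/-!
# Project BT (MP_2ec7a7_al), piece BT-CH2
-/

namespace Pool.Agent.Helper38.BT

open FreeGroup (of lift)

/-- `BT-CH1` (2): the automorphism of `F` (the inverse from `φ⁻¹`). -/
theorem exists_theta (φ : MulAut GB) : ∃ θ : MulAut F, ∀ w : F, φ (j w) = j (θ w) := by
  choose f hf using char_j φ
  choose g hg using char_j φ⁻¹
  have h1 : ∀ w, g (f w) = w := by
    intro w
    apply j_inj
    rw [← hg, ← hf]
    exact φ.symm_apply_apply (j w)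
  have h2 : ∀ w, f (g w) = w := by
    intro w
    apply j_inj
    rw [← hf, ← hg]
    exact φ.apply_symm_apply (j w)
  refine ⟨⟨⟨f, g, h1, h2⟩, ?_⟩, fun w => hf w⟩
  intro x y
  apply j_inj
  show j (f (x * y)) = j (f x * f y)
  rw [map_mul, ← hf, ← hf, ← hf, map_mul, map_mul]

/-- `BT-CH1` (3): `θ (Phi x w) = Phi (φ x) (θ w)` (apply the injective `j`, `conj_j`). -/
theorem theta_Phi {φ : MulAut GB} {θ : MulAut F} (h : ∀ w : F, φ (j w) = j (θ w)) (x : GB)
    (w : F) : θ (Phi x w) = Phi (φ x) (θ w) := by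
  apply j_inj
  rw [← h, ← conj_j, ← conj_j, ← h, map_mul, map_mul, map_inv]

end Pool.Agent.Helper38.BT
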