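import Pool.Agent.Helper38.BT.Rel2

/-!
# Project BT (MP_2ec7a7_al), piece BT-CONJ
-/

namespace Pool.Agent.Helper38.BT

/-- enough to check the letters -/
private lemma Conj_aux (x : GB) (hu : x * gu * x⁻¹ = j (Phi x U)) (hv : x * gv * x⁻¹ = j (Phi x V))
    (hm : x * gm * x⁻¹ = j (Phi x M)) (hr : x * gz * x⁻¹ = j (Phi x R)) (w : F) :
    x * j w * x⁻¹ = j (Phi x w) := by
  have h : (MulAut.conj x).toMonoidHom.comp j = j.comp (Phi x).toMonoidHom := by
    ext1 y
    rcases y with y | y <;> cases y
    · simpa [MulAut.conj_apply] using hm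
    · simpa [MulAut.conj_apply] using hr
    · simpa [MulAut.conj_apply] using hu
    · simpa [MulAut.conj_apply] using hv
  simpa [MulAut.conj_apply] using DFunLike.congr_fun h w

/-- the elements with the property form a subgroup -/
private def ConjS : Subgroup GB where
  carrier := {x | ∀ w, x * j w * x⁻¹ = j (Phi x w)}
  one_mem' := by intro w; simp
  mul_mem' := by
    intro x y hx hy w
    have h1 := hy w
    have h2 := hx (Phi y w)
    rw [map_mul, MulAut.mul_apply, ← h2, ← h1]
    group
  inv_mem' := by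
    intro x hx w
    have h1 := hx ((Phi x)⁻¹ w)
    rw [MulAut.apply_inv_self] at h1
    rw [map_inv, ← h1]
    group

private lemma Conj_comm {x y : GB} (h : x * y = y * x) : x * y * x⁻¹ = y := by
  rw [h]; group

/-- `GB` acts on `j F` by conjugation as by `Phi`.  By induction over the generators (the set of
`x` with the property is a subgroup; for `b = u a` use `Phi_j`). -/
theorem conj_j (x : GB) (w : F) : x * j w * x⁻¹ = j (Phi x w) := by
  have ha : ga ∈ ConjS := by
    apply Conj_aux
    · rw [Phi_ga, al_U, j_U, ga_gu]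
    · rw [Phi_ga, al_V, map_mul, j_U, j_V, ga_gv]
    · rw [Phi_ga, al_M, j_M, ga_gm]
    · rw [Phi_ga, al_R, j_R, Conj_comm ga_gz]
  have hc : gc ∈ ConjS := by
    apply Conj_aux
    · rw [Phi_gc, cc_U, gc_gu]; simp
    · rw [Phi_gc, cc_V, j_U, gc_gv]
    · rw [Phi_gc, cc_M, gc_gm]; simp
    · rw [Phi_gc, cc_R, j_R, Conj_comm gc_gz]
  have hd : gd ∈ ConjS := by
    apply Conj_aux
    · rw [Phi_gd, de_U, j_U, gd_gu]
    · rw [Phi_gd, de_V, gd_gv]; simp
    · rw [Phi_gd, de_M, gd_gm]; simp
    · rw [Phi_gd, de_R, j_R, Conj_comm gd_gz]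
  have hu : gu ∈ ConjS := by
    intro w
    rw [Phi_gu, MulAut.conj_apply]
    simp
  have hb : gb ∈ ConjS := by
    have h : gb = gu * ga := by simp [gu]
    rw [h]
    exact ConjS.mul_mem hu ha
  have hall : x ∈ ConjS := by
    have h1 : Subgroup.closure ({ga, gb, gc, gd} : Set GB) ≤ ConjS := by
      rw [Subgroup.closure_le]
      rintro y hy
      simp only [Set.mem_insert_iff, Set.mem_singleton_iff] at hy
      rcases hy with rfl | rfl | rfl | rfl
      · exact ha
      · exact hb
      · exact hc
      · exact hd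
    rw [closure_gen] at h1
    exact h1 (Subgroup.mem_top x)
  exact hall w

end Pool.Agent.Helper38.BT
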