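import Pool.Agent.Helper7.AG.Defs

/-!
# Project BT (MP_2ec7a7_al): the Artin group of type `B̃_3`, definitions

`B3t` is the Coxeter matrix of the affine type `B̃_3`: the nodes are `0 = a`, `1 = b` (the two
leaves of the fork), `2 = c` and `3 = d`; `m(a,c) = m(b,c) = 3`, `m(c,d) = 4`, and `a`, `b`, `d`
commute.  `GB` is the Artin group.
-/

namespace Pool.Agent.Helper38.BT

open Pool.Agent.Helper7.AG (alt rels Artin)

set_option backward.isDefEq.respectTransparency false in
/-- the Coxeter matrix of the affine type `B̃_3` -/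
def B3t : CoxeterMatrix (Fin 4) where
  M := !![1, 2, 3, 2;
          2, 1, 3, 2;
          3, 3, 1, 4;
          2, 2, 4, 1]

/-- the Artin group of type `B̃_3` -/
abbrev GB : Type := Artin B3t

/-- the standard generators -/
def ga : GB := PresentedGroup.of 0
/-- the standard generators -/
def gb : GB := PresentedGroup.of 1
/-- the standard generators -/
def gc : GB := PresentedGroup.of 2
/-- the standard generators -/
def gd : GB := PresentedGroup.of 3

private lemma relAux (s t : Fin 4) :
    alt (PresentedGroup.of s : GB) (PresentedGroup.of t) (B3t s t) =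
      alt (PresentedGroup.of t : GB) (PresentedGroup.of s) (B3t s t) := by
  have h : alt (FreeGroup.of s) (FreeGroup.of t) (B3t s t) *
    (alt (FreeGroup.of t) (FreeGroup.of s) (B3t s t))⁻¹ ∈ rels B3t := ⟨s, t, rfl⟩
  have h1 := PresentedGroup.one_of_mem h
  rw [map_mul, map_inv, mul_inv_eq_one] at h1
  have key : ∀ (n : ℕ) (x y : FreeGroup (Fin 4)),
      PresentedGroup.mk (rels B3t) (alt x y n) =
        alt (PresentedGroup.mk (rels B3t) x) (PresentedGroup.mk (rels B3t) y) n := by
    intro n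
    induction n with
    | zero => intro x y; simp [alt]
    | succ n ih => intro x y; simp [alt, ih]
  rw [key, key] at h1
  exact h1

lemma ga_gb : ga * gb = gb * ga := by
  have h := relAux 0 1
  have e : (B3t : Matrix (Fin 4) (Fin 4) ℕ) 0 1 = 2 := rfl
  rw [e] at h
  simpa [alt, ga, gb] using h

lemma ga_gd : ga * gd = gd * ga := by
  have h := relAux 0 3
  have e : (B3t : Matrix (Fin 4) (Fin 4) ℕ) 0 3 = 2 := rfl
  rw [e] at h
  simpa [alt, ga, gd] using h

lemma gb_gd : gb * gd = gd * gb := by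
  have h := relAux 1 3
  have e : (B3t : Matrix (Fin 4) (Fin 4) ℕ) 1 3 = 2 := rfl
  rw [e] at h
  simpa [alt, gb, gd] using h

lemma ga_gc : ga * gc * ga = gc * ga * gc := by
  have h := relAux 0 2
  have e : (B3t : Matrix (Fin 4) (Fin 4) ℕ) 0 2 = 3 := rfl
  rw [e] at h
  simpa [alt, ga, gc, mul_assoc] using h

lemma gb_gc : gb * gc * gb = gc * gb * gc := by
  have h := relAux 1 2
  have e : (B3t : Matrix (Fin 4) (Fin 4) ℕ) 1 2 = 3 := rfl
  rw [e] at h
  simpa [alt, gb, gc, mul_assoc] using h

lemma gc_gd : gc * gd * gc * gd = gd * gc * gd * gc := by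
  have h := relAux 2 3
  have e : (B3t : Matrix (Fin 4) (Fin 4) ℕ) 2 3 = 4 := rfl
  rw [e] at h
  simpa [alt, gc, gd, mul_assoc] using h

lemma closure_gen : Subgroup.closure ({ga, gb, gc, gd} : Set GB) = ⊤ := by
  rw [eq_top_iff, ← PresentedGroup.closure_range_of, Subgroup.closure_le]
  rintro _ ⟨i, rfl⟩
  fin_cases i <;> exact Subgroup.subset_closure (by simp [ga, gb, gc, gd])

variable {H : Type*} [Group H]

lemma lift_aux (x y z w : H) (hxy : x * y = y * x) (hxw : x * w = w * x) (hyw : y * w = w * y)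
    (hxz : x * z * x = z * x * z) (hyz : y * z * y = z * y * z)
    (hzw : z * w * z * w = w * z * w * z) :
    ∀ r ∈ rels B3t, FreeGroup.lift (![x, y, z, w] : Fin 4 → H) r = 1 := by
  rintro r ⟨s, t, rfl⟩
  rw [map_mul, map_inv, mul_inv_eq_one]
  have e : ∀ s t : Fin 4, (B3t : Matrix (Fin 4) (Fin 4) ℕ) s t =
    (!![1, 2, 3, 2; 2, 1, 3, 2; 3, 3, 1, 4; 2, 2, 4, 1] : Matrix (Fin 4) (Fin 4) ℕ) s t :=
    fun _ _ => rfl
  rw [e]
  have h1 : x * (z * x) = z * (x * z) := by simpa [mul_assoc] using hxz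
  have h2 : y * (z * y) = z * (y * z) := by simpa [mul_assoc] using hyz
  have h3 : z * (w * (z * w)) = w * (z * (w * z)) := by simpa [mul_assoc] using hzw
  fin_cases s <;> fin_cases t <;> simp [alt, hxy, hxw, hyw, h1, h2, h3]

/-- the universal property of `GB` -/
def lift4 (x y z w : H) (hxy : x * y = y * x) (hxw : x * w = w * x) (hyw : y * w = w * y)
    (hxz : x * z * x = z * x * z) (hyz : y * z * y = z * y * z)
    (hzw : z * w * z * w = w * z * w * z) : GB →* H :=
  PresentedGroup.toGroup (lift_aux x y z w hxy hxw hyw hxz hyz hzw)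

section
variable (x y z w : H) (hxy : x * y = y * x) (hxw : x * w = w * x) (hyw : y * w = w * y)
    (hxz : x * z * x = z * x * z) (hyz : y * z * y = z * y * z)
    (hzw : z * w * z * w = w * z * w * z)

@[simp] lemma lift4_ga : lift4 x y z w hxy hxw hyw hxz hyz hzw ga = x := by
  unfold lift4 ga; rw [PresentedGroup.toGroup.of]; rfl
@[simp] lemma lift4_gb : lift4 x y z w hxy hxw hyw hxz hyz hzw gb = y := by
  unfold lift4 gb; rw [PresentedGroup.toGroup.of]; rfl
@[simp] lemma lift4_gc : lift4 x y z w hxy hxw hyw hxz hyz hzw gc = z := by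
  unfold lift4 gc; rw [PresentedGroup.toGroup.of]; rfl
@[simp] lemma lift4_gd : lift4 x y z w hxy hxw hyw hxz hyz hzw gd = w := by
  unfold lift4 gd; rw [PresentedGroup.toGroup.of]; rfl
end

lemma hom_ext4 {f g : GB →* H} (h1 : f ga = g ga) (h2 : f gb = g gb) (h3 : f gc = g gc)
    (h4 : f gd = g gd) : f = g := by
  apply PresentedGroup.ext
  intro i
  fin_cases i
  · exact h1
  · exact h2
  · exact h3
  · exact h4

/-- the element `ζ = (acd)^3`, which generates the centre of `⟨a,c,d⟩` -/
def gz : GB := (ga * gc * gd) ^ 3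
/-- the element `ζ' = (bcd)^3` -/
def gz' : GB := (gb * gc * gd) ^ 3
/-- the element `Ω = (ac)^3`, which generates the centre of `⟨a,c⟩` -/
def gO : GB := (ga * gc) ^ 3
/-- the element `u = b a⁻¹` -/
def gu : GB := gb * ga⁻¹
/-- the element `v = c⁻¹ u c` -/
def gv : GB := gc⁻¹ * gu * gc
/-- the element `m` -/
def gm : GB := gv * gu⁻¹ * gz' * gv⁻¹

end Pool.Agent.Helper38.BT
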