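import Pool.Agent.Helper38.BT.Aut
import Pool.Agent.Helper7.AG.FP

/-!
# Project BT (MP_2ec7a7_al), piece the free group `F3`: definitions
-/

namespace Pool.Agent.Helper38.BT

open FreeGroup (of lift)
open Pool.Agent.Helper7.AG (FreeProd Red val pv PNt nt sv)

/-- the homomorphism `FreeGroup Unit → F3` with the value `x` -/
def one_ (x : F3) : FreeGroup Unit →* F3 := lift (fun _ => x)

/-- the homomorphism `FreeGroup Bool → F3` with the values `x` (at `false`), `y` (at `true`) -/
def two_ (x y : F3) : FreeGroup Bool →* F3 := lift (fun t => if t = true then y else x)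

@[simp] lemma one_of (x : F3) (t : Unit) : one_ x (of t) = x := by simp [one_]

@[simp] lemma two_false (x y : F3) : two_ x y (of false) = x := by simp [two_]

@[simp] lemma two_true (x y : F3) : two_ x y (of true) = y := by simp [two_]

/-- the sum of all exponents -/
def es : F3 →* Multiplicative ℤ := lift (fun _ => Multiplicative.ofAdd 1)

/-- the exponent of the letter `k` -/
def ex (k : Fin 3) : F3 →* Multiplicative ℤ :=
  lift (fun l => if l = k then Multiplicative.ofAdd 1 else 1)

end Pool.Agent.Helper38.BT
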