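import Pool.Agent.Helper38.BT.F3Def
import Pool.Agent.Helper7.AG.Fsum

/-!
# Project BT (MP_2ec7a7_al), piece BT-F3P: decompositions of `F3` (`w = z1 z2 z3`)
-/

namespace Pool.Agent.Helper38.BT

open FreeGroup (of lift)
open Pool.Agent.Helper7.AG (FreeProd Red val pv PNt nt sv)

private def F3Pf (x y z : F3) : FreeGroup (Unit ⊕ Bool) →* F3 :=
  lift (Sum.elim (fun _ => x) (fun t => if t = true then z else y))

private theorem F3P_aux (x y z : F3) (g : Fin 3 → FreeGroup (Unit ⊕ Bool))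
    (h1 : ∀ k, F3Pf x y z (g k) = of k)
    (h2 : lift g x = of (Sum.inl ())) (h3 : lift g y = of (Sum.inr false))
    (h4 : lift g z = of (Sum.inr true)) : FreeProd (one_ x) (two_ y z) := by
  have e1 : (lift g).comp (F3Pf x y z) = MonoidHom.id _ := by
    refine FreeGroup.ext_hom _ _ fun b => ?_
    rcases b with a | b
    · simp only [MonoidHom.comp_apply, F3Pf, FreeGroup.lift_apply_of, Sum.elim_inl, MonoidHom.id_apply]
      exact h2
    · cases b
      · simp only [MonoidHom.comp_apply, F3Pf, FreeGroup.lift_apply_of, Sum.elim_inr,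
          MonoidHom.id_apply]
        exact h3
      · simp only [MonoidHom.comp_apply, F3Pf, FreeGroup.lift_apply_of, Sum.elim_inr,
          MonoidHom.id_apply]
        exact h4
  have e2 : (F3Pf x y z).comp (lift g) = MonoidHom.id _ := by
    refine FreeGroup.ext_hom _ _ fun k => ?_
    rw [MonoidHom.comp_apply, FreeGroup.lift_apply_of, h1]
    rfl
  have h := (Pool.Agent.Helper7.AG.freeProd_sum Unit Bool).equiv
    (MonoidHom.toMulEquiv (F3Pf x y z) (lift g) e1 e2)
  have i1 : (MonoidHom.toMulEquiv (F3Pf x y z) (lift g) e1 e2).toMonoidHom.comp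
      (FreeGroup.map (Sum.inl : Unit → Unit ⊕ Bool)) = one_ x := by
    refine FreeGroup.ext_hom _ _ fun a => ?_
    change F3Pf x y z (FreeGroup.map Sum.inl (of a)) = one_ x (of a)
    rw [FreeGroup.map.of, F3Pf, FreeGroup.lift_apply_of, Sum.elim_inl, one_of]
  have i2 : (MonoidHom.toMulEquiv (F3Pf x y z) (lift g) e1 e2).toMonoidHom.comp
      (FreeGroup.map (Sum.inr : Bool → Unit ⊕ Bool)) = two_ y z := by
    refine FreeGroup.ext_hom _ _ fun a => ?_
    change F3Pf x y z (FreeGroup.map Sum.inr (of a)) = two_ y z (of a)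
    rw [FreeGroup.map.of, F3Pf, FreeGroup.lift_apply_of, Sum.elim_inr, two_, FreeGroup.lift_apply_of]
  rwa [i1, i2] at h

/-- `BT-F3P`.  From `freeProd_sum Unit Bool` and `FreeProd.equiv` with an isomorphism
`FreeGroup (Unit ⊕ Bool) ≃* F3` (given by a bijection of the letters for the first two, and by the
two substitutions `(w, z1, z2) ↔ (z1, z2, z3 = z2⁻¹ z1⁻¹ w)`,
`(w, z2, z3) ↔ (z1 = w z3⁻¹ z2⁻¹, z2, z3)` for the others). -/
theorem fp_1 : FreeProd (one_ z1) (two_ z2 z3) := by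
  refine F3P_aux z1 z2 z3 ![of (Sum.inl ()), of (Sum.inr false), of (Sum.inr true)] ?_ ?_ ?_ ?_
  · intro k
    fin_cases k <;> simp [F3Pf, z1, z2, z3]
  · simp [z1]
  · simp [z2]
  · simp [z3]

/-- `BT-F3P` -/
theorem fp_3 : FreeProd (one_ z3) (two_ z1 z2) := by
  refine F3P_aux z3 z1 z2 ![of (Sum.inr false), of (Sum.inr true), of (Sum.inl ())] ?_ ?_ ?_ ?_
  · intro k
    fin_cases k <;> simp [F3Pf, z1, z2, z3]
  · simp [z3]
  · simp [z1]
  · simp [z2]

/-- `BT-F3P` -/
theorem fp_w1 : FreeProd (one_ ww) (two_ z1 z2) := by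
  refine F3P_aux ww z1 z2 ![of (Sum.inr false), of (Sum.inr true),
    (of (Sum.inr true))⁻¹ * (of (Sum.inr false))⁻¹ * of (Sum.inl ())] ?_ ?_ ?_ ?_
  · intro k
    fin_cases k <;> simp [F3Pf, z1, z2, z3, ww, mul_assoc]
  · simp [ww, z1, z2, z3, mul_assoc]
  · simp [z1]
  · simp [z2]

/-- `BT-F3P` -/
theorem fp_w3 : FreeProd (one_ ww) (two_ z2 z3) := by
  refine F3P_aux ww z2 z3 ![of (Sum.inl ()) * (of (Sum.inr true))⁻¹ * (of (Sum.inr false))⁻¹,
    of (Sum.inr false), of (Sum.inr true)] ?_ ?_ ?_ ?_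
  · intro k
    fin_cases k <;> simp [F3Pf, z1, z2, z3, ww, mul_assoc]
  · simp [ww, z1, z2, z3, mul_assoc]
  · simp [z2]
  · simp [z3]

end Pool.Agent.Helper38.BT
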