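import Pool.Agent.Helper38.BT.F3P
import Pool.Agent.Helper38.BT.CentP
import Pool.Agent.Helper7.AG.Fcyc
import Pool.Agent.Helper7.AG.Fmal
import Pool.Agent.Helper7.AG.Ffix

/-!
# Project BT (MP_2ec7a7_al), piece BT-F3X
-/

namespace Pool.Agent.Helper38.BT

open FreeGroup (of lift)
open Pool.Agent.Helper7.AG (FreeProd Red val pv PNt nt sv)

private theorem F3X_conj (k : Fin 3) {g h : F3} (hy : ∃ y, y * g * y⁻¹ = h) :
    ex k h = ex k g := by
  obtain ⟨y, rfl⟩ := hy
  rw [map_mul, map_mul, map_inv, mul_comm (ex k y), mul_assoc, mul_inv_cancel, mul_one]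

private theorem F3X_sa12 : (ex 1).comp sa.toMonoidHom = ex 2 := by
  ext y
  fin_cases y <;> simp [ex]

private theorem F3X_sc01 : (ex 0).comp sc.toMonoidHom = ex 1 := by
  ext y
  fin_cases y <;> simp [ex]

private theorem F3X_one (x : F3) (a : FreeGroup Unit) : ∃ k : ℤ, one_ x a = x ^ k := by
  have h1 : one_ x a ∈ (one_ x).range := ⟨a, rfl⟩
  unfold one_ at h1
  rw [FreeGroup.range_lift_eq_closure, Set.range_const, ← Subgroup.zpowers_eq_closure] at h1
  obtain ⟨k, hk⟩ := Subgroup.mem_zpowers_iff.1 h1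
  exact ⟨k, hk.symm⟩

private def F3Xs : FreeGroup Bool →* FreeGroup Bool :=
  lift (fun t => if t = true then (of true)⁻¹ * of false * of true else of true)

private def F3Xp : MulAut (FreeGroup Bool) :=
  mkAut (fun t => if t = true then of true else of false * of true)
    (fun t => if t = true then of true else of false * (of true)⁻¹)
    (by intro x; cases x <;> simp) (by intro x; cases x <;> simp)

private theorem F3X_cent {b : FreeGroup Bool} (h : F3Xs b = b) :
    ∃ k : ℤ, b = (of false * of true) ^ k := by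
  have hs2 : F3Xs.comp F3Xs =
      (MulAut.conj (of false * of true : FreeGroup Bool)⁻¹).toMonoidHom := by
    ext y
    cases y <;> simp [F3Xs, mul_assoc]
  have h1 : F3Xs (F3Xs b) = b := by rw [h, h]
  have h2 : (MulAut.conj (of false * of true : FreeGroup Bool)⁻¹) b = b := by
    have h3 := DFunLike.congr_fun hs2 b
    rw [MonoidHom.comp_apply, h1] at h3
    exact h3.symm
  rw [MulAut.conj_apply, inv_inv] at h2
  have h4 : b * (of false * of true) = (of false * of true) * b := by
    have h5 : (of false * of true) * ((of false * of true)⁻¹ * b * (of false * of true)) =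
        (of false * of true) * b := by rw [h2]
    rw [← h5]
    group
  have hp : F3Xp (of false) = of false * of true := by simp [F3Xp]
  obtain ⟨m, hm⟩ := Pool.Agent.Helper7.AG.commute_of_pow false (n := 1) one_ne_zero
    (x := F3Xp.symm b) (by
      apply F3Xp.injective
      rw [zpow_one, map_mul, map_mul, MulEquiv.apply_symm_apply, hp, h4])
  refine ⟨m, ?_⟩
  have h6 := congrArg F3Xp hm
  rwa [MulEquiv.apply_symm_apply, map_zpow, hp] at h6

private theorem F3X_fix {x y z : F3} (hfp : FreeProd (one_ x) (two_ y z)) (e : MulAut F3)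
    (ex : e x = x) (ey : e y = z) (ez : e z = z⁻¹ * y * z) {g : F3} (h : e g = g) :
    g ∈ Subgroup.closure ({x, y * z} : Set F3) := by
  have he : ∀ a, e.toMonoidHom (one_ x a) = one_ x a := by
    have h1 : e.toMonoidHom.comp (one_ x) = one_ x := by
      ext t
      simp [ex]
    exact fun a => DFunLike.congr_fun h1 a
  have he' : ∀ b, e.toMonoidHom (two_ y z b) = two_ y z (F3Xs b) := by
    have h1 : e.toMonoidHom.comp (two_ y z) = (two_ y z).comp F3Xs := by
      ext t
      cases t <;> simp [F3Xs, ey, ez]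
    exact fun b => DFunLike.congr_fun h1 b
  have hinj : Function.Injective F3Xs := by
    intro b b' hb
    have h1 : e.toMonoidHom (two_ y z b) = e.toMonoidHom (two_ y z b') := by
      rw [he', he', hb]
    exact hfp.inj_right (e.injective h1)
  have h2 := hfp.fix he he' hinj (x := g) h
  refine (Subgroup.closure_le _).2 ?_ h2
  rintro w (⟨a, rfl⟩ | ⟨b, hb, rfl⟩)
  · obtain ⟨k, hk⟩ := F3X_one x a
    rw [hk]
    exact Subgroup.zpow_mem _ (Subgroup.subset_closure (by simp)) k
  · obtain ⟨k, hk⟩ := F3X_cent hb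
    rw [hk, map_zpow, map_mul, two_false, two_true]
    exact Subgroup.zpow_mem _ (Subgroup.subset_closure (by simp)) k

/-- `BT-F3X`.  A class which is invariant under `sa` and `sc` has equal exponents
(`ex k (sa g) = ex (σ k) (g)` with the transposition `σ` of `z2, z3`, and for `sc` of `z1, z2`). -/
theorem ex_inv {g : F3} (h1 : ∃ y, y * g * y⁻¹ = sa g) (h2 : ∃ y, y * g * y⁻¹ = sc g) :
    ex 0 g = ex 1 g ∧ ex 1 g = ex 2 g := by
  have h3 : ex 1 (sa g) = ex 2 g := DFunLike.congr_fun F3X_sa12 g
  have h4 : ex 0 (sc g) = ex 1 g := DFunLike.congr_fun F3X_sc01 g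
  rw [F3X_conj 1 h1] at h3
  rw [F3X_conj 0 h2] at h4
  exact ⟨h4, h3⟩

/-- an element which commutes with `w` is a power of `w` (`w` is a basis element: `fp_w1`,
`cent_pow` or `FreeProd.malnormal_left`) -/
theorem comm_ww {g : F3} (h : g * ww = ww * g) : ∃ k : ℤ, g = ww ^ k := by
  obtain ⟨a, ha⟩ := fp_w1.malnormal_left (a := of ()) (a' := of ()) (FreeGroup.of_ne_one ())
    (x := g) (by rw [one_of, h, mul_inv_cancel_right])
  obtain ⟨k, hk⟩ := F3X_one ww a
  exact ⟨k, by rw [ha, hk]⟩

/-- `BT-F3C`.  The fixed points of `sa`: `sa = id * s` for `⟨z1⟩ * ⟨z2, z3⟩` (`fp_1`), so by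
`FreeProd.fix` they lie in the subgroup generated by `z1` and the fixed points of `s`.  These are
fixed by `s²`, the conjugation by `(z2 z3)⁻¹`, so they commute with `z2 z3`, and are powers of it
(`cent_pow` for `⟨z2⟩ * ⟨z3⟩`, `K = 1`; or `commute_of_pow`, `z2 z3` is a basis element). -/
theorem sa_fix {g : F3} (h : sa g = g) : g ∈ Subgroup.closure ({z1, z2 * z3} : Set F3) :=
  F3X_fix fp_1 sa sa_z1 sa_z2 sa_z3 h

/-- `BT-F3C` for `sc` (`fp_3`) -/
theorem sc_fix {g : F3} (h : sc g = g) : g ∈ Subgroup.closure ({z3, z1 * z2} : Set F3) :=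
  F3X_fix fp_3 sc sc_z3 sc_z1 sc_z2 h

end Pool.Agent.Helper38.BT
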