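import Pool.Agent.Helper38.BT.Aut

/-!
# Project BT: the group `G4 = ⟨x1, x2, x3, y | x1² = x2² = x3² = 1⟩` and `F → G4`
-/

namespace Pool.Agent.Helper38.BT

open FreeGroup (of lift)

/-- the group of order two -/
abbrev C2 : Type := ℤˣ
/-- the infinite cyclic group -/
abbrev Zm : Type := Multiplicative ℤ
/-- the infinite dihedral group `⟨x1, x2⟩` -/
def A0 : Type := Monoid.Coprod C2 C2
instance : Group A0 := inferInstanceAs (Group (Monoid.Coprod C2 C2))
/-- the group `⟨x3, y⟩` -/
def B0 : Type := Monoid.Coprod C2 Zm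
instance : Group B0 := inferInstanceAs (Group (Monoid.Coprod C2 Zm))
/-- the group `⟨x1, x2, x3, y⟩` -/
def G4 : Type := Monoid.Coprod A0 B0
instance : Group G4 := inferInstanceAs (Group (Monoid.Coprod A0 B0))

/-- first factor of `A0` -/
def inA : C2 →* A0 := (Monoid.Coprod.inl : C2 →* Monoid.Coprod C2 C2)
/-- second factor of `A0` -/
def inA' : C2 →* A0 := (Monoid.Coprod.inr : C2 →* Monoid.Coprod C2 C2)
/-- first factor of `B0` -/
def inB : C2 →* B0 := (Monoid.Coprod.inl : C2 →* Monoid.Coprod C2 Zm)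
/-- second factor of `B0` -/
def inB' : Zm →* B0 := (Monoid.Coprod.inr : Zm →* Monoid.Coprod C2 Zm)
/-- first factor of `G4` -/
def inG : A0 →* G4 := (Monoid.Coprod.inl : A0 →* Monoid.Coprod A0 B0)
/-- second factor of `G4` -/
def inG' : B0 →* G4 := (Monoid.Coprod.inr : B0 →* Monoid.Coprod A0 B0)

section
variable {H : Type*} [Group H]

/-- the homomorphism from the group of order two with the value `p` at the generator -/
def c2hom (p : H) (hp : p * p = 1) : C2 →* H where
  toFun x := if x = 1 then 1 else p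
  map_one' := by simp
  map_mul' := by
    intro x y
    rcases Int.units_eq_one_or x with rfl | rfl <;> rcases Int.units_eq_one_or y with rfl | rfl <;>
      simp [hp]

@[simp] lemma c2hom_neg (p : H) (hp : p * p = 1) : c2hom p hp (-1) = p := by
  simp [c2hom]

/-- homomorphisms from `⟨s, t | s² = t² = 1⟩` -/
def liftA (p q : H) (hp : p * p = 1) (hq : q * q = 1) : A0 →* H :=
  (Monoid.Coprod.lift (c2hom p hp) (c2hom q hq) : Monoid.Coprod C2 C2 →* H)

/-- homomorphisms from `⟨s, t | s² = 1⟩` -/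
def liftB (p q : H) (hp : p * p = 1) : B0 →* H :=
  (Monoid.Coprod.lift (c2hom p hp) (zpowersHom H q) : Monoid.Coprod C2 Zm →* H)

/-- homomorphisms from `G4` -/
def liftG (p1 p2 p3 q : H) (h1 : p1 * p1 = 1) (h2 : p2 * p2 = 1) (h3 : p3 * p3 = 1) : G4 →* H :=
  (Monoid.Coprod.lift (liftA p1 p2 h1 h2) (liftB p3 q h3) : Monoid.Coprod A0 B0 →* H)

end

/-- generators of `A0` -/
def s1 : A0 := inA (-1)
/-- generators of `A0` -/
def s2 : A0 := inA' (-1)
/-- generators of `B0` -/
def s3 : B0 := inB (-1)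
/-- generators of `B0` -/
def sy : B0 := inB' (Multiplicative.ofAdd 1)
/-- generators of `G4` -/
def x1 : G4 := inG s1
/-- generators of `G4` -/
def x2 : G4 := inG s2
/-- generators of `G4` -/
def x3 : G4 := inG' s3
/-- generators of `G4` -/
def yy : G4 := inG' sy

lemma s1_sq : s1 * s1 = 1 := by unfold s1; rw [← map_mul]; simp
lemma s2_sq : s2 * s2 = 1 := by unfold s2; rw [← map_mul]; simp
lemma s3_sq : s3 * s3 = 1 := by unfold s3; rw [← map_mul]; simp
@[simp] lemma x1_sq : x1 * x1 = 1 := by unfold x1; rw [← map_mul, s1_sq, map_one]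
@[simp] lemma x2_sq : x2 * x2 = 1 := by unfold x2; rw [← map_mul, s2_sq, map_one]
@[simp] lemma x3_sq : x3 * x3 = 1 := by unfold x3; rw [← map_mul, s3_sq, map_one]
@[simp] lemma x1_sq' (g : G4) : x1 * (x1 * g) = g := by rw [← mul_assoc, x1_sq, one_mul]
@[simp] lemma x2_sq' (g : G4) : x2 * (x2 * g) = g := by rw [← mul_assoc, x2_sq, one_mul]
@[simp] lemma x3_sq' (g : G4) : x3 * (x3 * g) = g := by rw [← mul_assoc, x3_sq, one_mul]
@[simp] lemma x1_inv : x1⁻¹ = x1 := inv_eq_of_mul_eq_one_left x1_sq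
@[simp] lemma x2_inv : x2⁻¹ = x2 := inv_eq_of_mul_eq_one_left x2_sq
@[simp] lemma x3_inv : x3⁻¹ = x3 := inv_eq_of_mul_eq_one_left x3_sq

section
variable {H : Type*} [Group H]

@[simp] lemma liftA_s1 (p q : H) (hp : p * p = 1) (hq : q * q = 1) : liftA p q hp hq s1 = p := by
  change Monoid.Coprod.lift (c2hom p hp) (c2hom q hq) (Monoid.Coprod.inl (-1)) = p
  simp
@[simp] lemma liftA_s2 (p q : H) (hp : p * p = 1) (hq : q * q = 1) : liftA p q hp hq s2 = q := by
  change Monoid.Coprod.lift (c2hom p hp) (c2hom q hq) (Monoid.Coprod.inr (-1)) = q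
  simp
@[simp] lemma liftB_s3 (p q : H) (hp : p * p = 1) : liftB p q hp s3 = p := by
  change Monoid.Coprod.lift (c2hom p hp) (zpowersHom H q) (Monoid.Coprod.inl (-1)) = p
  simp
@[simp] lemma liftB_sy (p q : H) (hp : p * p = 1) : liftB p q hp sy = q := by
  change Monoid.Coprod.lift (c2hom p hp) (zpowersHom H q)
    (Monoid.Coprod.inr (Multiplicative.ofAdd 1)) = q
  simp

section
variable (p1 p2 p3 q : H) (h1 : p1 * p1 = 1) (h2 : p2 * p2 = 1) (h3 : p3 * p3 = 1)
@[simp] lemma liftG_x1 : liftG p1 p2 p3 q h1 h2 h3 x1 = p1 := by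
  change Monoid.Coprod.lift (liftA p1 p2 h1 h2) (liftB p3 q h3) (Monoid.Coprod.inl s1) = p1
  simp
@[simp] lemma liftG_x2 : liftG p1 p2 p3 q h1 h2 h3 x2 = p2 := by
  change Monoid.Coprod.lift (liftA p1 p2 h1 h2) (liftB p3 q h3) (Monoid.Coprod.inl s2) = p2
  simp
@[simp] lemma liftG_x3 : liftG p1 p2 p3 q h1 h2 h3 x3 = p3 := by
  change Monoid.Coprod.lift (liftA p1 p2 h1 h2) (liftB p3 q h3) (Monoid.Coprod.inr s3) = p3
  simp
@[simp] lemma liftG_yy : liftG p1 p2 p3 q h1 h2 h3 yy = q := by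
  change Monoid.Coprod.lift (liftA p1 p2 h1 h2) (liftB p3 q h3) (Monoid.Coprod.inr sy) = q
  simp
end

/-- homomorphisms from the group of order two are equal if they agree at `-1` -/
lemma homC2_ext {f g : C2 →* H} (h : f (-1) = g (-1)) : f = g := by
  ext x
  rcases Int.units_eq_one_or x with rfl | rfl
  · simp
  · exact h

lemma homA_ext {f g : A0 →* H} (h1 : f s1 = g s1) (h2 : f s2 = g s2) : f = g :=
  Monoid.Coprod.hom_ext (homC2_ext h1) (homC2_ext h2)

lemma homB_ext {f g : B0 →* H} (h1 : f s3 = g s3) (h2 : f sy = g sy) : f = g := by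
  apply Monoid.Coprod.hom_ext (homC2_ext h1)
  ext
  exact h2

/-- homomorphisms from `G4` are equal if they agree on the generators -/
lemma homG_ext {f g : G4 →* H} (h1 : f x1 = g x1) (h2 : f x2 = g x2) (h3 : f x3 = g x3)
    (h4 : f yy = g yy) : f = g :=
  Monoid.Coprod.hom_ext (homA_ext h1 h2) (homB_ext h3 h4)

end

/-- the parity: all generators are odd -/
def par : G4 →* C2 := liftG (-1) (-1) (-1) (-1) (by simp) (by simp) (by simp)

@[simp] lemma par_x1 : par x1 = -1 := by simp [par]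
@[simp] lemma par_x2 : par x2 = -1 := by simp [par]
@[simp] lemma par_x3 : par x3 = -1 := by simp [par]
@[simp] lemma par_yy : par yy = -1 := by simp [par]

/-- the action of `a`: `x1 ↦ x1 x2 x1`, `x2 ↦ x1` -/
def ca : G4 →* G4 := liftG (x1 * x2 * x1) x1 x3 yy (by simp [mul_assoc]) (by simp) (by simp)
/-- the action of `a²`: conjugation by `x1 x2` on `⟨x1, x2⟩` -/
def ca2 : G4 →* G4 := liftG (x1 * x2 * x1 * (x1 * x2)⁻¹) (x1 * x2 * x2 * (x1 * x2)⁻¹) x3 yy
  (by simp [mul_assoc]) (by simp [mul_assoc]) (by simp)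
/-- the action of `c²`: conjugation by `x2 x3` on `⟨x2, x3⟩` -/
def cc2 : G4 →* G4 := liftG x1 (x2 * x3 * x2 * (x2 * x3)⁻¹) (x2 * x3 * x3 * (x2 * x3)⁻¹) yy
  (by simp) (by simp [mul_assoc]) (by simp [mul_assoc])
/-- the action of `d`: conjugation by `x3 y` on `⟨x3, y⟩` -/
def dd : G4 →* G4 := liftG x1 x2 (x3 * yy * x3 * (x3 * yy)⁻¹) (x3 * yy * yy * (x3 * yy)⁻¹)
  (by simp) (by simp) (by simp [mul_assoc])

/-- images of the letters in `G4` -/
def kf : G0 ⊕ G1 → G4
  | .inl .m => yy * x3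
  | .inl .r => x1 * x2 * x3 * yy
  | .inr .u => x2 * x1
  | .inr .v => x3 * x1

/-- the embedding `F → G4` as the subgroup of the even elements:
`u ↦ x2 x1, v ↦ x3 x1, m ↦ y x3, r ↦ x1 x2 x3 y` -/
def ka : F →* G4 := lift kf

@[simp] lemma ka_U : ka U = x2 * x1 := by simp [ka, kf]
@[simp] lemma ka_V : ka V = x3 * x1 := by simp [ka, kf]
@[simp] lemma ka_M : ka M = yy * x3 := by simp [ka, kf]
@[simp] lemma ka_R : ka R = x1 * x2 * x3 * yy := by simp [ka, kf]

lemma homF_ext {H : Type*} [Group H] {f g : F →* H} (hu : f U = g U) (hv : f V = g V)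
    (hm : f M = g M) (hr : f R = g R) : f = g := by
  ext y
  rcases y with y | y <;> cases y <;> assumption

lemma par_ka (w : F) : par (ka w) = 1 := by
  have : par.comp ka = 1 := by apply homF_ext <;> simp
  exact DFunLike.congr_fun this w

lemma ka_al (w : F) : ka (al w) = ca (ka w) := by
  have : ka.comp al.toMonoidHom = ca.comp ka := by
    apply homF_ext <;> simp [ca, mul_assoc]
  exact DFunLike.congr_fun this w

lemma ka_al2 (w : F) : ka (al (al w)) = ca2 (ka w) := by
  have : ka.comp (al.toMonoidHom.comp al.toMonoidHom) = ca2.comp ka := by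
    apply homF_ext <;> simp [ca2, mul_assoc]
  exact DFunLike.congr_fun this w

lemma ka_cc2 (w : F) : ka (cc (cc w)) = cc2 (ka w) := by
  have : ka.comp (cc.toMonoidHom.comp cc.toMonoidHom) = cc2.comp ka := by
    apply homF_ext <;> simp [cc2, mul_assoc]
  exact DFunLike.congr_fun this w

lemma ka_de (w : F) : ka (de w) = dd (ka w) := by
  have : ka.comp de.toMonoidHom = dd.comp ka := by
    apply homF_ext <;> simp [dd, mul_assoc]
  exact DFunLike.congr_fun this w

/-- images of the letters under `tauF` -/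
def tauf : G0 ⊕ G1 → F
  | .inl .m => V⁻¹ * U * R * V
  | .inl .r => U * V⁻¹ * M * V
  | .inr .u => U⁻¹
  | .inr .v => V⁻¹

/-- the automorphism of `F` which is the conjugation by `x1` -/
def tauF : MulAut F := mkAut tauf tauf
  (by rintro (x | x) <;> cases x <;> simp [tauf, mul_assoc])
  (by rintro (x | x) <;> cases x <;> simp [tauf, mul_assoc])

@[simp] lemma tauF_M : tauF M = V⁻¹ * U * R * V := by simp [tauF, tauf]
@[simp] lemma tauF_R : tauF R = U * V⁻¹ * M * V := by simp [tauF, tauf]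
@[simp] lemma tauF_U : tauF U = U⁻¹ := by simp [tauF, tauf]
@[simp] lemma tauF_V : tauF V = V⁻¹ := by simp [tauF, tauf]
@[simp] lemma tauFi_M : MulEquiv.symm tauF M = V⁻¹ * U * R * V := by simp [tauF, tauf]
@[simp] lemma tauFi_R : MulEquiv.symm tauF R = U * V⁻¹ * M * V := by simp [tauF, tauf]
@[simp] lemma tauFi_U : MulEquiv.symm tauF U = U⁻¹ := by simp [tauF, tauf]
@[simp] lemma tauFi_V : MulEquiv.symm tauF V = V⁻¹ := by simp [tauF, tauf]

lemma ka_tauF (w : F) : ka (tauF w) = x1 * ka w * x1 := by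
  have : ka.comp tauF.toMonoidHom = (MulAut.conj x1).toMonoidHom.comp ka := by
    apply homF_ext <;> simp [mul_assoc]
  have h := DFunLike.congr_fun this w
  simpa using h

lemma tauF_sq (w : F) : tauF (tauF w) = w := by
  have : tauF * tauF = 1 := by apply autF_ext <;> simp [MulAut.mul_apply, mul_assoc]
  exact DFunLike.congr_fun this w

lemma tauF_cc (w : F) : tauF (cc w) = cc (tauF w) := by
  have : tauF * cc = cc * tauF := by apply autF_ext <;> simp [MulAut.mul_apply, mul_assoc]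
  exact DFunLike.congr_fun this w

/-- the action of `G4` on `F`, `x1 ↦ tauF`, `x2 ↦ conj U * tauF`, … -/
def act4 : G4 →* MulAut F :=
  liftG tauF (MulAut.conj U * tauF) (MulAut.conj V * tauF) (MulAut.conj (M * V) * tauF)
    (by apply autF_ext <;> simp [MulAut.mul_apply, mul_assoc])
    (by apply autF_ext <;> simp [MulAut.mul_apply, mul_assoc])
    (by apply autF_ext <;> simp [MulAut.mul_apply, mul_assoc])

lemma act4_ka (w : F) : act4 (ka w) = MulAut.conj w := by
  have : act4.comp ka = MulAut.conj := by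
    apply homF_ext <;> simp only [MonoidHom.comp_apply, ka_U, ka_V, ka_M, ka_R, map_mul, act4,
      liftG_x1, liftG_x2, liftG_x3, liftG_yy] <;>
      apply autF_ext <;> simp [MulAut.mul_apply, mul_assoc]
  exact DFunLike.congr_fun this w

end Pool.Agent.Helper38.BT
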