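import Pool.Agent.Helper7.AG.Frot

/-!
# Project BT (MP_2ec7a7_al), piece BT-PC: classes invariant under a one-factor conjugation
-/

namespace Pool.Agent.Helper38.BT

open Pool.Agent.Helper7.AG (FreeProd Red val pv PNt nt sv)

section
variable {A B Γ : Type} [Group A] [Group B] [Group Γ] {i : A →* Γ} {j : B →* Γ}

/-- the map on the pairs -/
private def PC_f (g : B) (p : A × B) : A × B := (p.1, g * p.2 * g⁻¹)

omit [Group A] in
private lemma PC_iter (g : B) (K : ℕ) (p : A × B) :
    (PC_f g)^[K] p = (p.1, g ^ K * p.2 * (g ^ K)⁻¹) := by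
  induction K with
  | zero => simp
  | succ K ih =>
    rw [Function.iterate_succ_apply', ih]
    simp [PC_f, pow_succ', mul_assoc]

private lemma PC_pv {e : Γ →* Γ} {g : B} (he : ∀ a, e (i a) = i a)
    (he' : ∀ b, e (j b) = j (g * b * g⁻¹)) (L : List (A × B)) :
    e (pv i j L) = pv i j (L.map (PC_f g)) := by
  unfold pv
  rw [map_list_prod, List.map_map, List.map_map]
  congr 1
  refine List.map_congr_left fun p _ => ?_
  simp [PC_f, he, he']

/-- `BT-PC`.  Classes which are invariant under a one-factor conjugation.  Let `e = id` on `i A` and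
`e = ` conjugation by `j g` on `j B`, and let `L` be a list of pairs (a cyclically reduced word)
such that `e (pv L)` is conjugate to `pv L`.  Then some positive power of `g` commutes with all
second entries.  Proof: `e (pv L) = pv (L.map (fun p => (p.1, g p.2 g⁻¹)))`, and by
`FreeProd.rotate` this list is `L.rotate n`.  Iterate: applying the map `k` times is the rotation
by `k n`.  For `k = L.length` the rotation is trivial, so `g^k b g^(-k) = b` for all second
entries `b` of `L`. -/
theorem pconj (h : FreeProd i j) {e : Γ →* Γ} {g : B} (he : ∀ a, e (i a) = i a)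
    (he' : ∀ b, e (j b) = j (g * b * g⁻¹)) {L : List (A × B)} (hL : PNt L)
    (hc : ∃ y, y * pv i j L * y⁻¹ = e (pv i j L)) :
    ∃ K : ℕ, 0 < K ∧ ∀ p ∈ L, p.2 * g ^ K = g ^ K * p.2 := by
  obtain ⟨y, hy⟩ := hc
  rw [PC_pv he he'] at hy
  have hL' : PNt (L.map (PC_f g)) := by
    refine ⟨by simpa using hL.1, fun p hp => ?_⟩
    obtain ⟨q, hq, rfl⟩ := List.mem_map.1 hp
    obtain ⟨h1, h2⟩ := hL.2 q hq
    refine ⟨h1, fun h3 => h2 ?_⟩
    exact conj_eq_one_iff.1 h3
  obtain ⟨n, hn⟩ := FreeProd.rotate h hL hL' hy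
  have key : ∀ k : ℕ, L.map ((PC_f g)^[k]) = L.rotate (k * n) := by
    intro k
    induction k with
    | zero => simp
    | succ k ih =>
      have h1 : L.map ((PC_f g)^[k + 1]) = (L.map ((PC_f g)^[k])).map (PC_f g) := by
        rw [List.map_map, Function.iterate_succ']
      rw [h1, ih, List.map_rotate, hn, List.rotate_rotate]
      congr 1
      ring
  refine ⟨L.length, List.length_pos_iff.2 hL.1, fun p hp => ?_⟩
  have h2 : L.map ((PC_f g)^[L.length]) = L.map id := by
    rw [key, List.map_id, List.rotate_length_mul]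
  have h3 := List.map_inj_left.1 h2 p hp
  rw [PC_iter] at h3
  have h4 := congrArg Prod.snd h3
  simp only [id_eq] at h4
  rw [mul_inv_eq_iff_eq_mul] at h4
  exact h4.symm

end

end Pool.Agent.Helper38.BT
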