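import Pool.Agent.Helper38.BT.G4P
import Pool.Agent.Helper38.BT.PC
import Pool.Agent.Helper7.AG.Fcyc

/-!
# Project BT (MP_2ec7a7_al), piece BT-G4A
-/

namespace Pool.Agent.Helper38.BT

open Pool.Agent.Helper7.AG (FreeProd Red val pv PNt nt sv)

section G4A_sec
variable {A B Γ : Type} [Group A] [Group B] [Group Γ]

/-- the list of pairs shifted by half a pair -/
private def G4A_sh : B → List (A × B) → A → List (B × A)
  | b, [], c => [(b, c)]
  | b, p :: L, c => (b, p.1) :: G4A_sh p.2 L c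

private lemma G4A_pv (i : A →* Γ) (j : B →* Γ) : ∀ (L : List (A × B)) (b : B) (c : A),
    pv j i (G4A_sh b L c) = j b * pv i j L * i c
  | [], b, c => by simp [G4A_sh, pv]
  | p :: L, b, c => by
    have e1 : pv j i (G4A_sh b (p :: L) c) = j b * i p.1 * pv j i (G4A_sh p.2 L c) := by
      simp [G4A_sh, pv]
    have e2 : pv i j (p :: L) = i p.1 * j p.2 * pv i j L := by
      simp [pv]
    rw [e1, e2, G4A_pv i j L p.2 c]
    group

omit [Group A] [Group B] in
private lemma G4A_ne : ∀ (L : List (A × B)) (b : B) (c : A), G4A_sh b L c ≠ []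
  | [], b, c => by simp [G4A_sh]
  | p :: L, b, c => by simp [G4A_sh]

private lemma G4A_nt : ∀ (L : List (A × B)) (b : B) (c : A), b ≠ 1 → c ≠ 1 →
    (∀ p ∈ L, p.1 ≠ 1 ∧ p.2 ≠ 1) → ∀ q ∈ G4A_sh b L c, q.1 ≠ 1 ∧ q.2 ≠ 1
  | [], b, c, hb, hc, _, q, hq => by
    have : q = (b, c) := by simpa [G4A_sh] using hq
    rw [this]
    exact ⟨hb, hc⟩
  | p :: L, b, c, hb, hc, hL, q, hq => by
    have h1 := hL p List.mem_cons_self
    have hq' : q = (b, p.1) ∨ q ∈ G4A_sh p.2 L c := by simpa [G4A_sh] using hq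
    rcases hq' with rfl | hq'
    · exact ⟨hb, h1.1⟩
    · exact G4A_nt L p.2 c h1.2 hc (fun r hr => hL r (List.mem_cons_of_mem _ hr)) q hq'

omit [Group A] [Group B] in
private lemma G4A_last : ∀ (L : List (A × B)) (b : B) (c : A), ∃ q ∈ G4A_sh b L c, q.2 = c
  | [], b, c => ⟨(b, c), by simp [G4A_sh], rfl⟩
  | p :: L, b, c => by
    obtain ⟨q, hq, hq'⟩ := G4A_last L p.2 c
    exact ⟨q, by simp [G4A_sh, hq], hq'⟩

omit [Group A] [Group B] in
private lemma G4A_mem : ∀ (L : List (A × B)) (b : B) (c : A), ∀ p ∈ L,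
    ∃ q ∈ G4A_sh b L c, q.2 = p.1
  | [], b, c, p, hp => absurd hp (by simp)
  | p₀ :: L, b, c, p, hp => by
    rcases List.mem_cons.1 hp with rfl | hp
    · exact ⟨(b, p.1), by simp [G4A_sh], rfl⟩
    · obtain ⟨q, hq, hq'⟩ := G4A_mem L p₀.2 c p hp
      exact ⟨q, by simp [G4A_sh, hq], hq'⟩

/-- invariance of the class passes to conjugates -/
private lemma G4A_conj {e : Γ →* Γ} {g y g' : Γ} (hg : y * g * y⁻¹ = g')
    (h : ∃ z, z * g * z⁻¹ = e g) : ∃ z, z * g' * z⁻¹ = e g' := by
  obtain ⟨z, hz⟩ := h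
  refine ⟨e y * z * y⁻¹, ?_⟩
  rw [← hg, map_mul, map_mul, map_inv, ← hz]
  group

private lemma G4A_pv_mem {i : A →* Γ} {j : B →* Γ} (K : Subgroup Γ) : ∀ L : List (A × B),
    (∀ p ∈ L, i p.1 ∈ K ∧ j p.2 ∈ K) → pv i j L ∈ K
  | [], _ => by simp [pv]
  | p :: L, h => by
    have e2 : pv i j (p :: L) = i p.1 * j p.2 * pv i j L := by
      simp [pv]
    rw [e2]
    have h1 := h p List.mem_cons_self
    exact K.mul_mem (K.mul_mem h1.1 h1.2)
      (G4A_pv_mem K L fun q hq => h q (List.mem_cons_of_mem _ hq))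

end G4A_sec

private lemma G4A_c2 {c : C2} (hc : c ≠ 1) : c = -1 := by
  rcases Int.units_eq_one_or c with h | h
  · exact absurd h hc
  · exact h

private lemma G4A_ca2A (a : A0) : ca2 (inG a) = inG (s1 * s2 * a * (s1 * s2)⁻¹) := by
  have : ca2.comp inG = inG.comp (MulAut.conj (s1 * s2)).toMonoidHom := by
    apply homA_ext
    · show ca2 x1 = inG (s1 * s2 * s1 * (s1 * s2)⁻¹)
      rw [ca2, liftG_x1, map_mul, map_mul, map_mul, map_inv, map_mul]
      rfl
    · show ca2 x2 = inG (s1 * s2 * s2 * (s1 * s2)⁻¹)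
      rw [ca2, liftG_x2, map_mul, map_mul, map_mul, map_inv, map_mul]
      rfl
  exact DFunLike.congr_fun this a

private lemma G4A_ca2B (b : B0) : ca2 (inG' b) = inG' b := by
  have : ca2.comp inG' = inG' := by
    apply homB_ext
    · show ca2 x3 = x3
      rw [ca2, liftG_x3]
    · show ca2 yy = yy
      rw [ca2, liftG_yy]
  exact DFunLike.congr_fun this b

private lemma G4A_ddB (b : B0) : dd (inG' b) = inG' (s3 * sy * b * (s3 * sy)⁻¹) := by
  have : dd.comp inG' = inG'.comp (MulAut.conj (s3 * sy)).toMonoidHom := by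
    apply homB_ext
    · show dd x3 = inG' (s3 * sy * s3 * (s3 * sy)⁻¹)
      rw [dd, liftG_x3, map_mul, map_mul, map_mul, map_inv, map_mul]
      rfl
    · show dd yy = inG' (s3 * sy * sy * (s3 * sy)⁻¹)
      rw [dd, liftG_yy, map_mul, map_mul, map_mul, map_inv, map_mul]
      rfl
  exact DFunLike.congr_fun this b

private lemma G4A_ddA (a : A0) : dd (inG a) = inG a := by
  have : dd.comp inG = inG := by
    apply homA_ext
    · show dd x1 = x1
      rw [dd, liftG_x1]
    · show dd x2 = x2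
      rw [dd, liftG_x2]
  exact DFunLike.congr_fun this a

private lemma G4A_par_conj (y g : G4) : par (y * g * y⁻¹) = par g := by
  rw [map_mul, map_mul, map_inv, mul_comm (par y), mul_inv_cancel_right]

private lemma G4A_neg_ne : (-1 : C2) ≠ 1 := by decide

/-- `BT-G4A`.  Let `g` be even with a class invariant under `ca2` and `dd`.  By
`fpG.exists_cyc` a conjugate of `g` is `inG a`, or `inG' b`, or `pv L`.
If `inG a`: `a` is even; by `fpA.exists_cyc` it is conjugate to an element of a factor (then it is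
`1` or `s1`, `s2`, and the last two are odd) or to `(s1 s2)^n` (all pairs are `(-1, -1)`).
If `pv L`: `ca2` is conjugation by `s1 s2` on the first factor and the identity on the second
(check on generators, `homA_ext`, `homB_ext`), so by `pconj` (for `fpG.symm`; the pairs must
be exchanged: `pv inG inG' L` is conjugate to `pv inG' inG L'` where `L'` is `L` shifted by half a
pair) and `cent_A` all first entries are powers of `s1 s2`.  In the same way (`dd`, `cent_B`) all
second entries are powers of `s3 sy`.  So `pv L` is in the subgroup generated by `x1 x2` and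
`x3 y`. -/
theorem inv_A {g : G4} (hp : par g = 1) (h1 : ∃ y, y * g * y⁻¹ = ca2 g)
    (h2 : ∃ y, y * g * y⁻¹ = dd g) :
    ∃ y : G4, y * g * y⁻¹ ∈ Subgroup.closure ({x1 * x2, x3 * yy} : Set G4) ∨
      ∃ b : B0, y * g * y⁻¹ = inG' b := by
  have hx12 : x1 * x2 ∈ Subgroup.closure ({x1 * x2, x3 * yy} : Set G4) :=
    Subgroup.subset_closure (by simp)
  have hx3y : x3 * yy ∈ Subgroup.closure ({x1 * x2, x3 * yy} : Set G4) :=
    Subgroup.subset_closure (by simp)
  obtain ⟨y, ⟨a, ha⟩ | ⟨b, hb⟩ | ⟨L, hL, hyL⟩⟩ := fpG.exists_cyc g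
  · -- `g` is conjugate to `inG a`
    have hpa : par (inG a) = 1 := by
      rw [← ha, G4A_par_conj, hp]
    obtain ⟨w, ⟨c, hc⟩ | ⟨c, hc⟩ | ⟨M, hM, hwM⟩⟩ := fpA.exists_cyc a
    · have hpc : par (inG (inA c)) = 1 := by
        have e0 : inG (w * a * w⁻¹) = inG w * inG a * (inG w)⁻¹ := by
          rw [map_mul, map_mul, map_inv]
        rw [← hc, e0, G4A_par_conj, hpa]
      have hc1 : c = 1 := by
        by_contra hne
        rw [G4A_c2 hne] at hpc
        have : par x1 = 1 := hpc
        rw [par_x1] at this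
        exact G4A_neg_ne this
      refine ⟨inG w * y, Or.inl ?_⟩
      have e : inG w * y * g * (inG w * y)⁻¹ = inG w * (y * g * y⁻¹) * (inG w)⁻¹ := by group
      rw [e, ha, ← map_inv, ← map_mul, ← map_mul, hc, hc1, map_one, map_one]
      exact Subgroup.one_mem _
    · have hpc : par (inG (inA' c)) = 1 := by
        have e0 : inG (w * a * w⁻¹) = inG w * inG a * (inG w)⁻¹ := by
          rw [map_mul, map_mul, map_inv]
        rw [← hc, e0, G4A_par_conj, hpa]
      have hc1 : c = 1 := by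
        by_contra hne
        rw [G4A_c2 hne] at hpc
        have : par x2 = 1 := hpc
        rw [par_x2] at this
        exact G4A_neg_ne this
      refine ⟨inG w * y, Or.inl ?_⟩
      have e : inG w * y * g * (inG w * y)⁻¹ = inG w * (y * g * y⁻¹) * (inG w)⁻¹ := by group
      rw [e, ha, ← map_inv, ← map_mul, ← map_mul, hc, hc1, map_one, map_one]
      exact Subgroup.one_mem _
    · refine ⟨inG w * y, Or.inl ?_⟩
      have e : inG w * y * g * (inG w * y)⁻¹ = inG w * (y * g * y⁻¹) * (inG w)⁻¹ := by group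
      rw [e, ha, ← map_inv, ← map_mul, ← map_mul, hwM]
      have hpow : ∀ M : List (C2 × C2), (∀ p ∈ M, p.1 ≠ 1 ∧ p.2 ≠ 1) →
          inG (pv inA inA' M) ∈ Subgroup.closure ({x1 * x2, x3 * yy} : Set G4) := by
        intro M
        induction M with
        | nil =>
          intro _
          have : pv inA inA' [] = 1 := by simp [pv]
          rw [this, map_one]
          exact Subgroup.one_mem _
        | cons p M ih =>
          intro hM
          have e2 : pv inA inA' (p :: M) = inA p.1 * inA' p.2 * pv inA inA' M := by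
            simp [pv]
          have h3 := hM p List.mem_cons_self
          rw [e2, G4A_c2 h3.1, G4A_c2 h3.2, map_mul]
          refine Subgroup.mul_mem _ ?_ (ih fun q hq => hM q (List.mem_cons_of_mem _ hq))
          have e3 : inG (inA (-1) * inA' (-1)) = x1 * x2 := map_mul inG _ _
          rw [e3]
          exact hx12
      exact hpow M hM.2
  · exact ⟨y, Or.inr ⟨b, hb⟩⟩
  · -- `g` is conjugate to `pv L`
    refine ⟨y, Or.inl ?_⟩
    rw [hyL]
    have hdd := G4A_conj hyL h2
    have hca := G4A_conj hyL h1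
    obtain ⟨K, hK, hK'⟩ := pconj fpG G4A_ddA G4A_ddB hL hdd
    have hsec : ∀ p ∈ L, inG' p.2 ∈ Subgroup.closure ({x1 * x2, x3 * yy} : Set G4) := by
      intro p hp
      obtain ⟨n, hn⟩ := cent_B hK (hK' p hp)
      rw [hn, map_zpow]
      have e3 : inG' (s3 * sy) = x3 * yy := map_mul inG' _ _
      rw [e3]
      exact Subgroup.zpow_mem _ hx3y n
    have hfst : ∀ p ∈ L, inG p.1 ∈ Subgroup.closure ({x1 * x2, x3 * yy} : Set G4) := by
      cases L with
      | nil =>
        intro p hp
        simp at hp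
      | cons p₀ L₀ =>
        obtain ⟨-, hL2⟩ := hL
        have hp0 := hL2 p₀ List.mem_cons_self
        have hL0 : ∀ p ∈ L₀, p.1 ≠ 1 ∧ p.2 ≠ 1 := fun p hp => hL2 p (List.mem_cons_of_mem _ hp)
        have hPN : PNt (G4A_sh p₀.2 L₀ p₀.1) :=
          ⟨G4A_ne _ _ _, G4A_nt L₀ p₀.2 p₀.1 hp0.2 hp0.1 hL0⟩
        have e1 : (inG p₀.1)⁻¹ * pv inG inG' (p₀ :: L₀) * ((inG p₀.1)⁻¹)⁻¹ =
            pv inG' inG (G4A_sh p₀.2 L₀ p₀.1) := by
          have e2 : pv inG inG' (p₀ :: L₀) = inG p₀.1 * inG' p₀.2 * pv inG inG' L₀ := by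
            simp [pv]
          rw [G4A_pv inG inG' L₀, e2]
          group
        obtain ⟨K', hK0, hK1⟩ := pconj fpG.symm G4A_ca2B G4A_ca2A hPN (G4A_conj e1 hca)
        have hall : ∀ q ∈ G4A_sh p₀.2 L₀ p₀.1,
            inG q.2 ∈ Subgroup.closure ({x1 * x2, x3 * yy} : Set G4) := by
          intro q hq
          obtain ⟨n, hn⟩ := cent_A hK0 (hK1 q hq)
          rw [hn, map_zpow]
          have e3 : inG (s1 * s2) = x1 * x2 := map_mul inG _ _
          rw [e3]
          exact Subgroup.zpow_mem _ hx12 n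
        intro p hp
        rcases List.mem_cons.1 hp with rfl | hp
        · obtain ⟨q, hq, hq'⟩ := G4A_last L₀ p.2 p.1
          rw [← hq']
          exact hall q hq
        · obtain ⟨q, hq, hq'⟩ := G4A_mem L₀ p₀.2 p₀.1 p hp
          rw [← hq']
          exact hall q hq
    exact G4A_pv_mem _ L fun p hp => ⟨hfst p hp, hsec p hp⟩

end Pool.Agent.Helper38.BT
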