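import Pool.Agent.Helper38.BT.G4P
import Pool.Agent.Helper38.BT.PC
import Pool.Agent.Helper7.AG.Fcyc

/-!
# Project BT (MP_2ec7a7_al), piece BT-G4B
-/

namespace Pool.Agent.Helper38.BT

open Pool.Agent.Helper7.AG (FreeProd Red val pv PNt nt sv)

private theorem G4B_par_conj {g y z : G4} (h : y * g * y⁻¹ = z) : par z = par g := by
  rw [← h, map_mul, map_mul, map_inv, mul_comm (par y) (par g), mul_assoc, mul_inv_cancel,
    mul_one]

private theorem G4B_inB' (z : Zm) :
    inG' (inB' z) = yy ^ (Multiplicative.toAdd z) := by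
  have h : inG'.comp inB' = zpowersHom G4 yy := by
    ext
    change yy = _
    simp
  have h1 := DFunLike.congr_fun h z
  rw [MonoidHom.comp_apply] at h1
  rw [h1]
  rfl

private theorem G4B_liftB (z : Zm) : liftB x1 yy x1_sq (inB' z) = inG' (inB' z) := by
  have h : (liftB x1 yy x1_sq).comp inB' = inG'.comp inB' := by
    ext
    change liftB x1 yy x1_sq sy = yy
    simp
  exact DFunLike.congr_fun h z

private theorem G4B_c2 {p : C2} (hp : p ≠ 1) : p = -1 :=
  (Int.units_eq_one_or p).resolve_left hp

private theorem G4B_prod {ι : Type} (f : ι → G4) (x : G4) (L : List ι) :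
    x⁻¹ * (L.map fun p => x * f p).prod * x = (L.map fun p => f p * x).prod := by
  induction L with
  | nil => simp
  | cons p L ih =>
    rw [List.map_cons, List.prod_cons, List.map_cons, List.prod_cons, ← ih]
    group

/-- `BT-G4B`.  By `fpB.exists_cyc` `b` is conjugate in `B0` to `1`, `s3` (odd: impossible), a power
of `sy` (the exponent is even, by parity), or `pv L` with the pairs `(-1, t^k)`, `k ≠ 0`.  In the
last case `inG' b` is conjugate to a product of `x3 y^(k1) x3 y^(k2) ⋯`, which is `pv L'` for
`fpG1` with the first entries `s2 ∈ A0` (`liftA x2 x3` maps `s2` to `x3`) and the second entries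
`sy^k`.  `cc2` is conjugation by `s1 s2` (`↦ x2 x3`) on the first factor of `fpG1` and the identity
on the second one.  By `pconj` (for `fpG1.symm`) `s2` commutes with `(s1 s2)^K`, `K > 0`, so
it is a power of `s1 s2` (`cent_A`): impossible by parity. -/
theorem inv_B {b : B0} (hp : par (inG' b) = 1) (h : ∃ y, y * inG' b * y⁻¹ = cc2 (inG' b)) :
    ∃ (y : G4) (k : ℤ), y * inG' b * y⁻¹ = (yy * yy) ^ k := by
  obtain ⟨y, ⟨a, ha⟩ | ⟨z, hz⟩ | ⟨L, hL, hpv⟩⟩ := fpB.exists_cyc b
  · -- an element of the first factor
    have h1 : inG' y * inG' b * (inG' y)⁻¹ = inG' (inB a) := by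
      rw [← ha, map_mul, map_mul, map_inv]
    rcases eq_or_ne a 1 with rfl | hne
    · refine ⟨inG' y, 0, ?_⟩
      rw [h1, map_one, map_one, zpow_zero]
    · exfalso
      rw [G4B_c2 hne] at h1
      have h2 := G4B_par_conj h1
      rw [hp] at h2
      have h3 : par (inG' (inB (-1))) = -1 := par_x3
      rw [h3] at h2
      exact absurd h2 (by decide)
  · -- an element of the second factor
    have h1 : inG' y * inG' b * (inG' y)⁻¹ = yy ^ (Multiplicative.toAdd z) := by
      rw [← G4B_inB', ← hz, map_mul, map_mul, map_inv]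
    have h2 := G4B_par_conj h1
    rw [hp, map_zpow, par_yy] at h2
    have h3 : Even (Multiplicative.toAdd z) := by
      by_contra hodd
      rw [Int.not_even_iff_odd] at hodd
      rw [hodd.neg_one_zpow] at h2
      exact absurd h2 (by decide)
    obtain ⟨k, hk⟩ := h3
    refine ⟨inG' y, k, ?_⟩
    rw [h1, hk, (Commute.refl yy).mul_zpow, zpow_add]
  · -- the cyclically reduced words: impossible
    exfalso
    set i1 : A0 →* G4 := liftA x2 x3 x2_sq x3_sq with hi1
    set j1 : B0 →* G4 := liftB x1 yy x1_sq with hj1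
    set L' : List (B0 × A0) := L.map fun p => (inB' p.2, s2) with hL'
    have hs2 : s2 ≠ 1 := by
      intro h0
      have h1 : inA' (-1) = inA' 1 := by rw [map_one]; exact h0
      have h2 := fpA.inj_right h1
      exact absurd h2 (by decide)
    have hPN : PNt L' := by
      refine ⟨?_, ?_⟩
      · rw [hL']
        intro h0
        exact hL.1 (List.map_eq_nil_iff.1 h0)
      · intro p hp'
        rw [hL', List.mem_map] at hp'
        obtain ⟨q, hq, rfl⟩ := hp'
        refine ⟨?_, hs2⟩
        intro h0
        have h1 : inB' q.2 = inB' 1 := by rw [map_one]; exact h0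
        exact (hL.2 q hq).2 (fpB.inj_right h1)
    -- the value of the new list
    have hval1 : inG' (pv inB inB' L) = (L.map fun p => x3 * inG' (inB' p.2)).prod := by
      unfold pv
      rw [map_list_prod, List.map_map]
      congr 1
      apply List.map_congr_left
      intro p hp'
      have h1 : p.1 = -1 := G4B_c2 (hL.2 p hp').1
      change inG' (inB p.1 * inB' p.2) = _
      rw [h1, map_mul]
      rfl
    have hval2 : pv j1 i1 L' = (L.map fun p => inG' (inB' p.2) * x3).prod := by
      unfold pv
      rw [hL', List.map_map]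
      congr 1
      apply List.map_congr_left
      intro p hp'
      change j1 (inB' p.2) * i1 s2 = _
      rw [hj1, G4B_liftB, hi1, liftA_s2]
    obtain ⟨c, hc⟩ : ∃ c : G4, c * inG' b * c⁻¹ = pv j1 i1 L' := by
      refine ⟨x3⁻¹ * inG' y, ?_⟩
      rw [hval2, ← G4B_prod, ← hval1, ← hpv, map_mul, map_mul, map_inv]
      group
    have hconj : ∃ y, y * pv j1 i1 L' * y⁻¹ = cc2 (pv j1 i1 L') := by
      obtain ⟨u, hu⟩ := h
      refine ⟨cc2 c * u * c⁻¹, ?_⟩
      rw [← hc, map_mul, map_mul, ← hu, map_inv]
      group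
    have he : ∀ a, cc2 (j1 a) = j1 a := by
      have h1 : cc2.comp j1 = j1 := by
        apply homB_ext <;> simp [cc2, hj1]
      exact fun a => DFunLike.congr_fun h1 a
    have he' : ∀ a, cc2 (i1 a) = i1 (s1 * s2 * a * (s1 * s2)⁻¹) := by
      have h1 : cc2.comp i1 = i1.comp (MulAut.conj (s1 * s2)).toMonoidHom := by
        apply homA_ext <;> simp [cc2, hi1, mul_assoc]
      intro a
      have h2 := DFunLike.congr_fun h1 a
      simpa [mul_assoc] using h2
    obtain ⟨K, hK, hcomm⟩ := pconj fpG1.symm he he' hPN hconj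
    obtain ⟨p, hp'⟩ := List.exists_mem_of_ne_nil L' hPN.1
    have h1 := hcomm p hp'
    have h2 : p.2 = s2 := by
      rw [hL', List.mem_map] at hp'
      obtain ⟨q, -, rfl⟩ := hp'
      rfl
    rw [h2] at h1
    obtain ⟨n, hn⟩ := cent_A hK h1
    have h3 : par (inG s2) = par (inG ((s1 * s2) ^ n)) := by rw [← hn]
    have h4 : par (inG s2) = -1 := par_x2
    have h5 : par (inG (s1 * s2)) = 1 := by
      rw [map_mul, map_mul, h4]
      have h6 : par (inG s1) = -1 := par_x1
      rw [h6]
      decide
    rw [h4, map_zpow, map_zpow, h5, one_zpow] at h3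
    exact absurd h3 (by decide)

end Pool.Agent.Helper38.BT
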