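import Pool.Agent.Helper38.BT.G4
import Pool.Agent.Helper38.BT.Cop
import Pool.Agent.Helper38.BT.CentP

/-!
# Project BT (MP_2ec7a7_al), piece BT-G4P: the decompositions of `G4`
-/

namespace Pool.Agent.Helper38.BT

open Pool.Agent.Helper7.AG (FreeProd Red val pv PNt nt sv)

/-- `BT-G4P`: `freeProd_coprod` -/
theorem fpA : FreeProd inA inA' := freeProd_coprod C2 C2

/-- `BT-G4P` -/
theorem fpB : FreeProd inB inB' := freeProd_coprod C2 Zm

/-- `BT-G4P` -/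
theorem fpG : FreeProd inG inG' := freeProd_coprod A0 B0

/-- `BT-G4P`: the second decomposition `G4 = ⟨x2, x3⟩ * ⟨x1, y⟩`: `FreeProd.equiv` with the
automorphism `x1 ↦ x2 ↦ x3 ↦ x1`, `y ↦ y` of `G4` (from `liftG`, `homG_ext`). -/
theorem fpG1 : FreeProd (liftA x2 x3 x2_sq x3_sq) (liftB x1 yy x1_sq) := by
  let e : G4 ≃* G4 := MonoidHom.toMulEquiv
    (liftG x2 x3 x1 yy x2_sq x3_sq x1_sq) (liftG x3 x1 x2 yy x3_sq x1_sq x2_sq)
    (by apply homG_ext <;> simp) (by apply homG_ext <;> simp)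
  have h1 := fpG.equiv e
  have e1 : e.toMonoidHom.comp inG = liftA x2 x3 x2_sq x3_sq := by
    apply homA_ext
    · rw [liftA_s1]
      exact liftG_x1 x2 x3 x1 yy x2_sq x3_sq x1_sq
    · rw [liftA_s2]
      exact liftG_x2 x2 x3 x1 yy x2_sq x3_sq x1_sq
  have e2 : e.toMonoidHom.comp inG' = liftB x1 yy x1_sq := by
    apply homB_ext
    · rw [liftB_s3]
      exact liftG_x3 x2 x3 x1 yy x2_sq x3_sq x1_sq
    · rw [liftB_sy]
      exact liftG_yy x2 x3 x1 yy x2_sq x3_sq x1_sq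
  rw [e1, e2] at h1
  exact h1

/-- `BT-G4P`: `cent_pow` for `fpA`, `s1 = inA (-1)`, `s2 = inA' (-1)` -/
theorem cent_A {a : A0} {K : ℕ} (hK : 0 < K) (h : a * (s1 * s2) ^ K = (s1 * s2) ^ K * a) :
    ∃ n : ℤ, a = (s1 * s2) ^ n :=
  cent_pow fpA (a := -1) (b := -1) (by decide) (by decide) hK h

/-- `BT-G4P`: `cent_pow` for `fpB` -/
theorem cent_B {b : B0} {K : ℕ} (hK : 0 < K) (h : b * (s3 * sy) ^ K = (s3 * sy) ^ K * b) :
    ∃ n : ℤ, b = (s3 * sy) ^ n :=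
  cent_pow fpB (a := -1) (b := Multiplicative.ofAdd 1) (by decide) (by decide) hK h

end Pool.Agent.Helper38.BT
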