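import Pool.Agent.Helper38.BT.Io1
import Pool.Agent.Helper7.AG.Fmal

/-!
# Project BT (MP_2ec7a7_al), piece BT-IO2
-/

namespace Pool.Agent.Helper38.BT

private lemma Io2_mem (z : F3) : io z ∈ HH := by
  have ha : ga ∈ HH := Subgroup.subset_closure (by simp)
  have hc : gc ∈ HH := Subgroup.subset_closure (by simp)
  have hd : gd ∈ HH := Subgroup.subset_closure (by simp)
  refine FreeGroup.induction_on (C := fun z => io z ∈ HH) z ?_ ?_ ?_ ?_
  · rw [map_one]
    exact HH.one_mem
  · intro i
    have h2 : gc * gd * gc⁻¹ ∈ HH := HH.mul_mem (HH.mul_mem hc hd) (HH.inv_mem hc)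
    fin_cases i
    · change io z1 ∈ HH
      rw [io_z1]
      exact hd
    · change io z2 ∈ HH
      rw [io_z2]
      exact h2
    · change io z3 ∈ HH
      rw [io_z3]
      exact HH.mul_mem (HH.mul_mem ha h2) (HH.inv_mem ha)
  · intro i hi
    rw [map_inv]
    exact HH.inv_mem hi
  · intro x y hx hy
    rw [map_mul]
    exact HH.mul_mem hx hy

private lemma Io2_le : Subgroup.closure ({ga, gc} : Set GB) ≤ HH := by
  refine Subgroup.closure_mono ?_
  intro x hx
  simp only [Set.mem_insert_iff, Set.mem_singleton_iff] at hx ⊢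
  tauto

/-- every element of `H` is `io z * y` with `y ∈ ⟨a,c⟩` -/
theorem decH {x : GB} (hx : x ∈ HH) :
    ∃ (z : F3) (y : GB), y ∈ Subgroup.closure {ga, gc} ∧ x = io z * y := by
  refine Subgroup.closure_induction
    (p := fun x _ => ∃ (z : F3) (y : GB), y ∈ Subgroup.closure {ga, gc} ∧ x = io z * y)
    ?_ ?_ ?_ ?_ hx
  · intro x hx
    simp only [Set.mem_insert_iff, Set.mem_singleton_iff] at hx
    rcases hx with rfl | rfl | rfl
    · exact ⟨1, ga, Subgroup.subset_closure (by simp), by rw [map_one, one_mul]⟩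
    · exact ⟨1, gc, Subgroup.subset_closure (by simp), by rw [map_one, one_mul]⟩
    · exact ⟨z1, 1, Subgroup.one_mem _, by rw [io_z1, mul_one]⟩
  · exact ⟨1, 1, Subgroup.one_mem _, by rw [map_one, mul_one]⟩
  · rintro x x' _ _ ⟨z, y, hy, rfl⟩ ⟨z', y', hy', rfl⟩
    refine ⟨z * Chi y z', y * y', Subgroup.mul_mem _ hy hy', ?_⟩
    rw [map_mul, ← conj_io (Io2_le hy)]
    group
  · rintro x _ ⟨z, y, hy, rfl⟩
    refine ⟨Chi y⁻¹ z⁻¹, y⁻¹, Subgroup.inv_mem _ hy, ?_⟩
    rw [← conj_io (Io2_le (Subgroup.inv_mem _ hy)), map_inv io]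
    group

/-- `io z ∈ H` -/
theorem io_mem (z : F3) : io z ∈ HH := Io2_mem z

/-- an element of `io F3` which acts trivially on `F3` is trivial -/
private lemma Io2_one {z : F3} (h : Chi (io z) = 1) : z = 1 := by
  rw [Chi_io] at h
  have hc : ∀ y : F3, z * y = y * z := by
    intro y
    have h1 := DFunLike.congr_fun h y
    rw [MulAut.conj_apply, MulAut.one_apply] at h1
    exact mul_inv_eq_iff_eq_mul.1 h1
  obtain ⟨m, hm⟩ := Pool.Agent.Helper7.AG.commute_of_pow (0 : Fin 3) (n := 1) one_ne_zero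
    (x := z) (by rw [zpow_one]; exact hc _)
  obtain ⟨k, hk⟩ := Pool.Agent.Helper7.AG.commute_of_pow (1 : Fin 3) (n := 1) one_ne_zero
    (x := z) (by rw [zpow_one]; exact hc _)
  have h2 : (FreeGroup.of (0 : Fin 3)) ^ m = FreeGroup.of (1 : Fin 3) ^ k := by rw [← hm, ← hk]
  have h3 := congrArg (FreeGroup.lift (fun i : Fin 3 =>
    if i = 0 then Multiplicative.ofAdd (1 : ℤ) else 1)) h2
  rw [map_zpow, map_zpow, FreeGroup.lift_apply_of, FreeGroup.lift_apply_of, if_pos rfl,
    if_neg (by decide), one_zpow, ← ofAdd_zsmul] at h3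
  have h4 := congrArg Multiplicative.toAdd h3
  rw [toAdd_ofAdd, toAdd_one, smul_eq_mul, mul_one] at h4
  rw [hm, h4, zpow_zero]

/-- `io` is injective: `Chi (io z)` is conjugation by `z` (`Chi_io`), and `F3` has trivial centre
(an element which commutes with two different letters is `1`: `commute_of_pow` of
`Pool.Agent.Helper7.AG.Fmal`). -/
theorem io_inj : Function.Injective io := by
  rw [injective_iff_map_eq_one]
  intro z hz
  apply Io2_one
  rw [hz, map_one]

/-- an element of `io F3` which acts trivially on `F3` is trivial -/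
theorem io_eq_one {z : F3} (h : Chi (io z) = 1) : z = 1 := Io2_one h

end Pool.Agent.Helper38.BT
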