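import Pool.Agent.Helper38.BT.Conj
import Pool.Agent.Helper38.BT.Io2
import Pool.Agent.Helper7.AG.Fmal

/-!
# Project BT (MP_2ec7a7_al), piece BT-GRP1
-/

namespace Pool.Agent.Helper38.BT

private lemma Grp1_one {w : F} (h : Phi (j w) = 1) : w = 1 := by
  rw [Phi_j] at h
  have hc : ∀ y : F, w * y = y * w := by
    intro y
    have h1 := DFunLike.congr_fun h y
    rw [MulAut.conj_apply, MulAut.one_apply] at h1
    exact mul_inv_eq_iff_eq_mul.1 h1
  obtain ⟨m, hm⟩ := Pool.Agent.Helper7.AG.commute_of_pow (Sum.inl G0.r : G0 ⊕ G1) (n := 1)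
    one_ne_zero (x := w) (by rw [zpow_one]; exact hc _)
  obtain ⟨k, hk⟩ := Pool.Agent.Helper7.AG.commute_of_pow (Sum.inl G0.m : G0 ⊕ G1) (n := 1)
    one_ne_zero (x := w) (by rw [zpow_one]; exact hc _)
  have h2 : (FreeGroup.of (Sum.inl G0.r : G0 ⊕ G1)) ^ m =
      FreeGroup.of (Sum.inl G0.m : G0 ⊕ G1) ^ k := by rw [← hm, ← hk]
  have h3 := congrArg (FreeGroup.lift (fun i : G0 ⊕ G1 =>
    if i = Sum.inl G0.r then Multiplicative.ofAdd (1 : ℤ) else 1)) h2
  rw [map_zpow, map_zpow, FreeGroup.lift_apply_of, FreeGroup.lift_apply_of, if_pos rfl,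
    if_neg (by decide), one_zpow, ← ofAdd_zsmul] at h3
  have h4 := congrArg Multiplicative.toAdd h3
  rw [toAdd_ofAdd, toAdd_one, smul_eq_mul, mul_one] at h4
  rw [hm, h4, zpow_zero]

/-- `j` is injective: `Phi (j w)` is conjugation by `w` (`Phi_j`), and `F` has trivial centre. -/
theorem j_inj : Function.Injective j := by
  rw [injective_iff_map_eq_one]
  intro w hw
  apply Grp1_one
  rw [hw, map_one]

/-- every element of `GB` is `j w * h` with `h ∈ H`: the set of these elements is a subgroup by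
`conj_j`, it contains `a, c, d` and `b = j U * a`. -/
theorem decomp (x : GB) : ∃ (w : F) (h : GB), h ∈ HH ∧ x = j w * h := by
  have hx : x ∈ Subgroup.closure ({ga, gb, gc, gd} : Set GB) := by
    rw [closure_gen]
    exact Subgroup.mem_top x
  have ha : ga ∈ HH := Subgroup.subset_closure (by simp)
  have hc : gc ∈ HH := Subgroup.subset_closure (by simp)
  have hd : gd ∈ HH := Subgroup.subset_closure (by simp)
  refine Subgroup.closure_induction
    (p := fun x _ => ∃ (w : F) (h : GB), h ∈ HH ∧ x = j w * h) ?_ ?_ ?_ ?_ hx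
  · intro x hx
    simp only [Set.mem_insert_iff, Set.mem_singleton_iff] at hx
    rcases hx with rfl | rfl | rfl | rfl
    · exact ⟨1, ga, ha, by rw [map_one, one_mul]⟩
    · exact ⟨U, ga, ha, by rw [j_U, gu, inv_mul_cancel_right]⟩
    · exact ⟨1, gc, hc, by rw [map_one, one_mul]⟩
    · exact ⟨1, gd, hd, by rw [map_one, one_mul]⟩
  · exact ⟨1, 1, HH.one_mem, by rw [map_one, one_mul]⟩
  · rintro x x' _ _ ⟨w, y, hy, rfl⟩ ⟨w', y', hy', rfl⟩
    refine ⟨w * Phi y w', y * y', HH.mul_mem hy hy', ?_⟩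
    rw [map_mul, ← conj_j y w']
    group
  · rintro x _ ⟨w, y, hy, rfl⟩
    refine ⟨Phi y⁻¹ w⁻¹, y⁻¹, HH.inv_mem hy, ?_⟩
    rw [← conj_j y⁻¹ w⁻¹, map_inv j]
    group

/-- elements of `F` which commute with a power of `R` (`commute_of_pow`) -/
theorem comm_R {w : F} {n : ℤ} (hn : n ≠ 0) (h : w * R ^ n = R ^ n * w) :
    ∃ k : ℤ, w = R ^ k :=
  Pool.Agent.Helper7.AG.commute_of_pow (Sum.inl G0.r : G0 ⊕ G1) hn h

/-- `H` is the centralizer of `ζ`.  (`→`: `ga_gz`, `gc_gz`, `gd_gz`; `←`: write `x = j w * h`; then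
`j w` commutes with `ζ = j R`, so `w` is a power of `R` by `comm_R` and `ζ ∈ H`.) -/
theorem mem_HH {x : GB} : x ∈ HH ↔ x * gz = gz * x := by
  have h1 : ∀ x ∈ HH, x * gz = gz * x := by
    intro x hx
    refine Subgroup.closure_induction (p := fun x _ => x * gz = gz * x) ?_ ?_ ?_ ?_ hx
    · intro x hx
      simp only [Set.mem_insert_iff, Set.mem_singleton_iff] at hx
      rcases hx with rfl | rfl | rfl
      · exact ga_gz
      · exact gc_gz
      · exact gd_gz
    · rw [one_mul, mul_one]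
    · intro x y _ _ hx hy
      rw [mul_assoc, hy, ← mul_assoc, hx, mul_assoc]
    · intro x _ hx
      exact ((show Commute x gz from hx).inv_left : Commute x⁻¹ gz).eq
  refine ⟨h1 x, fun h => ?_⟩
  obtain ⟨w, y, hy, rfl⟩ := decomp x
  have h2 := h1 y hy
  have h3 : j w * gz = gz * j w := by
    have h4 : j w * gz * y = gz * j w * y := by
      rw [mul_assoc (j w) gz y, ← h2, ← mul_assoc, h, mul_assoc]
    exact mul_right_cancel h4
  rw [← j_R, ← map_mul, ← map_mul] at h3
  obtain ⟨k, hk⟩ := comm_R (w := w) (n := 1) one_ne_zero (by rw [zpow_one]; exact j_inj h3)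
  have hz : gz ∈ HH := by
    have ha : ga ∈ HH := Subgroup.subset_closure (by simp)
    have hc : gc ∈ HH := Subgroup.subset_closure (by simp)
    have hd : gd ∈ HH := Subgroup.subset_closure (by simp)
    exact HH.pow_mem (HH.mul_mem (HH.mul_mem ha hc) hd) 3
  rw [hk, map_zpow, j_R]
  exact HH.mul_mem (HH.zpow_mem hz k) hy

end Pool.Agent.Helper38.BT
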