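import Pool.Agent.Helper38.BT.Nab2

/-!
# Project BT (MP_2ec7a7_al), piece BT-CH0
-/

namespace Pool.Agent.Helper38.BT

open FreeGroup (of lift)
open Matrix
open Pool.Agent.Helper7.AG (SL mA mB tr mA_braid)

/-- `BT-CH0`.  `class_pp 0 φ` gives `i'`; if `i' = 1`, then `pp 0 (φ x) = ±1` iff `pp 1 x = ±1` iff
(by `nab`) `pp 1 (φ x) = ±1`; take `φ x = d`: `pp 0 d = 1` but `pp 1 d = mA² ≠ ±1`.  So
`i' = 0`. -/
theorem class_zero (φ : MulAut GB) :
    ∃ N : Matrix (Fin 2) (Fin 2) ℤ, (N.det = 1 ∨ N.det = -1) ∧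
      ∀ x : GB, ∃ s : ℤ, (s = 1 ∨ s = -1) ∧
        ((pp 0 (φ x) : SL) : Matrix (Fin 2) (Fin 2) ℤ) * N =
          s • (N * ((pp 0 x : SL) : Matrix (Fin 2) (Fin 2) ℤ)) := by
  obtain ⟨i', M, hM, h⟩ := class_pp 0 φ
  by_cases h0 : i' = 0
  · subst h0
    exact ⟨M, hM, h⟩
  · exfalso
    have h1 : i' = 1 := by omega
    subst h1
    obtain ⟨N, hN, hn⟩ := nab φ
    -- `φ x = d`
    obtain ⟨x, hx⟩ := φ.surjective gd
    obtain ⟨s, hs, h2⟩ := h x
    have h3 := hn x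
    rw [hx] at h2 h3
    have e0 : ((pp 0 gd : SL) : Matrix (Fin 2) (Fin 2) ℤ) = 1 := by simp [ek]
    rw [e0, Matrix.one_mul] at h2
    -- so `pp 1 x = s`
    have key : ∀ X : Matrix (Fin 2) (Fin 2) ℤ, M = s • (M * X) →
        X = s • (1 : Matrix (Fin 2) (Fin 2) ℤ) := by
      intro X hX
      have h4 := congrArg (fun Y : Matrix (Fin 2) (Fin 2) ℤ => M.adjugate * Y) hX
      simp only [Matrix.mul_smul, ← Matrix.mul_assoc, Matrix.adjugate_mul, Matrix.smul_mul,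
        Matrix.one_mul] at h4
      rcases hM with h5 | h5 <;> rcases hs with rfl | rfl <;> rw [h5] at h4 <;>
        first
          | simpa using h4.symm
          | (simp at h4 ⊢; exact neg_eq_iff_eq_neg.mp h4.symm)
    have h4 := key _ h2
    rw [h4, Matrix.mul_smul, Matrix.mul_one] at h3
    have h5 : ((pp 1 gd : SL) : Matrix (Fin 2) (Fin 2) ℤ) = s • (1 : Matrix (Fin 2) (Fin 2) ℤ) := by
      have h6 := congrArg (fun Y : Matrix (Fin 2) (Fin 2) ℤ => Y * N.adjugate) h3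
      simp only [Matrix.smul_mul, Matrix.mul_assoc, Matrix.mul_adjugate, Matrix.mul_smul,
        Matrix.mul_one] at h6
      rcases hN with h7 | h7 <;> rw [h7] at h6 <;> simpa using h6
    have h6 : ((pp 1 gd : SL) : Matrix (Fin 2) (Fin 2) ℤ) 0 1 = 2 := by
      rw [pp_gd]
      simp [ek, mA, pow_two, Matrix.mul_apply, Fin.sum_univ_two]
    rw [h5] at h6
    simp at h6

end Pool.Agent.Helper38.BT
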