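import Pool.Agent.Helper38.BT.K0
import Pool.Agent.Helper38.BT.Nab3

/-!
# Project BT (MP_2ec7a7_al), piece BT-H1: the automorphisms which fix `ζ`.  Then `φ` maps `H` (the centralizer of `ζ`, `mem_HH`) onto itself
-/

namespace Pool.Agent.Helper38.BT

open FreeGroup (of lift)
open Pool.Agent.Helper7.AG (SL)

private lemma H1_pp (φ : MulAut GB) {x : GB} (hx : pp 0 x = 1) :
    pp 0 (φ x) = 1 ∨ pp 0 (φ x) = -1 := by
  obtain ⟨N, hN, h⟩ := class_zero φ
  obtain ⟨s, hs, h2⟩ := h x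
  rw [hx, Matrix.SpecialLinearGroup.coe_one, Matrix.mul_one] at h2
  have h6 := congrArg (fun Y : Matrix (Fin 2) (Fin 2) ℤ => Y * N.adjugate) h2
  simp only [Matrix.smul_mul, Matrix.mul_assoc, Matrix.mul_adjugate, Matrix.mul_smul,
    Matrix.mul_one] at h6
  have h7 : ((pp 0 (φ x) : SL) : Matrix (Fin 2) (Fin 2) ℤ) =
      s • (1 : Matrix (Fin 2) (Fin 2) ℤ) := by
    rcases hN with h7 | h7 <;> rw [h7] at h6 <;> simpa using h6
  rcases hs with rfl | rfl
  · left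
    apply Subtype.ext
    rw [h7, one_smul, Matrix.SpecialLinearGroup.coe_one]
  · right
    apply Subtype.ext
    rw [h7, Matrix.SpecialLinearGroup.coe_neg, Matrix.SpecialLinearGroup.coe_one, neg_smul,
      one_smul]

private lemma H1_one {φ : MulAut GB} (h : φ gz = gz) (z : F3) :
    ∃ (z' : F3) (k : ℤ), φ (io z) = io z' * gz ^ k := by
  refine kerH ?_ (H1_pp φ (pp0_io z))
  rw [mem_HH]
  conv_lhs => rw [← h]
  conv_rhs => rw [← h]
  rw [← map_mul, io_gz, map_mul]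

/-- `BT-H1`.  `φ (io z)` is in `H` and in the kernel of `pp 0` modulo `±1` (`class_zero`), so it is
`io z' * ζ^k` (`kerH`); `z'`, `k` are unique (`io_gz_inj`).  Define `ψ : F3 →* F3` by `lift` on the
letters and prove the statement for all `z` by induction (`io_gz`). -/
theorem exists_psi {φ : MulAut GB} (h : φ gz = gz) :
    ∃ ψ : F3 →* F3, ∀ z : F3, ∃ k : ℤ, φ (io z) = io (ψ z) * gz ^ k := by
  choose f k hf using fun z => H1_one h z
  have hc : ∀ (z : F3) (n : ℤ), gz ^ n * io z = io z * gz ^ n := fun z n =>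
    ((show Commute (io z) gz from io_gz z).zpow_right n).eq.symm
  refine ⟨MonoidHom.mk' f fun z z' => ?_, fun z => ⟨k z, hf z⟩⟩
  have h1 : io (f (z * z')) * gz ^ k (z * z') = io (f z * f z') * gz ^ (k z + k z') := by
    rw [← hf, map_mul io, map_mul φ, hf z, hf z', map_mul io, zpow_add]
    calc io (f z) * gz ^ k z * (io (f z') * gz ^ k z')
        = io (f z) * (gz ^ k z * io (f z')) * gz ^ k z' := by simp only [mul_assoc]
      _ = _ := by rw [hc]; simp only [mul_assoc]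
  exact (io_gz_inj h1).1

/-- `BT-H2`.  Equivariance: for `x ∈ H`, `io (ψ (Chi x z)) ζ^* = φ (x (io z) x⁻¹)` (`conj_io`)
`= φ x (io (ψ z) ζ^*) (φ x)⁻¹ = io (Chi (φ x) (ψ z)) ζ^*`; conclude with `io_gz_inj`. -/
theorem psi_equi {φ : MulAut GB} (h : φ gz = gz) {ψ : F3 →* F3}
    (hψ : ∀ z : F3, ∃ k : ℤ, φ (io z) = io (ψ z) * gz ^ k) {x : GB} (hx : x ∈ HH) (z : F3) :
    ψ (Chi x z) = Chi (φ x) (ψ z) := by
  have hφx : φ x ∈ HH := by
    rw [mem_HH] at hx ⊢
    rw [← h, ← map_mul, hx, map_mul]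
  obtain ⟨k, hk⟩ := hψ (Chi x z)
  obtain ⟨l, hl⟩ := hψ z
  have h1 : io (ψ (Chi x z)) * gz ^ k = io (Chi (φ x) (ψ z)) * gz ^ l := by
    rw [← hk, ← conj_io hx, ← conj_io hφx, map_mul φ, map_mul φ, map_inv φ, hl]
    have hc : gz ^ l * (φ x)⁻¹ = (φ x)⁻¹ * gz ^ l :=
      ((show Commute (φ x) gz from mem_HH.1 hφx).inv_left.zpow_right l).eq.symm
    calc φ x * (io (ψ z) * gz ^ l) * (φ x)⁻¹
        = φ x * io (ψ z) * (gz ^ l * (φ x)⁻¹) := by simp only [mul_assoc]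
      _ = _ := by rw [hc]; simp only [mul_assoc]
  exact (io_gz_inj h1).1

end Pool.Agent.Helper38.BT
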