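import Pool.Agent.Helper38.BT.F3X
import Pool.Agent.Helper7.AG.Fcyc
import Pool.Agent.Helper7.AG.Frot
import Pool.Agent.Helper7.AG.Fsum

/-!
# Project BT (MP_2ec7a7_al), piece BT-W2
-/

namespace Pool.Agent.Helper38.BT

open FreeGroup (of lift)
open Pool.Agent.Helper7.AG (FreeProd Red val pv PNt nt sv)

private lemma W2_unit (a : FreeGroup Unit) : ∃ n : ℤ, a = of () ^ n := by
  induction a using FreeGroup.induction_on with
  | C1 => exact ⟨0, by simp⟩
  | of x => exact ⟨1, by simp⟩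
  | inv_of x _ => exact ⟨-1, by simp⟩
  | mul x y hx hy =>
    obtain ⟨m, rfl⟩ := hx
    obtain ⟨n, rfl⟩ := hy
    exact ⟨m + n, by rw [zpow_add]⟩

/-- the homomorphism with the values `w`, `z3` -/
private def W2th : FreeGroup (Unit ⊕ Unit) →* F3 :=
  lift (Sum.elim (fun _ => ww) (fun _ => z3))

private lemma W2th_l (a : FreeGroup Unit) :
    W2th (FreeGroup.map (Sum.inl : Unit → Unit ⊕ Unit) a) = one_ ww a := by
  have : W2th.comp (FreeGroup.map (Sum.inl : Unit → Unit ⊕ Unit)) = one_ ww := by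
    ext1 x
    simp [W2th]
  exact DFunLike.congr_fun this a

private def W2io : FreeGroup Unit →* FreeGroup Bool := lift (fun _ => of true)

private def W2s : FreeGroup Bool →* FreeGroup Bool :=
  lift (fun t => if t = true then (of true)⁻¹ * of false * of true else of true)

private lemma W2th_r (a : FreeGroup Unit) :
    W2th (FreeGroup.map (Sum.inr : Unit → Unit ⊕ Unit) a) = two_ z2 z3 (W2io a) := by
  have : W2th.comp (FreeGroup.map (Sum.inr : Unit → Unit ⊕ Unit)) =
      (two_ z2 z3).comp W2io := by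
    ext1 x
    simp [W2th, W2io]
  exact DFunLike.congr_fun this a

private lemma W2_ex_conj (k : Fin 3) (y g : F3) : ex k (y * g * y⁻¹) = ex k g := by
  simp only [map_mul, map_inv]
  rw [mul_comm (ex k y), mul_inv_cancel_right]

private lemma W2_ofAdd {n : ℤ} (h : (Multiplicative.ofAdd (1 : ℤ)) ^ n = 1) : n = 0 := by
  have := congrArg Multiplicative.toAdd h
  simpa using this

private lemma W2_io (n : ℤ) : two_ z2 z3 (W2io (of () ^ n)) = z3 ^ n := by
  simp [W2io]

private lemma W2_sio (n : ℤ) : two_ z2 z3 (W2s (W2io (of () ^ n))) = z3⁻¹ * z2 ^ n * z3 := by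
  have e : W2s (W2io (of ())) = (of true)⁻¹ * of false * of true := by
    simp [W2io, W2s]
  rw [map_zpow, map_zpow, map_zpow, e, map_mul, map_mul, map_inv, two_false, two_true]
  have := conj_zpow (i := n) (a := z3⁻¹) (b := z2)
  simpa using this

private lemma W2_pow3 {n : ℤ} (h : ex 2 (z3 ^ n) = 1) : n = 0 := by
  apply W2_ofAdd
  rw [map_zpow] at h
  simpa [ex] using h

private lemma W2_pow2 {n : ℤ} (h : ex 1 (z3⁻¹ * z2 ^ n * z3) = 1) : n = 0 := by
  apply W2_ofAdd
  rw [map_mul, map_mul, map_zpow, map_inv] at h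
  simpa [ex] using h

private lemma W2_pow3' (n : ℤ) : ex 1 (z3 ^ n) = 1 := by
  rw [map_zpow]
  simp [ex]

private lemma W2_sa (b : FreeGroup Bool) : sa (two_ z2 z3 b) = two_ z2 z3 (W2s b) := by
  have : sa.toMonoidHom.comp (two_ z2 z3) = (two_ z2 z3).comp W2s := by
    ext1 x
    cases x <;> simp [W2s]
  exact DFunLike.congr_fun this b

private lemma W2_saw (a : FreeGroup Unit) : sa (one_ ww a) = one_ ww a := by
  have : sa.toMonoidHom.comp (one_ ww) = one_ ww := by
    ext1 x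
    simp
  exact DFunLike.congr_fun this a

private lemma W2_pv (L : List (FreeGroup Unit × FreeGroup Unit)) :
    W2th (pv (FreeGroup.map Sum.inl) (FreeGroup.map Sum.inr) L) =
      pv (one_ ww) (two_ z2 z3) (L.map (fun p => (p.1, W2io p.2))) := by
  unfold pv
  rw [map_list_prod, List.map_map, List.map_map]
  congr 1
  apply List.map_congr_left
  intro p _
  simp only [Function.comp_apply, map_mul, W2th_l, W2th_r]

private lemma W2_pvsa (L : List (FreeGroup Unit × FreeGroup Unit)) :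
    sa (pv (one_ ww) (two_ z2 z3) (L.map (fun p => (p.1, W2io p.2)))) =
      pv (one_ ww) (two_ z2 z3) (L.map (fun p => (p.1, W2s (W2io p.2)))) := by
  unfold pv
  rw [map_list_prod, List.map_map, List.map_map, List.map_map]
  congr 1
  apply List.map_congr_left
  intro p _
  simp only [Function.comp_apply, map_mul, W2_sa, W2_saw]

/-- `BT-W2`.  The first case: `g ∈ ⟨z3, z1 z2⟩ = ⟨w, z3⟩`.  Use `fp_w3`: `F3 = ⟨w⟩ * ⟨z2, z3⟩`,
`sa = id * s`, `s z3 = z3⁻¹ z2 z3`.  `g` is the image of a word of `⟨w⟩ * ⟨z3⟩`; by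
`FreeProd.exists_cyc` for this free product it is conjugate to `w^k` (done), to `z3^k` (then `k = 0`
by `ex_inv`), or to `pv L` with entries `w^k`, `z3^l`, `k, l ≠ 0`.  In the last case `sa` maps it to
`pv L'` with the entries `w^k`, `(z3⁻¹ z2 z3)^l`, and by `FreeProd.rotate` `L'` is a rotation of `L`,
so `(z3⁻¹ z2 z3)^l = z3^l'`, which is impossible (exponents). -/
theorem w2 {g : F3} (h1 : ∃ y, y * g * y⁻¹ = sa g) (h2 : ∃ y, y * g * y⁻¹ = sc g)
    (h : g ∈ Subgroup.closure ({z3, z1 * z2} : Set F3)) :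
    ∃ (y : F3) (k : ℤ), y * g * y⁻¹ = ww ^ k := by
  have hr : g ∈ W2th.range := by
    refine (Subgroup.closure_le _).2 ?_ h
    rintro x (rfl | rfl)
    · exact ⟨of (Sum.inr ()), by simp [W2th]⟩
    · exact ⟨of (Sum.inl ()) * (of (Sum.inr ()))⁻¹, by simp [W2th, ww]⟩
  obtain ⟨x, hx⟩ := hr
  obtain ⟨e01, e12⟩ := ex_inv h1 h2
  obtain ⟨y, hy⟩ := (Pool.Agent.Helper7.AG.freeProd_sum Unit Unit).exists_cyc x
  rcases hy with ⟨a, ha⟩ | ⟨b, hb⟩ | ⟨L, hL, hc⟩
  · have h3 := congrArg W2th ha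
    rw [W2th_l, map_mul, map_mul, map_inv, hx] at h3
    obtain ⟨n, rfl⟩ := W2_unit a
    refine ⟨W2th y, n, ?_⟩
    rw [h3, map_zpow, one_of]
  · have h3 := congrArg W2th hb
    rw [W2th_r, map_mul, map_mul, map_inv, hx] at h3
    obtain ⟨n, rfl⟩ := W2_unit b
    rw [W2_io] at h3
    have h4 : ex 1 g = 1 := by
      rw [← W2_ex_conj 1 (W2th y) g, h3, W2_pow3']
    have h5 : ex 2 (z3 ^ n) = 1 := by
      rw [← h3, W2_ex_conj, ← e12, h4]
    refine ⟨W2th y, 0, ?_⟩
    rw [h3, W2_pow3 h5, zpow_zero, zpow_zero]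
  · exfalso
    have h3 := congrArg W2th hc
    rw [W2_pv, map_mul, map_mul, map_inv, hx] at h3
    have hio : ∀ b : FreeGroup Unit, b ≠ 1 → W2io b ≠ 1 := by
      intro b hb hb'
      apply hb
      obtain ⟨n, rfl⟩ := W2_unit b
      have h4 := congrArg (two_ z2 z3) hb'
      rw [W2_io, map_one] at h4
      have hn0 : n = 0 := W2_pow3 (by rw [h4, map_one])
      rw [hn0, zpow_zero]
    have hsio : ∀ b : FreeGroup Unit, b ≠ 1 → W2s (W2io b) ≠ 1 := by
      intro b hb hb'
      apply hb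
      obtain ⟨n, rfl⟩ := W2_unit b
      have h4 := congrArg (two_ z2 z3) hb'
      rw [W2_sio, map_one] at h4
      have hn0 : n = 0 := W2_pow2 (by rw [h4, map_one])
      rw [hn0, zpow_zero]
    have hL1 : PNt (L.map (fun p => (p.1, W2io p.2))) := by
      refine ⟨by simpa using hL.1, ?_⟩
      intro p hp
      obtain ⟨q, hq, rfl⟩ := List.mem_map.1 hp
      exact ⟨(hL.2 q hq).1, hio _ (hL.2 q hq).2⟩
    have hL2 : PNt (L.map (fun p => (p.1, W2s (W2io p.2)))) := by
      refine ⟨by simpa using hL.1, ?_⟩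
      intro p hp
      obtain ⟨q, hq, rfl⟩ := List.mem_map.1 hp
      exact ⟨(hL.2 q hq).1, hsio _ (hL.2 q hq).2⟩
    obtain ⟨u, hu⟩ := h1
    have hconj : (sa (W2th y) * u * (W2th y)⁻¹) *
        pv (one_ ww) (two_ z2 z3) (L.map (fun p => (p.1, W2io p.2))) *
        (sa (W2th y) * u * (W2th y)⁻¹)⁻¹ =
        pv (one_ ww) (two_ z2 z3) (L.map (fun p => (p.1, W2s (W2io p.2)))) := by
      rw [← W2_pvsa, ← h3, map_mul, map_mul, map_inv, ← hu]
      group
    obtain ⟨n, hn⟩ := fp_w3.rotate hL1 hL2 hconj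
    obtain ⟨q, hq⟩ := List.exists_mem_of_ne_nil L hL.1
    have h8 : (q.1, W2s (W2io q.2)) ∈ L.map (fun p => (p.1, W2s (W2io p.2))) :=
      List.mem_map.2 ⟨q, hq, rfl⟩
    rw [hn, List.mem_rotate, List.mem_map] at h8
    obtain ⟨q', -, hq'⟩ := h8
    have h9 := congrArg Prod.snd hq'
    simp only at h9
    obtain ⟨l, hl⟩ := W2_unit q.2
    obtain ⟨l', hl'⟩ := W2_unit q'.2
    rw [hl, hl'] at h9
    have h10 := congrArg (two_ z2 z3) h9
    rw [W2_io, W2_sio] at h10
    have h11 : l = 0 := W2_pow2 (by rw [← h10, W2_pow3'])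
    apply (hL.2 q hq).2
    rw [hl, h11, zpow_zero]

end Pool.Agent.Helper38.BT
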