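import Pool.Agent.Helper38.BT.F3X
import Pool.Agent.Helper38.BT.PC
import Pool.Agent.Helper7.AG.Fcyc
import Pool.Agent.Helper7.AG.Fsum

/-!
# Project BT (MP_2ec7a7_al), piece BT-W3
-/

namespace Pool.Agent.Helper38.BT

open FreeGroup (of lift)
open Pool.Agent.Helper7.AG (FreeProd Red val pv PNt nt sv)

private lemma W3_unit (a : FreeGroup Unit) : ∃ n : ℤ, a = of () ^ n := by
  induction a using FreeGroup.induction_on with
  | C1 => exact ⟨0, by simp⟩
  | of x => exact ⟨1, by simp⟩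
  | inv_of x _ => exact ⟨-1, by simp⟩
  | mul x y hx hy =>
    obtain ⟨m, rfl⟩ := hx
    obtain ⟨n, rfl⟩ := hy
    exact ⟨m + n, by rw [zpow_add]⟩

/-- the homomorphism with the values `z1`, `z2` -/
private def W3th : FreeGroup (Unit ⊕ Unit) →* F3 :=
  lift (Sum.elim (fun _ => z1) (fun _ => z2))

private lemma W3th_l (a : FreeGroup Unit) :
    W3th (FreeGroup.map (Sum.inl : Unit → Unit ⊕ Unit) a) = one_ z1 a := by
  have : W3th.comp (FreeGroup.map (Sum.inl : Unit → Unit ⊕ Unit)) = one_ z1 := by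
    ext1 x
    simp [W3th]
  exact DFunLike.congr_fun this a

private def W3io : FreeGroup Unit →* FreeGroup Bool := lift (fun _ => of false)

private lemma W3th_r (a : FreeGroup Unit) :
    W3th (FreeGroup.map (Sum.inr : Unit → Unit ⊕ Unit) a) = two_ z2 z3 (W3io a) := by
  have : W3th.comp (FreeGroup.map (Sum.inr : Unit → Unit ⊕ Unit)) =
      (two_ z2 z3).comp W3io := by
    ext1 x
    simp [W3th, W3io]
  exact DFunLike.congr_fun this a

private lemma W3_ex_conj (k : Fin 3) (y g : F3) : ex k (y * g * y⁻¹) = ex k g := by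
  simp only [map_mul, map_inv]
  rw [mul_comm (ex k y), mul_inv_cancel_right]

private lemma W3_ofAdd {n : ℤ} (h : (Multiplicative.ofAdd (1 : ℤ)) ^ n = 1) : n = 0 := by
  have := congrArg Multiplicative.toAdd h
  simpa using this

private lemma W3_pow1 {n : ℤ} (h : ex 0 (z1 ^ n) = 1) : n = 0 := by
  apply W3_ofAdd
  rw [map_zpow] at h
  simpa [ex] using h

private lemma W3_pow2 {n : ℤ} (h : ex 1 (z2 ^ n) = 1) : n = 0 := by
  apply W3_ofAdd
  rw [map_zpow] at h
  simpa [ex] using h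

private lemma W3_pv (L : List (FreeGroup Unit × FreeGroup Unit)) :
    W3th (pv (FreeGroup.map Sum.inl) (FreeGroup.map Sum.inr) L) =
      pv (one_ z1) (two_ z2 z3) (L.map (fun p => (p.1, W3io p.2))) := by
  unfold pv
  rw [map_list_prod, List.map_map, List.map_map]
  congr 1
  apply List.map_congr_left
  intro p _
  simp only [Function.comp_apply, map_mul, W3th_l, W3th_r]

private lemma W3_sa2 (b : FreeGroup Bool) :
    sa (sa (two_ z2 z3 b)) =
      two_ z2 z3 ((of false * of true)⁻¹ * b * ((of false * of true)⁻¹)⁻¹) := by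
  have : ((sa.toMonoidHom.comp sa.toMonoidHom).comp (two_ z2 z3)) =
      (MulAut.conj (z2 * z3)⁻¹).toMonoidHom.comp (two_ z2 z3) := by
    ext1 x
    cases x <;> simp [mul_assoc]
  have h := DFunLike.congr_fun this b
  simp only [MonoidHom.comp_apply, MulEquiv.toMonoidHom_eq_coe, MonoidHom.coe_coe,
    MulAut.conj_apply] at h
  rw [h]
  simp

private lemma W3_false {n : ℤ} {K : ℕ} (hK : 0 < K)
    (h : (of false : FreeGroup Bool) ^ n * ((of false * of true)⁻¹) ^ K =
      ((of false * of true)⁻¹) ^ K * (of false) ^ n) : n = 0 := by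
  have h1 := congrArg (two_ z2 z3) h
  simp only [map_mul, map_pow, map_inv, map_zpow, two_false, two_true] at h1
  have h2 : z2 ^ n * (z2 * z3) ^ K = (z2 * z3) ^ K * z2 ^ n := by
    have h3 : Commute (z2 ^ n) (((z2 * z3)⁻¹) ^ K) := h1
    rw [inv_pow] at h3
    exact (Commute.inv_right_iff.1 h3)
  have h4 : z2 ^ n * (z3 * z2) ^ K = (z3 * z2) ^ K * z2 ^ n := by
    have e : z3 * z2 = z2⁻¹ * (z2 * z3) * (z2⁻¹)⁻¹ := by group
    rw [e, conj_pow]
    have e2 : z2 ^ n = z2⁻¹ * z2 ^ n * (z2⁻¹)⁻¹ := by group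
    calc z2 ^ n * (z2⁻¹ * (z2 * z3) ^ K * (z2⁻¹)⁻¹)
        = (z2⁻¹ * z2 ^ n * (z2⁻¹)⁻¹) * (z2⁻¹ * (z2 * z3) ^ K * (z2⁻¹)⁻¹) := by rw [← e2]
      _ = z2⁻¹ * (z2 ^ n * (z2 * z3) ^ K) * (z2⁻¹)⁻¹ := by group
      _ = z2⁻¹ * ((z2 * z3) ^ K * z2 ^ n) * (z2⁻¹)⁻¹ := by rw [h2]
      _ = (z2⁻¹ * (z2 * z3) ^ K * (z2⁻¹)⁻¹) * (z2⁻¹ * z2 ^ n * (z2⁻¹)⁻¹) := by group
      _ = _ := by rw [← e2]
  have h5 : z2 ^ n * (one_ z3 (of ()) * two_ z1 z2 (of true)) ^ K =
      (one_ z3 (of ()) * two_ z1 z2 (of true)) ^ K * z2 ^ n := by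
    simpa using h4
  obtain ⟨m, hm⟩ := cent_pow fp_3 (by simp) (by simp) hK h5
  simp only [one_of, two_true] at hm
  have h6 := congrArg (ex 2) hm
  have h7 : m = 0 := by
    simp only [map_zpow, map_mul] at h6
    have h8 : (1 : Multiplicative ℤ) = Multiplicative.ofAdd 1 ^ m := by simpa [ex] using h6
    exact W3_ofAdd h8.symm
  rw [h7, zpow_zero] at hm
  exact W3_pow2 (by rw [hm, map_one])

/-- `BT-W3`.  The second case: `g ∈ ⟨z1, z2⟩` is trivial.  `ex 2 g = 0`, so all exponents of `g` are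
`0` (`ex_inv`).  By `FreeProd.exists_cyc` for `⟨z1⟩ * ⟨z2⟩` `g` is conjugate to a power of `z1` or
`z2` (then `g = 1` by the exponents), or to `pv L` with the entries `z1^k`, `z2^l`, `k, l ≠ 0`.  In
the last case use `fp_1`: `F3 = ⟨z1⟩ * ⟨z2, z3⟩`, and `sa²` is the identity on `⟨z1⟩` and
conjugation by `(z2 z3)⁻¹` on `⟨z2, z3⟩`: by `pconj` and `cent_pow` `z2^l` is a power of
`z2 z3`, which is impossible (exponents). -/
theorem w3 {g : F3} (h1 : ∃ y, y * g * y⁻¹ = sa g) (h2 : ∃ y, y * g * y⁻¹ = sc g)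
    (h : g ∈ Subgroup.closure ({z1, z2} : Set F3)) : g = 1 := by
  have hr : g ∈ W3th.range := by
    refine (Subgroup.closure_le _).2 ?_ h
    rintro x (rfl | rfl)
    · exact ⟨of (Sum.inl ()), by simp [W3th]⟩
    · exact ⟨of (Sum.inr ()), by simp [W3th]⟩
  obtain ⟨x, hx⟩ := hr
  have e2 : ex 2 g = 1 := by
    have : (ex 2).comp W3th = 1 := by
      ext1 t
      rcases t with t | t <;> simp [W3th, ex]
    rw [← hx]
    exact DFunLike.congr_fun this x
  obtain ⟨e01, e12⟩ := ex_inv h1 h2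
  have e1 : ex 1 g = 1 := e12.trans e2
  have e0 : ex 0 g = 1 := e01.trans e1
  obtain ⟨y, hy⟩ := (Pool.Agent.Helper7.AG.freeProd_sum Unit Unit).exists_cyc x
  rcases hy with ⟨a, ha⟩ | ⟨b, hb⟩ | ⟨L, hL, hc⟩
  · have h3 := congrArg W3th ha
    rw [W3th_l, map_mul, map_mul, map_inv, hx] at h3
    obtain ⟨n, rfl⟩ := W3_unit a
    have h4 := congrArg (ex 0) h3
    rw [W3_ex_conj, e0, map_zpow, one_of] at h4
    have h5 := W3_pow1 h4.symm
    rw [h5, zpow_zero, map_one] at h3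
    exact conj_eq_one_iff.1 h3
  · have h3 := congrArg W3th hb
    rw [W3th_r, map_mul, map_mul, map_inv, hx] at h3
    obtain ⟨n, rfl⟩ := W3_unit b
    have h6 : two_ z2 z3 (W3io (of () ^ n)) = z2 ^ n := by simp [W3io]
    rw [h6] at h3
    have h4 := congrArg (ex 1) h3
    rw [W3_ex_conj, e1] at h4
    have h5 := W3_pow2 h4.symm
    rw [h5, zpow_zero] at h3
    exact conj_eq_one_iff.1 h3
  · exfalso
    have h3 := congrArg W3th hc
    rw [W3_pv, map_mul, map_mul, map_inv, hx] at h3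
    have hio : ∀ b : FreeGroup Unit, b ≠ 1 → W3io b ≠ 1 := by
      intro b hb hb'
      apply hb
      obtain ⟨n, rfl⟩ := W3_unit b
      have h4 := congrArg (two_ z2 z3) hb'
      have h6 : two_ z2 z3 (W3io (of () ^ n)) = z2 ^ n := by simp [W3io]
      rw [h6, map_one] at h4
      have hn0 : n = 0 := W3_pow2 (by rw [h4, map_one])
      rw [hn0, zpow_zero]
    have hL' : PNt (L.map (fun p => (p.1, W3io p.2))) := by
      refine ⟨by simpa using hL.1, ?_⟩
      intro p hp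
      obtain ⟨q, hq, rfl⟩ := List.mem_map.1 hp
      exact ⟨(hL.2 q hq).1, hio _ (hL.2 q hq).2⟩
    have hconj : ∃ y', y' * pv (one_ z1) (two_ z2 z3) (L.map (fun p => (p.1, W3io p.2))) * y'⁻¹ =
        (sa.toMonoidHom.comp sa.toMonoidHom)
          (pv (one_ z1) (two_ z2 z3) (L.map (fun p => (p.1, W3io p.2)))) := by
      obtain ⟨u, hu⟩ := h1
      rw [← h3]
      refine ⟨sa (sa (W3th y)) * sa u * u * (W3th y)⁻¹, ?_⟩
      have h7 : sa (sa g) = sa u * (u * g * u⁻¹) * (sa u)⁻¹ := by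
        rw [hu]
        conv_lhs => rw [← hu]
        simp only [map_mul, map_inv]
      simp only [MonoidHom.comp_apply, MulEquiv.toMonoidHom_eq_coe, MonoidHom.coe_coe, map_mul,
        map_inv]
      rw [h7]
      group
    obtain ⟨K, hK, hcm⟩ := pconj fp_1 (e := sa.toMonoidHom.comp sa.toMonoidHom)
      (g := (of false * of true)⁻¹) (by
        intro a
        obtain ⟨n, rfl⟩ := W3_unit a
        simp)
      (by
        intro b
        exact W3_sa2 b) hL' hconj
    obtain ⟨q, hq⟩ := List.exists_mem_of_ne_nil L hL.1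
    have h8 := hcm (q.1, W3io q.2) (List.mem_map.2 ⟨q, hq, rfl⟩)
    obtain ⟨n, hn⟩ := W3_unit q.2
    have h9 : W3io q.2 = (of false) ^ n := by
      rw [hn]
      simp [W3io]
    simp only [h9] at h8
    have h10 := W3_false hK h8
    apply (hL.2 q hq).2
    rw [hn, h10, zpow_zero]

end Pool.Agent.Helper38.BT
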