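import Pool.Agent.Helper38.BT.W1
import Pool.Agent.Helper38.BT.W2
import Pool.Agent.Helper38.BT.W3

/-!
# Project BT (MP_2ec7a7_al), piece BT-W
-/

namespace Pool.Agent.Helper38.BT

open FreeGroup (of lift)
open Pool.Agent.Helper7.AG (FreeProd Red val pv PNt nt sv)

private lemma InvW_conj (s : MulAut F3) {g : F3} (h : ∃ y, y * g * y⁻¹ = s g) (x : F3) :
    ∃ y, y * (x * g * x⁻¹) * y⁻¹ = s (x * g * x⁻¹) := by
  obtain ⟨y, hy⟩ := h
  refine ⟨s x * y * x⁻¹, ?_⟩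
  rw [map_mul, map_mul, map_inv, ← hy]
  group

/-- `BT-W`.  The invariant classes of `F3` are the classes of the powers of `w` (`w1, w2, w3`;
conjugates of `g` satisfy the same hypotheses). -/
theorem inv_w {g : F3} (h1 : ∃ y, y * g * y⁻¹ = sa g) (h2 : ∃ y, y * g * y⁻¹ = sc g) :
    ∃ (y : F3) (k : ℤ), y * g * y⁻¹ = ww ^ k := by
  have h3 : ∃ y, y * g * y⁻¹ = sc (sc g) := by
    obtain ⟨y, hy⟩ := h2
    refine ⟨sc y * y, ?_⟩
    rw [← hy, map_mul, map_mul, map_inv, ← hy]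
    group
  obtain ⟨x, hx | hx⟩ := w1 h3
  · obtain ⟨y, k, hy⟩ := w2 (InvW_conj sa h1 x) (InvW_conj sc h2 x) hx
    exact ⟨y * x, k, by rw [← hy]; group⟩
  · have h4 := w3 (InvW_conj sa h1 x) (InvW_conj sc h2 x) hx
    exact ⟨x, 0, by rw [h4, zpow_zero]⟩

end Pool.Agent.Helper38.BT
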