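import Pool.Agent.Helper38.BT.H1
import Pool.Agent.Helper38.BT.InvW

/-!
# Project BT (MP_2ec7a7_al), piece BT-H3: the automorphisms which fix `ζ`
-/

namespace Pool.Agent.Helper38.BT

open FreeGroup (of lift)

private lemma H3_chi {x : GB} (hx : x ∈ HH) : ∃ y : F3, Chi x ww = y * ww * y⁻¹ := by
  induction hx using Subgroup.closure_induction with
  | mem x hx =>
    rcases hx with rfl | rfl | rfl
    · exact ⟨1, by simp⟩
    · exact ⟨1, by simp⟩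
    · exact ⟨z1, by simp⟩
  | one => exact ⟨1, by simp⟩
  | mul x y _ _ h1 h2 =>
    obtain ⟨p, hp⟩ := h1
    obtain ⟨q, hq⟩ := h2
    refine ⟨Chi x q * p, ?_⟩
    rw [map_mul, MulAut.mul_apply, hq, map_mul, map_mul, map_inv, hp]
    group
  | inv x _ h1 =>
    obtain ⟨p, hp⟩ := h1
    refine ⟨((Chi x)⁻¹ p)⁻¹, ?_⟩
    have h2 : (Chi x)⁻¹ (Chi x ww) = ww := MulAut.inv_apply_self F3 _ _
    rw [hp, map_mul, map_mul, map_inv ((Chi x)⁻¹ : MulAut F3)] at h2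
    rw [inv_inv, map_inv Chi]
    calc (Chi x)⁻¹ ww =
        ((Chi x)⁻¹ p)⁻¹ * ((Chi x)⁻¹ p * (Chi x)⁻¹ ww * ((Chi x)⁻¹ p)⁻¹) * (Chi x)⁻¹ p := by
          group
      _ = _ := by rw [h2]

private lemma H3_pre {φ : MulAut GB} (h : φ gz = gz) {y : GB} (hy : y ∈ HH) :
    ∃ x ∈ HH, φ x = y := by
  refine ⟨φ.symm y, ?_, φ.apply_symm_apply y⟩
  rw [mem_HH] at hy ⊢
  apply φ.injective
  rw [map_mul, map_mul, h]
  rw [MulEquiv.apply_symm_apply]
  exact hy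

private lemma H3_pow {φ : MulAut GB} (h : φ gz = gz) {ψ : F3 →* F3}
    (hψ : ∀ z : F3, ∃ k : ℤ, φ (io z) = io (ψ z) * gz ^ k) :
    ∃ (y : F3) (k : ℤ), y * ψ ww * y⁻¹ = ww ^ k := by
  have key : ∀ g ∈ HH, ∃ y : F3, y * ψ ww * y⁻¹ = Chi g (ψ ww) := by
    intro g hg
    obtain ⟨x, hx, rfl⟩ := H3_pre h hg
    obtain ⟨p, hp⟩ := H3_chi hx
    refine ⟨ψ p, ?_⟩
    rw [← psi_equi h hψ hx, hp, map_mul, map_mul, map_inv]
  have ha : ga ∈ HH := Subgroup.subset_closure (by simp)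
  have hc : gc ∈ HH := Subgroup.subset_closure (by simp)
  obtain ⟨p, hp⟩ := key ga ha
  obtain ⟨q, hq⟩ := key gc hc
  rw [Chi_ga] at hp
  rw [Chi_gc] at hq
  exact inv_w ⟨p, hp⟩ ⟨q, hq⟩

private lemma H3_es : es ww = Multiplicative.ofAdd 3 := by
  unfold ww es
  rw [map_mul, map_mul]
  simp only [FreeGroup.lift_apply_of]
  rfl

/-- `BT-H3`.  The class of `ψ w` is invariant under `Chi y` for all `y ∈ H`: `y = φ x`, `x ∈ H`, and
`Chi x w` is conjugate to `w` (`sa_ww`, `sc_ww`, conjugation by `z1`; closure).  So by `inv_w`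
`ψ w` is conjugate to `w^k`.  The same for `φ⁻¹` (`ψ'`, `k'`); `ψ' ∘ ψ = id` (`io_gz_inj`), so
`w = ψ' (ψ w)` is conjugate to `w^(k k')`, and `k k' = 1` (exponent sum `es`). -/
theorem psi_ww {φ : MulAut GB} (h : φ gz = gz) {ψ : F3 →* F3}
    (hψ : ∀ z : F3, ∃ k : ℤ, φ (io z) = io (ψ z) * gz ^ k) :
    ∃ y : F3, y * ψ ww * y⁻¹ = ww ∨ y * ψ ww * y⁻¹ = ww⁻¹ := by
  obtain ⟨y, k, hk⟩ := H3_pow h hψ
  have h' : φ⁻¹ gz = gz := by
    apply φ.injective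
    rw [MulAut.apply_inv_self, h]
  obtain ⟨ψ', hψ'⟩ := exists_psi h'
  obtain ⟨y', k', hk'⟩ := H3_pow h' hψ'
  have hid : ∀ z, ψ' (ψ z) = z := by
    intro z
    obtain ⟨m, hm⟩ := hψ z
    obtain ⟨n, hn⟩ := hψ' (ψ z)
    have h1 : φ⁻¹ (φ (io z)) = io z := MulAut.inv_apply_self GB φ (io z)
    rw [hm, map_mul, map_zpow, h', hn, mul_assoc, ← zpow_add] at h1
    have h2 : io z * gz ^ (0 : ℤ) = io (ψ' (ψ z)) * gz ^ (n + m) := by
      rw [zpow_zero, mul_one]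
      exact h1.symm
    exact (io_gz_inj h2).1.symm
  have h1 : ψ' y * ww * (ψ' y)⁻¹ = (ψ' ww) ^ k := by
    have := congrArg ψ' hk
    rwa [map_mul, map_mul, map_inv, hid, map_zpow] at this
  have h2 : ψ' ww = y'⁻¹ * ww ^ k' * y' := by
    rw [← hk']; group
  have h3 : es ww = (es ww) ^ (k' * k) := by
    have h4 := congrArg es h1
    rw [h2, map_mul, map_mul, map_inv, map_zpow, map_mul, map_mul, map_inv, map_zpow] at h4
    rw [zpow_mul]
    rw [mul_comm (es (ψ' y)), mul_assoc, mul_inv_cancel, mul_one] at h4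
    rw [mul_comm (es y')⁻¹, mul_assoc, inv_mul_cancel, mul_one] at h4
    exact h4
  rw [H3_es, ← ofAdd_zsmul] at h3
  have h5 : (3 : ℤ) = (k' * k) • 3 := Multiplicative.ofAdd.injective h3
  rw [smul_eq_mul] at h5
  have h6 : k' * k = 1 := by omega
  refine ⟨y, ?_⟩
  rcases Int.isUnit_iff.1 (IsUnit.of_mul_eq_one_right k' h6) with rfl | rfl
  · left
    rw [hk, zpow_one]
  · right
    rw [hk, zpow_neg_one]

end Pool.Agent.Helper38.BT
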