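import Pool.Agent.Helper38.BT.H1
import Pool.Agent.Helper38.BT.F3X

/-!
# Project BT (MP_2ec7a7_al), piece BT-H4: the automorphisms which fix `ζ`
-/

namespace Pool.Agent.Helper38.BT

open FreeGroup (of lift)

private lemma H4_es (n : ℤ) : es (ww ^ n) = Multiplicative.ofAdd (3 * n) := by
  have h : es ww = Multiplicative.ofAdd 3 := by
    simp only [ww, es, map_mul, FreeGroup.lift_apply_of]
    rfl
  rw [map_zpow, h, ← ofAdd_zsmul, smul_eq_mul, mul_comm]

private lemma H4_inj {n m : ℤ} (h : ww ^ n = ww ^ m) : n = m := by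
  have h1 := congrArg es h
  rw [H4_es, H4_es] at h1
  have h2 := Multiplicative.ofAdd.injective h1
  omega

private lemma H4_ga : ga ∈ HH := Subgroup.subset_closure (by simp)

private lemma H4_gc : gc ∈ HH := Subgroup.subset_closure (by simp)

private lemma H4_one {φ : MulAut GB} (h : φ gz = gz) {ψ : F3 →* F3}
    (hψ : ∀ z : F3, ∃ k : ℤ, φ (io z) = io (ψ z) * gz ^ k)
    (hw : ψ ww = ww ∨ ψ ww = ww⁻¹) {g : GB} (hg : g ∈ HH)
    (hs : Chi g ww = ww) (hp : pp 0 (φ g) = pp 0 g ∨ pp 0 (φ g) = -pp 0 g) :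
    ∃ k i : ℤ, φ g = g * (io ww ^ k * gz ^ i) := by
  have h1 : φ g ∈ HH := by
    rw [mem_HH] at hg ⊢
    rw [← h, ← map_mul, hg, map_mul]
  obtain ⟨z, i, hz⟩ := kerH (x := g⁻¹ * φ g) (mul_mem (inv_mem hg) h1) (by
    rw [map_mul, map_inv]
    rcases hp with hp | hp
    · left; rw [hp, inv_mul_cancel]
    · right; rw [hp, mul_neg, inv_mul_cancel])
  have h2 : φ g = g * (io z * gz ^ i) := by rw [← hz]; group
  have h3 : Chi (φ g) (ψ ww) = ψ ww := by
    rw [← psi_equi h hψ hg ww, hs]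
  have h4 : Chi (φ g) ww = ww := by
    rcases hw with hw | hw
    · rw [hw] at h3; exact h3
    · rw [hw, map_inv] at h3; exact inv_injective h3
  have h5 : Chi (φ g) = Chi g * MulAut.conj z := by
    rw [h2, map_mul, map_mul, map_zpow, Chi_gz, one_zpow, mul_one, Chi_io]
  rw [h5] at h4
  have h6 : Chi g (z * ww * z⁻¹) = Chi g ww := by
    rw [hs]
    exact h4
  have h7 : z * ww = ww * z := by
    rw [← mul_inv_eq_iff_eq_mul]
    exact (Chi g).injective h6
  obtain ⟨k, hk⟩ := comm_ww h7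
  exact ⟨k, i, by rw [h2, hk, map_zpow]⟩

/-- `BT-H4`.  Assume moreover `pp 0 (φ a) = ± pp 0 a`, `pp 0 (φ c) = ± pp 0 c`, and `ψ w = w^(±1)`.
`φ a ∈ H` and `a⁻¹ φ(a)` is in the kernel of `pp 0` modulo `±1`, so `φ a = a (io z) ζ^i` (`kerH`).
`Chi (φ a)` fixes `ψ w` (`psi_equi`, `sa_ww`), so it fixes `w`, and `Chi (φ a) = sa * conj z`, so `z`
commutes with `w` and `z = w^k` (`comm_ww`).  As `io w = ζ Ω⁻¹` (`gz_io`), and `ζ` is central in `H`:
`φ a = a Ω^k ζ^i` with new `i, k`.  In the same way `φ c = c Ω^k' ζ^i'`.  `Ω` commutes with `a` and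
`c`.  The braid relation gives `Ω^(k-k') ζ^(i-i') = 1`; `Ω^x ζ^y = io (w^(-x)) ζ^(x+y)`, so
`k = k'`, `i = i'` (`io_gz_inj`; `w` has infinite order: `es`).  Then
`φ Ω = (φ(a) φ(c))³ = Ω^(1+6k) ζ^(6i)`, and `io w = ζ Ω⁻¹` gives
`φ (io w) = io (w^(1+6k)) ζ^*`, so `ψ w = w^(1+6k)` and `1 + 6 k = ±1`, so `k = 0`. -/
theorem fix_ac {φ : MulAut GB} (h : φ gz = gz) {ψ : F3 →* F3}
    (hψ : ∀ z : F3, ∃ k : ℤ, φ (io z) = io (ψ z) * gz ^ k)
    (ha : pp 0 (φ ga) = pp 0 ga ∨ pp 0 (φ ga) = -pp 0 ga)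
    (hc : pp 0 (φ gc) = pp 0 gc ∨ pp 0 (φ gc) = -pp 0 gc)
    (hw : ψ ww = ww ∨ ψ ww = ww⁻¹) :
    ∃ i : ℤ, φ ga = ga * gz ^ i ∧ φ gc = gc * gz ^ i ∧ ψ ww = ww := by
  obtain ⟨k, i, hka⟩ := H4_one h hψ hw H4_ga (by simp) ha
  obtain ⟨k', i', hkc⟩ := H4_one h hψ hw H4_gc (by simp) hc
  have cWz : Commute (io ww) gz := io_gz ww
  have caz : Commute ga gz := mem_HH.1 H4_ga
  have ccz : Commute gc gz := mem_HH.1 H4_gc
  have caW : Commute ga (io ww) := by
    have := conj_io H4_ga ww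
    rw [Chi_ga, sa_ww, mul_inv_eq_iff_eq_mul] at this
    exact this
  have ccW : Commute gc (io ww) := by
    have := conj_io H4_gc ww
    rw [Chi_gc, sc_ww, mul_inv_eq_iff_eq_mul] at this
    exact this
  have key : ∀ n m : ℤ, io (ww ^ n) * gz ^ m = io ww ^ n * gz ^ m := fun n m => by
    rw [map_zpow]
  have cat : ∀ n m : ℤ, Commute ga (io ww ^ n * gz ^ m) := fun n m =>
    (caW.zpow_right n).mul_right (caz.zpow_right m)
  have cct : ∀ n m : ℤ, Commute gc (io ww ^ n * gz ^ m) := fun n m =>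
    (ccW.zpow_right n).mul_right (ccz.zpow_right m)
  have hmul : ∀ n m n' m' : ℤ, (io ww ^ n * gz ^ m) * (io ww ^ n' * gz ^ m') =
      io ww ^ (n + n') * gz ^ (m + m') := fun n m n' m' => by
    have e1 : gz ^ m * io ww ^ n' = io ww ^ n' * gz ^ m :=
      ((cWz.zpow_left n').zpow_right m).symm.eq
    rw [zpow_add, zpow_add, mul_assoc, ← mul_assoc (gz ^ m), e1]
    simp only [mul_assoc]
  -- the braid relation
  have hbr : φ ga * φ gc * φ ga = φ gc * φ ga * φ gc := by
    rw [← map_mul, ← map_mul, ga_gc, map_mul, map_mul]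
  have e1 : φ ga * φ gc * φ ga =
      ga * gc * ga * (io ww ^ (k + (k' + k)) * gz ^ (i + (i' + i))) := by
    rw [hka, hkc, ← hmul, ← hmul]
    have c1 := (cat k i).eq
    have c2 := (cct k i).eq
    have c3 := (cat k' i').eq
    generalize io ww ^ k * gz ^ i = s at c1 c2 ⊢
    generalize io ww ^ k' * gz ^ i' = t at c3 ⊢
    calc ga * s * (gc * t) * (ga * s) = ga * (s * gc) * (t * ga) * s := by
          simp only [mul_assoc]
      _ = ga * (gc * s) * (ga * t) * s := by rw [c2, c3]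
      _ = ga * gc * (s * ga) * (t * s) := by simp only [mul_assoc]
      _ = ga * gc * (ga * s) * (t * s) := by rw [c1]
      _ = ga * gc * ga * (s * (t * s)) := by simp only [mul_assoc]
  have e2 : φ gc * φ ga * φ gc =
      gc * ga * gc * (io ww ^ (k' + (k + k')) * gz ^ (i' + (i + i'))) := by
    rw [hka, hkc, ← hmul, ← hmul]
    have c1 := (cct k' i').eq
    have c2 := (cat k' i').eq
    have c3 := (cct k i).eq
    generalize io ww ^ k' * gz ^ i' = s at c1 c2 ⊢
    generalize io ww ^ k * gz ^ i = t at c3 ⊢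
    calc gc * s * (ga * t) * (gc * s) = gc * (s * ga) * (t * gc) * s := by
          simp only [mul_assoc]
      _ = gc * (ga * s) * (gc * t) * s := by rw [c2, c3]
      _ = gc * ga * (s * gc) * (t * s) := by simp only [mul_assoc]
      _ = gc * ga * (gc * s) * (t * s) := by rw [c1]
      _ = gc * ga * gc * (s * (t * s)) := by simp only [mul_assoc]
  rw [e1, e2, ga_gc] at hbr
  have h8 := mul_left_cancel hbr
  rw [← key, ← key] at h8
  obtain ⟨h9, h10⟩ := io_gz_inj h8
  have h11 := H4_inj h9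
  have hkk : k' = k := by omega
  have hii : i' = i := by omega
  subst hkk hii
  -- the element `Ω`
  have e3 : φ gO = gO * (io ww ^ (6 * k') * gz ^ (6 * i')) := by
    have e4 : φ ga * φ gc = ga * gc * (io ww ^ (2 * k') * gz ^ (2 * i')) := by
      rw [hka, hkc, two_mul, two_mul, ← hmul]
      have c1 := (cct k' i').eq
      generalize io ww ^ k' * gz ^ i' = s at c1 ⊢
      calc ga * s * (gc * s) = ga * (s * gc) * s := by simp only [mul_assoc]
        _ = ga * (gc * s) * s := by rw [c1]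
        _ = ga * gc * (s * s) := by simp only [mul_assoc]
    have e5 : Commute (ga * gc) (io ww ^ (2 * k') * gz ^ (2 * i')) :=
      (cat _ _).mul_left (cct _ _)
    rw [gO, map_pow, map_mul, e4, e5.mul_pow]
    congr 1
    rw [pow_succ, pow_succ, pow_one, hmul, hmul]
    congr 2 <;> ring
  have e6 : Commute gO (io ww ^ (6 * k') * gz ^ (6 * i')) := by
    rw [gO]
    exact ((cat _ _).mul_left (cct _ _)).pow_left 3
  have e7 : φ (io ww) = io ww ^ (1 - 6 * k') * gz ^ (0 - 6 * i') := by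
    have e8 : φ (io ww) * φ gO = io ww * gO := by
      rw [← map_mul, ← gz_io, h]
    rw [e3, e6.eq, ← mul_assoc] at e8
    have e9 := mul_right_cancel e8
    have e10 : io ww = (io ww ^ (1 - 6 * k') * gz ^ (0 - 6 * i')) *
        (io ww ^ (6 * k') * gz ^ (6 * i')) := by
      rw [hmul]
      simp
    exact mul_right_cancel (e9.trans e10)
  obtain ⟨m, hm⟩ := hψ ww
  rw [e7, ← key] at hm
  obtain ⟨h12, -⟩ := io_gz_inj hm
  have hk0 : k' = 0 := by
    rcases hw with hw | hw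
    · rw [hw] at h12
      have h13 := H4_inj (n := 1 - 6 * k') (m := 1) (by rw [zpow_one]; exact h12)
      omega
    · rw [hw] at h12
      have h13 := H4_inj (n := 1 - 6 * k') (m := -1) (by rw [zpow_neg_one]; exact h12)
      omega
  subst hk0
  refine ⟨i', ?_, ?_, ?_⟩
  · rw [hka, zpow_zero, one_mul]
  · rw [hkc, zpow_zero, one_mul]
  · rw [← h12]
    simp

end Pool.Agent.Helper38.BT
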