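import Pool.Agent.Helper38.BT.F3X
import Pool.Agent.Helper7.AG.Fsum

/-!
# Project BT (MP_2ec7a7_al), piece BT-LD
-/

namespace Pool.Agent.Helper38.BT

open FreeGroup (of lift)
open Pool.Agent.Helper7.AG (FreeProd Red val pv PNt nt sv)

section LDgen
variable {A B Γ : Type*} [Group A] [Group B] [Group Γ] {i : A →* Γ} {j : B →* Γ}

private theorem LD_map {e : Γ →* Γ} {f : B →* B} (he : ∀ a, e (i a) = i a)
    (he' : ∀ b, e (j b) = j (f b)) (l : List (A ⊕ B)) :
    val i j (l.map (Sum.map id f)) = e (val i j l) := by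
  induction l with
  | nil => simp
  | cons s l ih =>
    rw [List.map_cons, Pool.Agent.Helper7.AG.val_cons, Pool.Agent.Helper7.AG.val_cons, ih,
      map_mul]
    congr 1
    cases s with
    | inl a => exact (he a).symm
    | inr b => exact (he' b).symm

private theorem LD_red {f : B →* B} (hf : Function.Injective f) {l : List (A ⊕ B)}
    (hl : Red l) : Red (l.map (Sum.map id f)) := by
  refine ⟨?_, ?_⟩
  · intro s hs
    obtain ⟨s', h1, rfl⟩ := List.mem_map.1 hs
    cases s' with
    | inl a => exact hl.1 _ h1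
    | inr b =>
      have h2 : b ≠ 1 := hl.1 _ h1
      intro h3
      exact h2 (hf (h3.trans (map_one f).symm))
  · rw [List.isChain_map]
    refine hl.2.imp ?_
    intro s s' h1
    cases s <;> cases s' <;> simpa using h1

private theorem LD_fix (h : FreeProd i j) {e : Γ →* Γ} {f : B →* B} (he : ∀ a, e (i a) = i a)
    (he' : ∀ b, e (j b) = j (f b)) (hf : Function.Injective f) {l : List (A ⊕ B)} (hl : Red l)
    (hx : e (val i j l) = val i j l) {b : B} (hb : Sum.inr b ∈ l) : f b = b := by
  have h1 : l.map (Sum.map id f) = l :=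
    h.uniq _ _ (LD_red hf hl) hl ((LD_map he he' l).trans hx)
  have h2 := List.map_inj_left.1 (h1.trans (List.map_id l).symm) _ hb
  exact Sum.inr_injective h2

private theorem LD_right {l : List (A ⊕ B)} (hl : Red l) :
    ∃ (l₀ : List (A ⊕ B)) (a : A), Red l₀ ∧ val i j l = val i j l₀ * i a ∧
      (l = l₀ ∧ a = 1 ∨ l = l₀ ++ [.inl a]) ∧ (l₀ = [] ∨ ∃ l₁ b, l₀ = l₁ ++ [.inr b]) := by
  rcases List.eq_nil_or_concat l with rfl | ⟨l', s, rfl⟩
  · exact ⟨[], 1, Pool.Agent.Helper7.AG.red_nil, by simp, Or.inl ⟨rfl, rfl⟩, Or.inl rfl⟩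
  · rw [List.concat_eq_append] at hl ⊢
    cases s with
    | inr b => exact ⟨l' ++ [.inr b], 1, hl, by simp, Or.inl ⟨rfl, rfl⟩, Or.inr ⟨l', b, rfl⟩⟩
    | inl a₁ =>
      obtain ⟨h1, -, h3⟩ := Pool.Agent.Helper7.AG.red_append.1 hl
      refine ⟨l', a₁, h1, by simp [sv], Or.inr rfl, ?_⟩
      rcases List.eq_nil_or_concat l' with rfl | ⟨l₁, t, rfl⟩
      · exact Or.inl rfl
      · right
        rw [List.concat_eq_append] at h3 ⊢
        cases t with
        | inr b => exact ⟨l₁, b, rfl⟩
        | inl a => exact absurd rfl (h3 (.inl a) (by simp) (.inl a₁) (by simp))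

private theorem LD_left {l : List (A ⊕ B)} (hl : Red l) :
    ∃ (a : A) (r : List (A ⊕ B)), Red r ∧
      (l = r ∧ a = 1 ∨ l = .inl a :: r) ∧ (r = [] ∨ ∃ b r', r = .inr b :: r') := by
  cases l with
  | nil => exact ⟨1, [], hl, Or.inl ⟨rfl, rfl⟩, Or.inl rfl⟩
  | cons s l =>
    cases s with
    | inr b => exact ⟨1, _, hl, Or.inl ⟨rfl, rfl⟩, Or.inr ⟨b, l, rfl⟩⟩
    | inl a =>
      have h1 : Red l := by
        have : Red ([Sum.inl a] ++ l) := hl
        exact (Pool.Agent.Helper7.AG.red_append.1 this).2.1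
      refine ⟨a, l, h1, Or.inr rfl, ?_⟩
      cases l with
      | nil => exact Or.inl rfl
      | cons t l =>
        cases t with
        | inr b => exact Or.inr ⟨b, l, rfl⟩
        | inl c => exact absurd rfl (Pool.Agent.Helper7.AG.red_cons_cons.1 hl).2.1

end LDgen

private theorem LD_clos {e : F3 →* F3} {S : Set F3} (h : ∀ x ∈ S, e x = x) {x : F3}
    (hx : x ∈ Subgroup.closure S) : e x = x := by
  have h1 : Subgroup.closure S ≤ e.eqLocus (MonoidHom.id F3) :=
    (Subgroup.closure_le _).2 fun x hx => h x hx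
  exact h1 hx

private def LD_e1 : F3 →* F3 := lift ![z1, z1 * z2 * z1⁻¹, z1 * z2⁻¹ * z1⁻¹ * z2 * z3]

private def LD_e2 : F3 →* F3 := lift ![z1 * z2 * z1 * (z1 * z2)⁻¹, z1 * z2 * z2 * (z1 * z2)⁻¹, z3]

private def LD_s : FreeGroup Bool →* FreeGroup Bool :=
  lift (fun t => if t = true then (of true)⁻¹ * of false * of true else of true)

private theorem LD_one (x : F3) (a : FreeGroup Unit) : ∃ k : ℤ, one_ x a = x ^ k := by
  have h1 : one_ x a ∈ (one_ x).range := ⟨a, rfl⟩
  unfold one_ at h1
  rw [FreeGroup.range_lift_eq_closure, Set.range_const, ← Subgroup.zpowers_eq_closure] at h1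
  obtain ⟨k, hk⟩ := Subgroup.mem_zpowers_iff.1 h1
  exact ⟨k, hk.symm⟩

private theorem LD_fixone {e : F3 →* F3} (he : e ww = ww) (a : FreeGroup Unit) :
    e (one_ ww a) = one_ ww a := by
  have h1 : e.comp (one_ ww) = one_ ww := by
    ext t
    simp [he]
  exact DFunLike.congr_fun h1 a

private theorem LD_fixtwo {e : F3 →* F3} {f : FreeGroup Bool →* FreeGroup Bool}
    (h1 : e z1 = two_ z1 z2 (f (of false))) (h2 : e z2 = two_ z1 z2 (f (of true)))
    (b : FreeGroup Bool) : e (two_ z1 z2 b) = two_ z1 z2 (f b) := by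
  have h3 : e.comp (two_ z1 z2) = (two_ z1 z2).comp f := by
    ext t
    cases t
    · simp [h1]
    · simp [h2]
  exact DFunLike.congr_fun h3 b

private def LD_c : FreeGroup Bool →* Multiplicative ℤ :=
  lift (fun t => if t = false then Multiplicative.ofAdd 1 else 1)

private theorem LD_c1 : LD_c (of false) = Multiplicative.ofAdd 1 := by simp [LD_c]

private theorem LD_c2 : LD_c (of true) = 1 := by simp [LD_c]

/-- a power of the first letter which commutes with the product of the letters is trivial -/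
private theorem LD_comm {b : FreeGroup Bool} (h1 : ∃ k : ℤ, b = of false ^ k)
    (h2 : (of false * of true) * b * (of false * of true)⁻¹ = b) : b = 1 := by
  obtain ⟨k, rfl⟩ := h1
  by_contra hk
  have hk0 : k ≠ 0 := by
    rintro rfl
    exact hk (zpow_zero _)
  have h3 : (of true : FreeGroup Bool) * of false ^ k = of false ^ k * of true := by
    have h4 : (of false * of true) * of false ^ k = of false ^ k * (of false * of true) := by
      rw [mul_inv_eq_iff_eq_mul] at h2
      exact h2
    have h5 : of false ^ k * (of false * of true) =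
        (of false : FreeGroup Bool) * (of false ^ k * of true) := by
      rw [← mul_assoc, ← mul_assoc, ← zpow_add_one, ← zpow_one_add, add_comm]
    rw [h5, mul_assoc] at h4
    exact mul_left_cancel h4
  obtain ⟨m, hm⟩ := Pool.Agent.Helper7.AG.commute_of_pow false hk0 h3
  have h6 := congrArg (lift (fun t : Bool => if t = true then Multiplicative.ofAdd (1 : ℤ)
    else 1)) hm
  rw [map_zpow, FreeGroup.lift_apply_of, FreeGroup.lift_apply_of] at h6
  simp at h6

/-- `BT-LD`.  Let `sa W = W`, so `W ∈ ⟨z1, w⟩` (`sa_fix`, `z2 z3 = z1⁻¹ w`), and let `D = W (sc W)`,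
`sc D = D` by `hD`, so `D ∈ ⟨z3, z1 z2⟩ = ⟨w, z1 z2⟩` (`sc_fix`).  Work in
`F3 = ⟨w⟩ * ⟨z1, z2⟩` (`fp_w1`); `sc` fixes `w` and maps `z1` to `z2`.  `W` is not a power of `w`
(`es w = 3`, `es W = 1`), so `W = w^i z w^j` with `z = z1^(k1) w^(l1) z1^(k2) ⋯ z1^(kn)`, `n ≥ 1`, all
`k`, `l ≠ 0`, and `D = w^i z w^(i+j) z' w^j` with `z' = z2^(k1) w^(l1) ⋯ z2^(kn)`.  If `i + j ≠ 0`, this is
(up to the first and last factors, which may be trivial) a reduced word whose first syllable from
`⟨z1, z2⟩` is `z1^(k1)`; but all such syllables of an element of `⟨w, z1 z2⟩` are powers of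
`z1 z2`: contradiction (exponents).  If `i + j = 0` and `n ≥ 2`, the same (the syllables
`z1^(kn) z2^(k1) ≠ 1` merge, the first one is still `z1^(k1)`).  So `i + j = 0`, `n = 1`,
`W = w^i z1^k w^(-i)`, and `k = es W = 1`. -/
theorem lem_D {W : F3} (hW : sa W = W) (hD : sc W * sc (sc W) = W * sc W)
    (he : es W = Multiplicative.ofAdd 1) : ∃ k : ℤ, W = ww ^ k * z1 * (ww ^ k)⁻¹ := by
  have hfp := fp_w1
  obtain ⟨l, hl, hlW⟩ := hfp.ex W
  -- the three endomorphisms
  have e1w : LD_e1 ww = ww := by simp [LD_e1, ww, mul_assoc]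
  have e2w : LD_e2 ww = ww := by simp [LD_e2, ww, mul_assoc]
  have e1z1 : LD_e1 z1 = z1 := by simp [LD_e1]
  have e1z2 : LD_e1 z2 = z1 * z2 * z1⁻¹ := by simp [LD_e1]
  have e2z1 : LD_e2 z1 = z1 * z2 * z1 * (z1 * z2)⁻¹ := by simp [LD_e2]
  have e2z2 : LD_e2 z2 = z1 * z2 * z2 * (z1 * z2)⁻¹ := by simp [LD_e2]
  have e2z3 : LD_e2 z3 = z3 := by simp [LD_e2]
  -- `W` is fixed by `LD_e1`
  have hW1 : LD_e1 W = W := by
    refine LD_clos ?_ (sa_fix hW)
    rintro x (rfl | rfl)
    · exact e1z1
    · have h2 : z2 * z3 = z1⁻¹ * ww := by simp [ww, mul_assoc]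
      rw [h2, map_mul, map_inv, e1z1, e1w]
  have hD1 : LD_e2 (W * sc W) = W * sc W := by
    have h1 : sc (W * sc W) = W * sc W := by rw [map_mul, hD]
    refine LD_clos ?_ (sc_fix h1)
    rintro x (rfl | rfl)
    · exact e2z3
    · rw [map_mul, e2z1, e2z2]
      simp [mul_assoc]
  have hbW : ∀ b, Sum.inr b ∈ l → ∃ k : ℤ, b = of false ^ k := by
    intro b hb
    have h1 := LD_fix hfp (e := LD_e1) (f := (MulAut.conj (of false)).toMonoidHom)
      (LD_fixone e1w) (LD_fixtwo (by simp [e1z1]) (by simp [e1z2])) (MulEquiv.injective _) hl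
      (by rw [hlW, hW1]) hb
    have h2 : (of false : FreeGroup Bool) * b * (of false)⁻¹ = b := h1
    rw [mul_inv_eq_iff_eq_mul] at h2
    exact Pool.Agent.Helper7.AG.commute_of_pow false (n := 1) one_ne_zero
      (by rw [zpow_one, h2])
  have hbD : ∀ m, Red m → val (one_ ww) (two_ z1 z2) m = W * sc W → ∀ b, Sum.inr b ∈ m →
      (∃ k : ℤ, b = of false ^ k) → b = 1 := by
    intro m hm hmD b hb hk
    have h1 := LD_fix hfp (e := LD_e2) (f := (MulAut.conj (of false * of true)).toMonoidHom)
      (LD_fixone e2w) (LD_fixtwo (by simp [e2z1, mul_assoc]) (by simp [e2z2, mul_assoc])) (MulEquiv.injective _) hm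
      (by rw [hmD, hD1]) hb
    exact LD_comm hk h1
  have hs1 : ∀ a, sc.toMonoidHom (one_ ww a) = one_ ww a := LD_fixone (e := sc.toMonoidHom) sc_ww
  have hs2 : ∀ b, sc.toMonoidHom (two_ z1 z2 b) = two_ z1 z2 (LD_s b) :=
    LD_fixtwo (e := sc.toMonoidHom) (by simp [LD_s]) (by simp [LD_s])
  have hsinj : Function.Injective LD_s := by
    intro b b' hb
    have h1 : sc.toMonoidHom (two_ z1 z2 b) = sc.toMonoidHom (two_ z1 z2 b') := by
      rw [hs2, hs2, hb]
    exact hfp.inj_right (sc.injective h1)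
  have hesw : ∀ a : FreeGroup Unit, es (one_ ww a) ≠ Multiplicative.ofAdd 1 := by
    intro a h1
    obtain ⟨k, hk⟩ := LD_one ww a
    have h2 : es ww = Multiplicative.ofAdd 3 := by
      simp only [es, ww, map_mul, FreeGroup.lift_apply_of]
      rfl
    rw [hk, map_zpow, h2, ← ofAdd_zsmul] at h1
    have h3 := Multiplicative.ofAdd.injective h1
    rw [smul_eq_mul] at h3
    omega
  obtain ⟨l₀, a₁, hl₀, hv₀, hc₀, hd₀⟩ := LD_right (i := one_ ww) (j := two_ z1 z2) hl
  obtain ⟨a, r, hr, hc, hd⟩ := LD_left hl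
  rcases hd₀ with rfl | ⟨l₁, b, rfl⟩
  · exfalso
    rw [hlW, Pool.Agent.Helper7.AG.val_nil, one_mul] at hv₀
    exact hesw a₁ (by rw [← hv₀, he])
  have hvr : W = one_ ww a * val (one_ ww) (two_ z1 z2) r := by
    rw [← hlW]
    rcases hc with ⟨rfl, rfl⟩ | rfl
    · rw [map_one, one_mul]
    · rw [Pool.Agent.Helper7.AG.val_cons]
      rfl
  rcases hd with rfl | ⟨b₁, r', rfl⟩
  · exfalso
    rw [Pool.Agent.Helper7.AG.val_nil, mul_one] at hvr
    exact hesw a (by rw [← hvr, he])
  have hmem : ∀ s ∈ l₁ ++ [Sum.inr b], s ∈ l := by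
    intro s hs
    rcases hc₀ with ⟨h1, -⟩ | h1
    · rw [h1]; exact hs
    · rw [h1]; exact List.mem_append_left _ hs
  have hbl : Sum.inr b ∈ l := hmem _ (by simp)
  have hb1l : Sum.inr b₁ ∈ l := by
    rcases hc with ⟨h1, -⟩ | h1 <;> rw [h1] <;> simp
  have hb1 : b ≠ 1 := hl.1 _ hbl
  have hb11 : b₁ ≠ 1 := hl.1 _ hb1l
  have hscW : sc W = one_ ww a *
      val (one_ ww) (two_ z1 z2) ((Sum.inr b₁ :: r').map (Sum.map id LD_s)) := by
    rw [LD_map hs1 hs2]
    have h1 := congrArg sc.toMonoidHom hvr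
    rw [map_mul, hs1] at h1
    exact h1
  have hr2 : Red ((Sum.inr b₁ :: r' : List (FreeGroup Unit ⊕ FreeGroup Bool)).map
      (Sum.map id LD_s)) := LD_red hsinj hr
  have hWv : W = val (one_ ww) (two_ z1 z2) (l₁ ++ [Sum.inr b]) * one_ ww a₁ := by
    rw [← hlW, hv₀]
  by_cases haa : a₁ * a = 1
  · -- the outer powers cancel
    have hbb : b * LD_s b₁ ≠ 1 := by
      obtain ⟨k, rfl⟩ := hbW b hbl
      obtain ⟨k', rfl⟩ := hbW b₁ hb1l
      intro h1
      have h2 : LD_s (of false ^ k') = of true ^ k' := by simp [LD_s]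
      rw [h2] at h1
      have h3 := congrArg LD_c h1
      rw [map_mul, map_zpow, map_zpow, LD_c1, LD_c2, one_zpow, mul_one, MonoidHom.map_one,
        ← ofAdd_zsmul, smul_eq_mul, mul_one] at h3
      have h5 : k = 0 := Multiplicative.ofAdd.injective h3
      exact hb1 (by rw [h5, zpow_zero])
    have hred : Red (l₁ ++ (Sum.inr (b * LD_s b₁) :: r'.map (Sum.map id LD_s))) := by
      rw [Pool.Agent.Helper7.AG.red_append] at hl₀ ⊢
      refine ⟨hl₀.1, ?_, ?_⟩
      · have h1 : Red (Sum.inr (LD_s b₁) :: r'.map (Sum.map id LD_s) :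
            List (FreeGroup Unit ⊕ FreeGroup Bool)) := hr2
        refine ⟨?_, ?_⟩
        · intro s hs
          rcases List.mem_cons.1 hs with rfl | hs
          · exact hbb
          · exact h1.1 s (List.mem_cons_of_mem _ hs)
        · rw [List.isChain_cons] at *
          have h2 := h1.2
          rw [List.isChain_cons] at h2
          exact h2
      · intro s hs s' hs'
        have h1 := hl₀.2.2 s hs (Sum.inr b) (by simp)
        simp only [List.head?_cons, Option.mem_def, Option.some.injEq] at hs'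
        rw [← hs']
        exact h1
    have hval : val (one_ ww) (two_ z1 z2)
        (l₁ ++ (Sum.inr (b * LD_s b₁) :: r'.map (Sum.map id LD_s))) = W * sc W := by
      have h1 : one_ ww a₁ * one_ ww a = 1 := by rw [← map_mul, haa, map_one]
      rw [hscW]
      conv_rhs => rw [hWv]
      simp only [Pool.Agent.Helper7.AG.val_append, Pool.Agent.Helper7.AG.val_cons,
        Pool.Agent.Helper7.AG.val_nil, List.map_cons, Sum.map_inr, sv, mul_one, map_mul]
      calc val (one_ ww) (two_ z1 z2) l₁ * (two_ z1 z2 b * two_ z1 z2 (LD_s b₁) *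
            val (one_ ww) (two_ z1 z2) (r'.map (Sum.map id LD_s)))
          = val (one_ ww) (two_ z1 z2) l₁ * two_ z1 z2 b * 1 * (two_ z1 z2 (LD_s b₁) *
            val (one_ ww) (two_ z1 z2) (r'.map (Sum.map id LD_s))) := by group
        _ = _ := by
          rw [← h1]
          group
    have hno : ∀ c, Sum.inr c ∉ l₁ := by
      intro c hcm
      have h1 := hmem (Sum.inr c) (List.mem_append_left _ hcm)
      exact hl.1 _ h1 (hbD _ hred hval c (List.mem_append_left _ hcm) (hbW c h1))
    obtain ⟨k, hk⟩ := hbW b hbl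
    have hfin : ∀ a', W = one_ ww a' * two_ z1 z2 b * one_ ww a₁ → a₁ * a' = 1 →
        ∃ k : ℤ, W = ww ^ k * z1 * (ww ^ k)⁻¹ := by
      intro a' h1 h2
      obtain ⟨n, hn⟩ := LD_one ww a'
      have h3 : one_ ww a₁ = (ww ^ n)⁻¹ := by
        rw [← hn, ← map_inv]
        congr 1
        exact eq_inv_of_mul_eq_one_left h2
      rw [h3, hn, hk, map_zpow, two_false] at h1
      have h4 : k = 1 := by
        have h5 := he
        rw [h1, map_mul, map_mul, map_inv, mul_comm (es (ww ^ n)), mul_assoc, mul_inv_cancel,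
          mul_one, map_zpow] at h5
        have h6 : es z1 = Multiplicative.ofAdd 1 := by simp [es]
        rw [h6, ← ofAdd_zsmul, smul_eq_mul, mul_one] at h5
        exact Multiplicative.ofAdd.injective h5
      rw [h4, zpow_one] at h1
      exact ⟨n, h1⟩
    cases l₁ with
    | nil =>
      have h1 : a = 1 := by
        rcases hc with ⟨-, h2⟩ | h2
        · exact h2
        · rcases hc₀ with ⟨h3, -⟩ | h3
          · rw [h2] at h3
            simp at h3
          · rw [h2] at h3
            simp at h3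
      refine hfin 1 ?_ (by rw [h1] at haa; exact haa)
      rw [hWv]
      simp [sv]
    | cons s l₂ =>
      cases s with
      | inr c => exact absurd List.mem_cons_self (hno c)
      | inl c =>
        have hl2 : l₂ = [] := by
          cases l₂ with
          | nil => rfl
          | cons t l₃ =>
            cases t with
            | inr c' => exact absurd (by simp) (hno c')
            | inl c' =>
              exfalso
              exact (Pool.Agent.Helper7.AG.red_cons_cons.1 hl₀).2.1 rfl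
        subst hl2
        have h1 : a = c := by
          rcases hc with ⟨h2, -⟩ | h2
          · rcases hc₀ with ⟨h3, -⟩ | h3
            · rw [h2] at h3
              simp at h3
            · rw [h2] at h3
              simp at h3
          · rcases hc₀ with ⟨h3, -⟩ | h3
            · rw [h2] at h3
              simp at h3
              exact h3.1
            · rw [h2] at h3
              simp at h3
              exact h3.1
        refine hfin c ?_ (by rw [← h1]; exact haa)
        rw [hWv]
        simp [sv]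
  · -- the outer powers do not cancel
    exfalso
    have hred : Red ((l₁ ++ [Sum.inr b]) ++ (Sum.inl (a₁ * a) ::
        (Sum.inr b₁ :: r').map (Sum.map id LD_s))) := by
      rw [Pool.Agent.Helper7.AG.red_append]
      refine ⟨hl₀, ?_, ?_⟩
      · rw [List.map_cons] at hr2 ⊢
        exact Pool.Agent.Helper7.AG.red_cons_cons.2 ⟨haa, by simp, hr2⟩
      · intro s hs s' hs'
        rw [List.getLast?_concat] at hs
        simp only [List.head?_cons, Option.mem_def, Option.some.injEq] at hs hs'
        rw [← hs, ← hs']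
        simp
    have hval : val (one_ ww) (two_ z1 z2) ((l₁ ++ [Sum.inr b]) ++ (Sum.inl (a₁ * a) ::
        (Sum.inr b₁ :: r').map (Sum.map id LD_s))) = W * sc W := by
      rw [hscW]
      conv_rhs => rw [hWv]
      rw [Pool.Agent.Helper7.AG.val_append, Pool.Agent.Helper7.AG.val_cons]
      have h1 : sv (one_ ww) (two_ z1 z2) (Sum.inl (a₁ * a)) = one_ ww a₁ * one_ ww a :=
        map_mul _ _ _
      rw [h1]
      group
    exact hb1 (hbD _ hred hval b (by simp) (hbW b hbl))

end Pool.Agent.Helper38.BT
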