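import Pool.Agent.Helper38.BT.H1
import Pool.Agent.Helper38.BT.LD

/-!
# Project BT (MP_2ec7a7_al), piece BT-H5: the automorphisms which fix `ζ`
-/

namespace Pool.Agent.Helper38.BT

open FreeGroup (of lift)

private lemma H5_es_sa (z : F3) : es (sa z) = es z := by
  have : es.comp sa.toMonoidHom = es := by
    ext y
    fin_cases y <;> simp [es]
  exact DFunLike.congr_fun this z

private lemma H5_es_sc (z : F3) : es (sc z) = es z := by
  have : es.comp sc.toMonoidHom = es := by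
    ext y
    fin_cases y <;> simp [es]
  exact DFunLike.congr_fun this z

private lemma H5_D_a : (ga * gc * ga) * ga = gc * (ga * gc * ga) := by
  calc (ga * gc * ga) * ga = (gc * ga * gc) * ga := by rw [ga_gc]
    _ = gc * (ga * gc * ga) := by simp only [mul_assoc]

private lemma H5_D_c : (ga * gc * ga) * gc = ga * (ga * gc * ga) := by
  calc (ga * gc * ga) * gc = ga * (gc * ga * gc) := by simp only [mul_assoc]
    _ = ga * (ga * gc * ga) := by rw [ga_gc]

private lemma H5_gO : gO = ga * gc * ga * (ga * gc * ga) := by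
  calc gO = (ga * gc * ga) * (gc * ga * gc) := by
        simp only [gO, pow_succ, pow_zero, one_mul, mul_assoc]
    _ = (ga * gc * ga) * (ga * gc * ga) := by rw [← ga_gc]

private lemma H5_ga_gO : Commute ga gO := by
  have h : ga * gO = gO * ga := by
    rw [H5_gO]
    generalize hD : ga * gc * ga = D
    have h1 : D * ga = gc * D := by rw [← hD]; exact H5_D_a
    have h2 : D * gc = ga * D := by rw [← hD]; exact H5_D_c
    rw [mul_assoc D D ga, h1, ← mul_assoc D, h2, mul_assoc]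
  exact h

private lemma H5_gc_gO : Commute gc gO := by
  have h : gc * gO = gO * gc := by
    rw [H5_gO]
    generalize hD : ga * gc * ga = D
    have h1 : D * ga = gc * D := by rw [← hD]; exact H5_D_a
    have h2 : D * gc = ga * D := by rw [← hD]; exact H5_D_c
    rw [mul_assoc D D gc, h2, ← mul_assoc D, h1, mul_assoc]
  exact h

/-- `BT-H5`.  Let `W = ψ z1`, so `φ d = io W ζ^j`.  `W` is fixed by `sa` (`psi_equi` for `x = a`:
`Chi (φ a) = sa` since `Chi ζ = 1`, `Chi_gz`), and `cdcd = dcdc` gives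
`sc W * sc (sc W) = W * sc W` (or apply `ψ` to `sc z1 * sc (sc z1) = z1 * sc z1`, with
`psi_equi` for `x = c`).  `es ∘ ψ` is invariant under `sa`, `sc`, so `es (ψ z1) = es (ψ z2) =
es (ψ z3)` and `3 es W = es (ψ w) = 3`.  So `lem_D` gives `W = w^k z1 w^(-k)`.  Then
`io w = ζ Ω⁻¹`, so `φ d = Ω^(-k) d Ω^k ζ^j`, and `Ω` commutes with `a`, `c`.  Finally
`e2`/`e1`-free: `ζ = φ ζ = (φ(a) φ(c) φ(d))³ = ζ^(1 + 3 (2 i + j))` up to the conjugation by
`Ω^(-k)`, so `j = - 2 i`. -/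
theorem fix_d {φ : MulAut GB} (h : φ gz = gz) {ψ : F3 →* F3}
    (hψ : ∀ z : F3, ∃ k : ℤ, φ (io z) = io (ψ z) * gz ^ k) {i : ℤ} (ha : φ ga = ga * gz ^ i)
    (hc : φ gc = gc * gz ^ i) (hw : ψ ww = ww) :
    ∃ k : ℤ, φ gd = gO ^ k * (gd * gz ^ (-2 * i)) * (gO ^ k)⁻¹ := by
  have hga : ga ∈ HH := Subgroup.subset_closure (by simp)
  have hgc : gc ∈ HH := Subgroup.subset_closure (by simp)
  have hgz : ∀ k : ℤ, Chi (gz ^ k) = 1 := fun k => by rw [map_zpow, Chi_gz, one_zpow]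
  have ea : ∀ z, ψ (sa z) = sa (ψ z) := fun z => by
    have := psi_equi h hψ hga z
    rwa [ha, map_mul, hgz, mul_one, Chi_ga] at this
  have ec : ∀ z, ψ (sc z) = sc (ψ z) := fun z => by
    have := psi_equi h hψ hgc z
    rwa [hc, map_mul, hgz, mul_one, Chi_gc] at this
  obtain ⟨j, hj⟩ := hψ z1
  rw [io_z1] at hj
  have hW : sa (ψ z1) = ψ z1 := by rw [← ea, sa_z1]
  have hD : sc (ψ z1) * sc (sc (ψ z1)) = ψ z1 * sc (ψ z1) := by
    have h1 : sc z1 * sc (sc z1) = z1 * sc z1 := by simp [mul_assoc]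
    rw [← ec, ← ec]
    calc ψ (sc z1) * ψ (sc (sc z1)) = ψ (sc z1 * sc (sc z1)) := (map_mul ψ _ _).symm
      _ = ψ (z1 * sc z1) := by rw [h1]
      _ = ψ z1 * ψ (sc z1) := map_mul ψ _ _
  have he3 : es (ψ ww) = es (ψ z1) * es (ψ z1) * es (ψ z1) := by
    have h2 : ψ z2 = sc (ψ z1) := by rw [← ec, sc_z1]
    have h3 : ψ z3 = sa (ψ z2) := by rw [← ea, sa_z2]
    rw [ww, map_mul, map_mul, map_mul, map_mul, h3, h2, H5_es_sa, H5_es_sc]
  have he : es (ψ z1) = Multiplicative.ofAdd 1 := by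
    have h1 : es ww = Multiplicative.ofAdd 3 := by
      simp [ww, es]
      rfl
    rw [hw, h1] at he3
    have h2 := congrArg Multiplicative.toAdd he3
    simp only [toAdd_ofAdd, toAdd_mul] at h2
    apply Multiplicative.toAdd.injective
    rw [toAdd_ofAdd]
    omega
  obtain ⟨k, hk⟩ := lem_D hW hD he
  -- commutation
  have cza : Commute gz ga := ga_gz.symm
  have czc : Commute gz gc := gc_gz.symm
  have czd : Commute gz gd := gd_gz.symm
  have czO : Commute gz gO := (cza.mul_right czc).pow_right 3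
  have hio : io (ww ^ k) = gz ^ k * (gO ^ k)⁻¹ := by
    have h1 : io ww = gz * gO⁻¹ := eq_mul_inv_of_mul_eq gz_io.symm
    rw [map_zpow, h1, (czO.inv_right).mul_zpow, inv_zpow]
  have hd : φ gd = (gO ^ k)⁻¹ * (gd * gz ^ j) * gO ^ k := by
    have c1 : Commute (gz ^ k) ((gO ^ k)⁻¹) := (czO.zpow_zpow k k).inv_right
    have c2 : Commute (gz ^ k) gd := czd.zpow_left k
    have c3 : Commute (gz ^ j) (gO ^ k) := czO.zpow_zpow j k
    have c4 : Commute (gz ^ k) (gO ^ k) := czO.zpow_zpow k k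
    rw [hj, hk, map_mul, map_mul, map_inv, io_z1, hio, mul_inv_rev, inv_inv]
    calc gz ^ k * (gO ^ k)⁻¹ * gd * (gO ^ k * (gz ^ k)⁻¹) * gz ^ j
        = (gO ^ k)⁻¹ * gz ^ k * gd * (gO ^ k * (gz ^ k)⁻¹) * gz ^ j := by rw [c1.eq]
      _ = (gO ^ k)⁻¹ * (gz ^ k * gd) * (gO ^ k * (gz ^ k)⁻¹) * gz ^ j := by
          simp only [mul_assoc]
      _ = (gO ^ k)⁻¹ * (gd * gz ^ k) * (gO ^ k * (gz ^ k)⁻¹) * gz ^ j := by rw [c2.eq]
      _ = (gO ^ k)⁻¹ * gd * (gz ^ k * gO ^ k) * (gz ^ k)⁻¹ * gz ^ j := by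
          simp only [mul_assoc]
      _ = (gO ^ k)⁻¹ * gd * (gO ^ k * gz ^ k) * (gz ^ k)⁻¹ * gz ^ j := by rw [c4.eq]
      _ = (gO ^ k)⁻¹ * gd * (gO ^ k * gz ^ j) := by group
      _ = (gO ^ k)⁻¹ * gd * (gz ^ j * gO ^ k) := by rw [c3.eq]
      _ = (gO ^ k)⁻¹ * (gd * gz ^ j) * gO ^ k := by simp only [mul_assoc]
  have cOa : Commute (gO ^ k) ga := (H5_ga_gO.symm).zpow_left k
  have cOc : Commute (gO ^ k) gc := (H5_gc_gO.symm).zpow_left k
  have hacd : φ (ga * gc * gd) = (gO ^ k)⁻¹ * ((ga * gc * gd) * gz ^ (2 * i + j)) * gO ^ k := by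
    have c1 : Commute (gz ^ i) gc := czc.zpow_left i
    have c2 : Commute (gz ^ (i + i)) ((gO ^ k)⁻¹) := (czO.zpow_zpow (i + i) k).inv_right
    have c3 : Commute (gz ^ (i + i)) gd := czd.zpow_left (i + i)
    have c4 : Commute (ga * gc) ((gO ^ k)⁻¹) := ((cOa.symm).mul_left cOc.symm).inv_right
    rw [map_mul, map_mul, ha, hc, hd]
    calc ga * gz ^ i * (gc * gz ^ i) * ((gO ^ k)⁻¹ * (gd * gz ^ j) * gO ^ k)
        = ga * (gz ^ i * gc) * gz ^ i * ((gO ^ k)⁻¹ * (gd * gz ^ j) * gO ^ k) := by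
          simp only [mul_assoc]
      _ = ga * (gc * gz ^ i) * gz ^ i * ((gO ^ k)⁻¹ * (gd * gz ^ j) * gO ^ k) := by rw [c1.eq]
      _ = ga * gc * (gz ^ (i + i) * (gO ^ k)⁻¹) * (gd * gz ^ j) * gO ^ k := by
          rw [zpow_add]; simp only [mul_assoc]
      _ = ga * gc * ((gO ^ k)⁻¹ * gz ^ (i + i)) * (gd * gz ^ j) * gO ^ k := by rw [c2.eq]
      _ = (ga * gc * (gO ^ k)⁻¹) * (gz ^ (i + i) * gd) * gz ^ j * gO ^ k := by
          simp only [mul_assoc]
      _ = ((gO ^ k)⁻¹ * (ga * gc)) * (gd * gz ^ (i + i)) * gz ^ j * gO ^ k := by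
          rw [c4.eq, c3.eq]
      _ = (gO ^ k)⁻¹ * ((ga * gc * gd) * gz ^ (2 * i + j)) * gO ^ k := by
          rw [show 2 * i + j = (i + i) + j by ring, zpow_add gz (i + i) j]
          simp only [mul_assoc]
  have hj2 : j = -2 * i := by
    have c1 : Commute (ga * gc * gd) (gz ^ (2 * i + j)) :=
      (((cza.mul_right czc).mul_right czd).symm).zpow_right _
    have h1 : φ gz = (gO ^ k)⁻¹ * (gz * gz ^ (3 * (2 * i + j))) * gO ^ k := by
      have h2 : φ gz = φ (ga * gc * gd) ^ 3 := by rw [← map_pow]; rfl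
      have h3 : ∀ x y : GB, (x⁻¹ * y * x) ^ 3 = x⁻¹ * y ^ 3 * x := by
        intro x y
        have := conj_pow (i := 3) (a := x⁻¹) (b := y)
        rwa [inv_inv] at this
      rw [h2, hacd, h3, c1.mul_pow, ← zpow_natCast (gz ^ (2 * i + j)), ← zpow_mul]
      rw [show (2 * i + j) * ((3 : ℕ) : ℤ) = 3 * (2 * i + j) by push_cast; ring]
      rfl
    have c2 : Commute (gz * gz ^ (3 * (2 * i + j))) (gO ^ k) := by
      rw [← zpow_one_add]
      exact czO.zpow_zpow _ _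
    rw [h, mul_assoc, c2.eq, inv_mul_cancel_left] at h1
    have h2 : gz ^ (3 * (2 * i + j)) = 1 := by
      have h5 : gz * 1 = gz * gz ^ (3 * (2 * i + j)) := (mul_one gz).trans h1
      exact (mul_left_cancel h5).symm
    have h3 : io (1 : F3) * gz ^ (3 * (2 * i + j)) = io (1 : F3) * gz ^ (0 : ℤ) := by
      rw [h2, zpow_zero]
    have h4 := (io_gz_inj h3).2
    omega
  refine ⟨-k, ?_⟩
  rw [hd, hj2, zpow_neg, inv_inv]

end Pool.Agent.Helper38.BT
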