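import Pool.Agent.Helper38.BT.Nab3
import Pool.Agent.Helper7.AG.Sl6

/-!
# Project BT (MP_2ec7a7_al), piece BT-DET
-/

namespace Pool.Agent.Helper38.BT

open FreeGroup (of lift)
open Matrix
open Pool.Agent.Helper7.AG (SL mA mB tr mA_braid)

private lemma Nab4_surj (n : SL) : ∃ y ∈ Subgroup.closure {ga, gc}, pp 0 y = n := by
  have h1 : n ∈ Subgroup.closure ({mA, mB} : Set SL) := by
    rw [Pool.Agent.Helper7.AG.closure_AB]; trivial
  have h2 : (pp 0) '' ({ga, gc} : Set GB) = {mA, mB} := by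
    rw [Set.image_insert_eq, Set.image_singleton, pp_ga, pp_gc]
  rw [← h2, ← MonoidHom.map_closure] at h1
  obtain ⟨y, hy, hn⟩ := h1
  exact ⟨y, hy, hn⟩

private lemma Nab4_sign {X : SL} {s : ℤ} (hs : s = 1 ∨ s = -1)
    (h : (X : Matrix (Fin 2) (Fin 2) ℤ) = s • (1 : Matrix (Fin 2) (Fin 2) ℤ)) :
    X = 1 ∨ X = -1 := by
  rcases hs with rfl | rfl
  · left
    apply Subtype.ext
    rw [h, one_smul]
    rfl
  · right
    apply Subtype.ext
    rw [h, neg_one_smul, Matrix.SpecialLinearGroup.coe_neg, Matrix.SpecialLinearGroup.coe_one]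

/-- cancel `n` in `X n = s (n Y)` -/
private lemma Nab4_cancel {X n Y : SL} {s : ℤ}
    (h : (X : Matrix (Fin 2) (Fin 2) ℤ) * (n : Matrix (Fin 2) (Fin 2) ℤ) =
      s • ((n : Matrix (Fin 2) (Fin 2) ℤ) * (Y : Matrix (Fin 2) (Fin 2) ℤ))) :
    ((n⁻¹ * X * n : SL) : Matrix (Fin 2) (Fin 2) ℤ) = s • (Y : Matrix (Fin 2) (Fin 2) ℤ) := by
  have h1 : ((n⁻¹ : SL) : Matrix (Fin 2) (Fin 2) ℤ) * (n : Matrix (Fin 2) (Fin 2) ℤ) = 1 := by
    rw [← Matrix.SpecialLinearGroup.coe_mul, inv_mul_cancel, Matrix.SpecialLinearGroup.coe_one]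
  rw [Matrix.SpecialLinearGroup.coe_mul, Matrix.SpecialLinearGroup.coe_mul, Matrix.mul_assoc, h,
    Matrix.mul_smul, ← Matrix.mul_assoc, h1, Matrix.one_mul]

private def Nab4J : Matrix (Fin 2) (Fin 2) ℤ := !![1, 0; 0, -1]

private lemma Nab4_JJ : Nab4J * Nab4J = 1 := by
  ext i j; fin_cases i <;> fin_cases j <;> simp [Nab4J, Matrix.mul_apply, Fin.sum_univ_two]

private lemma Nab4_JA : Nab4J * (mA : Matrix (Fin 2) (Fin 2) ℤ) =
    ((mA⁻¹ : SL) : Matrix (Fin 2) (Fin 2) ℤ) * Nab4J := by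
  rw [Matrix.SpecialLinearGroup.coe_inv]
  ext i j; fin_cases i <;> fin_cases j <;>
    simp [Nab4J, mA, Matrix.mul_apply, Fin.sum_univ_two, Matrix.adjugate_fin_two]

private lemma Nab4_JB : Nab4J * (mB : Matrix (Fin 2) (Fin 2) ℤ) =
    ((mB⁻¹ : SL) : Matrix (Fin 2) (Fin 2) ℤ) * Nab4J := by
  rw [Matrix.SpecialLinearGroup.coe_inv]
  ext i j; fin_cases i <;> fin_cases j <;>
    simp [Nab4J, mB, Matrix.mul_apply, Fin.sum_univ_two, Matrix.adjugate_fin_two]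

/-- `BT-DET`.  Let `φ ζ = ζ`.  Suppose `det N = -1` in `class_zero`.  `N J` with
`J = diag(1,-1)` has determinant `1`; it is `pp 0 y` for some `y ∈ ⟨a,c⟩` (`closure_AB`).
`J mA J = mA⁻¹`, `J mB J = mB⁻¹`.  So `pp 0 (y⁻¹ φ(a) y a) = ±1`, `pp 0 (y⁻¹ φ(c) y c) = ±1`,
`pp 0 (φ d) = ± 1`.  By `e1_ker0`, `e1 (φ a)` and `e1 (φ c)` are `-1` modulo `6` and `e1 (φ d)` is
`0` modulo `6`; but `6 = e1 ζ = e1 (φ ζ) = 3 (e1 (φ a) + e1 (φ c) + e1 (φ d))`, so the sum is `2`,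
and it is `-2` modulo `6`: contradiction.  So `det N = 1`, and `N = pp 0 y`, `y ∈ ⟨a,c⟩`. -/
theorem norm_ac {φ : MulAut GB} (h : φ gz = gz) :
    ∃ y ∈ Subgroup.closure {ga, gc}, ∀ x : GB,
      pp 0 (y⁻¹ * φ x * y) = pp 0 x ∨ pp 0 (y⁻¹ * φ x * y) = -pp 0 x := by
  obtain ⟨N, hN, hx⟩ := class_zero φ
  rcases hN with hN | hN
  · obtain ⟨n, hnN⟩ : ∃ n : SL, (n : Matrix (Fin 2) (Fin 2) ℤ) = N := ⟨⟨N, hN⟩, rfl⟩
    obtain ⟨y, hy, hn⟩ := Nab4_surj n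
    refine ⟨y, hy, fun x => ?_⟩
    obtain ⟨s, hs, h1⟩ := hx x
    rw [← hnN] at h1
    have h2 := Nab4_cancel h1
    have h3 : pp 0 (y⁻¹ * φ x * y) = n⁻¹ * pp 0 (φ x) * n := by
      rw [map_mul, map_mul, map_inv, hn]
    rw [h3]
    rcases hs with rfl | rfl
    · left
      apply Subtype.ext
      rw [h2, one_smul]
    · right
      apply Subtype.ext
      rw [h2, neg_one_smul, Matrix.SpecialLinearGroup.coe_neg]
  · exfalso
    have hdet : (N * Nab4J).det = 1 := by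
      rw [Matrix.det_mul, hN]
      simp [Nab4J, Matrix.det_fin_two]
    obtain ⟨n, hnN⟩ : ∃ n : SL, (n : Matrix (Fin 2) (Fin 2) ℤ) = N * Nab4J :=
      ⟨⟨N * Nab4J, hdet⟩, rfl⟩
    obtain ⟨y, hy, hn⟩ := Nab4_surj n
    -- the two letters
    have step : ∀ (x : GB) (Y : SL), Nab4J * ((pp 0 x : SL) : Matrix (Fin 2) (Fin 2) ℤ) =
        ((Y⁻¹ : SL) : Matrix (Fin 2) (Fin 2) ℤ) * Nab4J → pp 0 x = Y →
        pp 0 (y⁻¹ * φ x * y * x) = 1 ∨ pp 0 (y⁻¹ * φ x * y * x) = -1 := by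
      intro x Y hY hxY
      obtain ⟨s, hs, h1⟩ := hx x
      have h2 : ((pp 0 (φ x) : SL) : Matrix (Fin 2) (Fin 2) ℤ) * (N * Nab4J) =
          s • ((N * Nab4J) * ((Y⁻¹ : SL) : Matrix (Fin 2) (Fin 2) ℤ)) := by
        have h3 : N = N * Nab4J * Nab4J := by rw [Matrix.mul_assoc, Nab4_JJ, Matrix.mul_one]
        have h4 : N * ((pp 0 x : SL) : Matrix (Fin 2) (Fin 2) ℤ) * Nab4J =
            (N * Nab4J) * ((Y⁻¹ : SL) : Matrix (Fin 2) (Fin 2) ℤ) := by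
          calc N * ((pp 0 x : SL) : Matrix (Fin 2) (Fin 2) ℤ) * Nab4J
              = (N * Nab4J * Nab4J) * ((pp 0 x : SL) : Matrix (Fin 2) (Fin 2) ℤ) * Nab4J := by
                rw [← h3]
            _ = (N * Nab4J) * (Nab4J * ((pp 0 x : SL) : Matrix (Fin 2) (Fin 2) ℤ)) * Nab4J := by
                rw [Matrix.mul_assoc (N * Nab4J)]
            _ = (N * Nab4J) * ((Y⁻¹ : SL) : Matrix (Fin 2) (Fin 2) ℤ) * (Nab4J * Nab4J) := by
                rw [hY]; simp only [Matrix.mul_assoc]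
            _ = (N * Nab4J) * ((Y⁻¹ : SL) : Matrix (Fin 2) (Fin 2) ℤ) := by
                rw [Nab4_JJ, Matrix.mul_one]
        rw [← Matrix.mul_assoc, h1, Matrix.smul_mul, h4]
      rw [← hnN] at h2
      have h5 := Nab4_cancel h2
      have h6 : pp 0 (y⁻¹ * φ x * y * x) = n⁻¹ * pp 0 (φ x) * n * Y := by
        rw [map_mul, map_mul, map_mul, map_inv, hn, hxY]
      rw [h6]
      apply Nab4_sign hs
      rw [Matrix.SpecialLinearGroup.coe_mul, h5, Matrix.smul_mul,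
        ← Matrix.SpecialLinearGroup.coe_mul, inv_mul_cancel, Matrix.SpecialLinearGroup.coe_one]
    have ha := step ga mA (by rw [pp_ga]; exact Nab4_JA) (pp_ga 0)
    have hc := step gc mB (by rw [pp_gc]; exact Nab4_JB) (pp_gc 0)
    have hd : pp 0 (φ gd) = 1 ∨ pp 0 (φ gd) = -1 := by
      obtain ⟨s, hs, h1⟩ := hx gd
      have e0 : ((pp 0 gd : SL) : Matrix (Fin 2) (Fin 2) ℤ) = 1 := by simp [ek]
      apply Nab4_sign hs
      rw [e0, Matrix.mul_one] at h1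
      have h6 := congrArg (fun Y : Matrix (Fin 2) (Fin 2) ℤ => Y * N.adjugate) h1
      simp only [Matrix.smul_mul, Matrix.mul_assoc, Matrix.mul_adjugate, Matrix.mul_smul,
        Matrix.mul_one] at h6
      rw [hN] at h6
      have h7 : -((pp 0 (φ gd) : SL) : Matrix (Fin 2) (Fin 2) ℤ) =
          -(s • (1 : Matrix (Fin 2) (Fin 2) ℤ)) := by
        rw [← smul_neg]
        simpa using h6
      exact neg_injective h7
    obtain ⟨k1, e1a⟩ := e1_ker0 ha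
    obtain ⟨k2, e1c⟩ := e1_ker0 hc
    obtain ⟨k3, e1d⟩ := e1_ker0 hd
    have key : ∀ (x z : GB), e1 (z⁻¹ * φ x * z * x) = e1 (φ x) * e1 x := by
      intro x z
      rw [map_mul, map_mul, map_mul, map_inv, mul_comm (e1 z)⁻¹, inv_mul_cancel_right]
    rw [key] at e1a e1c
    have e1z : e1 (φ gz) = e1 gz := by rw [h]
    have e3 : e1 (φ gz) = (e1 (φ ga) * e1 (φ gc) * e1 (φ gd)) ^ 3 := by
      simp only [gz, map_pow, map_mul]
    have e4 : e1 gz = Multiplicative.ofAdd 6 := by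
      simp only [gz, map_pow, map_mul, e1_ga, e1_gc, e1_gd]
      rfl
    rw [e3, e4] at e1z
    have f0 := congrArg Multiplicative.toAdd e1z
    have f1 := congrArg Multiplicative.toAdd e1a
    have f2 := congrArg Multiplicative.toAdd e1c
    have f3 := congrArg Multiplicative.toAdd e1d
    simp only [toAdd_pow, toAdd_mul, toAdd_ofAdd, e1_ga, e1_gc, nsmul_eq_mul] at f0 f1 f2 f3
    obtain ⟨u, hu⟩ : ∃ u : ℤ, u = Multiplicative.toAdd (e1 (φ ga)) := ⟨_, rfl⟩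
    obtain ⟨v, hv⟩ : ∃ v : ℤ, v = Multiplicative.toAdd (e1 (φ gc)) := ⟨_, rfl⟩
    obtain ⟨w, hw⟩ : ∃ w : ℤ, w = Multiplicative.toAdd (e1 (φ gd)) := ⟨_, rfl⟩
    rw [← hu] at f1
    rw [← hv] at f2
    rw [← hw] at f3
    rw [← hu, ← hv, ← hw] at f0
    have g0 : 3 * (u + v + w) = 6 := by simpa using f0
    have g1 : u + 1 = 6 * k1 := f1
    have g2 : v + 1 = 6 * k2 := f2
    have g3 : w = 6 * k3 := f3
    omega

end Pool.Agent.Helper38.BT
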