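import Pool.Agent.Helper38.BT.H3
import Pool.Agent.Helper38.BT.H4
import Pool.Agent.Helper38.BT.H5
import Pool.Agent.Helper38.BT.Nab4

/-!
# Project BT (MP_2ec7a7_al), piece BT-H6: the automorphisms which fix `ζ`
-/

namespace Pool.Agent.Helper38.BT

open FreeGroup (of lift)

private lemma H6_gO_mem : gO ∈ HH := by
  have ha : ga ∈ HH := Subgroup.subset_closure (by simp)
  have hc : gc ∈ HH := Subgroup.subset_closure (by simp)
  exact pow_mem (mul_mem ha hc) 3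

private lemma H6_gO_ga : gO * ga = ga * gO := by
  have h1 : gO = (ga * gc * ga) * (ga * gc * ga) := by
    calc gO = ga * gc * ga * (gc * ga * gc) := by simp only [gO, pow_succ, pow_zero]; group
      _ = ga * gc * ga * (ga * gc * ga) := by rw [← ga_gc]
  have h2 : (ga * gc * ga) * ga = gc * (ga * gc * ga) := by
    calc (ga * gc * ga) * ga = (gc * ga * gc) * ga := by rw [ga_gc]
      _ = gc * (ga * gc * ga) := by group
  have h3 : (ga * gc * ga) * gc = ga * (ga * gc * ga) := by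
    calc (ga * gc * ga) * gc = ga * (gc * ga * gc) := by group
      _ = ga * (ga * gc * ga) := by rw [← ga_gc]
  calc gO * ga = (ga * gc * ga) * ((ga * gc * ga) * ga) := by rw [h1]; group
    _ = ((ga * gc * ga) * gc) * (ga * gc * ga) := by rw [h2]; group
    _ = ga * gO := by rw [h3, h1]; group

private lemma H6_gO_gc : gO * gc = gc * gO := by
  have h1 : gO = (ga * gc * ga) * (ga * gc * ga) := by
    calc gO = ga * gc * ga * (gc * ga * gc) := by simp only [gO, pow_succ, pow_zero]; group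
      _ = ga * gc * ga * (ga * gc * ga) := by rw [← ga_gc]
  have h2 : (ga * gc * ga) * ga = gc * (ga * gc * ga) := by
    calc (ga * gc * ga) * ga = (gc * ga * gc) * ga := by rw [ga_gc]
      _ = gc * (ga * gc * ga) := by group
  have h3 : (ga * gc * ga) * gc = ga * (ga * gc * ga) := by
    calc (ga * gc * ga) * gc = ga * (gc * ga * gc) := by group
      _ = ga * (ga * gc * ga) := by rw [← ga_gc]
  calc gO * gc = (ga * gc * ga) * ((ga * gc * ga) * gc) := by rw [h1]; group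
    _ = ((ga * gc * ga) * ga) * (ga * gc * ga) := by rw [h3]; group
    _ = gc * gO := by rw [h2, h1]; group

/-- `BT-H6`.  Every `φ` with `φ ζ = ζ` is `T_i` on `H` up to conjugation by an element of `H`.
`norm_ac` gives `y ∈ ⟨a,c⟩`; replace `φ` by `y⁻¹ φ y`, then (`exists_psi`, `psi_ww`) by a conjugate
by `io y'` (which is in the kernel of `pp 0`, `pp0_io`, and in `H`), so that `ψ w = w^(±1)`; then
`fix_ac`, `fix_d`, and conjugate by `Ω^(-k)`. -/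
theorem fix_H {φ : MulAut GB} (h : φ gz = gz) :
    ∃ x ∈ HH, ∃ i : ℤ, x * φ ga * x⁻¹ = ga * gz ^ i ∧ x * φ gc * x⁻¹ = gc * gz ^ i ∧
      x * φ gd * x⁻¹ = gd * gz ^ (-2 * i) := by
  obtain ⟨y, hy, hpp⟩ := norm_ac h
  have hyH : y ∈ HH := by
    refine (Subgroup.closure_mono ?_) hy
    intro z hz
    simp only [Set.mem_insert_iff, Set.mem_singleton_iff] at hz ⊢
    tauto
  have hyz : y⁻¹ * gz * y⁻¹⁻¹ = gz := by
    have h1 := mem_HH.1 (inv_mem hyH)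
    rw [h1, mul_inv_cancel_right]
  obtain ⟨φ₁, hφ₁⟩ : ∃ φ₁ : MulAut GB, ∀ x, φ₁ x = y⁻¹ * φ x * y :=
    ⟨MulAut.conj y⁻¹ * φ, fun x => by simp [MulAut.mul_apply]⟩
  have h₁ : φ₁ gz = gz := by
    rw [hφ₁, h]
    simpa using hyz
  obtain ⟨ψ₁, hψ₁⟩ := exists_psi h₁
  obtain ⟨y', hy'⟩ := psi_ww h₁ hψ₁
  obtain ⟨φ₂, hφ₂⟩ : ∃ φ₂ : MulAut GB, ∀ x, φ₂ x = io y' * φ₁ x * (io y')⁻¹ :=
    ⟨MulAut.conj (io y') * φ₁, fun x => by simp [MulAut.mul_apply]⟩
  have h₂ : φ₂ gz = gz := by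
    rw [hφ₂, h₁, io_gz, mul_inv_cancel_right]
  obtain ⟨ψ₂, hψ₂⟩ : ∃ ψ₂ : F3 →* F3, ∀ z, ψ₂ z = y' * ψ₁ z * y'⁻¹ :=
    ⟨(MulAut.conj y').toMonoidHom.comp ψ₁, fun z => by simp⟩
  have hψ : ∀ z : F3, ∃ k : ℤ, φ₂ (io z) = io (ψ₂ z) * gz ^ k := by
    intro z
    obtain ⟨k, hk⟩ := hψ₁ z
    refine ⟨k, ?_⟩
    have hcomm : Commute (io y')⁻¹ (gz ^ k) := (Commute.zpow_right (io_gz y' : Commute _ _) k).inv_left
    rw [hφ₂, hk, hψ₂, map_mul, map_mul, map_inv]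
    calc io y' * (io (ψ₁ z) * gz ^ k) * (io y')⁻¹
        = io y' * io (ψ₁ z) * (gz ^ k * (io y')⁻¹) := by group
      _ = io y' * io (ψ₁ z) * ((io y')⁻¹ * gz ^ k) := by rw [hcomm.eq]
      _ = io y' * io (ψ₁ z) * (io y')⁻¹ * gz ^ k := by group
  have hp : ∀ x, pp 0 (φ₂ x) = pp 0 x ∨ pp 0 (φ₂ x) = -pp 0 x := by
    intro x
    have h1 : pp 0 (φ₂ x) = pp 0 (y⁻¹ * φ x * y) := by
      rw [hφ₂, hφ₁, map_mul, map_mul, map_inv, pp0_io, inv_one, one_mul, mul_one]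
    rw [h1]
    exact hpp x
  obtain ⟨i, e1, e2, e3⟩ := fix_ac h₂ hψ (hp ga) (hp gc) (by rw [hψ₂]; exact hy')
  obtain ⟨k, e4⟩ := fix_d h₂ hψ e1 e2 e3
  have hO : ∀ g : GB, gO * g = g * gO → (gO ^ k)⁻¹ * g * gO ^ k = g := by
    intro g hg
    have h1 : Commute (gO ^ k) g := Commute.zpow_left (hg : Commute _ _) k
    rw [mul_assoc, ← h1.eq, inv_mul_cancel_left]
  have hOz : gO * gz = gz * gO := mem_HH.1 H6_gO_mem
  have hOi : ∀ g : GB, gO * g = g * gO → gO * (g * gz ^ i) = g * gz ^ i * gO := by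
    intro g hg
    have h1 : Commute gO (g * gz ^ i) :=
      Commute.mul_right (hg : Commute _ _) (Commute.zpow_right (hOz : Commute _ _) i)
    exact h1.eq
  have hx : ∀ g : GB, ((gO ^ k)⁻¹ * io y' * y⁻¹) * φ g * ((gO ^ k)⁻¹ * io y' * y⁻¹)⁻¹ =
      (gO ^ k)⁻¹ * φ₂ g * gO ^ k := by
    intro g
    rw [hφ₂, hφ₁]
    group
  refine ⟨(gO ^ k)⁻¹ * io y' * y⁻¹, ?_, i, ?_, ?_, ?_⟩
  · exact mul_mem (mul_mem (inv_mem (zpow_mem H6_gO_mem k)) (mem_HH.2 (io_gz y'))) (inv_mem hyH)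
  · rw [hx, e1]
    exact hO _ (hOi _ H6_gO_ga)
  · rw [hx, e2]
    exact hO _ (hOi _ H6_gO_gc)
  · rw [hx, e4]
    group

end Pool.Agent.Helper38.BT
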