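import Pool.Agent.Helper38.BT.Aut

/-!
# Project BT (MP_2ec7a7_al), piece the subgroup `H`
-/

namespace Pool.Agent.Helper38.BT

/-- the subgroup `H = ⟨a,c,d⟩` -/
def HH : Subgroup GB := Subgroup.closure {ga, gc, gd}

end Pool.Agent.Helper38.BT
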