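import Pool.Agent.Helper38.BT.Aut
import Pool.Agent.Helper7.AG.Sl

/-!
# Project BT (MP_2ec7a7_al), piece the two homomorphisms `GB → SL(2, ℤ)`, and the two characters of `GB`
-/

namespace Pool.Agent.Helper38.BT

open Matrix
open Pool.Agent.Helper7.AG (SL mA mB tr mA_braid)

/-- the exponents `0, 2` -/
def ek : Fin 2 → ℕ := ![0, 2]

lemma pp_aux (i : Fin 2) : mB * mA ^ ek i * mB * mA ^ ek i = mA ^ ek i * mB * mA ^ ek i * mB := by
  fin_cases i
  · simp [ek]
  · ext a b; fin_cases a <;> fin_cases b <;>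
      simp [ek, mA, mB, pow_succ, Matrix.mul_apply, Fin.sum_univ_two]

/-- the homomorphisms `a, b ↦ mA, c ↦ mB, d ↦ mA ^ k`, `k = 0, 2` -/
def pp (i : Fin 2) : GB →* SL :=
  lift4 mA mA mB (mA ^ ek i) rfl (by rw [← pow_succ', ← pow_succ])
    (by rw [← pow_succ', ← pow_succ]) mA_braid mA_braid (pp_aux i)

@[simp] lemma pp_ga (i : Fin 2) : pp i ga = mA := by simp [pp]

@[simp] lemma pp_gb (i : Fin 2) : pp i gb = mA := by simp [pp]

@[simp] lemma pp_gc (i : Fin 2) : pp i gc = mB := by simp [pp]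

@[simp] lemma pp_gd (i : Fin 2) : pp i gd = mA ^ ek i := by simp [pp]

/-- the exponent sum in `a, b, c` -/
def e1 : GB →* Multiplicative ℤ :=
  lift4 (Multiplicative.ofAdd 1) (Multiplicative.ofAdd 1) (Multiplicative.ofAdd 1) 1
    rfl (by simp) (by simp) rfl rfl (by simp)

/-- the exponent sum in `d` -/
def e2 : GB →* Multiplicative ℤ :=
  lift4 1 1 1 (Multiplicative.ofAdd 1) rfl (by simp) (by simp) rfl rfl (by simp)

@[simp] lemma e1_ga : e1 ga = Multiplicative.ofAdd 1 := by simp [e1]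

@[simp] lemma e1_gb : e1 gb = Multiplicative.ofAdd 1 := by simp [e1]

@[simp] lemma e1_gc : e1 gc = Multiplicative.ofAdd 1 := by simp [e1]

@[simp] lemma e1_gd : e1 gd = 1 := by simp [e1]

@[simp] lemma e2_ga : e2 ga = 1 := by simp [e2]

@[simp] lemma e2_gb : e2 gb = 1 := by simp [e2]

@[simp] lemma e2_gc : e2 gc = 1 := by simp [e2]

@[simp] lemma e2_gd : e2 gd = Multiplicative.ofAdd 1 := by simp [e2]

end Pool.Agent.Helper38.BT
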