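import Pool.Agent.Helper38.BT.InvF
import Pool.Agent.Helper38.BT.Char2
import Pool.Agent.Helper38.BT.Pp

/-!
# Project BT (MP_2ec7a7_al), piece BT-IMG
-/

namespace Pool.Agent.Helper38.BT

open FreeGroup (of lift)
open Pool.Agent.Helper7.AG (FreeProd Red val pv PNt nt sv)

/-- `Phi x R` is conjugate to `R` -/
private theorem img_R (x : GB) : ∃ z : F, Phi x R = z * R * z⁻¹ := by
  have hx : x ∈ Subgroup.closure ({ga, gb, gc, gd} : Set GB) := by
    rw [closure_gen]
    exact Subgroup.mem_top x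
  induction hx using Subgroup.closure_induction with
  | mem x hx =>
    rcases hx with rfl | rfl | rfl | rfl
    · exact ⟨1, by simp⟩
    · exact ⟨U, by rw [Phi_gb, be_R]⟩
    · exact ⟨1, by simp⟩
    · exact ⟨1, by simp⟩
  | one => exact ⟨1, by simp⟩
  | mul x y _ _ hx hy =>
    obtain ⟨z, hz⟩ := hx
    obtain ⟨t, ht⟩ := hy
    refine ⟨Phi x t * z, ?_⟩
    rw [map_mul, MulAut.mul_apply, ht, map_mul, map_mul, map_inv, hz]
    group
  | inv x _ hx =>
    obtain ⟨z, hz⟩ := hx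
    have h1 : (Phi x)⁻¹ (Phi x R) = R := MulAut.inv_apply_self _ _ _
    rw [map_inv]
    generalize (Phi x)⁻¹ = ψ at h1 ⊢
    refine ⟨(ψ z)⁻¹, ?_⟩
    rw [hz, map_mul ψ, map_mul ψ, map_inv ψ] at h1
    have h2 : ψ R = (ψ z)⁻¹ * (ψ z * ψ R * (ψ z)⁻¹) * ψ z := by
      group
    rw [h1] at h2
    rw [inv_inv]
    exact h2

/-- the class of `θ R` is invariant -/
private theorem img_inv {φ : MulAut GB} {θ : MulAut F} (h : ∀ w : F, φ (j w) = j (θ w)) (x : GB) :
    ∃ y : F, y * θ R * y⁻¹ = Phi x (θ R) := by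
  obtain ⟨z, hz⟩ := img_R (φ⁻¹ x)
  refine ⟨θ z, ?_⟩
  have h1 := theta_Phi h (φ⁻¹ x) R
  rw [MulAut.apply_inv_self, hz, map_mul, map_mul, map_inv] at h1
  exact h1

/-- `R` is not a proper power -/
private theorem img_pow {θ : MulAut F} {y g : F} {k : ℤ} (h : y * θ R * y⁻¹ = g ^ k) :
    k = 1 ∨ k = -1 := by
  have h1 : θ R = y⁻¹ * g ^ k * y := by
    rw [← h]
    group
  have h2 : R = (θ⁻¹ y)⁻¹ * (θ⁻¹ g) ^ k * θ⁻¹ y := by
    have h3 : θ⁻¹ (θ R) = R := MulAut.inv_apply_self _ _ _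
    rw [h1, map_mul, map_mul, map_inv, map_zpow] at h3
    exact h3.symm
  have h3 : exF (.inl .r) R = (exF (.inl .r) (θ⁻¹ g)) ^ k := by
    conv_lhs => rw [h2]
    rw [map_mul, map_mul, map_inv, map_zpow, mul_comm, mul_inv_cancel_left]
  have h4 : exF (.inl .r) R = Multiplicative.ofAdd 1 := by simp [exF]
  rw [h4] at h3
  have h5 := congrArg Multiplicative.toAdd h3
  rw [toAdd_ofAdd, toAdd_zpow, smul_eq_mul] at h5
  exact Int.eq_one_or_neg_one_of_mul_eq_one h5.symm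

/-- the value of a character with values `p, p, p, q` on `j Oo` -/
private theorem img_char (f : GB →* Multiplicative ℤ) :
    ∃ n : ℤ, Multiplicative.toAdd (f (j Oo)) = 6 * n := by
  have hac : f ga = f gc := by
    have h1 := congrArg f ga_gc
    rw [map_mul, map_mul, map_mul, map_mul, mul_comm (f ga) (f gc), mul_assoc (f gc) (f ga) (f ga),
      mul_assoc (f gc) (f ga) (f gc)] at h1
    exact mul_left_cancel (mul_left_cancel h1)
  have hbc : f gb = f gc := by
    have h1 := congrArg f gb_gc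
    rw [map_mul, map_mul, map_mul, map_mul, mul_comm (f gb) (f gc), mul_assoc (f gc) (f gb) (f gb),
      mul_assoc (f gc) (f gb) (f gc)] at h1
    exact mul_left_cancel (mul_left_cancel h1)
  refine ⟨2 * Multiplicative.toAdd (f gc) + Multiplicative.toAdd (f gd), ?_⟩
  have h1 : j Oo = gm * gu * gz := by simp [Oo]
  rw [h1]
  simp only [gm, gv, gu, gz, gz', map_mul, map_pow, map_inv, hac, hbc, toAdd_mul, toAdd_pow,
    toAdd_inv, nsmul_eq_mul]
  push_cast
  ring

/-- `BT-IMG`.  Let `θ` be the automorphism of `F` induced by `φ` (`exists_theta`).  The class of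
`θ R` is invariant under `Phi x` for all `x` (`theta_Phi`: `Phi (φ x) (θ R) = θ (Phi x R)`, and
`Phi x R` is conjugate to `R`: check `al, cc, de, be`, closure), so by `inv_class` `θ R` is
conjugate to `R^k`, `R'^k` or `Oo^k`.  `R` is not a proper power (`exF (.inl .r) R = 1`: `R =
θ⁻¹(y⁻¹ g^k y)` is a `k`-th power), so `k = ±1`.  If `θ R` is conjugate to `Oo^(±1)`: let
`f = e2 ∘ φ⁻¹ : GB → ℤ`, `f a = f b = f c = p` (conjugate elements), `f d = q`.  Then
`3 = e2 ζ = f (φ ζ) = ± f (j Oo) = ± (12 p + 6 q)` (`j Oo = m u ζ`, `e1`-exponent `12`,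
`e2`-exponent `6`): contradiction. -/
theorem image_gz (φ : MulAut GB) :
    ∃ x : GB, x * φ gz * x⁻¹ = gz ∨ x * φ gz * x⁻¹ = gz⁻¹ ∨ x * φ gz * x⁻¹ = gz' ∨
      x * φ gz * x⁻¹ = gz'⁻¹ := by
  obtain ⟨θ, h⟩ := exists_theta φ
  have h1 := img_inv h ga
  have h2 := img_inv h gc
  have h3 := img_inv h gd
  rw [Phi_ga] at h1
  rw [Phi_gc] at h2
  rw [Phi_gd] at h3
  obtain ⟨y, k, h4⟩ := inv_class h1 h2 h3
  have hgz : φ gz = j (θ R) := by rw [← h R, j_R]
  have key : ∀ g : F, y * θ R * y⁻¹ = g ^ k → (k = 1 ∨ k = -1) ∧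
      j y * φ gz * (j y)⁻¹ = (j g) ^ k := by
    intro g hg
    refine ⟨img_pow hg, ?_⟩
    rw [hgz, ← map_inv, ← map_mul, ← map_mul, hg, map_zpow]
  rcases h4 with h4 | h4 | h4
  · obtain ⟨h5, h6⟩ := key R h4
    rw [j_R] at h6
    rcases h5 with rfl | rfl
    · exact ⟨j y, Or.inl (by rw [h6, zpow_one])⟩
    · exact ⟨j y, Or.inr (Or.inl (by rw [h6, zpow_neg_one]))⟩
  · obtain ⟨h5, h6⟩ := key R' h4
    rw [j_R'] at h6
    rcases h5 with rfl | rfl
    · exact ⟨j y, Or.inr (Or.inr (Or.inl (by rw [h6, zpow_one])))⟩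
    · exact ⟨j y, Or.inr (Or.inr (Or.inr (by rw [h6, zpow_neg_one])))⟩
  · exfalso
    obtain ⟨h5, h6⟩ := key Oo h4
    let f : GB →* Multiplicative ℤ := e2.comp (φ⁻¹ : MulAut GB).toMonoidHom
    obtain ⟨n, hn⟩ := img_char f
    have h7 : f (φ gz) = (f (j Oo)) ^ k := by
      have h8 := congrArg f h6
      rw [map_mul, map_mul, map_inv, map_zpow, mul_comm, inv_mul_cancel_left] at h8
      exact h8
    have h8 : f (φ gz) = Multiplicative.ofAdd 3 := by
      have h9 : f (φ gz) = e2 gz := by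
        change e2 (φ⁻¹ (φ gz)) = _
        rw [MulAut.inv_apply_self]
      rw [h9]
      simp only [gz, map_pow, map_mul, e2_ga, e2_gc, e2_gd, one_mul]
      rfl
    rw [h8] at h7
    have h9 := congrArg Multiplicative.toAdd h7
    rw [toAdd_ofAdd, toAdd_zpow, smul_eq_mul, hn] at h9
    rcases h5 with rfl | rfl <;> omega

end Pool.Agent.Helper38.BT
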