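import Pool.Agent.Helper38.BT.InvDef
import Pool.Agent.Helper7.AG.Fcyc
import Pool.Agent.Helper7.AG.Frot

/-!
# Project BT (MP_2ec7a7_al), piece BT-INC
-/

namespace Pool.Agent.Helper38.BT

open FreeGroup (of lift)
open Pool.Agent.Helper7.AG (FreeProd Red val pv PNt nt sv)

private lemma InvC_unit (a : FreeGroup Unit) : ∃ k : ℤ, a = of () ^ k := by
  induction a using FreeGroup.induction_on with
  | C1 => exact ⟨0, by simp⟩
  | of x => exact ⟨1, by simp⟩
  | inv_of x _ => exact ⟨-1, by simp⟩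
  | mul x y hx hy =>
    obtain ⟨k, rfl⟩ := hx
    obtain ⟨l, rfl⟩ := hy
    exact ⟨k + l, by rw [zpow_add]⟩

private lemma InvC_pow {α : Type} (x : α) (k : ℤ) (h : (of x) ^ k = 1) : k = 0 := by
  have h1 : (lift fun _ : α => Multiplicative.ofAdd (1 : ℤ)) (of x ^ k) = 1 := by
    rw [h, map_one (lift fun _ : α => Multiplicative.ofAdd (1 : ℤ))]
  rw [map_zpow, FreeGroup.lift_apply_of, ← ofAdd_zsmul, ofAdd_eq_one] at h1
  simpa using h1

private lemma InvC_pv (θ : FreeGroup (Unit ⊕ Unit) →* F) (f1 : FreeGroup Unit →* FreeGroup G0)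
    (f2 : FreeGroup Unit →* FreeGroup G1)
    (h1 : ∀ a, θ (FreeGroup.map Sum.inl a) = iA (f1 a))
    (h2 : ∀ b, θ (FreeGroup.map Sum.inr b) = iB (f2 b))
    (L : List (FreeGroup Unit × FreeGroup Unit)) :
    θ (pv (FreeGroup.map Sum.inl) (FreeGroup.map Sum.inr) L) =
      pv iA iB (L.map fun p => (f1 p.1, f2 p.2)) := by
  unfold pv
  rw [map_list_prod, List.map_map, List.map_map]
  congr 1
  apply List.map_congr_left
  intro p _
  simp only [Function.comp_apply, map_mul, h1, h2]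

/-- the exponent of `v` -/
private def InvC_ev : FreeGroup G1 →* Multiplicative ℤ :=
  lift (fun l => if l = G1.v then Multiplicative.ofAdd 1 else 1)

private lemma InvC_ev_pow (k : ℤ) :
    InvC_ev ((of G1.u * (of G1.v)⁻¹ * of G1.u) ^ k) = Multiplicative.ofAdd (-k) := by
  simp [InvC_ev, ← ofAdd_neg, ← ofAdd_zsmul]

/-- `BT-INC`.  A class in `⟨U, R⟩` which is invariant under `cc` consists of powers of `R`.
`w` is the image of a word of the free product `⟨r⟩ * ⟨u⟩`; by `exists_cyc` it is conjugate to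
`R^k` (done), to `U^k` (then `cc (U^k) = (U V⁻¹ U)^k` is conjugate to `U^k`, so `k = 0`: exponent of
`V`), or to `pv iA iB L` where `L` has the entries `r^l`, `u^k`, `k, l ≠ 0`.  In the last case `cc`
maps it to `pv iA iB L'` with the entries `r^l`, `(u v⁻¹ u)^k`, and by `FreeProd.rotate` (`fpF`)
`L'` is a rotation of `L`, so `(u v⁻¹ u)^k = u^k'`, impossible (exponent of `v`). -/
theorem inv_C {w : F} (hw : w ∈ Subgroup.closure ({U, R} : Set F))
    (h : ∃ y, y * w * y⁻¹ = cc w) : ∃ (y : F) (k : ℤ), y * w * y⁻¹ = R ^ k := by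
  obtain ⟨y, hy⟩ := h
  let q : FreeGroup (Unit ⊕ Unit) →* F := lift (Sum.elim (fun _ => R) (fun _ => U))
  let q1 : FreeGroup Unit →* FreeGroup G0 := lift (fun _ => of G0.r)
  let q2 : FreeGroup Unit →* FreeGroup G1 := lift (fun _ => of G1.u)
  let q3 : FreeGroup Unit →* FreeGroup G1 := lift (fun _ => of G1.u * (of G1.v)⁻¹ * of G1.u)
  have hq : Subgroup.closure ({U, R} : Set F) ≤ q.range := by
    rw [Subgroup.closure_le]
    rintro x (rfl | rfl)
    · exact ⟨of (Sum.inr ()), by simp [q]⟩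
    · exact ⟨of (Sum.inl ()), by simp [q]⟩
  obtain ⟨w0, rfl⟩ := hq hw
  have e1 : ∀ a, q (FreeGroup.map Sum.inl a) = iA (q1 a) := by
    intro a
    have : q.comp (FreeGroup.map Sum.inl) = iA.comp q1 := by
      ext x
      simp [q, q1, iA]
    exact DFunLike.congr_fun this a
  have e2 : ∀ b, q (FreeGroup.map Sum.inr b) = iB (q2 b) := by
    intro b
    have : q.comp (FreeGroup.map Sum.inr) = iB.comp q2 := by
      ext x
      simp [q, q2, iB]
    exact DFunLike.congr_fun this b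
  have e3 : ∀ a, (cc.toMonoidHom.comp q) (FreeGroup.map Sum.inl a) = iA (q1 a) := by
    intro a
    have : (cc.toMonoidHom.comp q).comp (FreeGroup.map Sum.inl) = iA.comp q1 := by
      ext x
      simp [q, q1, iA]
    exact DFunLike.congr_fun this a
  have e4 : ∀ b, (cc.toMonoidHom.comp q) (FreeGroup.map Sum.inr b) = iB (q3 b) := by
    intro b
    have : (cc.toMonoidHom.comp q).comp (FreeGroup.map Sum.inr) = iB.comp q3 := by
      ext x
      simp [q, q3, iB]
    exact DFunLike.congr_fun this b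
  obtain ⟨y0, h0⟩ := (Pool.Agent.Helper7.AG.freeProd_sum Unit Unit).exists_cyc w0
  rcases h0 with ⟨a, ha⟩ | ⟨b, hb⟩ | ⟨L, hL, hLe⟩
  · obtain ⟨k, rfl⟩ := InvC_unit a
    refine ⟨q y0, k, ?_⟩
    have h1 := congrArg q ha
    rw [map_mul, map_mul, map_inv] at h1
    rw [h1]
    simp [q]
  · obtain ⟨k, rfl⟩ := InvC_unit b
    have h1 := congrArg q hb
    rw [map_mul, map_mul, map_inv] at h1
    have h2 : q (FreeGroup.map Sum.inr (of () ^ k)) = U ^ k := by simp [q]
    have h1' : q y0 * q w0 * (q y0)⁻¹ = U ^ k := h1.trans h2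
    have h3 := congrArg (exF (.inr .v)) hy
    have h4 : q w0 = (q y0)⁻¹ * U ^ k * q y0 := by
      rw [← h1']
      group
    rw [h4] at h3
    simp only [map_mul, map_inv, map_zpow, cc_U] at h3
    have hU : exF (.inr .v) U = 1 := by simp [exF]
    have hV : exF (.inr .v) V = Multiplicative.ofAdd 1 := by simp [exF]
    rw [hU, hV] at h3
    have h5 : k = 0 := by
      have h6 : (Multiplicative.ofAdd (1 : ℤ)) ^ k = 1 := by
        simpa [mul_comm, mul_assoc, mul_left_comm] using h3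
      rw [← ofAdd_zsmul, ofAdd_eq_one] at h6
      simpa using h6
    subst h5
    refine ⟨q y0, 0, ?_⟩
    rw [h1', zpow_zero, zpow_zero]
  · exfalso
    have h1 := congrArg q hLe
    rw [map_mul, map_mul, map_inv] at h1
    have h2 := InvC_pv q q1 q2 e1 e2 L
    have h3 := InvC_pv (cc.toMonoidHom.comp q) q1 q3 e3 e4 L
    have h1' : q y0 * q w0 * (q y0)⁻¹ = pv iA iB (L.map fun p => (q1 p.1, q2 p.2)) :=
      h1.trans h2
    have h3' : cc (q (pv (FreeGroup.map Sum.inl) (FreeGroup.map Sum.inr) L)) =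
        pv iA iB (L.map fun p => (q1 p.1, q3 p.2)) := h3
    have hk : ∀ b : FreeGroup Unit, b ≠ 1 → ∃ k : ℤ, k ≠ 0 ∧ b = of () ^ k := by
      intro b hb
      obtain ⟨k, rfl⟩ := InvC_unit b
      refine ⟨k, ?_, rfl⟩
      rintro rfl
      exact hb (zpow_zero _)
    have n1 : ∀ a : FreeGroup Unit, a ≠ 1 → q1 a ≠ 1 := by
      intro a ha h
      obtain ⟨k, hk0, rfl⟩ := hk a ha
      apply hk0
      apply InvC_pow G0.r k
      simpa [q1] using h
    have n2 : ∀ a : FreeGroup Unit, a ≠ 1 → q2 a ≠ 1 := by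
      intro a ha h
      obtain ⟨k, hk0, rfl⟩ := hk a ha
      apply hk0
      apply InvC_pow G1.u k
      simpa [q2] using h
    have n3 : ∀ k : ℤ, InvC_ev (q3 (of () ^ k)) = Multiplicative.ofAdd (-k) := by
      intro k
      have : q3 (of () ^ k) = (of G1.u * (of G1.v)⁻¹ * of G1.u) ^ k := by
        rw [map_zpow]
        simp [q3]
      rw [this, InvC_ev_pow]
    have n4 : ∀ k : ℤ, InvC_ev (q2 (of () ^ k)) = 1 := by
      intro k
      simp [q2, InvC_ev]
    have n3' : ∀ a : FreeGroup Unit, a ≠ 1 → q3 a ≠ 1 := by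
      intro a ha h
      obtain ⟨k, hk0, rfl⟩ := hk a ha
      have h5 := n3 k
      rw [h, map_one] at h5
      apply hk0
      have h6 := (ofAdd_eq_one.mp h5.symm)
      omega
    have hP : PNt (L.map fun p => (q1 p.1, q2 p.2)) := by
      refine ⟨by simpa using hL.1, ?_⟩
      intro p hp
      rw [List.mem_map] at hp
      obtain ⟨p', hp', rfl⟩ := hp
      exact ⟨n1 _ (hL.2 p' hp').1, n2 _ (hL.2 p' hp').2⟩
    have hP' : PNt (L.map fun p => (q1 p.1, q3 p.2)) := by
      refine ⟨by simpa using hL.1, ?_⟩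
      intro p hp
      rw [List.mem_map] at hp
      obtain ⟨p', hp', rfl⟩ := hp
      exact ⟨n1 _ (hL.2 p' hp').1, n3' _ (hL.2 p' hp').2⟩
    have h4 : q w0 = (q y0)⁻¹ * pv iA iB (L.map fun p => (q1 p.1, q2 p.2)) * q y0 := by
      rw [← h1']
      group
    have h5 : cc (q w0) = (cc (q y0))⁻¹ * pv iA iB (L.map fun p => (q1 p.1, q3 p.2)) *
        cc (q y0) := by
      rw [h4, map_mul, map_mul, map_inv, ← h2, h3']
    rw [h5] at hy
    have h6 : (cc (q y0) * y * (q y0)⁻¹) * pv iA iB (L.map fun p => (q1 p.1, q2 p.2)) *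
        (cc (q y0) * y * (q y0)⁻¹)⁻¹ = pv iA iB (L.map fun p => (q1 p.1, q3 p.2)) := by
      have h7 : pv iA iB (L.map fun p => (q1 p.1, q3 p.2)) =
          cc (q y0) * (y * q w0 * y⁻¹) * (cc (q y0))⁻¹ := by
        rw [hy]
        group
      rw [h7, ← h1']
      group
    obtain ⟨n, hn⟩ := fpF.rotate hP hP' h6
    obtain ⟨p, hp⟩ := List.exists_mem_of_ne_nil L hL.1
    have h8 : (q1 p.1, q3 p.2) ∈ (L.map fun p => (q1 p.1, q2 p.2)).rotate n := by
      rw [← hn]
      exact List.mem_map.mpr ⟨p, hp, rfl⟩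
    rw [List.mem_rotate, List.mem_map] at h8
    obtain ⟨p', hp', h9⟩ := h8
    have h10 : q2 p'.2 = q3 p.2 := congrArg Prod.snd h9
    obtain ⟨k, hk0, hkb⟩ := hk p.2 (hL.2 p hp).2
    obtain ⟨k', _, hkb'⟩ := hk p'.2 (hL.2 p' hp').2
    rw [hkb, hkb'] at h10
    have h11 := congrArg InvC_ev h10
    rw [n3, n4] at h11
    have h12 := (ofAdd_eq_one.mp h11.symm)
    omega

end Pool.Agent.Helper38.BT
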