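import Pool.Agent.Helper38.BT.InvC
import Pool.Agent.Helper38.BT.G4A
import Pool.Agent.Helper38.BT.G4B
import Pool.Agent.Helper38.BT.G4K

/-!
# Project BT (MP_2ec7a7_al), piece BT-INV: the classes of `F` which are invariant under `GB`
-/

namespace Pool.Agent.Helper38.BT

open FreeGroup (of lift)
open Pool.Agent.Helper7.AG (FreeProd Red val pv PNt nt sv)

private lemma invF_transfer {G : Type*} [Group G] (f : G →* G) {w z v : G}
    (hz : v * w * v⁻¹ = z) (h : ∃ y, y * w * y⁻¹ = f w) : ∃ y, y * z * y⁻¹ = f z := by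
  obtain ⟨y, hy⟩ := h
  refine ⟨f v * y * v⁻¹, ?_⟩
  rw [← hz, map_mul, map_mul, map_inv, ← hy]
  group

private lemma invF_twice {w : F} (f : MulAut F) (h : ∃ y, y * w * y⁻¹ = f w) :
    ∃ y, y * w * y⁻¹ = f (f w) := by
  obtain ⟨y, hy⟩ := h
  refine ⟨f y * y, ?_⟩
  rw [← hy, map_mul, map_mul, map_inv, ← hy]
  group

private lemma invF_ka {w : F} (f : F → F) (g : G4 →* G4) (hfg : ∀ w, ka (f w) = g (ka w))
    (h : ∃ y, y * w * y⁻¹ = f w) : ∃ y, y * ka w * y⁻¹ = g (ka w) := by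
  obtain ⟨y, hy⟩ := h
  refine ⟨ka y, ?_⟩
  rw [← hfg, ← hy, map_mul, map_mul, map_inv]

private lemma invF_tau_pow (w : F) (k : ℤ) : tauF (w ^ k) = (tauF w) ^ k := map_zpow tauF w k

private lemma invF_tau_Oo : tauF Oo = (V⁻¹ * U * R) * Oo * (V⁻¹ * U * R)⁻¹ := by
  simp only [Oo, map_mul, tauF_M, tauF_R, tauF_U]
  group

private lemma invF_ka_Oo : ka Oo = yy * yy := by
  simp [Oo, mul_assoc]

private lemma invF_closure {g : G4} (hg : g ∈ Subgroup.closure ({x1 * x2, x3 * yy} : Set G4)) :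
    ∃ w' ∈ Subgroup.closure ({U, R} : Set F), ka w' = g := by
  have hle : Subgroup.closure ({x1 * x2, x3 * yy} : Set G4) ≤
      (Subgroup.closure ({U, R} : Set F)).map ka := by
    rw [Subgroup.closure_le]
    have hU : U ∈ Subgroup.closure ({U, R} : Set F) := Subgroup.subset_closure (by simp)
    have hR : R ∈ Subgroup.closure ({U, R} : Set F) := Subgroup.subset_closure (by simp)
    rintro x (rfl | rfl)
    · exact ⟨U⁻¹, inv_mem hU, by simp⟩
    · exact ⟨U * R, mul_mem hU hR, by simp [mul_assoc]⟩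
  obtain ⟨w', h1, h2⟩ := hle hg
  exact ⟨w', h1, h2⟩

/-- from an equality in `G4` to one in `F` -/
private lemma invF_down {w w' : F} {y : G4} (h : y * ka w * y⁻¹ = ka w') :
    (∃ v, v * w * v⁻¹ = w') ∨ ∃ v, v * tauF w * v⁻¹ = w' := by
  obtain ⟨v, rfl | rfl⟩ := ka_index y
  · left
    refine ⟨v, ka_inj ?_⟩
    rw [map_mul, map_mul, map_inv, h]
  · right
    refine ⟨v, ka_inj ?_⟩
    rw [map_mul, map_mul, map_inv, ka_tauF, ← h]
    simp [mul_assoc]

/-- `BT-INV`.  The hypotheses give that the class of `ka w` is invariant under `ca2`, `dd`, `cc2`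
(`ka_al2`, `ka_de`, `ka_cc2`; apply `h1`, `h2` twice).  By `inv_A`, `inv_B` (conjugates of `ka w`
satisfy the same hypotheses; `par_ka`) `ka w` is conjugate in `G4` to an element of
`⟨x1 x2, x3 y⟩ = ka ⟨U, R⟩` (`x1 x2 = ka U⁻¹`, `x3 y = ka (U R)`) or to `(y y)^k = ka (Oo^k)`.
By `ka_index`, `ka_tauF`, `ka_inj` `w` is conjugate in `F` to `w'` or to `tauF w'` with
`w' ∈ ⟨U, R⟩` or `w' = Oo^k`.  `tauF Oo` is conjugate to `Oo` (`tauF Oo = V⁻¹ U R V U⁻¹ U V⁻¹ M V`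
and `Oo = M U R`).  In the first case the class of `w'` is invariant under `cc` (`tauF_cc`), so by
`inv_C` it is the class of `R^k`, and `tauF R = R'`. -/
theorem inv_class {w : F} (h1 : ∃ y, y * w * y⁻¹ = al w) (h2 : ∃ y, y * w * y⁻¹ = cc w)
    (h3 : ∃ y, y * w * y⁻¹ = de w) :
    ∃ (y : F) (k : ℤ), y * w * y⁻¹ = R ^ k ∨ y * w * y⁻¹ = R' ^ k ∨ y * w * y⁻¹ = Oo ^ k := by
  have a1 : ∃ y, y * ka w * y⁻¹ = ca2 (ka w) :=
    invF_ka (fun w => al (al w)) ca2 ka_al2 (invF_twice al h1)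
  have a2 : ∃ y, y * ka w * y⁻¹ = cc2 (ka w) :=
    invF_ka (fun w => cc (cc w)) cc2 ka_cc2 (invF_twice cc h2)
  have a3 : ∃ y, y * ka w * y⁻¹ = dd (ka w) :=
    invF_ka (fun w => de w) dd ka_de h3
  obtain ⟨y, hy | ⟨b, hy⟩⟩ := inv_A (par_ka w) a1 a3
  · obtain ⟨w', hw', e⟩ := invF_closure hy
    rcases invF_down e.symm with ⟨v, hv⟩ | ⟨v, hv⟩
    · obtain ⟨y', k, hk⟩ := inv_C hw' (invF_transfer cc.toMonoidHom hv h2)
      refine ⟨y' * v, k, Or.inl ?_⟩
      rw [← hk, ← hv]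
      group
    · have h2' : ∃ y, y * tauF w * y⁻¹ = cc.toMonoidHom (tauF w) := by
        obtain ⟨y, hy⟩ := h2
        refine ⟨tauF y, ?_⟩
        change _ = cc (tauF w)
        rw [← tauF_cc, ← hy, map_mul, map_mul, map_inv]
      obtain ⟨y', k, hk⟩ := inv_C hw' (invF_transfer cc.toMonoidHom hv h2')
      refine ⟨tauF (y' * v), k, Or.inr (Or.inl ?_)⟩
      have h4 : y' * v * tauF w * (y' * v)⁻¹ = R ^ k := by
        rw [← hk, ← hv]
        group
      have h5 := congrArg tauF h4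
      rw [map_mul, map_mul, map_inv, tauF_sq, invF_tau_pow, tauF_R] at h5
      exact h5
  · have hp : par (inG' b) = 1 := by
      rw [← hy, map_mul, map_mul, map_inv, par_ka]
      simp
    obtain ⟨y', k, hk⟩ := inv_B hp (invF_transfer cc2 hy a2)
    have e : (y' * y) * ka w * (y' * y)⁻¹ = ka (Oo ^ k) := by
      rw [map_zpow, invF_ka_Oo, ← hk, ← hy]
      group
    rcases invF_down e with ⟨v, hv⟩ | ⟨v, hv⟩
    · exact ⟨v, k, Or.inr (Or.inr hv)⟩
    · have h5 := congrArg tauF hv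
      rw [map_mul, map_mul, map_inv, tauF_sq, invF_tau_pow, invF_tau_Oo, conj_zpow] at h5
      refine ⟨(V⁻¹ * U * R)⁻¹ * tauF v, k, Or.inr (Or.inr ?_)⟩
      have : (V⁻¹ * U * R)⁻¹ * tauF v * w * ((V⁻¹ * U * R)⁻¹ * tauF v)⁻¹ =
          (V⁻¹ * U * R)⁻¹ * (tauF v * w * (tauF v)⁻¹) * (V⁻¹ * U * R) := by
        group
      rw [this, h5]
      group

end Pool.Agent.Helper38.BT
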