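import Pool.Agent.Helper38.BT.HDef

/-!
# Project BT (MP_2ec7a7_al), piece BT-IO1: `io F3` in `H`
-/

namespace Pool.Agent.Helper38.BT

private lemma io1_c2 : gc * (gc * gd * gc⁻¹) * gc⁻¹ =
    (gc * gd * gc⁻¹)⁻¹ * gd * (gc * gd * gc⁻¹) := by
  have h2 : gc * gd * gc⁻¹ = gd⁻¹ * gc⁻¹ * gd * gc * gd := by
    calc gc * gd * gc⁻¹ = gd⁻¹ * gc⁻¹ * (gd * gc * gd * gc) * gc⁻¹ := by
          rw [← gc_gd]; group
            _ = _ := by group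
  calc gc * (gc * gd * gc⁻¹) * gc⁻¹ = gc * (gd⁻¹ * gc⁻¹ * gd * gc * gd) * gc⁻¹ := by rw [← h2]
    _ = _ := by group

private lemma io1_c3 : gc * (ga * (gc * gd * gc⁻¹) * ga⁻¹) * gc⁻¹ =
    ga * (gc * gd * gc⁻¹) * ga⁻¹ := by
  calc gc * (ga * (gc * gd * gc⁻¹) * ga⁻¹) * gc⁻¹
      = (gc * ga * gc) * gd * (gc * ga * gc)⁻¹ := by group
    _ = (ga * gc) * (ga * gd) * (ga * gc * ga)⁻¹ := by rw [← ga_gc]; group
    _ = (ga * gc) * (gd * ga) * (ga * gc * ga)⁻¹ := by rw [ga_gd]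
    _ = _ := by group

private lemma io1_a3 : ga * (ga * (gc * gd * gc⁻¹) * ga⁻¹) * ga⁻¹ =
    (ga * (gc * gd * gc⁻¹) * ga⁻¹)⁻¹ * (gc * gd * gc⁻¹) * (ga * (gc * gd * gc⁻¹) * ga⁻¹) := by
  have e1 : gc * ga * gd * ga⁻¹ * gc⁻¹ = gc * gd * gc⁻¹ := by
    calc gc * ga * gd * ga⁻¹ * gc⁻¹ = gc * (ga * gd) * ga⁻¹ * gc⁻¹ := by group
      _ = gc * (gd * ga) * ga⁻¹ * gc⁻¹ := by rw [ga_gd]
      _ = _ := by group
  have e2 : (gc * ga * gc * gc) = ga * ga * gc * ga := by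
    calc (gc * ga * gc * gc) = (gc * ga * gc) * gc := by group
      _ = (ga * gc * ga) * gc := by rw [← ga_gc]
      _ = ga * (gc * ga * gc) := by group
      _ = ga * (ga * gc * ga) := by rw [← ga_gc]
      _ = _ := by group
  calc ga * (ga * (gc * gd * gc⁻¹) * ga⁻¹) * ga⁻¹
      = (ga * ga * gc) * (gd * ga) * (ga * ga * gc * ga)⁻¹ := by group
    _ = (ga * ga * gc) * (ga * gd) * (ga * ga * gc * ga)⁻¹ := by rw [ga_gd]
    _ = (ga * ga * gc * ga) * gd * (ga * ga * gc * ga)⁻¹ := by group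
    _ = (gc * ga * gc * gc) * gd * (gc * ga * gc * gc)⁻¹ := by rw [e2]
    _ = (gc * ga) * (gc * (gc * gd * gc⁻¹) * gc⁻¹) * (gc * ga)⁻¹ := by group
    _ = (gc * ga) * ((gc * gd * gc⁻¹)⁻¹ * gd * (gc * gd * gc⁻¹)) * (gc * ga)⁻¹ := by rw [io1_c2]
    _ = (gc * (ga * (gc * gd * gc⁻¹) * ga⁻¹) * gc⁻¹)⁻¹ * (gc * ga * gd * ga⁻¹ * gc⁻¹) *
        (gc * (ga * (gc * gd * gc⁻¹) * ga⁻¹) * gc⁻¹) := by group
    _ = _ := by rw [io1_c3, e1]

private lemma io1_hom (x : GB) (h : ∀ k : Fin 3, x * io (FreeGroup.of k) * x⁻¹ =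
    io (Chi x (FreeGroup.of k))) (z : F3) : x * io z * x⁻¹ = io (Chi x z) := by
  have : (MulAut.conj x).toMonoidHom.comp io = io.comp (Chi x).toMonoidHom := by
    ext1 k
    exact h k
  exact DFunLike.congr_fun this z

/-- `H` acts on `io F3` by conjugation as by `Chi`.  On the letters: `z1 = d`, `z2 = c d c⁻¹`,
`z3 = a z2 a⁻¹`.  `d`: clear.  `c`: `c z1 c⁻¹ = z2`; `c z2 c⁻¹ = z2⁻¹ z1 z2` is the relation
`cdcd = dcdc`; `c z3 c⁻¹ = (c a c) d (c a c)⁻¹ = (a c a) d (a c a)⁻¹ = z3`.  `a`: `a z1 a⁻¹ = z1`,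
`a z2 a⁻¹ = z3`, and `a z3 a⁻¹ = (c a)(c z2 c⁻¹)(c a)⁻¹ = (ca)(z2⁻¹ z1 z2)(ca)⁻¹ = z3⁻¹ z2 z3`,
because `(ca) c (ca)⁻¹ = a`, `(ca) z1 (ca)⁻¹ = z2`, `(ca) z2 (ca)⁻¹ = c z3 c⁻¹ = z3`. -/
theorem conj_io {x : GB} (hx : x ∈ HH) (z : F3) : x * io z * x⁻¹ = io (Chi x z) := by
  revert z
  unfold HH at hx
  induction hx using Subgroup.closure_induction with
  | mem x hx =>
    intro z
    apply io1_hom
    rcases hx with rfl | rfl | rfl
    · intro k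
      fin_cases k
      · simp only [Fin.zero_eta, Chi_ga]
        rw [sa_z1, io_z1, ga_gd]; group
      · change ga * io z2 * ga⁻¹ = io (Chi ga z2)
        rw [Chi_ga, sa_z2, io_z2, io_z3]
      · change ga * io z3 * ga⁻¹ = io (Chi ga z3)
        rw [Chi_ga, sa_z3, map_mul, map_mul, map_inv, io_z2, io_z3, io1_a3]
    · intro k
      fin_cases k
      · change gc * io z1 * gc⁻¹ = io (Chi gc z1)
        rw [Chi_gc, sc_z1, io_z1, io_z2]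
      · change gc * io z2 * gc⁻¹ = io (Chi gc z2)
        rw [Chi_gc, sc_z2, map_mul, map_mul, map_inv, io_z2, io_z1, io1_c2]
      · change gc * io z3 * gc⁻¹ = io (Chi gc z3)
        rw [Chi_gc, sc_z3, io_z3, io1_c3]
    · intro k
      rw [Chi_gd, MulAut.conj_apply, map_mul, map_mul, map_inv, io_z1]
  | one => intro z; simp
  | mul x y _ _ hx hy =>
    intro z
    rw [map_mul, MulAut.mul_apply, ← hx, ← hy]; group
  | inv x _ hx =>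
    intro z
    have h := hx (Chi x⁻¹ z)
    rw [← MulAut.mul_apply, ← map_mul, mul_inv_cancel, map_one, MulAut.one_apply] at h
    rw [← h]; group

/-- `ζ = io (z1 z2 z3) · (ac)³`.  `(acd)³ = z3 · (ac) z3 (ac)⁻¹ · (ac)² z3 (ac)⁻² · (ac)³`
(as `(ac) d (ac)⁻¹ = z3`), and `ac` acts on `F3` by `Chi`: `z3 ↦ z3⁻¹ z2 z3 ↦
z3⁻¹ z2⁻¹ z1 z2 z3` (use `conj_io`). -/
theorem gz_io : gz = io ww * gO := by
  have ht : ga * gc ∈ HH :=
    mul_mem (Subgroup.subset_closure (by simp)) (Subgroup.subset_closure (by simp))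
  have h0 : (ga * gc) * gd * (ga * gc)⁻¹ = io z3 := by rw [io_z3]; group
  have h1 : (ga * gc) * io z3 * (ga * gc)⁻¹ = io (z3⁻¹ * z2 * z3) := by
    rw [conj_io ht, map_mul, MulAut.mul_apply, Chi_gc, Chi_ga, sc_z3, sa_z3]
  have h2 : (ga * gc) * io (z3⁻¹ * z2 * z3) * (ga * gc)⁻¹ = io (z3⁻¹ * z2⁻¹ * z1 * z2 * z3) := by
    rw [conj_io ht, map_mul Chi, MulAut.mul_apply, Chi_gc, Chi_ga]
    congr 1
    simp [mul_assoc]
  have h3 : io ww = io z3 * io (z3⁻¹ * z2 * z3) * io (z3⁻¹ * z2⁻¹ * z1 * z2 * z3) := by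
    rw [← map_mul, ← map_mul, ww]
    congr 1
    group
  rw [h3, ← h2, ← h1, ← h0, gz, gO]
  simp only [pow_succ, pow_zero, one_mul]
  group

end Pool.Agent.Helper38.BT
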