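import Pool.Agent.Helper38.BT.PpJ
import Pool.Agent.Helper38.BT.Grp2
import Pool.Agent.Helper7.AG.Sl5

/-!
# Project BT (MP_2ec7a7_al), piece BT-KER: the kernel of `pp 0` modulo `±1`
-/

namespace Pool.Agent.Helper38.BT

open Pool.Agent.Helper7.AG (SL mA mB ker_B3)

private theorem K0_pm {u v : SL} (hu : u = 1 ∨ u = -1) (huv : u * v = 1 ∨ u * v = -1) :
    v = 1 ∨ v = -1 := by
  rcases hu with rfl | rfl
  · simpa using huv
  · rw [neg_one_mul] at huv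
    rcases huv with h | h
    · right
      rw [← h, neg_neg]
    · left
      exact neg_injective h

/-- `BT-KER` (1).  `x = io z * y`, `y ∈ ⟨a,c⟩` (`decH`); `pp 0 (io z) = 1`, so `pp 0 y = ± 1` and
`y = Ω ^ k` by `ker_B3` of `Pool/Agent/Helper7/AG/Sl5.lean` (with `f = pp 0`).  By `gz_io`
`Ω = (io ww)⁻¹ ζ`, and `ζ` commutes with `io F3` (`io_gz`). -/
theorem kerH {x : GB} (hx : x ∈ HH) (h : pp 0 x = 1 ∨ pp 0 x = -1) :
    ∃ (z : F3) (k : ℤ), x = io z * gz ^ k := by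
  obtain ⟨z, y, hy, rfl⟩ := decH hx
  rw [map_mul, pp0_io, one_mul] at h
  obtain ⟨n, hn⟩ := ker_B3 (a := ga) (b := gc) ga_gc (f := pp 0) (pp_ga 0) (pp_gc 0) hy h
  have hO : gO = io ww⁻¹ * gz := by
    rw [gz_io, map_inv, inv_mul_cancel_left]
  have hc : Commute (io ww⁻¹) gz := io_gz ww⁻¹
  refine ⟨z * (ww⁻¹) ^ n, n, ?_⟩
  have hn' : y = gO ^ n := hn
  rw [hn', hO, hc.mul_zpow, map_mul, map_zpow, mul_assoc]

/-- `BT-KER` (2).  `decomp`, `pp_j`, `kerH`, and `ζ = j R`; `j F` is normal (`conj_j`). -/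
theorem ker0 {x : GB} (h : pp 0 x = 1 ∨ pp 0 x = -1) :
    ∃ (z : F3) (w : F), x = io z * j w := by
  obtain ⟨w, y, hy, rfl⟩ := decomp x
  rw [map_mul] at h
  obtain ⟨z, k, rfl⟩ := kerH hy (K0_pm (pp_j 0 w) h)
  refine ⟨z, Phi (io z)⁻¹ w * R ^ k, ?_⟩
  rw [map_mul, ← conj_j (io z)⁻¹ w, map_zpow, j_R]
  group

/-- `BT-KER` (3): `e1` is divisible by `6` on the kernel (`ker0`, `e1_j`, `e1_io`). -/
theorem e1_ker0 {x : GB} (h : pp 0 x = 1 ∨ pp 0 x = -1) :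
    ∃ k : ℤ, e1 x = Multiplicative.ofAdd (6 * k) := by
  obtain ⟨z, w, rfl⟩ := ker0 h
  obtain ⟨k, hk⟩ := e1_j w
  exact ⟨k, by rw [map_mul, e1_io, one_mul, hk]⟩

end Pool.Agent.Helper38.BT
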