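import Pool.Agent.Helper38.BT.H6
import Pool.Agent.Helper38.BT.B1
import Pool.Agent.Helper38.BT.B3
import Pool.Agent.Helper38.BT.Img

/-!
# Project BT: the automorphism group of the Artin group of type `B̃_3`
-/

namespace Pool.Agent.Helper38.BT

open FreeGroup (of lift)
open Pool.Agent.Helper7.AG (SL mA mB tr mA_braid)

/-! ### the automorphisms `eps` and `tau` -/

/-- the endomorphism which inverts the generators -/
def epsHom : GB →* GB := lift4 ga⁻¹ gb⁻¹ gc⁻¹ gd⁻¹
  (by rw [← mul_inv_rev, ← mul_inv_rev, ga_gb])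
  (by rw [← mul_inv_rev, ← mul_inv_rev, ga_gd])
  (by rw [← mul_inv_rev, ← mul_inv_rev, gb_gd])
  (by rw [← mul_inv_rev, ← mul_inv_rev, ← mul_inv_rev, ← mul_inv_rev, ← mul_assoc, ← mul_assoc,
    ga_gc])
  (by rw [← mul_inv_rev, ← mul_inv_rev, ← mul_inv_rev, ← mul_inv_rev, ← mul_assoc, ← mul_assoc,
    gb_gc])
  (by
    have h : (gd * gc * gd * gc)⁻¹ = (gc * gd * gc * gd)⁻¹ := by rw [gc_gd]
    simpa [mul_inv_rev, mul_assoc] using h)

/-- the endomorphism which exchanges `a` and `b` -/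
def tauHom : GB →* GB := lift4 gb ga gc gd ga_gb.symm gb_gd ga_gd gb_gc ga_gc gc_gd

lemma epsHom_epsHom (x : GB) : epsHom (epsHom x) = x := by
  have : epsHom.comp epsHom = MonoidHom.id GB := by
    apply hom_ext4 <;> simp [epsHom]
  exact DFunLike.congr_fun this x

lemma tauHom_tauHom (x : GB) : tauHom (tauHom x) = x := by
  have : tauHom.comp tauHom = MonoidHom.id GB := by
    apply hom_ext4 <;> simp [tauHom]
  exact DFunLike.congr_fun this x

/-- the automorphism `ε` which inverts the generators -/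
def eps : MulAut GB where
  toFun := epsHom
  invFun := epsHom
  left_inv := epsHom_epsHom
  right_inv := epsHom_epsHom
  map_mul' := map_mul _

/-- the automorphism `τ` which exchanges `a` and `b` -/
def tau : MulAut GB where
  toFun := tauHom
  invFun := tauHom
  left_inv := tauHom_tauHom
  right_inv := tauHom_tauHom
  map_mul' := map_mul _

@[simp] lemma eps_ga : eps ga = ga⁻¹ := by change epsHom ga = _; simp [epsHom]
@[simp] lemma eps_gb : eps gb = gb⁻¹ := by change epsHom gb = _; simp [epsHom]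
@[simp] lemma eps_gc : eps gc = gc⁻¹ := by change epsHom gc = _; simp [epsHom]
@[simp] lemma eps_gd : eps gd = gd⁻¹ := by change epsHom gd = _; simp [epsHom]
@[simp] lemma tau_ga : tau ga = gb := by change tauHom ga = _; simp [tauHom]
@[simp] lemma tau_gb : tau gb = ga := by change tauHom gb = _; simp [tauHom]
@[simp] lemma tau_gc : tau gc = gc := by change tauHom gc = _; simp [tauHom]
@[simp] lemma tau_gd : tau gd = gd := by change tauHom gd = _; simp [tauHom]

lemma eps_eps : eps * eps = 1 := by ext x; exact epsHom_epsHom x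
lemma tau_tau : tau * tau = 1 := by ext x; exact tauHom_tauHom x

/-- automorphisms are equal if they agree on the generators -/
lemma aut_ext4 {φ ψ : MulAut GB} (h1 : φ ga = ψ ga) (h2 : φ gb = ψ gb) (h3 : φ gc = ψ gc)
    (h4 : φ gd = ψ gd) : φ = ψ := by
  have : φ.toMonoidHom = ψ.toMonoidHom := hom_ext4 h1 h2 h3 h4
  ext x
  exact DFunLike.congr_fun this x

lemma eps_tau : eps * tau = tau * eps := by
  apply aut_ext4 <;> simp [MulAut.mul_apply]

lemma eps_gz : eps gz = gz⁻¹ := by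
  have h1 : (gd * gc * ga) ^ 3 = gz := by
    have h3 : ga * (gd * gc * ga) * ga⁻¹ = gd * (ga * gc * gd) * gd⁻¹ := by
      have : ga * (gd * gc * ga) * ga⁻¹ = ga * gd * gc := by group
      rw [this, ga_gd]; group
    have h4 : ga * (gd * gc * ga) ^ 3 * ga⁻¹ = gd * (ga * gc * gd) ^ 3 * gd⁻¹ := by
      have e1 : ga * (gd * gc * ga) ^ 3 * ga⁻¹ = (ga * (gd * gc * ga) * ga⁻¹) ^ 3 := by
        simp [pow_succ, mul_assoc]
      have e2 : gd * (ga * gc * gd) ^ 3 * gd⁻¹ = (gd * (ga * gc * gd) * gd⁻¹) ^ 3 := by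
        simp [pow_succ, mul_assoc]
      rw [e1, e2, h3]
    have h5 : gd * (ga * gc * gd) ^ 3 * gd⁻¹ = gz := by
      change gd * gz * gd⁻¹ = gz
      rw [gd_gz, mul_inv_cancel_right]
    have h6 : (gd * gc * ga) ^ 3 = ga⁻¹ * gz * ga := by
      rw [← h5, ← h4]; group
    rw [h6, mul_assoc, ← ga_gz, inv_mul_cancel_left]
  have h2 : eps gz = (ga⁻¹ * gc⁻¹ * gd⁻¹) ^ 3 := by simp [gz]
  have h3 : ga⁻¹ * gc⁻¹ * gd⁻¹ = (gd * gc * ga)⁻¹ := by group
  rw [h2, h3, inv_pow, h1]

lemma tau_gz : tau gz = gz' := by simp [gz, gz']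

/-- automorphisms which fix `ζ` are inner -/
theorem inner_of_fix {φ : MulAut GB} (h : φ gz = gz) : ∃ x : GB, φ = MulAut.conj x := by
  obtain ⟨y, -, i, h1, h2, h3⟩ := fix_H h
  have hi : i = 0 := no_twist (φ := MulAut.conj y * φ) h1 h2 h3
  subst hi
  obtain ⟨k, hk⟩ := fix_acd (φ := MulAut.conj y * φ) (by simpa using h1) (by simpa using h2)
    (by simpa using h3)
  refine ⟨y⁻¹ * gz ^ k, ?_⟩
  rw [map_mul, ← hk, map_inv, inv_mul_cancel_left]

/-- every automorphism is `conj x * ε^e * τ^f` -/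
theorem aut_eq (φ : MulAut GB) : ∃ x : GB, φ = MulAut.conj x ∨ φ = MulAut.conj x * eps ∨
    φ = MulAut.conj x * tau ∨ φ = MulAut.conj x * (eps * tau) := by
  obtain ⟨x, hx⟩ := image_gz φ
  have key : ∀ σ : MulAut GB, (σ * (MulAut.conj x * φ)) gz = gz → σ * σ = 1 →
      (∀ y, ∃ y', σ * MulAut.conj y = MulAut.conj y' * σ) → ∃ z, φ = MulAut.conj z * σ := by
    intro σ h1 h2 h3
    obtain ⟨y, hy⟩ := inner_of_fix h1
    obtain ⟨y', hy'⟩ := h3 y
    refine ⟨x⁻¹ * y', ?_⟩
    have : MulAut.conj x * φ = MulAut.conj y' * σ := by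
      rw [← hy', ← hy, ← mul_assoc, h2, one_mul]
    rw [map_mul, mul_assoc, ← this, map_inv, inv_mul_cancel_left]
  have hc : ∀ (σ : MulAut GB) (y : GB), σ * MulAut.conj y = MulAut.conj (σ y) * σ := by
    intro σ y; ext z; simp [MulAut.mul_apply]
  have he : ∀ g : GB, (MulAut.conj x * φ) g = x * φ g * x⁻¹ := fun g => rfl
  have het : (eps * tau) * (eps * tau) = 1 := by
    calc (eps * tau) * (eps * tau) = eps * (tau * eps) * tau := by group
      _ = eps * (eps * tau) * tau := by rw [eps_tau]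
      _ = (eps * eps) * (tau * tau) := by group
      _ = 1 := by rw [eps_eps, tau_tau, mul_one]
  rcases hx with h | h | h | h
  · obtain ⟨z, hz⟩ := key 1 (by rw [one_mul, he, h]) (by simp) (fun y => ⟨y, by simp⟩)
    exact ⟨z, Or.inl (by rw [hz, mul_one])⟩
  · obtain ⟨z, hz⟩ := key eps (by rw [MulAut.mul_apply, he, h, map_inv, eps_gz, inv_inv]) eps_eps
      (fun y => ⟨_, hc _ y⟩)
    exact ⟨z, Or.inr (Or.inl hz)⟩
  · obtain ⟨z, hz⟩ := key tau (by
      rw [MulAut.mul_apply, he, h, ← tau_gz]; exact tauHom_tauHom gz) tau_tau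
      (fun y => ⟨_, hc _ y⟩)
    exact ⟨z, Or.inr (Or.inr (Or.inl hz))⟩
  · obtain ⟨z, hz⟩ := key (eps * tau) (by
      rw [MulAut.mul_apply, he, h, map_inv, MulAut.mul_apply, ← tau_gz]
      have : tau (tau gz) = gz := tauHom_tauHom gz
      rw [this, eps_gz, inv_inv]) het (fun y => ⟨_, hc _ y⟩)
    exact ⟨z, Or.inr (Or.inr (Or.inr hz))⟩

end Pool.Agent.Helper38.BT
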