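import Pool.Agent.Helper38.BT.NabDef

/-!
# Project BT (MP_2ec7a7_al), piece BT-NAB1
-/

namespace Pool.Agent.Helper38.BT

open FreeGroup (of lift)
open Matrix
open Pool.Agent.Helper7.AG (SL mA mB tr mA_braid)

private lemma Nab1_gen {φ : MulAut F} {A : SL} (hU : ell (φ U) = A.1.mulVec (ell U))
    (hV : ell (φ V) = A.1.mulVec (ell V)) (hM : ell (φ M) = A.1.mulVec (ell M))
    (hR : ell (φ R) = A.1.mulVec (ell R)) (w : F) : ell (φ w) = A.1.mulVec (ell w) := by
  have hl : ∀ x : G0 ⊕ G1, ell (φ (of x)) = A.1.mulVec (ell (of x)) := by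
    rintro (x | x) <;> cases x <;> assumption
  induction w using FreeGroup.induction_on with
  | C1 => rw [map_one, ell_one, Matrix.mulVec_zero]
  | of x => exact hl x
  | inv_of x h => rw [map_inv, ell_inv, ell_inv, hl, Matrix.mulVec_neg]
  | mul x y hx hy => rw [map_mul, ell_mul, ell_mul, hx, hy, Matrix.mulVec_add]

private lemma Nab1_conj (x w : F) : ell (x * w * x⁻¹) = ell w := by
  rw [ell_mul, ell_mul, ell_inv]
  abel

/-- `BT-NAB` (1).  `GB` acts on `ℤ²` through `pp 1`: check it for `a, b, c, d` and the letters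
(`al, cc, de` act by `mA, mB, mA²`; `be` as `al`), then `closure_gen`. -/
theorem ell_Phi (x : GB) (w : F) : ell (Phi x w) = (pp 1 x).1.mulVec (ell w) := by
  have hx : x ∈ Subgroup.closure ({ga, gb, gc, gd} : Set GB) := by
    rw [closure_gen]
    exact Subgroup.mem_top x
  have hal : ∀ w : F, ell (al w) = mA.1.mulVec (ell w) :=
    Nab1_gen (by ext i; fin_cases i <;> simp [mA, Matrix.mulVec, dotProduct])
      (by ext i; fin_cases i <;> simp [mA, Matrix.mulVec, dotProduct])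
      (by ext i; fin_cases i <;> simp [mA, Matrix.mulVec, dotProduct])
      (by ext i; fin_cases i <;> simp [mA, Matrix.mulVec, dotProduct])
  induction hx using Subgroup.closure_induction generalizing w with
  | mem x hx =>
    rcases hx with rfl | rfl | rfl | rfl
    · rw [Phi_ga, pp_ga]
      exact hal w
    · rw [Phi_gb, pp_gb]
      have h1 : be w = U * al w * U⁻¹ := by simp [be, MulAut.mul_apply]
      rw [h1, Nab1_conj]
      exact hal w
    · rw [Phi_gc, pp_gc]
      exact Nab1_gen (by ext i; fin_cases i <;> simp [mB, Matrix.mulVec, dotProduct])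
        (by ext i; fin_cases i <;> simp [mB, Matrix.mulVec, dotProduct])
        (by ext i; fin_cases i <;> simp [mB, Matrix.mulVec, dotProduct])
        (by ext i; fin_cases i <;> simp [mB, Matrix.mulVec, dotProduct]) w
    · rw [Phi_gd, pp_gd]
      have h2 : mA ^ ek 1 = (⟨!![1, 2; 0, 1], by simp [Matrix.det_fin_two]⟩ : SL) := by
        have h3 : ek 1 = 2 := rfl
        rw [h3, pow_two]
        apply Subtype.ext
        change mA.1 * mA.1 = !![1, 2; 0, 1]
        simp [mA]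
      rw [h2]
      exact Nab1_gen (by ext i; fin_cases i <;> simp [Matrix.mulVec, dotProduct])
        (by ext i; fin_cases i <;> simp [Matrix.mulVec, dotProduct])
        (by ext i; fin_cases i <;> simp [Matrix.mulVec, dotProduct])
        (by ext i; fin_cases i <;> simp [Matrix.mulVec, dotProduct]) w
  | one => simp
  | mul x y _ _ hx hy =>
    rw [map_mul, MulAut.mul_apply, hx, hy, map_mul, Matrix.SpecialLinearGroup.coe_mul,
      Matrix.mulVec_mulVec]
  | inv x _ hx =>
    have h1 := hx (Phi x⁻¹ w)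
    rw [← MulAut.mul_apply, ← map_mul, mul_inv_cancel, map_one, MulAut.one_apply] at h1
    rw [h1, Matrix.mulVec_mulVec, ← Matrix.SpecialLinearGroup.coe_mul, ← map_mul,
      inv_mul_cancel, map_one, Matrix.SpecialLinearGroup.coe_one, Matrix.one_mulVec]

private lemma Nab1_cls {w : F} (ha : ∃ y, al w = y * w * y⁻¹) (hb : ∃ y, be w = y * w * y⁻¹)
    (hc : ∃ y, cc w = y * w * y⁻¹) (hd : ∃ y, de w = y * w * y⁻¹) (x : GB) :
    ∃ y, Phi x w = y * w * y⁻¹ := by
  have hx : x ∈ Subgroup.closure ({ga, gb, gc, gd} : Set GB) := by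
    rw [closure_gen]
    exact Subgroup.mem_top x
  induction hx using Subgroup.closure_induction with
  | mem x hx =>
    rcases hx with rfl | rfl | rfl | rfl
    · rw [Phi_ga]; exact ha
    · rw [Phi_gb]; exact hb
    · rw [Phi_gc]; exact hc
    · rw [Phi_gd]; exact hd
  | one => exact ⟨1, by simp⟩
  | mul x y _ _ hx hy =>
    obtain ⟨u, hu⟩ := hx
    obtain ⟨v, hv⟩ := hy
    refine ⟨Phi x v * u, ?_⟩
    rw [map_mul, MulAut.mul_apply, hv, map_mul, map_mul, map_inv, hu]
    group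
  | inv x _ hx =>
    obtain ⟨u, hu⟩ := hx
    refine ⟨(Phi x⁻¹ u)⁻¹, ?_⟩
    have h1 : w = Phi x⁻¹ (Phi x w) := by
      rw [← MulAut.mul_apply, ← map_mul, inv_mul_cancel, map_one, MulAut.one_apply]
    have h2 : w = Phi x⁻¹ u * Phi x⁻¹ w * (Phi x⁻¹ u)⁻¹ := by
      calc w = Phi x⁻¹ (Phi x w) := h1
        _ = Phi x⁻¹ (u * w * u⁻¹) := by rw [hu]
        _ = _ := by rw [map_mul (Phi x⁻¹), map_mul (Phi x⁻¹), map_inv (Phi x⁻¹)]
    conv_rhs => rw [h2]
    group

private lemma Nab1_zero {φ : MulAut GB} {θ : MulAut F} (h : ∀ w : F, φ (j w) = j (θ w)) {w : F}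
    (hw : ∀ x : GB, ∃ y, Phi x w = y * w * y⁻¹) : ell (θ w) = 0 := by
  have h1 : ∀ x : GB, (pp 1 (φ x)).1.mulVec (ell (θ w)) = ell (θ w) := by
    intro x
    obtain ⟨y, hy⟩ := hw x
    rw [← ell_Phi, ← theta_Phi h, hy, map_mul, map_mul, map_inv, Nab1_conj]
  have h2 := h1 (φ.symm ga)
  have h3 := h1 (φ.symm gc)
  rw [MulEquiv.apply_symm_apply] at h2 h3
  rw [pp_ga] at h2
  rw [pp_gc] at h3
  have h4 := congrFun h2 0
  have h5 := congrFun h3 1
  simp only [mA, mB, Matrix.mulVec, dotProduct, Fin.sum_univ_two, Matrix.of_apply,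
    Matrix.cons_val_zero, Matrix.cons_val_one, Matrix.cons_val', Matrix.cons_val_fin_one,
    one_mul, neg_mul] at h4 h5
  ext i
  fin_cases i
  · change ell (θ w) 0 = 0
    linarith
  · change ell (θ w) 1 = 0
    linarith

/-- `BT-NAB` (2).  Let `w ∈ {R, Oo}`: `Phi x w` is conjugate to `w` in `F` for every `x` (check for
`a, b, c, d`: `cc, al, de` fix `R`, `be R = U R U⁻¹`; `al Oo = cc Oo = Oo`,
`de Oo = M⁻¹ Oo M`..., then the set of such `x` is a subgroup).  So `Phi (φ x) (θ w)` is conjugate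
to `θ w` (`theta_Phi`), and `ell (θ w)` is fixed by `pp 1 (φ x)`, for every `x`, so by `mA` and
`mB`: it is `0`. -/
theorem ell_theta_R {φ : MulAut GB} {θ : MulAut F} (h : ∀ w : F, φ (j w) = j (θ w)) :
    ell (θ R) = 0 ∧ ell (θ Oo) = 0 := by
  refine ⟨Nab1_zero h (Nab1_cls ⟨1, by simp⟩ ⟨U, be_R⟩ ⟨1, by simp⟩ ⟨1, by simp⟩),
    Nab1_zero h (Nab1_cls ⟨1, by simp [Oo]⟩ ⟨U, ?_⟩ ⟨1, by simp [Oo, mul_assoc]⟩ ⟨M⁻¹, ?_⟩)⟩
  · simp [Oo, be, MulAut.mul_apply]
  · simp [Oo, mul_assoc]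

end Pool.Agent.Helper38.BT
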