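import Pool.Agent.Helper38.BT.Nab1

/-!
# Project BT (MP_2ec7a7_al), piece BT-NAB2
-/

namespace Pool.Agent.Helper38.BT

open FreeGroup (of lift)
open Matrix
open Pool.Agent.Helper7.AG (SL mA mB tr mA_braid)

/-- the matrix of `θ` on `ℤ²` -/
private def nabM (θ : MulAut F) : Matrix (Fin 2) (Fin 2) ℤ :=
  !![ell (θ U) 0, ell (θ V) 0 - ell (θ U) 0; ell (θ U) 1, ell (θ V) 1 - ell (θ U) 1]

private lemma nabM_ell {φ : MulAut GB} {θ : MulAut F} (h : ∀ w : F, φ (j w) = j (θ w)) (w : F) :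
    ell (θ w) = (nabM θ).mulVec (ell w) := by
  obtain ⟨hR, hO⟩ := ell_theta_R h
  have hM : ell (θ M) = - ell (θ U) := by
    rw [Oo, map_mul, map_mul, ell_mul, ell_mul, hR, add_zero] at hO
    exact eq_neg_of_add_eq_zero_left hO
  have key : ellM.comp θ.toMonoidHom =
      (AddMonoidHom.toMultiplicative ((nabM θ).mulVecLin.toAddMonoidHom)).comp ellM := by
    ext1 y
    apply Multiplicative.toAdd.injective
    rcases y with y | y <;> cases y
    · change ell (θ M) = (nabM θ).mulVec (ell M)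
      rw [hM, ell_M]
      ext i
      fin_cases i <;> simp [nabM, Matrix.mulVec, dotProduct, Fin.sum_univ_two]
    · change ell (θ R) = (nabM θ).mulVec (ell R)
      rw [hR, ell_R, Matrix.mulVec_zero]
    · change ell (θ U) = (nabM θ).mulVec (ell U)
      rw [ell_U]
      ext i
      fin_cases i <;> simp [nabM, Matrix.mulVec, dotProduct, Fin.sum_univ_two]
    · change ell (θ V) = (nabM θ).mulVec (ell V)
      rw [ell_V]
      ext i
      fin_cases i <;> simp [nabM, Matrix.mulVec, dotProduct, Fin.sum_univ_two]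
  exact congrArg Multiplicative.toAdd (DFunLike.congr_fun key w)

private lemma nab_ext {N N' : Matrix (Fin 2) (Fin 2) ℤ}
    (h : ∀ w : F, N.mulVec (ell w) = N'.mulVec (ell w)) : N = N' := by
  have h1 := h U
  have h2 := h V
  rw [ell_U] at h1
  rw [ell_V] at h2
  have a0 := congrFun h1 0
  have a1 := congrFun h1 1
  have b0 := congrFun h2 0
  have b1 := congrFun h2 1
  simp [Matrix.mulVec, dotProduct, Fin.sum_univ_two] at a0 a1 b0 b1
  ext i k
  fin_cases i <;> fin_cases k <;> simp <;> linarith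

/-- `BT-NAB` (3).  Let `M` be the matrix with `M (1,0) = ell (θ U)`, `M (1,1) = ell (θ V)`.  By
`ell_theta_R` `ell (θ w) = M (ell w)` for all `w` (check on the letters: `ell (θ R) = 0`,
`ell (θ M) = ell (θ Oo) - ell (θ U) - ell (θ R) = - ell (θ U)`).  The same for `θ⁻¹` gives an
inverse of `M` (`ell` is onto), so `det M = ±1`.  And `M (pp 1 x) (ell w) = ell (θ (Phi x w)) =
ell (Phi (φ x) (θ w)) = pp 1 (φ x) M (ell w)`. -/
theorem nab (φ : MulAut GB) :
    ∃ N : Matrix (Fin 2) (Fin 2) ℤ, (N.det = 1 ∨ N.det = -1) ∧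
      ∀ x : GB, ((pp 1 (φ x) : SL) : Matrix (Fin 2) (Fin 2) ℤ) * N =
        N * ((pp 1 x : SL) : Matrix (Fin 2) (Fin 2) ℤ) := by
  obtain ⟨θ, hθ⟩ := exists_theta φ
  have hθ' : ∀ w : F, φ⁻¹ (j w) = j (θ⁻¹ w) := by
    intro w
    have h1 := hθ (θ⁻¹ w)
    have h2 : θ (θ⁻¹ w) = w := by
      rw [← MulAut.mul_apply, mul_inv_cancel, MulAut.one_apply]
    rw [h2] at h1
    rw [← h1, ← MulAut.mul_apply, inv_mul_cancel, MulAut.one_apply]
  refine ⟨nabM θ, ?_, ?_⟩
  · have h1 : nabM θ⁻¹ * nabM θ = 1 := by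
      apply nab_ext
      intro w
      rw [← Matrix.mulVec_mulVec, ← nabM_ell hθ, ← nabM_ell hθ', Matrix.one_mulVec,
        ← MulAut.mul_apply, inv_mul_cancel, MulAut.one_apply]
    have h2 := congrArg Matrix.det h1
    rw [Matrix.det_mul, Matrix.det_one] at h2
    exact Int.isUnit_iff.1 (IsUnit.of_mul_eq_one_right _ h2)
  · intro x
    apply nab_ext
    intro w
    rw [← Matrix.mulVec_mulVec, ← nabM_ell hθ, ← ell_Phi, ← theta_Phi hθ, nabM_ell hθ, ell_Phi,
      Matrix.mulVec_mulVec]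

end Pool.Agent.Helper38.BT
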