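import Pool.Agent.Helper38.BT.Char2

/-!
# Project BT (MP_2ec7a7_al), piece the action on a quotient of the abelianization of `F`: definitions
-/

namespace Pool.Agent.Helper38.BT

open FreeGroup (of lift)
open Matrix
open Pool.Agent.Helper7.AG (SL mA mB tr mA_braid)

/-- images of the letters under `ellM` -/
def ellf : G0 ⊕ G1 → Multiplicative (Fin 2 → ℤ)
  | .inl .m => Multiplicative.ofAdd ![-1, 0]
  | .inl .r => 1
  | .inr .u => Multiplicative.ofAdd ![1, 0]
  | .inr .v => Multiplicative.ofAdd ![1, 1]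

/-- the homomorphism `F → ℤ²`, `u ↦ (1,0), v ↦ (1,1), m ↦ (-1,0), r ↦ 0` -/
def ellM : F →* Multiplicative (Fin 2 → ℤ) := lift ellf

/-- `ellM` in additive form -/
def ell (w : F) : Fin 2 → ℤ := Multiplicative.toAdd (ellM w)

@[simp] lemma ell_U : ell U = ![1, 0] := by simp [ell, ellM, ellf]

@[simp] lemma ell_V : ell V = ![1, 1] := by simp [ell, ellM, ellf]

@[simp] lemma ell_M : ell M = ![-1, 0] := by simp [ell, ellM, ellf]

@[simp] lemma ell_R : ell R = 0 := by simp [ell, ellM, ellf]

@[simp] lemma ell_one : ell 1 = 0 := by simp [ell]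

@[simp] lemma ell_mul (x y : F) : ell (x * y) = ell x + ell y := by simp [ell]

@[simp] lemma ell_inv (x : F) : ell x⁻¹ = -ell x := by simp [ell]

end Pool.Agent.Helper38.BT
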