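import Mathlib

/-!
# Project BT, piece BT-SHIFT: a lemma on the free group `F3`

`q : F3 → FreeGroup (Fin 2)` kills `w = z1 z2 z3`.  A finite subset of the kernel of `q` whose
closure is normal in `F3` is trivial.
-/

namespace Pool.Agent.Helper38.BT

open FreeGroup (of lift)

/-- the homomorphism `F3 → F2`, `z1 ↦ x, z2 ↦ y, z3 ↦ (x y)⁻¹` -/
def qq : FreeGroup (Fin 3) →* FreeGroup (Fin 2) := lift ![of 0, of 1, (of 0 * of 1)⁻¹]

/-- the action on the letters -/
private def Shift_act (G : Type) [Group G] : G →* MulAut (FreeGroup G) where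
  toFun g := FreeGroup.freeGroupCongr (Equiv.mulLeft g)
  map_one' := by
    ext x
    change FreeGroup.map _ x = x
    conv_rhs => rw [← FreeGroup.map.id x]
    congr 1
    ext y
    simp
  map_mul' g h := by
    ext x
    change FreeGroup.map _ x = FreeGroup.map _ (FreeGroup.map _ x)
    rw [FreeGroup.map.comp]
    congr 1
    ext y
    simp [mul_assoc]

private theorem Shift_act_of (G : Type) [Group G] (g h : G) :
    Shift_act G g (of h) = of (g * h) := rfl

private theorem Shift_fin {A : Type} (w : FreeGroup A) :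
    ∃ E : Set A, E.Finite ∧ w ∈ Subgroup.closure (of '' E) := by
  induction w using FreeGroup.induction_on with
  | C1 => exact ⟨∅, Set.finite_empty, one_mem _⟩
  | of a => exact ⟨{a}, Set.finite_singleton a, Subgroup.subset_closure ⟨a, rfl, rfl⟩⟩
  | inv_of a h =>
    obtain ⟨E, hE, h⟩ := h
    exact ⟨E, hE, inv_mem h⟩
  | mul x y hx hy =>
    obtain ⟨E, hE, hx⟩ := hx
    obtain ⟨E', hE', hy⟩ := hy
    refine ⟨E ∪ E', hE.union hE', mul_mem ?_ ?_⟩
    · exact Subgroup.closure_mono (Set.image_mono Set.subset_union_left) hx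
    · exact Subgroup.closure_mono (Set.image_mono Set.subset_union_right) hy

open Classical in
private theorem Shift_disj {A : Type} (E E' : Set A) (h : Disjoint E E') (u : FreeGroup A)
    (h1 : u ∈ Subgroup.closure (of '' E)) (h2 : u ∈ Subgroup.closure (of '' E')) : u = 1 := by
  let k : FreeGroup A →* FreeGroup A := lift fun a => if a ∈ E then 1 else of a
  have e1 : Subgroup.closure (of '' E) ≤ k.ker := by
    rw [Subgroup.closure_le]
    rintro _ ⟨a, ha, rfl⟩
    change k (of a) = 1
    simp [k, ha]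
  have e2 : Subgroup.closure (of '' E') ≤ k.eqLocus (MonoidHom.id _) := by
    rw [Subgroup.closure_le]
    rintro _ ⟨a, ha, rfl⟩
    change k (of a) = of a
    have : a ∉ E := fun h' => Set.disjoint_left.1 h h' ha
    simp [k, this]
  have e3 : k u = 1 := e1 h1
  have e4 : k u = u := e2 h2
  rw [← e4, e3]

private def Shift_sec : FreeGroup (Fin 2) →* FreeGroup (Fin 3) := lift ![of 0, of 1]

private def Shift_Sh : FreeGroup (Fin 3) →*
    FreeGroup (FreeGroup (Fin 2)) ⋊[Shift_act (FreeGroup (Fin 2))] FreeGroup (Fin 2) :=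
  lift ![SemidirectProduct.inr (of 0), SemidirectProduct.inr (of 1),
    SemidirectProduct.inr (of 0 * of 1)⁻¹ * SemidirectProduct.inl (of 1)]

private def Shift_T : FreeGroup (FreeGroup (Fin 2)) ⋊[Shift_act (FreeGroup (Fin 2))]
    FreeGroup (Fin 2) →* FreeGroup (Fin 3) :=
  SemidirectProduct.lift
    (lift fun g => Shift_sec g * (of 0 * of 1 * of 2) * (Shift_sec g)⁻¹) Shift_sec (by
      intro g
      ext h
      simp [Shift_act_of, mul_assoc])

private theorem Shift_TSh (z : FreeGroup (Fin 3)) : Shift_T (Shift_Sh z) = z := by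
  have h : Shift_T.comp Shift_Sh = MonoidHom.id _ := by
    ext i
    fin_cases i <;> simp [Shift_T, Shift_Sh, Shift_sec, mul_assoc]
  exact DFunLike.congr_fun h z

private theorem Shift_right (z : FreeGroup (Fin 3)) : (Shift_Sh z).right = qq z := by
  have h : SemidirectProduct.rightHom.comp Shift_Sh = qq := by
    ext i
    fin_cases i <;> simp [Shift_Sh, qq]
  exact DFunLike.congr_fun h z

private theorem Shift_ShSec (g : FreeGroup (Fin 2)) :
    Shift_Sh (Shift_sec g) = SemidirectProduct.inr g := by
  have h : Shift_Sh.comp Shift_sec = SemidirectProduct.inr := by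
    refine FreeGroup.ext_hom _ _ fun i => ?_
    fin_cases i <;> simp [Shift_Sh, Shift_sec]
  exact DFunLike.congr_fun h g

/-- `BT-SHIFT`.  Let `G = FreeGroup (Fin 2)`, and let `G` act on the free group `L` with the basis
`G` (`L = FreeGroup G`) by left translations of the basis.  Let
`Sh : F3 → L ⋊ G` be the homomorphism `z1 ↦ (1, x)`, `z2 ↦ (1, y)`,
`z3 ↦ (1, (x y)⁻¹) * (of 1, 1)` (so that `z1 z2 z3 ↦ (of 1, 1)`); it is injective: a left inverse
is `(of g, 1) ↦ σ(g) (z1 z2 z3) σ(g)⁻¹`, `(1, g) ↦ σ(g)`, where `σ : G → F3`, `x ↦ z1`, `y ↦ z2`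
(`SemidirectProduct.lift`).  The second component of `Sh` is `qq`, so `Sh s = (l_s, 1)` for `s ∈ S`.
All `l_s` lie in the subgroup of `L` generated by a finite set `E ⊂ G` of letters, and so do all
`l_t`, `t ∈ closure S`.  For `g ∈ G` the element `σ(g) s σ(g)⁻¹` is in `closure S`, and its
`l` is the translate `g · l_s`.  So `l_s` lies in the subgroup generated by `E` and in the one
generated by `g⁻¹ E`, for every `g`.  `G` is infinite: choose `g` such that `E` and `g⁻¹ E` are
disjoint (`g ∉ E E⁻¹`).  An element in the subgroups generated by two disjoint sets of letters is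
trivial (apply the endomorphism of `L` which kills `E` and fixes the other letters), so `l_s = 1`
and `s = 1`. -/
theorem shift (S : Set (FreeGroup (Fin 3))) (hS : S.Finite) (hq : ∀ s ∈ S, qq s = 1)
    (hn : ∀ (z : FreeGroup (Fin 3)), ∀ s ∈ S, z * s * z⁻¹ ∈ Subgroup.closure S) :
    ∀ s ∈ S, s = 1 := by
  have hl : ∀ s ∈ S, Shift_Sh s = SemidirectProduct.inl (Shift_Sh s).left := by
    intro s hs
    refine SemidirectProduct.ext rfl ?_
    rw [Shift_right, hq s hs]
    rfl
  choose E hE hEm using fun s : FreeGroup (Fin 3) => Shift_fin (Shift_Sh s).left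
  let F : Set (FreeGroup (Fin 2)) := ⋃ s ∈ S, E s
  have hF : F.Finite := hS.biUnion fun s _ => hE s
  have hFm : ∀ s ∈ S, (Shift_Sh s).left ∈ Subgroup.closure (of '' F) := fun s hs =>
    Subgroup.closure_mono (Set.image_mono (Set.subset_biUnion_of_mem hs)) (hEm s)
  have hM : Subgroup.closure S ≤
      ((Subgroup.closure (of '' F)).map SemidirectProduct.inl).comap Shift_Sh := by
    rw [Subgroup.closure_le]
    intro s hs
    exact ⟨_, hFm s hs, (hl s hs).symm⟩
  obtain ⟨g, hg⟩ := (hF.image2 (fun a b => a * b⁻¹) hF).exists_notMem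
  have hdis : Disjoint F ((fun a => g * a) '' F) := by
    rw [Set.disjoint_left]
    rintro _ ha ⟨b, hb, rfl⟩
    exact hg ⟨g * b, ha, b, hb, by simp⟩
  intro s hs
  have h1 : Shift_act _ g (Shift_Sh s).left ∈ Subgroup.closure (of '' F) := by
    obtain ⟨m, hm, hm'⟩ := hM (hn (Shift_sec g) s hs)
    rw [map_mul, map_mul, map_inv, Shift_ShSec, hl s hs, ← map_inv,
      ← SemidirectProduct.inl_aut] at hm'
    rw [← SemidirectProduct.inl_injective hm']
    exact hm
  have h2 : Shift_act _ g (Shift_Sh s).left ∈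
      Subgroup.closure (of '' ((fun a => g * a) '' F)) := by
    have h3 : Subgroup.closure (of '' F) ≤
        (Subgroup.closure (of '' ((fun a => g * a) '' F))).comap
          (Shift_act (FreeGroup (Fin 2)) g).toMonoidHom := by
      rw [Subgroup.closure_le]
      rintro _ ⟨a, ha, rfl⟩
      exact Subgroup.subset_closure ⟨g * a, ⟨a, ha, rfl⟩, rfl⟩
    exact h3 (hFm s hs)
  have h4 := Shift_disj _ _ hdis _ h1 h2
  have h5 : (Shift_Sh s).left = 1 := (Shift_act _ g).injective (by rw [h4, map_one])
  rw [← Shift_TSh s, hl s hs, h5, map_one, map_one]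

end Pool.Agent.Helper38.BT
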