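import Pool.Agent.Helper38.BT.Pp
import Pool.Agent.Helper38.BT.Shift

/-!
# Project BT (MP_2ec7a7_al), piece BT-PING1
-/

namespace Pool.Agent.Helper38.BT

open FreeGroup (of lift)
open Matrix
open Pool.Agent.Helper7.AG (SL mA mB tr mA_braid)

/-- the homomorphism `F2 → SL(2, ℤ)`, `x ↦ mA²`, `y ↦ mB mA² mB⁻¹` -/
def rho2 : FreeGroup (Fin 2) →* SL := lift ![mA ^ 2, mB * mA ^ 2 * mB⁻¹]

/-- the upper Sanov generator -/
private def mP : SL := mA ^ 2

/-- the lower Sanov generator -/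
private def mQ : SL := mA * (mB * mA ^ 2 * mB⁻¹) * mA⁻¹

private lemma mP_val : (mP : Matrix (Fin 2) (Fin 2) ℤ) = !![1, 2; 0, 1] := by decide

private lemma mP_inv_val : ((mP⁻¹ : SL) : Matrix (Fin 2) (Fin 2) ℤ) = !![1, -2; 0, 1] := by
  decide

private lemma mQ_val : (mQ : Matrix (Fin 2) (Fin 2) ℤ) = !![1, 0; -2, 1] := by decide

private lemma mQ_inv_val : ((mQ⁻¹ : SL) : Matrix (Fin 2) (Fin 2) ℤ) = !![1, 0; 2, 1] := by
  decide

private lemma col_ne (g : SL) : ¬ (g.1 0 0 = 0 ∧ g.1 1 0 = 0) := by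
  rintro ⟨h1, h2⟩
  have h := g.2
  rw [Matrix.det_fin_two, h1, h2] at h
  simp at h

private lemma mul_col0 (A g : SL) :
    (A * g).1 0 0 = A.1 0 0 * g.1 0 0 + A.1 0 1 * g.1 1 0 := by
  show (A.1 * g.1) 0 0 = _
  rw [Matrix.mul_apply, Fin.sum_univ_two]

private lemma mul_col1 (A g : SL) :
    (A * g).1 1 0 = A.1 1 0 * g.1 0 0 + A.1 1 1 * g.1 1 0 := by
  show (A.1 * g.1) 1 0 = _
  rw [Matrix.mul_apply, Fin.sum_univ_two]

private def X0 : Set SL := {g | g.1 1 0 = 0 ∨ (0 < g.1 1 0 ∧ g.1 1 0 ≤ g.1 0 0) ∨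
  (g.1 1 0 < 0 ∧ g.1 0 0 ≤ g.1 1 0)}

private def Y0 : Set SL := {g | (0 < g.1 1 0 ∧ g.1 0 0 < - g.1 1 0) ∨
  (g.1 1 0 < 0 ∧ - g.1 1 0 < g.1 0 0)}

private def X1 : Set SL := {g | (0 < g.1 1 0 ∧ - g.1 1 0 ≤ g.1 0 0 ∧ g.1 0 0 ≤ 0) ∨
  (g.1 1 0 < 0 ∧ g.1 0 0 ≤ - g.1 1 0 ∧ 0 ≤ g.1 0 0)}

private def Y1 : Set SL := {g | (0 < g.1 1 0 ∧ 0 < g.1 0 0 ∧ g.1 0 0 < g.1 1 0) ∨
  (g.1 1 0 < 0 ∧ g.1 1 0 < g.1 0 0 ∧ g.1 0 0 < 0)}

private lemma sanov_inj : Function.Injective (lift ![mP, mQ] : FreeGroup (Fin 2) →* SL) := by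
  refine FreeGroup.injective_lift_of_ping_pong ![mP, mQ] ![X0, X1] ![Y0, Y1] ?_ ?_ ?_ ?_ ?_ ?_
  · intro i
    fin_cases i
    · exact ⟨1, by left; decide⟩
    · exact ⟨mQ * mP⁻¹, by
        right
        rw [mul_col0, mul_col1, mQ_val, mP_inv_val]
        decide⟩
  · intro i j hij
    fin_cases i <;> fin_cases j
    · exact absurd rfl hij
    · refine Set.disjoint_left.2 fun g h1 h2 => ?_
      have h1' : g ∈ X0 := h1
      have h2' : g ∈ X1 := h2
      have h0 := col_ne g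
      rw [X0, Set.mem_ofPred_eq] at h1'
      rw [X1, Set.mem_ofPred_eq] at h2'
      omega
    · refine Set.disjoint_left.2 fun g h1 h2 => ?_
      have h1' : g ∈ X0 := h2
      have h2' : g ∈ X1 := h1
      have h0 := col_ne g
      rw [X0, Set.mem_ofPred_eq] at h1'
      rw [X1, Set.mem_ofPred_eq] at h2'
      omega
    · exact absurd rfl hij
  · intro i j hij
    fin_cases i <;> fin_cases j
    · exact absurd rfl hij
    · refine Set.disjoint_left.2 fun g h1 h2 => ?_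
      have h1' : g ∈ Y0 := h1
      have h2' : g ∈ Y1 := h2
      rw [Y0, Set.mem_ofPred_eq] at h1'
      rw [Y1, Set.mem_ofPred_eq] at h2'
      omega
    · refine Set.disjoint_left.2 fun g h1 h2 => ?_
      have h1' : g ∈ Y0 := h2
      have h2' : g ∈ Y1 := h1
      rw [Y0, Set.mem_ofPred_eq] at h1'
      rw [Y1, Set.mem_ofPred_eq] at h2'
      omega
    · exact absurd rfl hij
  · intro i j
    fin_cases i <;> fin_cases j
    · refine Set.disjoint_left.2 fun g h1 h2 => ?_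
      have h1' : g ∈ X0 := h1
      have h2' : g ∈ Y0 := h2
      rw [X0, Set.mem_ofPred_eq] at h1'
      rw [Y0, Set.mem_ofPred_eq] at h2'
      omega
    · refine Set.disjoint_left.2 fun g h1 h2 => ?_
      have h1' : g ∈ X0 := h1
      have h2' : g ∈ Y1 := h2
      rw [X0, Set.mem_ofPred_eq] at h1'
      rw [Y1, Set.mem_ofPred_eq] at h2'
      omega
    · refine Set.disjoint_left.2 fun g h1 h2 => ?_
      have h1' : g ∈ X1 := h1
      have h2' : g ∈ Y0 := h2
      rw [X1, Set.mem_ofPred_eq] at h1'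
      rw [Y0, Set.mem_ofPred_eq] at h2'
      omega
    · refine Set.disjoint_left.2 fun g h1 h2 => ?_
      have h1' : g ∈ X1 := h1
      have h2' : g ∈ Y1 := h2
      rw [X1, Set.mem_ofPred_eq] at h1'
      rw [Y1, Set.mem_ofPred_eq] at h2'
      omega
  · intro i
    fin_cases i
    · rintro _ ⟨g, hg, rfl⟩
      have hg' : ¬ g ∈ Y0 := hg
      rw [Y0, Set.mem_ofPred_eq] at hg'
      show mP * g ∈ X0
      rw [X0, Set.mem_ofPred_eq, mul_col0, mul_col1, mP_val]
      simp only [Matrix.of_apply, Matrix.cons_val', Matrix.cons_val_zero, Matrix.cons_val_one,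
        Matrix.cons_val_fin_one]
      omega
    · rintro _ ⟨g, hg, rfl⟩
      have hg' : ¬ g ∈ Y1 := hg
      have h0 := col_ne g
      rw [Y1, Set.mem_ofPred_eq] at hg'
      show mQ * g ∈ X1
      rw [X1, Set.mem_ofPred_eq, mul_col0, mul_col1, mQ_val]
      simp only [Matrix.of_apply, Matrix.cons_val', Matrix.cons_val_zero, Matrix.cons_val_one,
        Matrix.cons_val_fin_one]
      omega
  · intro i
    fin_cases i
    · rintro _ ⟨g, hg, rfl⟩
      have hg' : ¬ g ∈ X0 := hg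
      rw [X0, Set.mem_ofPred_eq] at hg'
      show mP⁻¹ * g ∈ Y0
      rw [Y0, Set.mem_ofPred_eq, mul_col0, mul_col1, mP_inv_val]
      simp only [Matrix.of_apply, Matrix.cons_val', Matrix.cons_val_zero, Matrix.cons_val_one,
        Matrix.cons_val_fin_one]
      omega
    · rintro _ ⟨g, hg, rfl⟩
      have hg' : ¬ g ∈ X1 := hg
      have h0 := col_ne g
      rw [X1, Set.mem_ofPred_eq] at hg'
      show mQ⁻¹ * g ∈ Y1
      rw [Y1, Set.mem_ofPred_eq, mul_col0, mul_col1, mQ_inv_val]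
      simp only [Matrix.of_apply, Matrix.cons_val', Matrix.cons_val_zero, Matrix.cons_val_one,
        Matrix.cons_val_fin_one]
      omega

/-- `BT-PING` (1): `rho2` is injective.  Ping-pong.  `mB = [[1,0],[-1,1]]`, `mA = [[1,1],[0,1]]`,
so `mB mA² mB⁻¹ = [[3,2],[-2,-1]]`.  Conjugate by `mA`: `mA (mB mA² mB⁻¹) mA⁻¹ = [[1,0],[-2,1]]`,
and `mA mA² mA⁻¹ = mA²`.  So `rho2` is conjugate to `x ↦ [[1,2],[0,1]]`, `y ↦ [[1,0],[-2,1]]`
(Sanov).  On `ℤ²` the nonzero powers of the first map `{|p| < |q|}` into `{|p| > |q|}`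
(`|p + 2 k q| ≥ 2 |k| |q| - |p| > |q|`), the powers of the second one do the opposite.  Use
`FreeGroup.injective_lift_of_ping_pong` (Mathlib, `Mathlib/GroupTheory/CoprodI.lean`), or a direct
argument with reduced words, or the toolbox of `Pool/Agent/Helper7/AG`. -/
theorem rho2_inj : Function.Injective rho2 := by
  have h1 : (MulAut.conj mA).toMonoidHom.comp rho2 = lift ![mP, mQ] := by
    ext1 i
    fin_cases i
    · show mA * rho2 (of 0) * mA⁻¹ = lift ![mP, mQ] (of 0)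
      rw [rho2, FreeGroup.lift_apply_of, FreeGroup.lift_apply_of]
      show mA * mA ^ 2 * mA⁻¹ = mP
      unfold mP
      group
    · show mA * rho2 (of 1) * mA⁻¹ = lift ![mP, mQ] (of 1)
      rw [rho2, FreeGroup.lift_apply_of, FreeGroup.lift_apply_of]
      rfl
  have h2 : Function.Injective ((MulAut.conj mA).toMonoidHom.comp rho2) := by
    rw [h1]
    exact sanov_inj
  rw [MonoidHom.coe_comp] at h2
  exact Function.Injective.of_comp h2

end Pool.Agent.Helper38.BT
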