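import Pool.Agent.Helper38.BT.Pp

/-!
# Project BT (MP_2ec7a7_al), piece BT-PPJ
-/

namespace Pool.Agent.Helper38.BT

open Matrix
open Pool.Agent.Helper7.AG (SL mA mB tr mA_braid)

private lemma PpJ_cube (i : Fin 2) :
    (mA * mB * mA ^ ek i) ^ 3 = 1 ∨ (mA * mB * mA ^ ek i) ^ 3 = -1 := by
  fin_cases i
  · right
    ext a b; fin_cases a <;> fin_cases b <;>
      simp [ek, mA, mB, pow_succ, Matrix.mul_apply, Fin.sum_univ_two]
  · left
    ext a b; fin_cases a <;> fin_cases b <;>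
      simp [ek, mA, mB, pow_succ, Matrix.mul_apply, Fin.sum_univ_two]

private lemma PpJ_u (i : Fin 2) : pp i gu = 1 := by simp [gu]

private lemma PpJ_v (i : Fin 2) : pp i gv = 1 := by simp [gv, PpJ_u]

private lemma PpJ_z (i : Fin 2) : pp i gz = 1 ∨ pp i gz = -1 := by
  simpa [gz] using PpJ_cube i

private lemma PpJ_z' (i : Fin 2) : pp i gz' = 1 ∨ pp i gz' = -1 := by
  simpa [gz'] using PpJ_cube i

private lemma PpJ_m (i : Fin 2) : pp i gm = 1 ∨ pp i gm = -1 := by
  simpa [gm, PpJ_u, PpJ_v] using PpJ_z' i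

private lemma PpJ_let (i : Fin 2) (x : G0 ⊕ G1) :
    pp i (j (FreeGroup.of x)) = 1 ∨ pp i (j (FreeGroup.of x)) = -1 := by
  rcases x with x | x <;> cases x
  · rw [show j (FreeGroup.of (.inl .m)) = gm from j_M]; exact PpJ_m i
  · rw [show j (FreeGroup.of (.inl .r)) = gz from j_R]; exact PpJ_z i
  · rw [show j (FreeGroup.of (.inr .u)) = gu from j_U]; exact Or.inl (PpJ_u i)
  · rw [show j (FreeGroup.of (.inr .v)) = gv from j_V]; exact Or.inl (PpJ_v i)

/-- `BT-PPJ` (1): `pp i` maps `j F` to `{1, -1}`: `u, v ↦ 1`, `ζ, m ↦` the cube of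
`mA * mB * mA ^ k` (`= -1` for `k = 0`, `= 1` for `k = 2`). -/
theorem pp_j (i : Fin 2) (w : F) : pp i (j w) = 1 ∨ pp i (j w) = -1 := by
  induction w using FreeGroup.induction_on with
  | C1 => left; simp
  | of x => exact PpJ_let i x
  | inv_of x h =>
    rw [map_inv, map_inv]
    rcases h with h | h
    · left; rw [h, inv_one]
    · right
      rw [h]
      exact inv_eq_of_mul_eq_one_left (by simp)
  | mul x y hx hy =>
    rw [map_mul, map_mul]
    rcases hx with hx | hx <;> rcases hy with hy | hy <;> rw [hx, hy] <;> simp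

/-- `BT-PPJ` (2) -/
theorem pp0_io (z : F3) : pp 0 (io z) = 1 := by
  have : (pp 0).comp io = 1 := by
    ext1 y
    fin_cases y
    · simp [ek]
    · simp [ek]
    · simp [ek]
  exact DFunLike.congr_fun this z

private lemma PpJ_e1u : e1 gu = 1 := by simp [gu]

private lemma PpJ_e1v : e1 gv = 1 := by simp [gv, PpJ_e1u]

private lemma PpJ_e1z : e1 gz = Multiplicative.ofAdd (6 * 1) := by
  simp only [gz, map_pow, map_mul, e1_ga, e1_gc, e1_gd]
  rfl

private lemma PpJ_e1z' : e1 gz' = Multiplicative.ofAdd (6 * 1) := by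
  simp only [gz', map_pow, map_mul, e1_gb, e1_gc, e1_gd]
  rfl

private lemma PpJ_e1m : e1 gm = Multiplicative.ofAdd (6 * 1) := by
  simp only [gm, map_mul, map_inv, PpJ_e1u, PpJ_e1v, PpJ_e1z']
  rfl

/-- `BT-PPJ` (3): `e1` is divisible by `6` on `j F` and trivial on `io F3`, and `e1 Ω = 6` -/
theorem e1_j (w : F) : ∃ k : ℤ, e1 (j w) = Multiplicative.ofAdd (6 * k) := by
  induction w using FreeGroup.induction_on with
  | C1 => exact ⟨0, by simp⟩
  | of x =>
    rcases x with x | x <;> cases x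
    · exact ⟨1, by rw [show j (FreeGroup.of (.inl .m)) = gm from j_M]; exact PpJ_e1m⟩
    · exact ⟨1, by rw [show j (FreeGroup.of (.inl .r)) = gz from j_R]; exact PpJ_e1z⟩
    · exact ⟨0, by rw [show j (FreeGroup.of (.inr .u)) = gu from j_U, PpJ_e1u]; rfl⟩
    · exact ⟨0, by rw [show j (FreeGroup.of (.inr .v)) = gv from j_V, PpJ_e1v]; rfl⟩
  | inv_of x h =>
    obtain ⟨k, hk⟩ := h
    refine ⟨-k, ?_⟩
    rw [map_inv, map_inv, hk, ← ofAdd_neg, mul_neg]
  | mul x y hx hy =>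
    obtain ⟨k, hk⟩ := hx
    obtain ⟨l, hl⟩ := hy
    refine ⟨k + l, ?_⟩
    rw [map_mul, map_mul, hk, hl, ← ofAdd_add, mul_add]

/-- `BT-PPJ` (4) -/
theorem e1_io (z : F3) : e1 (io z) = 1 := by
  have : e1.comp io = 1 := by
    ext1 y
    fin_cases y
    · simp
    · simp
    · simp
  exact DFunLike.congr_fun this z

/-- `BT-PPJ` (5) -/
theorem pp_gO (i : Fin 2) : pp i gO = -1 := by
  simp only [gO, map_pow, map_mul, pp_ga, pp_gc]
  ext a b; fin_cases a <;> fin_cases b <;>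
    simp [mA, mB, pow_succ, Matrix.mul_apply, Fin.sum_univ_two]

end Pool.Agent.Helper38.BT
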