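import Pool.Agent.Helper38.BT.Aut

/-!
# Project BT (MP_2ec7a7_al), piece BT-CEN: centrality of `ζ`
-/

namespace Pool.Agent.Helper38.BT

private lemma cen_eq {G : Type*} [Group G] {a c d : G} (hac : a * c * a = c * a * c)
    (had : a * d = d * a) (hcd : c * d * c * d = d * c * d * c) :
    a * c * d * a * c * d * a * c * d = c * d * c * d * a * c * d * c * a :=
  calc a * c * d * a * c * d * a * c * d
    _ = a * c * a * d * c * d * a * c * d := by
      simpa only [mul_assoc] using congrArg (fun t : G => (a * c) * t * (c * d * a * c * d)) had.symm
    _ = c * a * c * d * c * d * a * c * d := by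
      simpa only [mul_assoc] using congrArg (fun t : G => t * (d * c * d * a * c * d)) hac
    _ = c * a * d * c * d * c * a * c * d := by
      simpa only [mul_assoc] using congrArg (fun t : G => (c * a) * t * (a * c * d)) hcd
    _ = c * a * d * c * d * a * c * a * d := by
      simpa only [mul_assoc] using congrArg (fun t : G => (c * a * d * c * d) * t * (d)) hac.symm
    _ = c * d * a * c * d * a * c * a * d := by
      simpa only [mul_assoc] using congrArg (fun t : G => (c) * t * (c * d * a * c * a * d)) had
    _ = c * d * a * c * d * a * c * d * a := by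
      simpa only [mul_assoc] using congrArg (fun t : G => (c * d * a * c * d * a * c) * t) had
    _ = c * d * a * c * a * d * c * d * a := by
      simpa only [mul_assoc] using congrArg (fun t : G => (c * d * a * c) * t * (c * d * a)) had.symm
    _ = c * d * c * a * c * d * c * d * a := by
      simpa only [mul_assoc] using congrArg (fun t : G => (c * d) * t * (d * c * d * a)) hac
    _ = c * d * c * a * d * c * d * c * a := by
      simpa only [mul_assoc] using congrArg (fun t : G => (c * d * c * a) * t * (a)) hcd
    _ = c * d * c * d * a * c * d * c * a := by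
      simpa only [mul_assoc] using congrArg (fun t : G => (c * d * c) * t * (c * d * c * a)) had

private lemma cen_a {G : Type*} [Group G] {a c d : G} (hac : a * c * a = c * a * c)
    (had : a * d = d * a) (hcd : c * d * c * d = d * c * d * c) :
    a * a * c * d * a * c * d * a * c * d = a * c * d * a * c * d * a * c * d * a :=
  calc a * a * c * d * a * c * d * a * c * d
    _ = a * a * c * a * d * c * d * a * c * d := by
      simpa only [mul_assoc] using congrArg (fun t : G => (a * a * c) * t * (c * d * a * c * d)) had.symm
    _ = a * c * a * c * d * c * d * a * c * d := by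
      simpa only [mul_assoc] using congrArg (fun t : G => (a) * t * (d * c * d * a * c * d)) hac
    _ = a * c * a * d * c * d * c * a * c * d := by
      simpa only [mul_assoc] using congrArg (fun t : G => (a * c * a) * t * (a * c * d)) hcd
    _ = a * c * a * d * c * d * a * c * a * d := by
      simpa only [mul_assoc] using congrArg (fun t : G => (a * c * a * d * c * d) * t * (d)) hac.symm
    _ = a * c * d * a * c * d * a * c * a * d := by
      simpa only [mul_assoc] using congrArg (fun t : G => (a * c) * t * (c * d * a * c * a * d)) had
    _ = a * c * d * a * c * d * a * c * d * a := by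
      simpa only [mul_assoc] using congrArg (fun t : G => (a * c * d * a * c * d * a * c) * t) had

private lemma cen_c {G : Type*} [Group G] {a c d : G} (hac : a * c * a = c * a * c)
    (had : a * d = d * a) (hcd : c * d * c * d = d * c * d * c) :
    c * a * c * d * a * c * d * a * c * d = a * c * d * a * c * d * a * c * d * c :=
  calc c * a * c * d * a * c * d * a * c * d
    _ = a * c * a * d * a * c * d * a * c * d := by
      simpa only [mul_assoc] using congrArg (fun t : G => t * (d * a * c * d * a * c * d)) hac.symm
    _ = a * c * d * a * a * c * d * a * c * d := by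
      simpa only [mul_assoc] using congrArg (fun t : G => (a * c) * t * (a * c * d * a * c * d)) had
    _ = a * c * d * a * a * c * a * d * c * d := by
      simpa only [mul_assoc] using congrArg (fun t : G => (a * c * d * a * a * c) * t * (c * d)) had.symm
    _ = a * c * d * a * c * a * c * d * c * d := by
      simpa only [mul_assoc] using congrArg (fun t : G => (a * c * d * a) * t * (d * c * d)) hac
    _ = a * c * d * a * c * a * d * c * d * c := by
      simpa only [mul_assoc] using congrArg (fun t : G => (a * c * d * a * c * a) * t) hcd
    _ = a * c * d * a * c * d * a * c * d * c := by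
      simpa only [mul_assoc] using congrArg (fun t : G => (a * c * d * a * c) * t * (c * d * c)) had

private lemma cen_d {G : Type*} [Group G] {a c d : G} (hac : a * c * a = c * a * c)
    (had : a * d = d * a) (hcd : c * d * c * d = d * c * d * c) :
    d * a * c * d * a * c * d * a * c * d = a * c * d * a * c * d * a * c * d * d :=
  calc d * a * c * d * a * c * d * a * c * d
    _ = a * d * c * d * a * c * d * a * c * d := by
      simpa only [mul_assoc] using congrArg (fun t : G => t * (c * d * a * c * d * a * c * d)) had.symm
    _ = a * d * c * d * a * c * a * d * c * d := by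
      simpa only [mul_assoc] using congrArg (fun t : G => (a * d * c * d * a * c) * t * (c * d)) had.symm
    _ = a * d * c * d * c * a * c * d * c * d := by
      simpa only [mul_assoc] using congrArg (fun t : G => (a * d * c * d) * t * (d * c * d)) hac
    _ = a * c * d * c * d * a * c * d * c * d := by
      simpa only [mul_assoc] using congrArg (fun t : G => (a) * t * (a * c * d * c * d)) hcd.symm
    _ = a * c * d * c * a * d * c * d * c * d := by
      simpa only [mul_assoc] using congrArg (fun t : G => (a * c * d * c) * t * (c * d * c * d)) had.symm
    _ = a * c * d * c * a * c * d * c * d * d := by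
      simpa only [mul_assoc] using congrArg (fun t : G => (a * c * d * c * a) * t * (d)) hcd.symm
    _ = a * c * d * a * c * a * d * c * d * d := by
      simpa only [mul_assoc] using congrArg (fun t : G => (a * c * d) * t * (d * c * d * d)) hac.symm
    _ = a * c * d * a * c * d * a * c * d * d := by
      simpa only [mul_assoc] using congrArg (fun t : G => (a * c * d * a * c) * t * (c * d * d)) had

/-- `BT-CEN` (1).  With `δ₂ = cdcd` (which commutes with `c` and `d` by `gc_gd`):
`(acd)³ = δ₂ · (a c d c a)`.  Proof: `acd·acd·acd = a c (a d) c (a d) c d` (as `da = ad`)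
`= (a c a) d c a d c d = (c a c) d c a d c d = c a (c d c) a d c d`.. (any derivation; or show
`δ₂⁻¹ (acd)³ = acdca` with `dcdc = cdcd`, `aca = cac`, `ad = da`). -/
theorem gz_eq : gz = (gc * gd * gc * gd) * (ga * gc * gd * gc * ga) := by
  have h := cen_eq ga_gc ga_gd gc_gd
  simpa only [gz, pow_succ, pow_zero, one_mul, mul_assoc] using h

/-- `BT-CEN` (2): the same with `b` for `a`. -/
theorem gz'_eq : gz' = (gc * gd * gc * gd) * (gb * gc * gd * gc * gb) := by
  have h := cen_eq gb_gc gb_gd gc_gd
  simpa only [gz', pow_succ, pow_zero, one_mul, mul_assoc] using h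

/-- `BT-CEN` (3): `ζ` is central in `⟨a,c,d⟩`. -/
theorem ga_gz : ga * gz = gz * ga := by
  have h := cen_a ga_gc ga_gd gc_gd
  simpa only [gz, pow_succ, pow_zero, one_mul, mul_assoc] using h

/-- `BT-CEN` (4) -/
theorem gc_gz : gc * gz = gz * gc := by
  have h := cen_c ga_gc ga_gd gc_gd
  simpa only [gz, pow_succ, pow_zero, one_mul, mul_assoc] using h

/-- `BT-CEN` (5) -/
theorem gd_gz : gd * gz = gz * gd := by
  have h := cen_d ga_gc ga_gd gc_gd
  simpa only [gz, pow_succ, pow_zero, one_mul, mul_assoc] using h

/-- `BT-CEN` (6) -/
theorem gb_gz' : gb * gz' = gz' * gb := by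
  have h := cen_a gb_gc gb_gd gc_gd
  simpa only [gz', pow_succ, pow_zero, one_mul, mul_assoc] using h

/-- `BT-CEN` (7) -/
theorem gc_gz' : gc * gz' = gz' * gc := by
  have h := cen_c gb_gc gb_gd gc_gd
  simpa only [gz', pow_succ, pow_zero, one_mul, mul_assoc] using h

/-- `BT-CEN` (8) -/
theorem gd_gz' : gd * gz' = gz' * gd := by
  have h := cen_d gb_gc gb_gd gc_gd
  simpa only [gz', pow_succ, pow_zero, one_mul, mul_assoc] using h

end Pool.Agent.Helper38.BT
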