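import Pool.Agent.Helper38.BT.Rel

/-!
# Project BT (MP_2ec7a7_al), piece BT-EQ: conjugation on the letters of `F`
-/

namespace Pool.Agent.Helper38.BT

private lemma Rel2_br {G : Type*} [Group G] {x y : G} (h : x * y * x = y * x * y) :
    y * x * y⁻¹ = x⁻¹ * y * x := by
  calc y * x * y⁻¹ = x⁻¹ * (x * y * x) * y⁻¹ := by group
    _ = x⁻¹ * y * x := by rw [h]; group

private lemma Rel2_brinv {G : Type*} [Group G] {x y : G} (h : x * y * x = y * x * y) :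
    x⁻¹ * y⁻¹ * x⁻¹ = y⁻¹ * x⁻¹ * y⁻¹ := by
  have h1 := congrArg (·⁻¹) h
  simp only [mul_inv_rev] at h1
  calc x⁻¹ * y⁻¹ * x⁻¹ = x⁻¹ * (y⁻¹ * x⁻¹) := by group
    _ = y⁻¹ * (x⁻¹ * y⁻¹) := h1
    _ = y⁻¹ * x⁻¹ * y⁻¹ := by group

private lemma Rel2_comm {G : Type*} [Group G] {x y : G} (h : x * y = y * x) :
    x⁻¹ * y = y * x⁻¹ := by
  calc x⁻¹ * y = x⁻¹ * (y * x) * x⁻¹ := by group
    _ = y * x⁻¹ := by rw [← h]; group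

/-- `d` and `a` commute with `u` -/
theorem ga_gu : ga * gu * ga⁻¹ = gu := by
  unfold gu
  calc ga * (gb * ga⁻¹) * ga⁻¹ = (ga * gb) * ga⁻¹ * ga⁻¹ := by group
    _ = gb * ga⁻¹ := by rw [ga_gb]; group

/-- see `ga_gu` -/
theorem gd_gu : gd * gu * gd⁻¹ = gu := by
  unfold gu
  calc gd * (gb * ga⁻¹) * gd⁻¹ = (gd * gb) * (gd * ga)⁻¹ := by group
    _ = (gb * gd) * (ga * gd)⁻¹ := by rw [gb_gd, ga_gd]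
    _ = gb * ga⁻¹ := by group

/-- (E1) `a v a⁻¹ = v u`.  Multiply by `c` on the left: `c a c⁻¹ b a⁻¹ c a⁻¹ = b a⁻¹ c b a⁻¹`.
Now `c a c⁻¹ = a⁻¹ c a` and `a b a⁻¹ = b`, so the left side is
`a⁻¹ c a b a⁻¹ c a⁻¹ = a⁻¹ c b c a⁻¹ = a⁻¹ b c b a⁻¹`, which is the right side. -/
theorem ga_gv : ga * gv * ga⁻¹ = gv * gu := by
  unfold gv gu
  calc ga * (gc⁻¹ * (gb * ga⁻¹) * gc) * ga⁻¹
      = gc⁻¹ * ((gc * ga * gc⁻¹) * gb * ga⁻¹ * gc * ga⁻¹) := by group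
    _ = gc⁻¹ * (ga⁻¹ * gc * (ga * gb) * ga⁻¹ * gc * ga⁻¹) := by
        rw [Rel2_br ga_gc]
        group
    _ = gc⁻¹ * (ga⁻¹ * (gc * gb * gc) * ga⁻¹) := by
        rw [ga_gb]
        group
    _ = gc⁻¹ * ((ga⁻¹ * gb) * gc * gb * ga⁻¹) := by
        rw [← gb_gc]
        group
    _ = gc⁻¹ * (gb * ga⁻¹) * gc * (gb * ga⁻¹) := by
        rw [Rel2_comm ga_gb]
        group

/-- (E2) `c u c⁻¹ = u v⁻¹ u`.  `u v⁻¹ u = b a⁻¹ c⁻¹ a b⁻¹ c b a⁻¹`; use `a⁻¹ c⁻¹ a = c a⁻¹ c⁻¹` and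
`b⁻¹ c b = c b c⁻¹`: it is `b c a⁻¹ c⁻¹ c b c⁻¹ a⁻¹ = b c b a⁻¹ c⁻¹ a⁻¹ = c b c c⁻¹ a⁻¹ c⁻¹ =
c b a⁻¹ c⁻¹`. -/
theorem gc_gu : gc * gu * gc⁻¹ = gu * gv⁻¹ * gu := by
  unfold gv gu
  symm
  calc gb * ga⁻¹ * (gc⁻¹ * (gb * ga⁻¹) * gc)⁻¹ * (gb * ga⁻¹)
      = gb * (ga⁻¹ * gc * ga)⁻¹ * (gb⁻¹ * gc * gb) * ga⁻¹ := by group
    _ = gb * (gc * ga * gc⁻¹)⁻¹ * (gc * gb * gc⁻¹) * ga⁻¹ := by
        rw [Rel2_br ga_gc, Rel2_br gb_gc]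
    _ = gb * gc * (ga⁻¹ * gb) * gc⁻¹ * ga⁻¹ := by group
    _ = (gb * gc * gb) * (ga⁻¹ * gc⁻¹ * ga⁻¹) := by
        rw [Rel2_comm ga_gb]
        group
    _ = (gc * gb * gc) * (gc⁻¹ * ga⁻¹ * gc⁻¹) := by
        rw [gb_gc, Rel2_brinv ga_gc]
    _ = gc * (gb * ga⁻¹) * gc⁻¹ := by group

/-- by definition of `v` -/
theorem gc_gv : gc * gv * gc⁻¹ = gu := by
  unfold gv
  group

/-- (E3) `d v d⁻¹ = u r m⁻¹ v` (`= u r v r'⁻¹ u` since `m⁻¹ = v r'⁻¹ u v⁻¹`).  By `gz_eq`, `gz'_eq`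
(with `δ₂ = cdcd = dcdc`) `r v r'⁻¹ = δ₂ (acdca) c⁻¹ b a⁻¹ c (b⁻¹c⁻¹d⁻¹c⁻¹b⁻¹) δ₂⁻¹`; use
`c a c⁻¹ = a⁻¹ c a`, `c b⁻¹ c⁻¹ = b⁻¹ c⁻¹ b`: the middle is
`a c d a⁻¹ c a b a⁻¹ b⁻¹ c⁻¹ b d⁻¹ c⁻¹ b⁻¹ = a c d a⁻¹ b d⁻¹ c⁻¹ b⁻¹ = a c a⁻¹ b c⁻¹ b⁻¹ =
c⁻¹ a c c⁻¹ b⁻¹ c = c⁻¹ u⁻¹ c = v⁻¹`.  Hence `r v r'⁻¹ = δ₂ v⁻¹ δ₂⁻¹ = (dcdc) c⁻¹ u⁻¹ c (dcdc)⁻¹ =
d c u⁻¹ c⁻¹ d⁻¹ = d u⁻¹ v u⁻¹ d⁻¹ = u⁻¹ d v d⁻¹ u⁻¹` (by (E2), and `d` commutes with `u`). -/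
theorem gd_gv : gd * gv * gd⁻¹ = gu * gz * gm⁻¹ * gv := by
  have hA : gc * ga * gc⁻¹ = ga⁻¹ * gc * ga := Rel2_br ga_gc
  have hB : gc * gb⁻¹ * gc⁻¹ = gb⁻¹ * gc⁻¹ * gb := by
    calc gc * gb⁻¹ * gc⁻¹ = (gc * gb * gc⁻¹)⁻¹ := by group
      _ = gb⁻¹ * gc⁻¹ * gb := by
          rw [Rel2_br gb_gc]
          group
  have hA' : ga * gc * ga⁻¹ = gc⁻¹ * ga * gc := Rel2_br ga_gc.symm
  have hB' : gb * gc⁻¹ * gb⁻¹ = gc⁻¹ * gb⁻¹ * gc := by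
    calc gb * gc⁻¹ * gb⁻¹ = (gb * gc * gb⁻¹)⁻¹ := by group
      _ = gc⁻¹ * gb⁻¹ * gc := by
          rw [Rel2_br gb_gc.symm]
          group
  have hab : ga * gb * ga⁻¹ * gb⁻¹ = 1 := by
    rw [ga_gb]
    group
  have hda : gd * ga⁻¹ = ga⁻¹ * gd := (Rel2_comm ga_gd).symm
  have hM : (ga * gc * gd * gc * ga) * gv * (gb * gc * gd * gc * gb)⁻¹ = gv⁻¹ := by
    unfold gv gu
    calc (ga * gc * gd * gc * ga) * (gc⁻¹ * (gb * ga⁻¹) * gc) * (gb * gc * gd * gc * gb)⁻¹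
        = ga * gc * gd * (gc * ga * gc⁻¹) * gb * ga⁻¹ * (gc * gb⁻¹ * gc⁻¹) *
          gd⁻¹ * gc⁻¹ * gb⁻¹ := by group
      _ = ga * gc * gd * ga⁻¹ * gc * (ga * gb * ga⁻¹ * gb⁻¹) * gc⁻¹ * gb *
          gd⁻¹ * gc⁻¹ * gb⁻¹ := by
          rw [hA, hB]
          group
      _ = ga * gc * (gd * ga⁻¹) * (gb * gd⁻¹) * gc⁻¹ * gb⁻¹ := by
          rw [hab]
          group
      _ = ga * gc * ga⁻¹ * (gd * gb) * gd⁻¹ * gc⁻¹ * gb⁻¹ := by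
          rw [hda]
          group
      _ = (ga * gc * ga⁻¹) * (gb * gc⁻¹ * gb⁻¹) := by
          rw [← gb_gd]
          group
      _ = (gc⁻¹ * (gb * ga⁻¹) * gc)⁻¹ := by
          rw [hA', hB']
          group
  have hcu : gc * gu⁻¹ * gc⁻¹ = gu⁻¹ * gv * gu⁻¹ := by
    calc gc * gu⁻¹ * gc⁻¹ = (gc * gu * gc⁻¹)⁻¹ := by group
      _ = gu⁻¹ * gv * gu⁻¹ := by
          rw [gc_gu]
          group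
  have hdu : gd * gu⁻¹ * gd⁻¹ = gu⁻¹ := by
    calc gd * gu⁻¹ * gd⁻¹ = (gd * gu * gd⁻¹)⁻¹ := by group
      _ = gu⁻¹ := by rw [gd_gu]
  have hδ : (gc * gd * gc * gd) * gv⁻¹ * (gc * gd * gc * gd)⁻¹ =
      gu⁻¹ * (gd * gv * gd⁻¹) * gu⁻¹ := by
    rw [gc_gd]
    calc (gd * gc * gd * gc) * gv⁻¹ * (gd * gc * gd * gc)⁻¹
        = gd * (gc * (gd * (gc * gv * gc⁻¹)⁻¹ * gd⁻¹) * gc⁻¹) * gd⁻¹ := by group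
      _ = gd * (gu⁻¹ * gv * gu⁻¹) * gd⁻¹ := by rw [gc_gv, hdu, hcu]
      _ = (gd * gu⁻¹ * gd⁻¹) * (gd * gv * gd⁻¹) * (gd * gu⁻¹ * gd⁻¹) := by group
      _ = gu⁻¹ * (gd * gv * gd⁻¹) * gu⁻¹ := by rw [hdu]
  have hz : gz * gv * gz'⁻¹ = gu⁻¹ * (gd * gv * gd⁻¹) * gu⁻¹ := by
    rw [gz_eq, gz'_eq, ← hδ, ← hM]
    group
  symm
  calc gu * gz * gm⁻¹ * gv = gu * (gz * gv * gz'⁻¹) * gu := by
        unfold gm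
        group
    _ = gd * gv * gd⁻¹ := by
        rw [hz]
        group

/-- `a m a⁻¹ = (v u) u⁻¹ (a r' a⁻¹) (v u)⁻¹ = v (a r' a⁻¹) u⁻¹ v⁻¹`, and `a r' a⁻¹ = u⁻¹ r' u` since
`b = u a` commutes with `r'`. -/
theorem ga_gm : ga * gm * ga⁻¹ = gm := by
  have h1 : ga * gz' * ga⁻¹ = gu⁻¹ * gz' * gu := by
    calc ga * gz' * ga⁻¹ = gu⁻¹ * (gb * gz') * gb⁻¹ * gu := by
          unfold gu
          group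
      _ = gu⁻¹ * gz' * gu := by
          rw [gb_gz']
          group
  calc ga * gm * ga⁻¹ = (ga * gv * ga⁻¹) * (ga * gu * ga⁻¹)⁻¹ * (ga * gz' * ga⁻¹) *
        (ga * gv * ga⁻¹)⁻¹ := by
        unfold gm
        group
    _ = gm := by
        rw [ga_gv, ga_gu, h1]
        unfold gm
        group

/-- `c m c⁻¹ = u (u⁻¹ v u⁻¹) r' u⁻¹ = v u⁻¹ r' u⁻¹` by (E2), `gc_gv`, `gc_gz'`. -/
theorem gc_gm : gc * gm * gc⁻¹ = gm * gv * gu⁻¹ := by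
  have h1 : gc * gz' * gc⁻¹ = gz' := by
    rw [gc_gz']
    group
  calc gc * gm * gc⁻¹ = (gc * gv * gc⁻¹) * (gc * gu * gc⁻¹)⁻¹ * (gc * gz' * gc⁻¹) *
        (gc * gv * gc⁻¹)⁻¹ := by
        unfold gm
        group
    _ = gm * gv * gu⁻¹ := by
        rw [gc_gv, gc_gu, h1]
        unfold gm
        group

/-- `d m d⁻¹ = (d v d⁻¹) u⁻¹ r' (d v d⁻¹)⁻¹` and `v u⁻¹ r' v⁻¹ = m`, with (E3). -/
theorem gd_gm : gd * gm * gd⁻¹ = gu * gz * gm * (gu * gz)⁻¹ := by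
  have h1 : gd * gz' * gd⁻¹ = gz' := by
    rw [gd_gz']
    group
  have h2 : gv * gu⁻¹ * gz' * gv⁻¹ = gm := rfl
  calc gd * gm * gd⁻¹ = (gd * gv * gd⁻¹) * (gd * gu * gd⁻¹)⁻¹ * (gd * gz' * gd⁻¹) *
        (gd * gv * gd⁻¹)⁻¹ := by
        rw [← h2]
        group
    _ = gu * gz * gm⁻¹ * (gv * gu⁻¹ * gz' * gv⁻¹) * gm * (gu * gz)⁻¹ := by
        rw [gd_gv, gd_gu, h1]
        group
    _ = gu * gz * gm * (gu * gz)⁻¹ := by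
        rw [h2]
        group

end Pool.Agent.Helper38.BT
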