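import Pool.Agent.Helper38.BT.F3X
import Pool.Agent.Helper38.BT.PC
import Pool.Agent.Helper7.AG.Fcyc

/-!
# Project BT (MP_2ec7a7_al), piece BT-W1
-/

namespace Pool.Agent.Helper38.BT

open FreeGroup (of lift)
open Pool.Agent.Helper7.AG (FreeProd Red val pv PNt nt sv)

private def W1_equiv : FreeGroup (Unit ⊕ Unit) ≃* FreeGroup Bool :=
  FreeGroup.freeGroupCongr
    { toFun := Sum.elim (fun _ => false) (fun _ => true)
      invFun := fun b => if b = true then Sum.inr () else Sum.inl ()
      left_inv := by rintro (x | x) <;> simp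
      right_inv := by intro b; cases b <;> simp }

private theorem W1_cent {K : ℕ} (hK : 0 < K) {x : FreeGroup Bool}
    (hx : x * (of false * of true) ^ K = (of false * of true) ^ K * x) :
    ∃ n : ℤ, x = (of false * of true) ^ n := by
  have h := (Pool.Agent.Helper7.AG.freeProd_sum Unit Unit).equiv W1_equiv
  have h1 : (W1_equiv.toMonoidHom.comp (FreeGroup.map (Sum.inl : Unit → Unit ⊕ Unit)))
      (of ()) = of false := by
    simp [W1_equiv]
  have h2 : (W1_equiv.toMonoidHom.comp (FreeGroup.map (Sum.inr : Unit → Unit ⊕ Unit)))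
      (of ()) = of true := by
    simp [W1_equiv]
  rw [← h1, ← h2] at hx ⊢
  exact cent_pow h (FreeGroup.of_ne_one ()) (FreeGroup.of_ne_one ()) hK hx

private theorem W1_one (a : FreeGroup Unit) (x : F3) :
    one_ x a ∈ Subgroup.closure ({x} : Set F3) := by
  induction a using FreeGroup.induction_on with
  | C1 => rw [map_one]; exact Subgroup.one_mem _
  | of t => rw [one_of]; exact Subgroup.subset_closure rfl
  | inv_of t _ => rw [map_inv, one_of]; exact Subgroup.inv_mem _ (Subgroup.subset_closure rfl)
  | mul a b ha hb => rw [map_mul]; exact Subgroup.mul_mem _ ha hb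

private theorem W1_two (b : FreeGroup Bool) (x y : F3) :
    two_ x y b ∈ Subgroup.closure ({x, y} : Set F3) := by
  have hof : ∀ t : Bool, two_ x y (of t) ∈ Subgroup.closure ({x, y} : Set F3) := by
    intro t
    cases t
    · rw [two_false]; exact Subgroup.subset_closure (Or.inl rfl)
    · rw [two_true]; exact Subgroup.subset_closure (Or.inr rfl)
  induction b using FreeGroup.induction_on with
  | C1 => rw [map_one]; exact Subgroup.one_mem _
  | of t => exact hof t
  | inv_of t _ => rw [map_inv]; exact Subgroup.inv_mem _ (hof t)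
  | mul a b ha hb => rw [map_mul]; exact Subgroup.mul_mem _ ha hb

/-- `BT-W1`.  A class invariant under `sc ∘ sc`: `sc²` is the identity on `⟨z3⟩` and conjugation by
`(z1 z2)⁻¹` on `⟨z1, z2⟩` (`fp_3`).  By `FreeProd.exists_cyc` a conjugate of `g` is a power of `z3`,
or in `⟨z1, z2⟩`, or `pv L`.  In the last case `pconj` shows that the second entries of `L`
commute with `(z1 z2)^K`, so they are powers of `z1 z2` (`cent_pow` for `⟨z1⟩ * ⟨z2⟩`). -/
theorem w1 {g : F3} (h : ∃ y, y * g * y⁻¹ = sc (sc g)) :
    ∃ y : F3, y * g * y⁻¹ ∈ Subgroup.closure ({z3, z1 * z2} : Set F3) ∨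
      y * g * y⁻¹ ∈ Subgroup.closure ({z1, z2} : Set F3) := by
  obtain ⟨y₁, hy₁⟩ := h
  obtain ⟨y, hy⟩ := fp_3.exists_cyc g
  refine ⟨y, ?_⟩
  rcases hy with ⟨a, ha⟩ | ⟨b, hb⟩ | ⟨L, hL, hL2⟩
  · left
    rw [ha]
    exact Subgroup.closure_mono (by intro t ht; exact Or.inl ht) (W1_one a z3)
  · right
    rw [hb]
    exact W1_two b z1 z2
  · left
    let e : F3 →* F3 := sc.toMonoidHom.comp sc.toMonoidHom
    have he0 : ∀ t, e t = sc (sc t) := fun t => rfl
    have hei : ∀ a, e (one_ z3 a) = one_ z3 a := by
      intro a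
      have : e.comp (one_ z3) = one_ z3 := by
        ext1 t
        simp [he0]
      exact DFunLike.congr_fun this a
    have hej : ∀ b, e (two_ z1 z2 b) =
        two_ z1 z2 ((of false * of true)⁻¹ * b * ((of false * of true)⁻¹)⁻¹) := by
      intro b
      have : e.comp (two_ z1 z2) = (two_ z1 z2).comp
          (MulAut.conj ((of false * of true)⁻¹ : FreeGroup Bool)).toMonoidHom := by
        ext1 t
        cases t <;> simp [he0, mul_assoc]
      exact DFunLike.congr_fun this b
    obtain ⟨K, hK, hKL⟩ := pconj fp_3 hei hej hL (by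
      rw [← hL2]
      refine ⟨e y * y₁ * y⁻¹, ?_⟩
      rw [map_mul, map_mul, map_inv, he0 g, ← hy₁]
      group)
    have hmem : ∀ p ∈ L, one_ z3 p.1 * two_ z1 z2 p.2 ∈
        Subgroup.closure ({z3, z1 * z2} : Set F3) := by
      intro p hp
      refine Subgroup.mul_mem _ ?_ ?_
      · exact Subgroup.closure_mono (by intro t ht; exact Or.inl ht) (W1_one p.1 z3)
      · have h1 := hKL p hp
        have h2 : p.2 * (of false * of true) ^ K = (of false * of true) ^ K * p.2 := by
          rw [inv_pow] at h1
          have h3 : Commute p.2 (((of false * of true) ^ K)⁻¹ : FreeGroup Bool) := h1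
          have h4 : Commute p.2 ((of false * of true) ^ K : FreeGroup Bool) := by
            have h5 := h3.inv_right
            rwa [inv_inv] at h5
          exact h4
        obtain ⟨n, hn⟩ := W1_cent hK h2
        rw [hn, map_zpow, map_mul, two_false, two_true]
        have h5 : z1 * z2 ∈ Subgroup.closure ({z3, z1 * z2} : Set F3) :=
          Subgroup.subset_closure (Set.mem_insert_of_mem _ rfl)
        exact Subgroup.zpow_mem _ h5 n
    rw [hL2]
    unfold pv
    refine Subgroup.list_prod_mem _ ?_
    intro t ht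
    obtain ⟨p, hp, rfl⟩ := List.mem_map.1 ht
    exact hmem p hp

end Pool.Agent.Helper38.BT
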